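import Pool.Agent.Z8.Defs
import Pool.Agent.Z7.A4

namespace Pool.Agent.Z8

open Pool.Agent.ZL2 Filter Topology
open Pool.Agent.Z5 (fr Gen ev2)
open Pool.Agent.Z6 (dt)
open Pool.Agent.Z7 (lg Cv HHp Chart)

variable {k m : ℕ} [NeZero m]

/-- The value as a sum over the support. -/
theorem k8a4_evk {k m : ℕ} (Φ : MvPolynomial (Fin k) (MvPolynomial (Fin m) ℂ)) (x : Fin k → ℂ) (y : Fin m → ℂ) :
    evk Φ x y = ∑ α ∈ Φ.support, MvPolynomial.eval y (Φ.coeff α) * ∏ j, x j ^ α j := by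
  unfold evk sp
  rw [MvPolynomial.eval_map, MvPolynomial.eval₂_eq']

theorem k8a4_rwk {k m : ℕ} (M : Fin k → Fin m → ℝ) (α β : Fin k →₀ ℕ) (v : Fin m → ℝ) :
    dt (rwk M α β) v = ∑ j, ((α j : ℝ) - (β j : ℝ)) * dt (M j) v := by
  unfold rwk Pool.Agent.Z6.dt
  simp only [Finset.sum_mul, Finset.mul_sum]
  rw [Finset.sum_comm]
  exact Finset.sum_congr rfl fun j _ => Finset.sum_congr rfl fun i _ => by ring

theorem k8a4_core (hm : 2 ≤ m) {S : Sk k m} (hH : HHp S.toCv) {U : Ultrafilter ℕ} (Z : Sq S U) {J : Type} [Finite J]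
    (w : ℕ → J → Fin m → ℝ) (hw : ∀ n j, dt (w n j) (Z.u n) = 0) {K : ℝ} (hK : 0 ≤ K)
    (hr : ∀ j, ∀ A : ℝ, ∀ᶠ n in (U : Filter ℕ), A < Real.sqrt (dt (w n j) (w n j)))
    (hP : ∀ᶠ n in (U : Filter ℕ), 1 / 2 ≤ fr (fun σ : Z.ι n => ∃ j, |dt (w n j) (lg (Z.y n σ))| ≤ K)) :
    False := by
  cases nonempty_fintype J
  choose e he1 he2 he3 using fun n j => Pool.Agent.Z6.a4_unit hm (Z.hu n) (hw n j)
  have hlim : Tendsto (fun n => ∑ j, K / Real.sqrt (dt (w n j) (w n j))) (U : Filter ℕ) (𝓝 0) := by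
    have h1 : Tendsto (fun n => ∑ j, K / Real.sqrt (dt (w n j) (w n j)))
        (U : Filter ℕ) (𝓝 (∑ _j : J, (0 : ℝ))) := by
      refine tendsto_finsetSum _ fun j _ => ?_
      refine Tendsto.const_div_atTop ?_ K
      rw [tendsto_atTop]
      exact fun A => (hr j A).mono fun n hn => hn.le
    rwa [Finset.sum_const_zero] at h1
  refine Pool.Agent.Z7.lemI S.toCv hH U Z.y Z.gen Z.hy Z.hB Z.u e Z.hu he1 he2 _ hlim ?_
  have hpos : ∀ᶠ n in (U : Filter ℕ), ∀ j, 0 < Real.sqrt (dt (w n j) (w n j)) := by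
    rw [Filter.eventually_all]
    exact fun j => hr j 0
  filter_upwards [hP, hpos] with n h1 h2
  refine h1.trans (Z5.fr_mono fun σ => ?_)
  rintro ⟨j, hj⟩
  have hnn : ∀ i, 0 ≤ K / Real.sqrt (dt (w n i) (w n i)) := fun i => div_nonneg hK (h2 i).le
  refine ⟨j, ?_, ?_⟩
  · rw [Z.r0 n σ, abs_zero]
    exact Finset.sum_nonneg fun i _ => hnn i
  · rw [he3 n j, abs_mul, abs_of_pos (h2 j)] at hj
    have h3 : |dt (e n j) (lg (Z.y n σ))| ≤ K / Real.sqrt (dt (w n j) (w n j)) := by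
      rw [le_div_iff₀ (h2 j), mul_comm]
      exact hj
    exact h3.trans (Finset.single_le_sum (f := fun i => K / Real.sqrt (dt (w n i) (w n i)))
      (fun i _ => hnn i) (Finset.mem_univ j))

/-- The rational directions in which the rows are bounded. -/
def k8a4_B (U : Ultrafilter ℕ) (M : ℕ → Fin k → Fin m → ℝ) : Submodule ℚ (Fin k → ℚ) where
  carrier := {b | ∃ A : ℝ, ∀ᶠ n in (U : Filter ℕ), ∀ i, |∑ j, ((b j : ℚ) : ℝ) * M n j i| ≤ A}
  zero_mem' := ⟨0, Filter.Eventually.of_forall fun n i => by simp⟩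
  add_mem' := by
    rintro a b ⟨A, hA⟩ ⟨B, hB⟩
    refine ⟨A + B, ?_⟩
    filter_upwards [hA, hB] with n h1 h2 i
    have h3 : ∑ j, (((a + b) j : ℚ) : ℝ) * M n j i =
        ∑ j, ((a j : ℚ) : ℝ) * M n j i + ∑ j, ((b j : ℚ) : ℝ) * M n j i := by
      rw [← Finset.sum_add_distrib]
      refine Finset.sum_congr rfl fun j _ => ?_
      rw [Pi.add_apply]
      push_cast
      ring
    rw [h3]
    exact (abs_add_le _ _).trans (add_le_add (h1 i) (h2 i))
  smul_mem' := by
    rintro c b ⟨A, hA⟩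
    refine ⟨|(c : ℝ)| * A, ?_⟩
    filter_upwards [hA] with n h1 i
    have h3 : ∑ j, (((c • b) j : ℚ) : ℝ) * M n j i = (c : ℝ) * ∑ j, ((b j : ℚ) : ℝ) * M n j i := by
      rw [Finset.mul_sum]
      refine Finset.sum_congr rfl fun j _ => ?_
      rw [Pi.smul_apply, smul_eq_mul]
      push_cast
      ring
    rw [h3, abs_mul]
    exact mul_le_mul_of_nonneg_left (h1 i) (abs_nonneg _)

omit [NeZero m] in
theorem k8a4_mem (U : Ultrafilter ℕ) (M : ℕ → Fin k → Fin m → ℝ) (b : Fin k → ℚ) :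
    b ∈ k8a4_B U M ↔ ∃ A : ℝ, ∀ᶠ n in (U : Filter ℕ), ∀ i, |∑ j, ((b j : ℚ) : ℝ) * M n j i| ≤ A := Iff.rfl

/-- A nonzero integral linear form which vanishes on a proper subspace and at none of finitely many vectors outside. -/
theorem k8a4_form (B : Submodule ℚ (Fin k → ℚ)) (hB : B ≠ ⊤) {ι : Type} [Finite ι] (v : ι → Fin k → ℚ)
    (hv : ∀ i, v i ∉ B) :
    ∃ e : Fin k → ℤ, e ≠ 0 ∧ (∀ b ∈ B, ∑ j, (e j : ℚ) * b j = 0) ∧ ∀ i, ∑ j, (e j : ℚ) * v i j ≠ 0 := by
  obtain ⟨v0, hv0⟩ : ∃ v0, v0 ∉ B := by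
    by_contra h
    push Not at h
    exact hB (eq_top_iff.2 fun x _ => h x)
  obtain ⟨f, hf⟩ := Module.exists_dual_forall_apply_ne_zero (K := ℚ) (ι := Option ι)
    (fun o => B.mkQ (o.elim v0 v)) (by
      intro o
      rw [Submodule.mkQ_apply, Ne, Submodule.Quotient.mk_eq_zero]
      cases o with
      | none => exact hv0
      | some i => exact hv i)
  set g : (Fin k → ℚ) →ₗ[ℚ] ℚ := f ∘ₗ B.mkQ with hg
  have hgB : ∀ b ∈ B, g b = 0 := by
    intro b hb
    rw [hg, LinearMap.comp_apply, Submodule.mkQ_apply, (Submodule.Quotient.mk_eq_zero B).2 hb, map_zero]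
  set c : Fin k → ℚ := fun j => g (Pi.single j 1) with hc
  have hgc : ∀ b, g b = ∑ j, c j * b j := by
    intro b
    conv_lhs => rw [← Finset.univ_sum_single b]
    rw [map_sum]
    refine Finset.sum_congr rfl fun j _ => ?_
    rw [hc]
    have : (Pi.single j (b j) : Fin k → ℚ) = b j • Pi.single j (1 : ℚ) := by
      rw [← Pi.single_smul, smul_eq_mul, mul_one]
    rw [this, map_smul, smul_eq_mul, mul_comm]
  set d : ℕ := ∏ j, (c j).den with hd
  have hd0 : (d : ℚ) ≠ 0 := by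
    rw [hd]
    exact_mod_cast Finset.prod_ne_zero_iff.2 fun j _ => (c j).den_nz
  have hz : ∀ j, ∃ z : ℤ, (z : ℚ) = d * c j := by
    intro j
    obtain ⟨q, hq⟩ : (c j).den ∣ d := Finset.dvd_prod_of_mem _ (Finset.mem_univ j)
    refine ⟨q * (c j).num, ?_⟩
    rw [hq]
    push_cast
    rw [← Rat.mul_den_eq_num (c j)]
    ring
  choose e he using hz
  have hsum : ∀ b : Fin k → ℚ, ∑ j, (e j : ℚ) * b j = d * g b := by
    intro b
    rw [hgc, Finset.mul_sum]
    exact Finset.sum_congr rfl fun j _ => by rw [he j]; ring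
  refine ⟨e, ?_, fun b hb => by rw [hsum, hgB b hb, mul_zero], fun i => ?_⟩
  · rintro rfl
    have h1 := hsum v0
    simp only [Pi.zero_apply, Int.cast_zero, zero_mul, Finset.sum_const_zero] at h1
    exact hf none ((mul_eq_zero.1 h1.symm).resolve_left hd0)
  · rw [hsum]
    exact mul_ne_zero hd0 (hf (some i))

/-- Row Z8-A4. The slopes `M` are bounded. PROOF. Let `B ⊆ ℝ^k` be the set of the vectors `b` for which the rows `∑_j b_j M n j` are bounded along `U`: a linear subspace; if `b ∉ B` then `∑_i |∑_j b_j M n j i| > A` for eventually all `n`, for every `A` (`U` is an ultrafilter). Let `DB` be the `ℚ`-span of the differences `α - β ∈ B`, `α, β ∈ S.Φ.support`.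
The other differences are not in `DB`. CASE 1: all differences are in `B`. By `S.full` the differences span `ℚ^k` (otherwise a nonzero rational linear form, scaled to be integral, is constant on the support), so `B = ℝ^k` and `M` is bounded. CASE 2: otherwise choose an integral linear form `e ≠ 0` which vanishes on `DB` and not on the (finitely many) other differences
(a vector space over `ℚ` is not a finite union of proper subspaces). The level sets `lev S.Φ e c` (nonempty ones: at least two, finitely many) are the classes of the support modulo `B`. Their sums `T_c = ∑_{α ∈ lev} φ_α(y) x^α` are not zero (`Z.lev0`), and `∑_c T_c = Φ(x, y) = 0`. So for every `σ` there are two levels `c ≠ c'` with `|log ‖T_c‖ - log ‖T_c'‖| ≤ log (number of levels)`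
(`Z7.a4_two`). Choose `α_c ∈ lev c`. `log ‖T_c‖ = ∑_j (α_c)_j lg x_j + δ_c(σ)` with `∑_σ |δ_c(σ)| ≤ C0 card` (`Z.big` with `A` = a common bound of the bounded rows, eventually). So `|dt (rwk (M n) α_c α_c') (lg y)| ≤ K` for one of the pairs, for at least half of the `σ`. These rows are unbounded along `U` and orthogonal to `u n`: contradiction with `Z7.lemI`
(divide by their lengths, as in `Z7.a4_core`; `J` = pairs of levels, `Z7.a4_core` may be copied). -/
theorem bddM (hm : 2 ≤ m) {S : Sk k m} (hH : HHp S.toCv) {U : Ultrafilter ℕ} (Z : Sq S U) : ∃ A, Z.Bdd A := by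
  classical
  by_cases htop : k8a4_B U Z.M = ⊤
  · have h1 : ∀ j : Fin k, ∃ A : ℝ, ∀ᶠ n in (U : Filter ℕ), ∀ i, |Z.M n j i| ≤ A := by
      intro j
      have h2 : (Pi.single j 1 : Fin k → ℚ) ∈ k8a4_B U Z.M := htop ▸ Submodule.mem_top
      obtain ⟨A, hA⟩ := h2
      refine ⟨A, hA.mono fun n hn i => ?_⟩
      have h3 : ∑ j', (((Pi.single j 1 : Fin k → ℚ) j' : ℚ) : ℝ) * Z.M n j' i = Z.M n j i := by
        rw [Finset.sum_eq_single j]
        · simp
        · intro b _ hb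
          rw [Pi.single_eq_of_ne hb]
          simp
        · intro h
          exact absurd (Finset.mem_univ j) h
      have h4 := hn i
      rwa [h3] at h4
    choose A hA using h1
    refine ⟨∑ j, |A j|, ?_⟩
    have h2 : ∀ᶠ n in (U : Filter ℕ), ∀ j, ∀ i, |Z.M n j i| ≤ A j := Filter.eventually_all.2 hA
    filter_upwards [h2] with n hn j i
    exact (hn j i).trans ((le_abs_self _).trans
      (Finset.single_le_sum (f := fun j => |A j|) (fun _ _ => abs_nonneg _) (Finset.mem_univ j)))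
  · exfalso
    obtain ⟨e, he0, heB, heF⟩ := k8a4_form (k8a4_B U Z.M) htop
      (ι := {p : {α // α ∈ S.Φ.support} × {α // α ∈ S.Φ.support} //
        (fun j => ((p.1.1 j : ℚ) - (p.2.1 j : ℚ))) ∉ k8a4_B U Z.M})
      (fun p j => (p.1.1.1 j : ℚ) - (p.1.2.1 j : ℚ)) (fun p => p.2)
    set dgr : (Fin k →₀ ℕ) → ℤ := fun α => ∑ j, e j * (α j : ℤ) with hdgr
    have hcast : ∀ α β : Fin k →₀ ℕ, ∑ j, (e j : ℚ) * ((α j : ℚ) - (β j : ℚ)) = ((dgr α - dgr β : ℤ) : ℚ) := by
      intro α β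
      rw [hdgr]
      push_cast
      rw [← Finset.sum_sub_distrib]
      exact Finset.sum_congr rfl fun j _ => by ring
    have hsame : ∀ α ∈ S.Φ.support, ∀ β ∈ S.Φ.support, dgr α = dgr β →
        (fun j => ((α j : ℚ) - (β j : ℚ))) ∈ k8a4_B U Z.M := by
      intro α hα β hβ h
      by_contra h2
      have h3 := heF ⟨(⟨α, hα⟩, ⟨β, hβ⟩), h2⟩
      refine h3 ?_
      show ∑ j, (e j : ℚ) * ((α j : ℚ) - (β j : ℚ)) = 0
      rw [hcast, h, sub_self, Int.cast_zero]
    have hdif : ∀ α β : Fin k →₀ ℕ, dgr α ≠ dgr β → (fun j => ((α j : ℚ) - (β j : ℚ))) ∉ k8a4_B U Z.M := by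
      intro α β h h2
      have h3 := heB _ h2
      rw [hcast] at h3
      exact h (sub_eq_zero.1 (by exact_mod_cast h3))
    set I : Finset ℤ := S.Φ.support.image dgr with hI
    have hlevI : ∀ c ∈ I, (lev S.Φ e c).Nonempty := by
      intro c hc
      obtain ⟨α, hα, rfl⟩ := Finset.mem_image.1 hc
      exact ⟨α, Finset.mem_filter.2 ⟨hα, rfl⟩⟩
    have hlevm : ∀ c, ∀ α ∈ lev S.Φ e c, α ∈ S.Φ.support ∧ dgr α = c := fun c α hα => Finset.mem_filter.1 hα
    have hIne : I.Nonempty := by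
      obtain ⟨α, hα, -⟩ := S.full e he0
      exact ⟨dgr α, Finset.mem_image_of_mem _ hα⟩
    choose rep hrep using hlevI
    -- a common bound for the rows inside the levels
    have hA1 : ∀ p : {α // α ∈ S.Φ.support} × {α // α ∈ S.Φ.support}, ∃ A : ℝ, dgr p.1.1 = dgr p.2.1 →
        ∀ᶠ n in (U : Filter ℕ), ∀ i, |rwk (Z.M n) p.1.1 p.2.1 i| ≤ A := by
      intro p
      by_cases h : dgr p.1.1 = dgr p.2.1
      · obtain ⟨A, hA⟩ := hsame _ p.1.2 _ p.2.2 h
        refine ⟨A, fun _ => hA.mono fun n hn i => ?_⟩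
        have h3 := hn i
        have h4 : ∑ j, (((p.1.1 j : ℚ) - (p.2.1 j : ℚ) : ℚ) : ℝ) * Z.M n j i = rwk (Z.M n) p.1.1 p.2.1 i := by
          unfold rwk
          refine Finset.sum_congr rfl fun j _ => ?_
          push_cast
          ring
        rwa [h4] at h3
      · exact ⟨0, fun h2 => absurd h2 h⟩
    choose A1 hA1 using hA1
    set A : ℝ := m * ∑ p, |A1 p| with hA
    have hbd : ∀ᶠ n in (U : Filter ℕ), ∀ c, ∀ α ∈ lev S.Φ e c, ∀ β ∈ lev S.Φ e c,
        ∑ i, |rwk (Z.M n) α β i| ≤ A := by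
      have h1 : ∀ᶠ n in (U : Filter ℕ), ∀ p : {α // α ∈ S.Φ.support} × {α // α ∈ S.Φ.support},
          dgr p.1.1 = dgr p.2.1 → ∀ i, |rwk (Z.M n) p.1.1 p.2.1 i| ≤ A1 p := by
        rw [Filter.eventually_all]
        intro p
        by_cases h : dgr p.1.1 = dgr p.2.1
        · exact (hA1 p h).mono fun n hn _ => hn
        · exact Filter.Eventually.of_forall fun n h2 => absurd h2 h
      filter_upwards [h1] with n hn c α hα β hβ
      have hα' := hlevm c α hα
      have hβ' := hlevm c β hβ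
      have h2 := hn (⟨α, hα'.1⟩, ⟨β, hβ'.1⟩) (hα'.2.trans hβ'.2.symm)
      have h3 : ∀ i, |rwk (Z.M n) α β i| ≤ ∑ p, |A1 p| := fun i =>
        (h2 i).trans ((le_abs_self _).trans
          (Finset.single_le_sum (f := fun p => |A1 p|) (fun _ _ => abs_nonneg _) (Finset.mem_univ _)))
      refine (Finset.sum_le_card_nsmul _ _ _ fun i _ => h3 i).trans ?_
      rw [Finset.card_univ, Fintype.card_fin, nsmul_eq_mul]
    choose C0 hC0 using fun c : ℤ => Z.big e c A he0
    -- the level sums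
    set T : ∀ n, Z.ι n → ℤ → ℂ := fun n σ c => ∑ β ∈ lev S.Φ e c,
      MvPolynomial.eval (Z.y n σ) (S.Φ.coeff β) * ∏ j, Z.x n σ j ^ β j with hT
    have hT0 : ∀ n σ, ∀ c ∈ I, T n σ c ≠ 0 := fun n σ c hc => Z.lev0 n σ e c he0 ⟨_, hrep c hc⟩
    have hTs : ∀ n σ, ∑ c ∈ I, T n σ c = 0 := by
      intro n σ
      have h1 := Z.hΦ n σ
      rw [k8a4_evk] at h1
      rw [← h1, hT]
      exact Finset.sum_fiberwise_of_maps_to (fun α hα => Finset.mem_image_of_mem _ hα) _
    set B1 : ℝ := ∑ c ∈ I, |C0 c| + 1 with hB1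
    have hB10 : 0 < B1 := by
      have : 0 ≤ ∑ c ∈ I, |C0 c| := Finset.sum_nonneg fun _ _ => abs_nonneg _
      linarith
    set N : ℝ := (I.card : ℝ) with hN
    have hlN : 0 ≤ Real.log N := Real.log_natCast_nonneg _
    -- the error function
    set G : ∀ n, Z.ι n → ℝ := fun n σ => ∑ c ∈ I.attach, |Real.log ‖T n σ c.1‖ -
      ∑ j, ((rep c.1 c.2) j : ℝ) * lg (Z.x n σ) j| with hG
    have hGb : ∀ᶠ n in (U : Filter ℕ), ∑ σ, |G n σ| ≤ B1 * Fintype.card (Z.ι n) := by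
      filter_upwards [hbd] with n hn
      have hcard : (0 : ℝ) ≤ Fintype.card (Z.ι n) := Nat.cast_nonneg _
      have h1 : ∀ σ, |G n σ| = G n σ := fun σ => abs_of_nonneg (Finset.sum_nonneg fun _ _ => abs_nonneg _)
      rw [Finset.sum_congr rfl fun σ _ => h1 σ, hG]
      rw [Finset.sum_comm]
      have h2 : ∀ c ∈ I.attach, ∑ σ, |Real.log ‖T n σ c.1‖ - ∑ j, ((rep c.1 c.2) j : ℝ) * lg (Z.x n σ) j| ≤
          |C0 c.1| * Fintype.card (Z.ι n) := fun c _ =>
        (hC0 c.1 n (hn c.1) (rep c.1 c.2) (hrep c.1 c.2)).trans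
          (mul_le_mul_of_nonneg_right (le_abs_self _) hcard)
      refine (Finset.sum_le_sum h2).trans ?_
      rw [← Finset.sum_mul, Finset.sum_attach I (fun c => |C0 c|), hB1]
      exact mul_le_mul_of_nonneg_right (by linarith) hcard
    refine k8a4_core hm hH Z (J := {p : {c // c ∈ I} × {c // c ∈ I} // p.1 ≠ p.2})
      (fun n p => rwk (Z.M n) (rep p.1.1.1 p.1.1.2) (rep p.1.2.1 p.1.2.2)) ?_ (K := Real.log N + 4 * B1)
      (by positivity) ?_ ?_
    · intro n p
      rw [k8a4_rwk]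
      exact Finset.sum_eq_zero fun j _ => by rw [Z.hM n j, mul_zero]
    · intro p A'
      have h1 : dgr (rep p.1.1.1 p.1.1.2) ≠ dgr (rep p.1.2.1 p.1.2.2) := by
        rw [(hlevm _ _ (hrep p.1.1.1 p.1.1.2)).2, (hlevm _ _ (hrep p.1.2.1 p.1.2.2)).2]
        exact fun h => p.2 (Subtype.ext h)
      have h2 := hdif _ _ h1
      rw [k8a4_mem] at h2
      have h3 : ∀ᶠ n in (U : Filter ℕ), ¬ ∀ i, |∑ j, ((((rep p.1.1.1 p.1.1.2) j : ℚ) -
          ((rep p.1.2.1 p.1.2.2) j : ℚ) : ℚ) : ℝ) * Z.M n j i| ≤ A' :=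
        Ultrafilter.eventually_not.2 fun h => h2 ⟨A', h⟩
      refine h3.mono fun n hn => ?_
      by_contra h4
      refine hn fun i => ?_
      have h5 : ∑ j, ((((rep p.1.1.1 p.1.1.2) j : ℚ) - ((rep p.1.2.1 p.1.2.2) j : ℚ) : ℚ) : ℝ) * Z.M n j i =
          rwk (Z.M n) (rep p.1.1.1 p.1.1.2) (rep p.1.2.1 p.1.2.2) i := by
        unfold rwk
        refine Finset.sum_congr rfl fun j _ => ?_
        push_cast
        ring
      rw [h5]
      exact (Pool.Agent.Z6.a4_sq _ i).trans (not_lt.1 h4)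
    · filter_upwards [hGb] with n hn
      have m1 := Z5.fr_markov (fun σ : Z.ι n => G n σ) B1 (4 * B1) (by positivity) hn
      have m2 : B1 / (4 * B1) = 1 / 4 := by
        field_simp
      rw [m2] at m1
      have m3 : fr (fun _ : Z.ι n => True) ≤
          fr (fun σ : Z.ι n => ∃ p : {p : {c // c ∈ I} × {c // c ∈ I} // p.1 ≠ p.2},
            |dt (rwk (Z.M n) (rep p.1.1.1 p.1.1.2) (rep p.1.2.1 p.1.2.2)) (lg (Z.y n σ))| ≤
              Real.log N + 4 * B1) +
          fr (fun σ : Z.ι n => 4 * B1 < |G n σ|) := by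
        refine le_trans (Z5.fr_mono fun σ _ => ?_) (Z5.fr_or _ _)
        rcases lt_or_ge (4 * B1) |G n σ| with hg | hg
        · exact Or.inr hg
        left
        rw [abs_of_nonneg (Finset.sum_nonneg fun _ _ => abs_nonneg _)] at hg
        obtain ⟨c, hc, c', hc', hne, h1⟩ := Pool.Agent.Z7.a4_two I (T n σ) (hT0 n σ) hIne (hTs n σ)
        refine ⟨⟨(⟨c, hc⟩, ⟨c', hc'⟩), fun h => hne (congrArg Subtype.val h)⟩, ?_⟩
        show |dt (rwk (Z.M n) (rep c hc) (rep c' hc')) (lg (Z.y n σ))| ≤ _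
        have h2 : dt (rwk (Z.M n) (rep c hc) (rep c' hc')) (lg (Z.y n σ)) =
            ∑ j, ((rep c hc) j : ℝ) * lg (Z.x n σ) j - ∑ j, ((rep c' hc') j : ℝ) * lg (Z.x n σ) j := by
          rw [k8a4_rwk, ← Finset.sum_sub_distrib]
          exact Finset.sum_congr rfl fun j _ => by rw [Z.r1 n σ j]; ring
        rw [h2]
        have h3 : |Real.log ‖T n σ c‖ - ∑ j, ((rep c hc) j : ℝ) * lg (Z.x n σ) j| +
            |Real.log ‖T n σ c'‖ - ∑ j, ((rep c' hc') j : ℝ) * lg (Z.x n σ) j| ≤ G n σ := by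
          have hne2 : (⟨c, hc⟩ : {c // c ∈ I}) ≠ ⟨c', hc'⟩ := fun h => hne (congrArg Subtype.val h)
          have h4 := Finset.sum_pair (f := fun c : {c // c ∈ I} => |Real.log ‖T n σ c.1‖ -
            ∑ j, ((rep c.1 c.2) j : ℝ) * lg (Z.x n σ) j|) hne2
          have h5 : ∑ c ∈ ({⟨c, hc⟩, ⟨c', hc'⟩} : Finset {c // c ∈ I}), |Real.log ‖T n σ c.1‖ -
              ∑ j, ((rep c.1 c.2) j : ℝ) * lg (Z.x n σ) j| ≤ G n σ := by
            rw [hG]
            exact Finset.sum_le_sum_of_subset_of_nonneg (fun c _ => Finset.mem_attach _ _)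
              fun _ _ _ => abs_nonneg _
          rw [h4] at h5
          exact h5
        have e1 := abs_le.1 h1
        have e2 := neg_abs_le (Real.log ‖T n σ c‖ - ∑ j, ((rep c hc) j : ℝ) * lg (Z.x n σ) j)
        have e3 := le_abs_self (Real.log ‖T n σ c‖ - ∑ j, ((rep c hc) j : ℝ) * lg (Z.x n σ) j)
        have e4 := neg_abs_le (Real.log ‖T n σ c'‖ - ∑ j, ((rep c' hc') j : ℝ) * lg (Z.x n σ) j)
        have e5 := le_abs_self (Real.log ‖T n σ c'‖ - ∑ j, ((rep c' hc') j : ℝ) * lg (Z.x n σ) j)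
        refine abs_le.2 ⟨?_, ?_⟩ <;> linarith [e1.1, e1.2]
      rw [Z5.fr_true] at m3
      linarith

end Pool.Agent.Z8
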