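import Pool.Agent.Z8.Defs
import Pool.Agent.Z7.B1

namespace Pool.Agent.Z8

open Pool.Agent.ZL2 Filter Topology

/-! The box principle for a family of holomorphic functions. -/

theorem k8b1_box {k : ℕ} (hk : 2 ≤ k) (t0 : ℂ) (ρ : ℝ) (hρ : 0 < ρ) (s1 C : ℝ) (c0 : ℕ) (I : ℕ → Type)
    [∀ L, Fintype (I L)] (hI : ∀ L, 1 ≤ L → Fintype.card (I L) ≤ c0 * L ^ (k - 2))
    (h : ∀ L, (Fin k → Fin (L + 1)) → I L → ℂ → ℂ)
    (hd : ∀ L α i, DifferentiableOn ℂ (h L α i) (Metric.ball t0 ρ))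
    (hb : ∀ L α i, ∀ t ∈ Metric.ball t0 ρ, ‖h L α i t‖ ≤ Real.exp (L * s1)) :
    ∃ (L : ℕ) (f : (Fin k → Fin (L + 1)) → ℤ), 1 ≤ L ∧ f ≠ 0 ∧ (∀ α, |f α| ≤ 2 ^ L) ∧
      ∀ i t, ‖t - t0‖ ≤ ρ / 2 → ‖∑ α, (f α : ℂ) * h L α i t‖ ≤ Real.exp (-(C * L)) := by
  obtain ⟨C', hC'⟩ : ∃ C' : ℝ, C' = max C 0 := ⟨_, rfl⟩
  have hC0 : 0 ≤ C' := by rw [hC']; exact le_max_right _ _
  have hCC : C ≤ C' := by rw [hC']; exact le_max_left _ _
  obtain ⟨s0, hs0⟩ : ∃ s0 : ℝ, s0 = max s1 0 := ⟨_, rfl⟩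
  have hs00 : 0 ≤ s0 := by rw [hs0]; exact le_max_right _ _
  have hs01 : s1 ≤ s0 := by rw [hs0]; exact le_max_left _ _
  have hl2 : 0 < Real.log 2 := Real.log_pos (by norm_num)
  have hl4 : 0 < Real.log 4 := Real.log_pos (by norm_num)
  have hq : 0 < Real.log (3 / 2) := Real.log_pos (by norm_num)
  have hk0 : (0 : ℝ) ≤ k := Nat.cast_nonneg k
  obtain ⟨lam, hlam⟩ := exists_nat_ge ((((k : ℝ) + 1) * Real.log 2 + s0 + C' + 2) / Real.log (3 / 2))
  rw [div_le_iff₀ hq] at hlam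
  have hlam0 : (0 : ℝ) ≤ lam := Nat.cast_nonneg lam
  obtain ⟨s2, hs2⟩ : ∃ s2 : ℝ, s2 = lam + C' + 2 := ⟨_, rfl⟩
  have hs20 : 0 ≤ s2 := by rw [hs2]; positivity
  obtain ⟨L0, hL0⟩ := exists_nat_ge ((Real.log 4 + (1 + (k : ℝ)) * Real.log 2 + (s0 + s2)) *
    (2 ^ k * ((c0 * lam : ℕ) : ℝ) * ((1 : ℕ) : ℝ) ^ (k - 1)) / Real.log 2)
  obtain ⟨L, hLdef⟩ : ∃ L, L = max 1 L0 := ⟨_, rfl⟩
  have hL : 1 ≤ L := by rw [hLdef]; exact le_max_left _ _
  have hL1 : (1 : ℝ) ≤ L := by exact_mod_cast hL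
  have hLs : (Real.log 4 + (1 + (k : ℝ)) * Real.log 2 + (s0 + s2)) *
      (2 ^ k * ((c0 * lam : ℕ) : ℝ) * ((1 : ℕ) : ℝ) ^ (k - 1)) ≤ Real.log 2 * L := by
    rw [div_le_iff₀ hl2] at hL0
    have h1 : (L0 : ℝ) ≤ L := by
      rw [hLdef]
      exact_mod_cast le_max_right _ _
    have h2 := mul_le_mul_of_nonneg_right h1 hl2.le
    linarith
  obtain ⟨m, hm⟩ : ∃ m, m = lam * L := ⟨_, rfl⟩
  have hmr : (m : ℝ) = lam * L := by rw [hm]; push_cast; ring
  obtain ⟨M, hMe⟩ : ∃ M : ℝ, M = Real.exp (L * s0) := ⟨_, rfl⟩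
  have hM0 : 0 ≤ M := by rw [hMe]; exact (Real.exp_pos _).le
  have hbM : ∀ α i, ∀ t ∈ Metric.ball t0 ρ, ‖h L α i t‖ ≤ M := by
    intro α i t ht
    rw [hMe]
    exact (hb L α i t ht).trans (Real.exp_le_exp.2 (mul_le_mul_of_nonneg_left hs01 (by linarith)))
  have hT := fun (α : Fin k → Fin (L + 1)) (i : I L) => Z5.b1_taylor t0 ρ M hρ hM0 (h L α i) (hd L α i) (hbM α i)
  choose g hg1 hg2 using hT
  have hcardA : Fintype.card (Fin k → Fin (L + 1)) = (L + 1) ^ k := by simp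
  obtain ⟨f, hf0, hf1, hf2⟩ := pigeon (A := Fin k → Fin (L + 1))
    (J := I L × Fin m × Fin 2) (2 ^ L)
    (fun α j => if j.2.2 = 0 then (g α j.1 j.2.1).re else (g α j.1 j.2.1).im)
    (Real.exp (L * s0)) (Real.exp (-(L * s2)))
    (Real.exp_pos _) (Real.exp_pos _).le (by
      intro α j
      have h1 := hg1 α j.1 j.2.1
      rw [← hMe]
      split_ifs
      · exact (Complex.abs_re_le_norm _).trans h1
      · exact (Complex.abs_im_le_norm _).trans h1) (by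
      have hcount := bp5_count k (k - 1) (c0 * lam) 1 L (by omega) hL (s0 + s2)
        (add_nonneg hs00 hs20) (by exact_mod_cast hLs)
      have hcardJ : Fintype.card (I L × Fin m × Fin 2) ≤
          2 ^ k * (c0 * lam * (1 * L) ^ (k - 1)) := by
        simp only [Fintype.card_prod, Fintype.card_fin, hm, one_mul]
        have h1 := hI L hL
        have h2 : L ^ (k - 1) = L ^ (k - 2) * L := by rw [← pow_succ]; congr 1; omega
        have h3 : 2 ≤ 2 ^ k := by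
          calc 2 = 2 ^ 1 := (pow_one 2).symm
            _ ≤ 2 ^ k := Nat.pow_le_pow_right (by norm_num) (by omega)
        calc Fintype.card (I L) * (lam * L * 2) ≤ c0 * L ^ (k - 2) * (lam * L * 2) := Nat.mul_le_mul_right _ h1
          _ = 2 * (c0 * lam * L ^ (k - 1)) := by rw [h2]; ring
          _ ≤ _ := Nat.mul_le_mul_right _ h3
      rw [hcardA]
      push_cast
      have e1 : 2 * 2 ^ L * ((L : ℝ) + 1) ^ k * Real.exp (L * s0) / Real.exp (-(L * s2)) =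
          2 * 2 ^ L * ((L : ℝ) + 1) ^ k * Real.exp (L * (s0 + s2)) := by
        rw [mul_div_assoc, ← Real.exp_sub]
        ring_nf
      rw [e1]
      refine lt_of_le_of_lt (pow_le_pow_right₀ ?_ hcardJ) hcount
      have : 0 ≤ 2 * 2 ^ L * ((L : ℝ) + 1) ^ k * Real.exp (L * (s0 + s2)) := by positivity
      linarith)
  refine ⟨L, f, hL, hf0, fun α => by have := hf1 α; exact_mod_cast this, fun i t ht => ?_⟩
  have hfR : ∀ α, ‖(f α : ℂ)‖ ≤ 2 ^ L := by
    intro α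
    rw [Complex.norm_intCast]
    have := hf1 α
    exact_mod_cast this
  have hz : ‖(t - t0) / ((3 * ρ / 4 : ℝ) : ℂ)‖ ≤ 1 := by
    have hr : 0 < 3 * ρ / 4 := by positivity
    rw [norm_div, Complex.norm_real, Real.norm_of_nonneg hr.le, div_le_iff₀ hr]
    linarith
  have h2L : (2 : ℝ) ^ L = Real.exp (L * Real.log 2) := bp5_pow 2 (by norm_num) L
  have h23 : (2 / 3 : ℝ) ^ m = Real.exp (-(lam * L * Real.log (3 / 2))) := by
    rw [bp5_pow (2 / 3) (by norm_num), hmr]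
    have : Real.log (2 / 3) = - Real.log (3 / 2) := by
      rw [← Real.log_inv]; norm_num
    rw [this]
    ring_nf
  have p1 : ‖∑ α, (f α : ℂ) * (h L α i t -
      ∑ n ∈ Finset.range m, g α i n * ((t - t0) / ((3 * ρ / 4 : ℝ) : ℂ)) ^ n)‖ ≤
      ((L : ℝ) + 1) ^ k * (2 ^ L * (3 * M * (2 / 3) ^ m)) := by
    refine (norm_sum_le _ _).trans ?_
    calc ∑ α : Fin k → Fin (L + 1), ‖(f α : ℂ) * (h L α i t -
          ∑ n ∈ Finset.range m, g α i n * ((t - t0) / ((3 * ρ / 4 : ℝ) : ℂ)) ^ n)‖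
        ≤ ∑ _α : Fin k → Fin (L + 1), (2 ^ L * (3 * M * (2 / 3) ^ m)) := by
          refine Finset.sum_le_sum fun α _ => ?_
          rw [norm_mul]
          exact mul_le_mul (hfR α) (hg2 α i m t ht) (norm_nonneg _) (by positivity)
      _ = _ := by
          rw [Finset.sum_const, Finset.card_univ, nsmul_eq_mul, hcardA]
          push_cast
          ring
  have p2 : ‖∑ α, (f α : ℂ) *
      ∑ n ∈ Finset.range m, g α i n * ((t - t0) / ((3 * ρ / 4 : ℝ) : ℂ)) ^ n‖ ≤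
      m * (2 * Real.exp (-(L * s2))) := by
    have h1 : ∑ α, (f α : ℂ) *
        ∑ n ∈ Finset.range m, g α i n * ((t - t0) / ((3 * ρ / 4 : ℝ) : ℂ)) ^ n =
        ∑ n ∈ Finset.range m, (∑ α, (f α : ℂ) * g α i n) *
          ((t - t0) / ((3 * ρ / 4 : ℝ) : ℂ)) ^ n := by
      simp only [Finset.mul_sum, Finset.sum_mul]
      rw [Finset.sum_comm]
      refine Finset.sum_congr rfl fun n _ => Finset.sum_congr rfl fun α _ => by ring
    rw [h1]
    refine (norm_sum_le _ _).trans ?_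
    calc ∑ n ∈ Finset.range m, ‖(∑ α, (f α : ℂ) * g α i n) *
          ((t - t0) / ((3 * ρ / 4 : ℝ) : ℂ)) ^ n‖
        ≤ ∑ n ∈ Finset.range m, (2 * Real.exp (-(L * s2))) := by
          refine Finset.sum_le_sum fun n hn => ?_
          rw [norm_mul, norm_pow]
          have hre : |(∑ α, (f α : ℂ) * g α i n).re| ≤ Real.exp (-(L * s2)) := by
            have h5 := hf2 (i, ⟨n, Finset.mem_range.1 hn⟩, 0)
            have h6 : (∑ α, (f α : ℂ) * g α i n).re = ∑ α, (f α : ℝ) * (g α i n).re := by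
              rw [Complex.re_sum]
              refine Finset.sum_congr rfl fun α _ => ?_
              rw [Complex.mul_re, Complex.intCast_re, Complex.intCast_im]
              ring
            rw [h6]
            simpa using h5
          have him : |(∑ α, (f α : ℂ) * g α i n).im| ≤ Real.exp (-(L * s2)) := by
            have h5 := hf2 (i, ⟨n, Finset.mem_range.1 hn⟩, 1)
            have h6 : (∑ α, (f α : ℂ) * g α i n).im = ∑ α, (f α : ℝ) * (g α i n).im := by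
              rw [Complex.im_sum]
              refine Finset.sum_congr rfl fun α _ => ?_
              rw [Complex.mul_im, Complex.intCast_re, Complex.intCast_im]
              ring
            rw [h6]
            simpa using h5
          have h7 : ‖∑ α, (f α : ℂ) * g α i n‖ ≤ 2 * Real.exp (-(L * s2)) := by
            refine (Complex.norm_le_abs_re_add_abs_im _).trans ?_
            linarith
          calc _ ≤ 2 * Real.exp (-(L * s2)) * 1 :=
                mul_le_mul h7 (pow_le_one₀ (norm_nonneg _) hz) (by positivity) (by positivity)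
            _ = _ := mul_one _
      _ = _ := by
          rw [Finset.sum_const, Finset.card_range, nsmul_eq_mul]
  have hsplit : ∑ α, (f α : ℂ) * h L α i t =
      ∑ α, (f α : ℂ) * (h L α i t -
        ∑ n ∈ Finset.range m, g α i n * ((t - t0) / ((3 * ρ / 4 : ℝ) : ℂ)) ^ n) +
      ∑ α, (f α : ℂ) *
        ∑ n ∈ Finset.range m, g α i n * ((t - t0) / ((3 * ρ / 4 : ℝ) : ℂ)) ^ n := by
    rw [← Finset.sum_add_distrib]
    refine Finset.sum_congr rfl fun α _ => by ring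
  have q1 : ((L : ℝ) + 1) ^ k * (2 ^ L * (3 * M * (2 / 3) ^ m)) ≤ 3 * Real.exp (-((C' + 2) * L)) := by
    have hb := bp5_card k L
    calc ((L : ℝ) + 1) ^ k * (2 ^ L * (3 * M * (2 / 3) ^ m))
        = 3 * (((L : ℝ) + 1) ^ k * (2 ^ L * (M * (2 / 3) ^ m))) := by ring
      _ ≤ 3 * (Real.exp (k * L * Real.log 2) *
            (Real.exp (L * Real.log 2) *
              (Real.exp (L * s0) * Real.exp (-(lam * L * Real.log (3 / 2)))))) := by
          rw [h2L, h23, hMe]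
          refine mul_le_mul_of_nonneg_left ?_ (by norm_num)
          exact mul_le_mul_of_nonneg_right hb (by positivity)
      _ = 3 * Real.exp (L * (((k : ℝ) + 1) * Real.log 2 + s0) - lam * L * Real.log (3 / 2)) := by
          simp only [← Real.exp_add]
          congr 2
          ring
      _ ≤ 3 * Real.exp (-((C' + 2) * L)) := by
          refine mul_le_mul_of_nonneg_left (Real.exp_le_exp.2 ?_) (by norm_num)
          have h5 := mul_le_mul_of_nonneg_left hlam (by linarith : (0 : ℝ) ≤ L)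
          nlinarith
  have q2 : m * (2 * Real.exp (-(L * s2))) ≤ 2 * Real.exp (-((C' + 2) * L)) := by
    have hm1 : (m : ℝ) ≤ Real.exp (lam * L) := by
      rw [hmr]
      have := Real.add_one_le_exp ((lam : ℝ) * L)
      linarith
    calc m * (2 * Real.exp (-(L * s2)))
        = 2 * (m * Real.exp (-(L * s2))) := by ring
      _ ≤ 2 * (Real.exp (lam * L) * Real.exp (-(L * s2))) := by
          refine mul_le_mul_of_nonneg_left ?_ (by norm_num)
          exact mul_le_mul_of_nonneg_right hm1 (Real.exp_pos _).le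
      _ = 2 * Real.exp (-((C' + 2) * L)) := by
          simp only [← Real.exp_add]
          congr 2
          rw [hs2]
          ring
  rw [hsplit]
  have h5 : (5 : ℝ) ≤ Real.exp (2 * L) := by
    have h6 : Real.exp 2 ≤ Real.exp (2 * L) := Real.exp_le_exp.2 (by linarith)
    have h7 : (5 : ℝ) ≤ Real.exp 2 := by
      have h8 : Real.exp 2 = Real.exp 1 * Real.exp 1 := by rw [← Real.exp_add]; norm_num
      have h9 := Real.exp_one_gt_d9
      rw [h8]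
      nlinarith
    linarith
  calc ‖_ + _‖ ≤ ((L : ℝ) + 1) ^ k * (2 ^ L * (3 * M * (2 / 3) ^ m)) + m * (2 * Real.exp (-(L * s2))) :=
        (norm_add_le _ _).trans (add_le_add p1 p2)
    _ ≤ 5 * Real.exp (-((C' + 2) * L)) := by linarith
    _ ≤ Real.exp (2 * L) * Real.exp (-((C' + 2) * L)) := mul_le_mul_of_nonneg_right h5 (Real.exp_pos _).le
    _ = Real.exp (-(C' * L)) := by rw [← Real.exp_add]; ring_nf
    _ ≤ Real.exp (-(C * L)) := by
        apply Real.exp_le_exp.2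
        have := mul_le_mul_of_nonneg_right hCC (by linarith : (0 : ℝ) ≤ L)
        linarith

/-! Polynomials in `z` whose coefficients are functions of `t`. -/

section poly

variable {σ : Type} {t0 : ℂ} {ρ : ℝ}

/-- The value at `(z, t)`. -/
noncomputable def k8b1_v (z : σ → ℂ) (t : ℂ) : MvPolynomial σ (ℂ → ℂ) →+* ℂ :=
  MvPolynomial.eval₂Hom (Pi.evalRingHom (fun _ : ℂ => ℂ) t) z

theorem k8b1_v_mon [Fintype σ] (z : σ → ℂ) (t : ℂ) (δ : σ →₀ ℕ) (c : ℂ → ℂ) :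
    k8b1_v z t (MvPolynomial.monomial δ c) = c t * ∏ i, z i ^ δ i := by
  unfold k8b1_v
  rw [MvPolynomial.coe_eval₂Hom, MvPolynomial.eval₂_monomial, Finsupp.prod_fintype]
  · rfl
  · intro i
    rw [pow_zero]

/-- Holomorphic coefficients bounded by `M`, exponents bounded by `D`. -/
def k8b1_G (t0 : ℂ) (ρ : ℝ) (D : ℕ) (M : ℝ) (P : MvPolynomial σ (ℂ → ℂ)) : Prop :=
  (∀ γ, DifferentiableOn ℂ (MvPolynomial.coeff γ P) (Metric.ball t0 ρ)) ∧
    (∀ γ, ∀ t ∈ Metric.ball t0 ρ, ‖MvPolynomial.coeff γ P t‖ ≤ M) ∧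
    ∀ γ, MvPolynomial.coeff γ P ≠ 0 → ∀ i, γ i ≤ D

theorem k8b1_mono {D D' : ℕ} {M M' : ℝ} (hD : D ≤ D') (hM : M ≤ M') {P : MvPolynomial σ (ℂ → ℂ)}
    (h : k8b1_G t0 ρ D M P) : k8b1_G t0 ρ D' M' P :=
  ⟨h.1, fun γ t ht => (h.2.1 γ t ht).trans hM, fun γ hγ i => (h.2.2 γ hγ i).trans hD⟩

theorem k8b1_zero (D : ℕ) {M : ℝ} (hM : 0 ≤ M) : k8b1_G t0 ρ D M (0 : MvPolynomial σ (ℂ → ℂ)) := by
  refine ⟨fun γ => ?_, fun γ t _ => ?_, fun γ h => ?_⟩
  · rw [MvPolynomial.coeff_zero]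
    exact differentiableOn_const (0 : ℂ)
  · rw [MvPolynomial.coeff_zero, Pi.zero_apply, norm_zero]
    exact hM
  · exact absurd (MvPolynomial.coeff_zero γ) h

theorem k8b1_add {D : ℕ} {M M' : ℝ} {P Q : MvPolynomial σ (ℂ → ℂ)} (hP : k8b1_G t0 ρ D M P)
    (hQ : k8b1_G t0 ρ D M' Q) : k8b1_G t0 ρ D (M + M') (P + Q) := by
  refine ⟨fun γ => ?_, fun γ t ht => ?_, fun γ h i => ?_⟩
  · rw [MvPolynomial.coeff_add]
    exact (hP.1 γ).add (hQ.1 γ)
  · rw [MvPolynomial.coeff_add]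
    exact (norm_add_le _ _).trans (add_le_add (hP.2.1 γ t ht) (hQ.2.1 γ t ht))
  · by_contra hi
    have h1 : MvPolynomial.coeff γ P = 0 := by
      by_contra h2
      exact hi (hP.2.2 γ h2 i)
    have h2 : MvPolynomial.coeff γ Q = 0 := by
      by_contra h2
      exact hi (hQ.2.2 γ h2 i)
    exact h (by rw [MvPolynomial.coeff_add, h1, h2, add_zero])

theorem k8b1_mon {D d : ℕ} {M B : ℝ} (hM : 0 ≤ M) (hB : 0 ≤ B) {P : MvPolynomial σ (ℂ → ℂ)} (hP : k8b1_G t0 ρ D M P)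
    (δ : σ →₀ ℕ) (c : ℂ → ℂ) (hc : DifferentiableOn ℂ c (Metric.ball t0 ρ))
    (hcB : ∀ t ∈ Metric.ball t0 ρ, ‖c t‖ ≤ B) (hδ : ∀ i, δ i ≤ d) :
    k8b1_G t0 ρ (D + d) (M * B) (P * MvPolynomial.monomial δ c) := by
  classical
  have key : ∀ γ, MvPolynomial.coeff γ (P * MvPolynomial.monomial δ c) =
      if δ ≤ γ then MvPolynomial.coeff (γ - δ) P * c else 0 := fun γ =>
    MvPolynomial.coeff_mul_monomial' γ δ c P
  refine ⟨fun γ => ?_, fun γ t ht => ?_, fun γ h i => ?_⟩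
  · rw [key]
    split_ifs
    · exact (hP.1 _).mul hc
    · exact differentiableOn_const (0 : ℂ)
  · rw [key]
    split_ifs
    · rw [Pi.mul_apply, norm_mul]
      exact mul_le_mul (hP.2.1 _ t ht) (hcB t ht) (norm_nonneg _) hM
    · rw [Pi.zero_apply, norm_zero]
      exact mul_nonneg hM hB
  · rw [key] at h
    split_ifs at h with h1
    · have h2 : MvPolynomial.coeff (γ - δ) P ≠ 0 := left_ne_zero_of_mul h
      have h3 := hP.2.2 _ h2 i
      rw [Finsupp.tsub_apply] at h3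
      have h4 := hδ i
      omega
    · exact absurd rfl h

theorem k8b1_sum {ι : Type*} (s : Finset ι) {D : ℕ} {M : ℝ} (P : ι → MvPolynomial σ (ℂ → ℂ))
    (h : ∀ i ∈ s, k8b1_G t0 ρ D M (P i)) : k8b1_G t0 ρ D (s.card * M) (∑ i ∈ s, P i) := by
  classical
  induction s using Finset.induction_on with
  | empty =>
    rw [Finset.sum_empty, Finset.card_empty, Nat.cast_zero, zero_mul]
    exact k8b1_zero D le_rfl
  | insert a s ha ih =>
    rw [Finset.sum_insert ha, Finset.card_insert_of_notMem ha]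
    refine k8b1_mono le_rfl (le_of_eq ?_) (k8b1_add (h a (Finset.mem_insert_self a s))
      (ih fun i hi => h i (Finset.mem_insert_of_mem hi)))
    push_cast
    ring

/-- The value as a sum over a box. -/
theorem k8b1_boxsum [Fintype σ] [DecidableEq σ] {D : ℕ} {P : MvPolynomial σ (ℂ → ℂ)} (hP : ∀ γ, MvPolynomial.coeff γ P ≠ 0 → ∀ i, γ i ≤ D)
    (z : σ → ℂ) (t : ℂ) : k8b1_v z t P = ∑ δ : σ → Fin (D + 1),
      MvPolynomial.coeff (Finsupp.equivFunOnFinite.symm fun i => (δ i : ℕ)) P t * ∏ i, z i ^ (δ i : ℕ) := by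
  classical
  have h1 : k8b1_v z t P = ∑ γ ∈ P.support, MvPolynomial.coeff γ P t * ∏ i, z i ^ γ i := by
    unfold k8b1_v
    rw [MvPolynomial.coe_eval₂Hom, MvPolynomial.eval₂_eq']
    rfl
  obtain ⟨F, hF⟩ : ∃ F : (σ →₀ ℕ) → ℂ, F = fun γ => MvPolynomial.coeff γ P t * ∏ i, z i ^ γ i := ⟨_, rfl⟩
  obtain ⟨T, hT⟩ : ∃ T : (σ → Fin (D + 1)) → (σ →₀ ℕ), T = fun δ => Finsupp.equivFunOnFinite.symm fun i => (δ i : ℕ) :=
    ⟨_, rfl⟩
  have hTi : Function.Injective T := by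
    intro a b hab
    rw [hT] at hab
    have h2 := Finsupp.equivFunOnFinite.symm.injective hab
    funext i
    exact Fin.ext (congrFun h2 i)
  have h2 : ∑ γ ∈ P.support, F γ = ∑ γ ∈ Finset.univ.image T, F γ := by
    refine Finset.sum_subset (fun γ hγ => ?_) (fun γ _ hγ => ?_)
    · rw [Finset.mem_image]
      have h3 := hP γ (MvPolynomial.mem_support_iff.1 hγ)
      refine ⟨fun i => ⟨γ i, Nat.lt_succ_of_le (h3 i)⟩, Finset.mem_univ _, ?_⟩
      rw [hT]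
      ext i
      rfl
    · rw [hF]
      simp only
      rw [MvPolynomial.notMem_support_iff.1 hγ, Pi.zero_apply, zero_mul]
  rw [Finset.sum_image fun a _ b _ h => hTi h] at h2
  rw [h1]
  rw [hF, hT] at h2
  exact h2

variable {N' : ℕ}

/-- Multiplication by `X`, where `X^(N'+1) = ∑ E_b X^b`. -/
noncomputable def k8b1_mulX (E H : Fin (N' + 1) → MvPolynomial σ (ℂ → ℂ)) (b : Fin (N' + 1)) :
    MvPolynomial σ (ℂ → ℂ) :=
  (Fin.cases (motive := fun _ => MvPolynomial σ (ℂ → ℂ)) 0 (fun j => H j.castSucc) b : MvPolynomial σ (ℂ → ℂ)) +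
    H (Fin.last N') * E b

theorem k8b1_mulX_val (E H : Fin (N' + 1) → MvPolynomial σ (ℂ → ℂ)) (z : σ → ℂ) (X t : ℂ)
    (h : X ^ (N' + 1) = ∑ b, k8b1_v z t (E b) * X ^ (b : ℕ)) :
    X * ∑ b, k8b1_v z t (H b) * X ^ (b : ℕ) = ∑ b, k8b1_v z t (k8b1_mulX E H b) * X ^ (b : ℕ) := by
  have h1 : X * ∑ b, k8b1_v z t (H b) * X ^ (b : ℕ) =
      (∑ j : Fin N', k8b1_v z t (H j.castSucc) * X ^ ((j : ℕ) + 1)) + k8b1_v z t (H (Fin.last N')) * X ^ (N' + 1) := by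
    rw [Fin.sum_univ_castSucc, mul_add, Finset.mul_sum]
    simp only [Fin.val_castSucc, Fin.val_last]
    congr 1
    · refine Finset.sum_congr rfl fun j _ => ?_
      rw [pow_succ]; ring
    · rw [pow_succ]; ring
  have h2 : ∑ b, k8b1_v z t (k8b1_mulX E H b) * X ^ (b : ℕ) =
      (∑ b : Fin (N' + 1), k8b1_v z t (Fin.cases (motive := fun _ => MvPolynomial σ (ℂ → ℂ)) 0
        (fun j => H j.castSucc) b : MvPolynomial σ (ℂ → ℂ)) * X ^ (b : ℕ)) +
      k8b1_v z t (H (Fin.last N')) * ∑ b, k8b1_v z t (E b) * X ^ (b : ℕ) := by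
    rw [Finset.mul_sum, ← Finset.sum_add_distrib]
    refine Finset.sum_congr rfl fun b _ => ?_
    unfold k8b1_mulX
    rw [map_add, map_mul]
    ring
  rw [h1, h2, h, Fin.sum_univ_succ (f := fun b : Fin (N' + 1) =>
    k8b1_v z t (Fin.cases (motive := fun _ => MvPolynomial σ (ℂ → ℂ)) 0
        (fun j => H j.castSucc) b : MvPolynomial σ (ℂ → ℂ)) * X ^ (b : ℕ))]
  simp only [Fin.cases_zero, Fin.cases_succ, map_zero, zero_mul, zero_add, Fin.val_succ]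

theorem k8b1_mulX_G {ι : Type*} (se : Finset ι) (ex : ι → σ →₀ ℕ) (e : Fin (N' + 1) → ι → ℂ → ℂ) {A : ℝ} (hA : 0 ≤ A)
    (he : ∀ a γ, DifferentiableOn ℂ (e a γ) (Metric.ball t0 ρ))
    (heA : ∀ a γ, ∀ t ∈ Metric.ball t0 ρ, ‖e a γ t‖ ≤ A) {d0 : ℕ} (hd0 : ∀ γ ∈ se, ∀ i, ex γ i ≤ d0)
    {D : ℕ} {M : ℝ} (hM : 0 ≤ M) (H : Fin (N' + 1) → MvPolynomial σ (ℂ → ℂ)) (hH : ∀ b, k8b1_G t0 ρ D M (H b))
    (b : Fin (N' + 1)) :
    k8b1_G t0 ρ (D + d0) (M * (1 + se.card * A)) (k8b1_mulX (fun b => ∑ γ ∈ se, MvPolynomial.monomial (ex γ) (e b γ)) H b) := by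
  unfold k8b1_mulX
  have h1 : k8b1_G t0 ρ (D + d0) M (Fin.cases (motive := fun _ => MvPolynomial σ (ℂ → ℂ)) 0
      (fun j => H j.castSucc) b : MvPolynomial σ (ℂ → ℂ)) := by
    refine Fin.cases ?_ (fun j => ?_) b
    · simp only [Fin.cases_zero]
      exact k8b1_zero _ hM
    · simp only [Fin.cases_succ]
      exact k8b1_mono (Nat.le_add_right _ _) le_rfl (hH _)
  have h2 : k8b1_G t0 ρ (D + d0) (se.card * (M * A)) (H (Fin.last N') * ∑ γ ∈ se, MvPolynomial.monomial (ex γ) (e b γ)) := by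
    rw [Finset.mul_sum]
    exact k8b1_sum se _ fun γ hγ => k8b1_mon hM hA (hH _) (ex γ) (e b γ) (he b γ) (heA b γ) (hd0 γ hγ)
  refine k8b1_mono le_rfl (le_of_eq ?_) (k8b1_add h1 h2)
  ring

end poly

section rep

variable {σ : Type} {N' : ℕ}

/-- Functions which are linear combinations of `1, X, ..., X^N'` after `n` factors. -/
def k8b1_Rep (t0 : ℂ) (ρ : ℝ) (E : Fin (N' + 1) → MvPolynomial σ (ℂ → ℂ)) (d1 : ℕ) (c1 : ℝ) (n : ℕ)
    (φ : (σ → ℂ) → ℂ → ℂ → ℂ) : Prop :=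
  ∃ H : Fin (N' + 1) → MvPolynomial σ (ℂ → ℂ), (∀ b, k8b1_G t0 ρ (d1 * n) (c1 ^ n) (H b)) ∧
    ∀ z X t, X ^ (N' + 1) = ∑ b, k8b1_v z t (E b) * X ^ (b : ℕ) → φ z X t = ∑ b, k8b1_v z t (H b) * X ^ (b : ℕ)

theorem k8b1_one (t0 : ℂ) (ρ : ℝ) (E : Fin (N' + 1) → MvPolynomial σ (ℂ → ℂ)) (d1 : ℕ) (c1 : ℝ) :
    k8b1_Rep t0 ρ E d1 c1 0 (fun _ _ _ => 1) := by
  classical
  refine ⟨fun b => if b = 0 then 1 else 0, fun b => ?_, fun z X t _ => ?_⟩
  · rw [mul_zero, pow_zero]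
    by_cases hb : b = 0
    · simp only [hb, if_true]
      refine ⟨fun γ => ?_, fun γ t _ => ?_, fun γ h i => ?_⟩
      · rw [MvPolynomial.coeff_one]
        split_ifs
        · exact differentiableOn_const (1 : ℂ)
        · exact differentiableOn_const (0 : ℂ)
      · rw [MvPolynomial.coeff_one]
        split_ifs
        · simp
        · simp
      · rw [MvPolynomial.coeff_one] at h
        split_ifs at h with h1
        · rw [← h1]
          simp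
        · exact absurd rfl h
    · simp only [hb, if_false]
      exact k8b1_zero 0 zero_le_one
  · rw [Fin.sum_univ_succ]
    simp

variable {t0 : ℂ} {ρ : ℝ} {ι : Type*} (se : Finset ι) (ex : ι → σ →₀ ℕ) (e : Fin (N' + 1) → ι → ℂ → ℂ) {A : ℝ}
  {d0 n : ℕ} {c1 : ℝ} {φ : (σ → ℂ) → ℂ → ℂ → ℂ}

theorem k8b1_stepX (hA : 0 ≤ A) (he : ∀ a γ, DifferentiableOn ℂ (e a γ) (Metric.ball t0 ρ))
    (heA : ∀ a γ, ∀ t ∈ Metric.ball t0 ρ, ‖e a γ t‖ ≤ A) (hd0 : ∀ γ ∈ se, ∀ i, ex γ i ≤ d0) (hc0 : 0 ≤ c1)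
    (hc : 1 + se.card * A ≤ c1)
    (h : k8b1_Rep t0 ρ (fun b => ∑ γ ∈ se, MvPolynomial.monomial (ex γ) (e b γ)) (d0 + 1) c1 n φ) :
    k8b1_Rep t0 ρ (fun b => ∑ γ ∈ se, MvPolynomial.monomial (ex γ) (e b γ)) (d0 + 1) c1 (n + 1)
      (fun z X t => X * φ z X t) := by
  obtain ⟨H, hH, hv⟩ := h
  refine ⟨k8b1_mulX (fun b => ∑ γ ∈ se, MvPolynomial.monomial (ex γ) (e b γ)) H, fun b => ?_, fun z X t hX => ?_⟩
  · refine k8b1_mono ?_ ?_ (k8b1_mulX_G se ex e hA he heA hd0 (pow_nonneg hc0 n) H hH b)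
    · rw [mul_add, mul_one]
      omega
    · rw [pow_succ]
      exact mul_le_mul_of_nonneg_left hc (pow_nonneg hc0 n)
  · simp only
    rw [hv z X t hX]
    exact k8b1_mulX_val _ H z X t hX

theorem k8b1_stept [Fintype σ] (E : Fin (N' + 1) → MvPolynomial σ (ℂ → ℂ)) (hA : 0 ≤ A)
    (htA : ∀ t ∈ Metric.ball t0 ρ, ‖t‖ ≤ A) (hc0 : 0 ≤ c1) (hc : A ≤ c1)
    (h : k8b1_Rep t0 ρ E (d0 + 1) c1 n φ) :
    k8b1_Rep t0 ρ E (d0 + 1) c1 (n + 1) (fun z X t => t * φ z X t) := by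
  obtain ⟨H, hH, hv⟩ := h
  refine ⟨fun b => H b * MvPolynomial.monomial 0 (fun t => t), fun b => ?_, fun z X t hX => ?_⟩
  · refine k8b1_mono ?_ ?_ (k8b1_mon (d := 0) (pow_nonneg hc0 n) hA (hH b) 0 (fun t => t) differentiableOn_id htA
      (fun i => by simp))
    · rw [mul_add, mul_one]
      omega
    · rw [pow_succ]
      exact mul_le_mul_of_nonneg_left hc (pow_nonneg hc0 n)
  · simp only
    rw [hv z X t hX, Finset.mul_sum]
    refine Finset.sum_congr rfl fun b _ => ?_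
    rw [map_mul, k8b1_v_mon]
    simp only [Finsupp.coe_zero, Pi.zero_apply, pow_zero, Finset.prod_const_one]
    ring

theorem k8b1_stepz [Fintype σ] [DecidableEq σ] (hA : 0 ≤ A) (he : ∀ a γ, DifferentiableOn ℂ (e a γ) (Metric.ball t0 ρ))
    (heA : ∀ a γ, ∀ t ∈ Metric.ball t0 ρ, ‖e a γ t‖ ≤ A) (hd0 : ∀ γ ∈ se, ∀ i, ex γ i ≤ d0) (hc0 : 0 ≤ c1)
    (j : σ) (l : ℂ) (hc : 1 + (1 + se.card * A) * ‖l‖ ≤ c1)
    (h : k8b1_Rep t0 ρ (fun b => ∑ γ ∈ se, MvPolynomial.monomial (ex γ) (e b γ)) (d0 + 1) c1 n φ) :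
    k8b1_Rep t0 ρ (fun b => ∑ γ ∈ se, MvPolynomial.monomial (ex γ) (e b γ)) (d0 + 1) c1 (n + 1)
      (fun z X t => (z j + l * X) * φ z X t) := by
  obtain ⟨H, hH, hv⟩ := h
  obtain ⟨E, hE⟩ : ∃ E : Fin (N' + 1) → MvPolynomial σ (ℂ → ℂ), E = fun b => ∑ γ ∈ se, MvPolynomial.monomial (ex γ) (e b γ) :=
    ⟨_, rfl⟩
  have hMn := pow_nonneg hc0 n
  have hKA : (0 : ℝ) ≤ 1 + se.card * A := by positivity
  have h1 : ∀ b, k8b1_G t0 ρ ((d0 + 1) * (n + 1)) (c1 ^ n * 1) (H b * MvPolynomial.monomial (Finsupp.single j 1) (fun _ => 1)) := by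
    intro b
    refine k8b1_mono ?_ le_rfl (k8b1_mon (d := 1) hMn zero_le_one (hH b) (Finsupp.single j 1) (fun _ => 1)
      (differentiableOn_const (1 : ℂ)) (fun t _ => by rw [norm_one]) (fun i => ?_))
    · rw [mul_add, mul_one]
      omega
    · rw [Finsupp.single_apply]
      split_ifs
      · exact le_rfl
      · exact Nat.zero_le _
  have h2 : ∀ b, k8b1_G t0 ρ ((d0 + 1) * (n + 1)) (c1 ^ n * (1 + se.card * A) * ‖l‖)
      (k8b1_mulX E H b * MvPolynomial.monomial 0 (fun _ => l)) := by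
    intro b
    rw [hE]
    refine k8b1_mono ?_ le_rfl (k8b1_mon (d := 0) (mul_nonneg hMn hKA) (norm_nonneg l)
      (k8b1_mulX_G se ex e hA he heA hd0 hMn H hH b) 0 (fun _ => l) (differentiableOn_const l) (fun t _ => le_rfl)
      (fun i => by simp))
    rw [mul_add, mul_one]
    omega
  refine ⟨fun b => H b * MvPolynomial.monomial (Finsupp.single j 1) (fun _ => 1) +
    k8b1_mulX E H b * MvPolynomial.monomial 0 (fun _ => l), fun b => ?_, fun z X t hX => ?_⟩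
  · refine k8b1_mono le_rfl ?_ (k8b1_add (h1 b) (h2 b))
    rw [pow_succ]
    calc c1 ^ n * 1 + c1 ^ n * (1 + se.card * A) * ‖l‖ = c1 ^ n * (1 + (1 + se.card * A) * ‖l‖) := by ring
      _ ≤ _ := mul_le_mul_of_nonneg_left hc hMn
  · have hX' : X ^ (N' + 1) = ∑ b, k8b1_v z t (E b) * X ^ (b : ℕ) := by rw [hE]; exact hX
    have h3 := k8b1_mulX_val E H z X t hX'
    simp only
    rw [hv z X t hX]
    have h4 : (z j + l * X) * ∑ b, k8b1_v z t (H b) * X ^ (b : ℕ) = z j * ∑ b, k8b1_v z t (H b) * X ^ (b : ℕ) +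
        l * (X * ∑ b, k8b1_v z t (H b) * X ^ (b : ℕ)) := by ring
    rw [h4, h3, Finset.mul_sum, Finset.mul_sum, ← Finset.sum_add_distrib]
    refine Finset.sum_congr rfl fun b _ => ?_
    rw [map_add, map_mul, map_mul, k8b1_v_mon, k8b1_v_mon]
    have h5 : ∏ i, z i ^ (Finsupp.single j 1 : σ →₀ ℕ) i = z j := by
      rw [Finset.prod_eq_single j]
      · simp
      · intro i _ hij
        rw [Finsupp.single_apply, if_neg (Ne.symm hij), pow_zero]
      · intro h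
        exact absurd (Finset.mem_univ j) h
    rw [h5]
    simp only [Finsupp.coe_zero, Pi.zero_apply, pow_zero, Finset.prod_const_one]
    ring

end rep

/-- The factors. -/
noncomputable def k8b1_w {k : ℕ} (j0 i0 : Fin k) (l : Fin k → ℤ) (j : Fin k) (z : {i : Fin k // i ≠ i0 ∧ i ≠ j0} → ℂ)
    (X t : ℂ) : ℂ :=
  if h1 : j = j0 then t else if h2 : j = i0 then X else z ⟨j, h2, h1⟩ + l j * X

theorem k8b1_card {k : ℕ} (j0 i0 : Fin k) (hij : i0 ≠ j0) : Fintype.card {i : Fin k // i ≠ i0 ∧ i ≠ j0} = k - 2 := by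
  rw [Fintype.card_subtype]
  have h1 : (Finset.univ.filter fun i : Fin k => i ≠ i0 ∧ i ≠ j0) = (Finset.univ.erase j0).erase i0 := by
    ext i
    simp only [Finset.mem_filter, Finset.mem_univ, true_and, Finset.mem_erase, and_true]
  rw [h1, Finset.card_erase_of_mem (Finset.mem_erase.2 ⟨hij, Finset.mem_univ _⟩),
    Finset.card_erase_of_mem (Finset.mem_univ _), Finset.card_univ, Fintype.card_fin]
  omega

theorem k8b1_all {k : ℕ} (j0 i0 : Fin k) (l : Fin k → ℤ) {N' : ℕ} {t0 : ℂ} {ρ : ℝ} {ι : Type*} (se : Finset ι)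
    (ex : ι → {i : Fin k // i ≠ i0 ∧ i ≠ j0} →₀ ℕ) (e : Fin (N' + 1) → ι → ℂ → ℂ) {A : ℝ} {d0 : ℕ} {c1 : ℝ}
    (hA : 0 ≤ A) (he : ∀ a γ, DifferentiableOn ℂ (e a γ) (Metric.ball t0 ρ))
    (heA : ∀ a γ, ∀ t ∈ Metric.ball t0 ρ, ‖e a γ t‖ ≤ A) (hd0 : ∀ γ ∈ se, ∀ i, ex γ i ≤ d0)
    (htA : ∀ t ∈ Metric.ball t0 ρ, ‖t‖ ≤ A) (hc0 : 0 ≤ c1) (hc1 : 1 + se.card * A ≤ c1) (hc2 : A ≤ c1)
    (hc3 : ∀ j, 1 + (1 + se.card * A) * ‖(l j : ℂ)‖ ≤ c1) (α : Fin k → ℕ) :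
    k8b1_Rep t0 ρ (fun b => ∑ γ ∈ se, MvPolynomial.monomial (ex γ) (e b γ)) (d0 + 1) c1 (∑ j, α j)
      (fun z X t => ∏ j, k8b1_w j0 i0 l j z X t ^ α j) := by
  classical
  have step : ∀ (j : Fin k) (n : ℕ) (φ : ({i : Fin k // i ≠ i0 ∧ i ≠ j0} → ℂ) → ℂ → ℂ → ℂ),
      k8b1_Rep t0 ρ (fun b => ∑ γ ∈ se, MvPolynomial.monomial (ex γ) (e b γ)) (d0 + 1) c1 n φ →
      k8b1_Rep t0 ρ (fun b => ∑ γ ∈ se, MvPolynomial.monomial (ex γ) (e b γ)) (d0 + 1) c1 (n + 1)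
        (fun z X t => k8b1_w j0 i0 l j z X t * φ z X t) := by
    intro j n φ h
    unfold k8b1_w
    by_cases h1 : j = j0
    · simp only [h1, dite_true]
      exact k8b1_stept _ hA htA hc0 hc2 h
    · by_cases h2 : j = i0
      · simp only [h2, dite_true]
        have h3 : ¬ i0 = j0 := by rw [← h2]; exact h1
        simp only [h3, dite_false]
        exact k8b1_stepX se ex e hA he heA hd0 hc0 hc1 h
      · simp only [h1, h2, dite_false]
        exact k8b1_stepz se ex e hA he heA hd0 hc0 ⟨j, h2, h1⟩ (l j) (hc3 j) h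
  have pw : ∀ (j : Fin k) (p n : ℕ) (φ : ({i : Fin k // i ≠ i0 ∧ i ≠ j0} → ℂ) → ℂ → ℂ → ℂ),
      k8b1_Rep t0 ρ (fun b => ∑ γ ∈ se, MvPolynomial.monomial (ex γ) (e b γ)) (d0 + 1) c1 n φ →
      k8b1_Rep t0 ρ (fun b => ∑ γ ∈ se, MvPolynomial.monomial (ex γ) (e b γ)) (d0 + 1) c1 (p + n)
        (fun z X t => k8b1_w j0 i0 l j z X t ^ p * φ z X t) := by
    intro j p n φ h
    induction p with
    | zero =>
      simp only [pow_zero, one_mul, zero_add]
      exact h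
    | succ p ih =>
      have h1 := step j _ _ ih
      have e1 : p + 1 + n = p + n + 1 := by omega
      rw [e1]
      have e2 : (fun z X t => k8b1_w j0 i0 l j z X t ^ (p + 1) * φ z X t) =
          fun z X t => k8b1_w j0 i0 l j z X t * (k8b1_w j0 i0 l j z X t ^ p * φ z X t) := by
        funext z X t
        ring
      rw [e2]
      exact h1
  have fs : ∀ s : Finset (Fin k), k8b1_Rep t0 ρ (fun b => ∑ γ ∈ se, MvPolynomial.monomial (ex γ) (e b γ)) (d0 + 1) c1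
      (∑ j ∈ s, α j) (fun z X t => ∏ j ∈ s, k8b1_w j0 i0 l j z X t ^ α j) := by
    intro s
    induction s using Finset.induction_on with
    | empty =>
      simp only [Finset.sum_empty, Finset.prod_empty]
      exact k8b1_one t0 ρ _ _ _
    | insert j s hj ih =>
      rw [Finset.sum_insert hj]
      have e2 : (fun z X t => ∏ j ∈ insert j s, k8b1_w j0 i0 l j z X t ^ α j) =
          fun z X t => k8b1_w j0 i0 l j z X t ^ α j * ∏ j ∈ s, k8b1_w j0 i0 l j z X t ^ α j := by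
        funext z X t
        rw [Finset.prod_insert hj]
      rw [e2]
      exact pw j (α j) _ _ ih
  exact fs Finset.univ

/-- Row Z8-B1. Generalises `Z7.arc_small` (Z7/B1.lean) to `k` variables `(x_i)_{i ≠ j0}`, `t` (written as `Function.update x j0 t`). PROOF. `z_i = x_i - l_i x_i0` for `i ≠ i0, j0`. (1) Reduction: `x_i0^n = ∑_{a < N} U_{n,a}(z, t) x_i0^a`, `U_{n,a}` a polynomial in the `z_i` of total degree `≤ n - a` (`deg e_a ≤ N - a`) with coefficients holomorphic in `t` on the ball, the sum of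
their absolute values bounded by `(c A)^n`. (2) For a polynomial `g` in `(x_i0, (z_i), t)` with integer coefficients, degree `≤ l` in every variable: `g = ∑_{a < N} ∑_{|γ| ≤ k l} G_{a,γ}(t) z^γ x_i0^a`; the Taylor coefficients of the `G_{a,γ}` at `t0` up to order `Λ l`: at most `N (k l + 1)^(k-2) (Λ l + 1)` complex numbers (linear forms in the coefficients of `g`, bounded by
`e^(c l)` times the size of `g`), against `(l + 1)^k` coefficients in `{0..2^l}`: box principle (as in `Z7.arc_small`) gives `g ≠ 0` with all of them `≤ e^(-c' l)`, any `c'`; the tail of the Taylor series is `≤ 2^(-Λ l) e^(c l)`. So `|g| ≤ e^(-C'' l)` for `‖x‖ ≤ A`, `‖t - t0‖ ≤ ρ / 2`, any given `C''`, `l` large. (3) `F(x, t) = g(x_i0, x_i - l_i x_i0, t)` has integer coefficients,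
degree `≤ k l` in every variable, coefficients `≤ 2^(c l)`, is not zero, so it has the required form with `L = c''' l`. (If `k = 2` there are no `z_i`.) -/
theorem arc_small {k : ℕ} (hk : 2 ≤ k) (j0 i0 : Fin k) (hij : i0 ≠ j0) (l : Fin k → ℤ) (N : ℕ) (hN : 1 ≤ N)
    (t0 : ℂ) (ρ A : ℝ) (hρ : 0 < ρ) (hA : 1 ≤ A) (se : Finset (Fin k →₀ ℕ)) (e : Fin N → (Fin k →₀ ℕ) → ℂ → ℂ)
    (he : ∀ a γ, DifferentiableOn ℂ (e a γ) (Metric.ball t0 ρ))
    (heA : ∀ a γ, ∀ t ∈ Metric.ball t0 ρ, ‖e a γ t‖ ≤ A) (hse : ∀ γ ∈ se, γ j0 = 0 ∧ γ i0 = 0)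
    (hdeg : ∀ a, ∀ γ ∈ se, e a γ ≠ 0 → γ.degree + (a : ℕ) ≤ N) (htA : ∀ t ∈ Metric.ball t0 ρ, ‖t‖ ≤ A) (C : ℝ) :
    ∃ (L : ℕ) (f : (Fin k → Fin (L + 1)) → ℤ), 1 ≤ L ∧ f ≠ 0 ∧ (∀ α, |f α| ≤ 2 ^ L) ∧
      ∀ (x : Fin k → ℂ) (t : ℂ), ‖t - t0‖ ≤ ρ / 2 → (∀ i, ‖x i‖ ≤ A) →
        x i0 ^ N = ∑ a : Fin N, ∑ γ ∈ se, e a γ t * (∏ i, (x i - l i * x i0) ^ γ i) * x i0 ^ (a : ℕ) →
        ‖ev f (Function.update x j0 t)‖ < Real.exp (-(C * L)) := by
  classical
  obtain ⟨N', rfl⟩ : ∃ N', N = N' + 1 := ⟨N - 1, by omega⟩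
  have hA0 : 0 ≤ A := zero_le_one.trans hA
  have hk0 : (0 : ℝ) ≤ k := Nat.cast_nonneg k
  obtain ⟨d0, hd0⟩ : ∃ d0 : ℕ, ∀ γ ∈ se, ∀ i, γ i ≤ d0 :=
    ⟨se.sup fun γ => Finset.univ.sup γ, fun γ hγ i => (Finset.le_sup (f := γ) (Finset.mem_univ i)).trans
      (Finset.le_sup (f := fun γ : Fin k →₀ ℕ => Finset.univ.sup γ) hγ)⟩
  obtain ⟨ex, hex⟩ : ∃ ex : (Fin k →₀ ℕ) → {i : Fin k // i ≠ i0 ∧ i ≠ j0} →₀ ℕ,
      ex = fun γ => Finsupp.subtypeDomain (fun i => i ≠ i0 ∧ i ≠ j0) γ := ⟨_, rfl⟩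
  have hexi : ∀ γ i, ex γ i = γ i.1 := by
    intro γ i
    rw [hex]
    rfl
  obtain ⟨K, hK⟩ : ∃ K : ℝ, K = 1 + se.card * A := ⟨_, rfl⟩
  have hK1 : 1 ≤ K := by
    rw [hK]
    have : (0 : ℝ) ≤ se.card * A := by positivity
    linarith
  obtain ⟨Lam, hLam⟩ : ∃ Lam : ℝ, Lam = ∑ j, ‖(l j : ℂ)‖ := ⟨_, rfl⟩
  have hLamj : ∀ j, ‖(l j : ℂ)‖ ≤ Lam := by
    intro j
    rw [hLam]
    exact Finset.single_le_sum (f := fun j => ‖(l j : ℂ)‖) (fun j _ => norm_nonneg _) (Finset.mem_univ j)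
  have hLam0 : 0 ≤ Lam := by rw [hLam]; exact Finset.sum_nonneg fun j _ => norm_nonneg _
  obtain ⟨c1, hc1⟩ : ∃ c1 : ℝ, c1 = A + K + K * Lam := ⟨_, rfl⟩
  have hKL : 0 ≤ K * Lam := by positivity
  have hc11 : 1 ≤ c1 := by rw [hc1]; linarith
  have hc10 : 0 ≤ c1 := zero_le_one.trans hc11
  have hR := k8b1_all j0 i0 l (t0 := t0) (ρ := ρ) se ex e (d0 := d0) (c1 := c1) hA0 he heA
    (fun γ hγ i => by rw [hexi]; exact hd0 γ hγ i.1) htA hc10 (by rw [← hK, hc1]; linarith) (by rw [hc1]; linarith)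
    (fun j => by
      rw [← hK, hc1]
      have := mul_le_mul_of_nonneg_left (hLamj j) (zero_le_one.trans hK1)
      linarith)
  choose H hH hv using hR
  obtain ⟨D, hD⟩ : ∃ D : ℕ → ℕ, D = fun L => (d0 + 1) * (k * L) := ⟨_, rfl⟩
  have hsum : ∀ (L : ℕ) (α : Fin k → Fin (L + 1)), ∑ j, (α j : ℕ) ≤ k * L := by
    intro L α
    calc ∑ j, (α j : ℕ) ≤ ∑ _j : Fin k, L := Finset.sum_le_sum fun j _ => Nat.lt_succ_iff.1 (α j).2
      _ = k * L := by rw [Finset.sum_const, Finset.card_univ, Fintype.card_fin, smul_eq_mul]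
  have hG : ∀ (L : ℕ) (α : Fin k → Fin (L + 1)) (b : Fin (N' + 1)),
      k8b1_G t0 ρ (D L) (c1 ^ (k * L)) (H (fun j => (α j : ℕ)) b) := by
    intro L α b
    refine k8b1_mono ?_ (pow_le_pow_right₀ hc11 (hsum L α)) (hH (fun j => (α j : ℕ)) b)
    rw [hD]
    exact Nat.mul_le_mul_left _ (hsum L α)
  obtain ⟨c0, hc0⟩ : ∃ c0 : ℕ, c0 = (N' + 1) * ((d0 + 1) * k + 1) ^ (k - 2) := ⟨_, rfl⟩
  have hc01 : 1 ≤ c0 := by
    rw [hc0]
    exact Nat.one_le_iff_ne_zero.2 (by positivity)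
  have hcard : ∀ L, 1 ≤ L → Fintype.card (Fin (N' + 1) × ({i : Fin k // i ≠ i0 ∧ i ≠ j0} → Fin (D L + 1))) ≤
      c0 * L ^ (k - 2) := by
    intro L hL
    rw [Fintype.card_prod, Fintype.card_fin, Fintype.card_fun, Fintype.card_fin, k8b1_card j0 i0 hij, hc0, mul_assoc,
      ← mul_pow]
    refine Nat.mul_le_mul_left _ (Nat.pow_le_pow_left ?_ _)
    rw [hD]
    simp only
    calc (d0 + 1) * (k * L) + 1 ≤ (d0 + 1) * (k * L) + L := Nat.add_le_add_left hL _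
      _ = ((d0 + 1) * k + 1) * L := by ring
  obtain ⟨Zb, hZb⟩ : ∃ Zb : ℝ, Zb = A * (1 + Lam) := ⟨_, rfl⟩
  have hZb1 : 1 ≤ Zb := by
    rw [hZb]
    exact one_le_mul_of_one_le_of_one_le hA (by linarith)
  have hcA1 : 1 ≤ (c0 : ℝ) * A ^ (N' + 1) :=
    one_le_mul_of_one_le_of_one_le (by exact_mod_cast hc01) (one_le_pow₀ hA)
  obtain ⟨e0, he0⟩ : ∃ e0 : ℝ, e0 = Real.log ((c0 : ℝ) * A ^ (N' + 1)) + k * Real.log 2 +
      ((d0 : ℝ) + 1) * k * k * Real.log Zb := ⟨_, rfl⟩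
  obtain ⟨L, f, hL, hf0, hf1, hf2⟩ := k8b1_box hk t0 ρ hρ (k * Real.log c1) (C + e0 + 1) c0
    (fun L => Fin (N' + 1) × ({i : Fin k // i ≠ i0 ∧ i ≠ j0} → Fin (D L + 1))) hcard
    (fun L α i => MvPolynomial.coeff (Finsupp.equivFunOnFinite.symm fun s => (i.2 s : ℕ))
      (H (fun j => (α j : ℕ)) i.1)) (fun L α i => (hG L α i.1).1 _) (fun L α i t ht => by
      refine ((hG L α i.1).2.1 _ t ht).trans (le_of_eq ?_)
      rw [bp5_pow c1 (by linarith)]
      push_cast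
      congr 1
      ring)
  refine ⟨L, f, hL, hf0, hf1, fun x t ht hxA hx => ?_⟩
  have hL1 : (1 : ℝ) ≤ L := by exact_mod_cast hL
  obtain ⟨z, hz⟩ : ∃ z : {i : Fin k // i ≠ i0 ∧ i ≠ j0} → ℂ, z = fun s => x s.1 - l s.1 * x i0 := ⟨_, rfl⟩
  have hzn : ∀ s, ‖z s‖ ≤ Zb := by
    intro s
    rw [hz, hZb]
    simp only
    have h1 := hxA s.1
    have h2 := hxA i0
    have h3 := hLamj s.1
    calc ‖x s.1 - l s.1 * x i0‖ ≤ ‖x s.1‖ + ‖(l s.1 : ℂ)‖ * ‖x i0‖ := by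
          rw [← norm_mul]
          exact norm_sub_le _ _
      _ ≤ A + Lam * A := by
          have := mul_le_mul h3 h2 (norm_nonneg _) hLam0
          linarith
      _ = A * (1 + Lam) := by ring
  have hprod : ∀ γ ∈ se, ∏ i, (x i - l i * x i0) ^ γ i = ∏ s, z s ^ ex γ s := by
    intro γ hγ
    have h1 : ∏ i ∈ Finset.univ.filter (fun i : Fin k => i ≠ i0 ∧ i ≠ j0), (x i - l i * x i0) ^ γ i =
        ∏ s : {i : Fin k // i ≠ i0 ∧ i ≠ j0}, (x s.1 - l s.1 * x i0) ^ γ s.1 :=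
      Finset.prod_subtype _ (fun i => by simp) _
    have h2 : ∏ i ∈ Finset.univ.filter (fun i : Fin k => i ≠ i0 ∧ i ≠ j0), (x i - l i * x i0) ^ γ i =
        ∏ i, (x i - l i * x i0) ^ γ i := by
      refine Finset.prod_subset (Finset.filter_subset _ _) fun i _ hi => ?_
      obtain ⟨g1, g2⟩ := hse γ hγ
      have h3 : γ i = 0 := by
        by_contra h4
        apply hi
        rw [Finset.mem_filter]
        exact ⟨Finset.mem_univ _, fun h => h4 (by rw [h]; exact g2), fun h => h4 (by rw [h]; exact g1)⟩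
      rw [h3, pow_zero]
    rw [← h2, h1, hz]
    refine Finset.prod_congr rfl fun s _ => ?_
    rw [hexi]
  have hX : x i0 ^ (N' + 1) = ∑ b, k8b1_v z t (∑ γ ∈ se, MvPolynomial.monomial (ex γ) (e b γ)) * x i0 ^ (b : ℕ) := by
    rw [hx]
    refine Finset.sum_congr rfl fun b _ => ?_
    rw [map_sum, Finset.sum_mul]
    refine Finset.sum_congr rfl fun γ hγ => ?_
    rw [k8b1_v_mon, hprod γ hγ]
  have hw : ∀ j, Function.update x j0 t j = k8b1_w j0 i0 l j z (x i0) t := by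
    intro j
    unfold k8b1_w
    by_cases h1 : j = j0
    · rw [dif_pos h1, h1, Function.update_self]
    · rw [dif_neg h1, Function.update_of_ne h1]
      by_cases h2 : j = i0
      · rw [dif_pos h2, h2]
      · rw [dif_neg h2, hz]
        ring
  have hev : ev f (Function.update x j0 t) = ∑ i : Fin (N' + 1) × ({i : Fin k // i ≠ i0 ∧ i ≠ j0} → Fin (D L + 1)),
      (∑ α, (f α : ℂ) * MvPolynomial.coeff (Finsupp.equivFunOnFinite.symm fun s => (i.2 s : ℕ))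
        (H (fun j => (α j : ℕ)) i.1) t) * ((∏ s, z s ^ (i.2 s : ℕ)) * x i0 ^ (i.1 : ℕ)) := by
    have h1 : ∀ α : Fin k → Fin (L + 1), ∏ j, Function.update x j0 t j ^ (α j : ℕ) =
        ∑ i : Fin (N' + 1) × ({i : Fin k // i ≠ i0 ∧ i ≠ j0} → Fin (D L + 1)),
          MvPolynomial.coeff (Finsupp.equivFunOnFinite.symm fun s => (i.2 s : ℕ)) (H (fun j => (α j : ℕ)) i.1) t *
            ((∏ s, z s ^ (i.2 s : ℕ)) * x i0 ^ (i.1 : ℕ)) := by
      intro α
      have h0 : ∏ j, Function.update x j0 t j ^ (α j : ℕ) = ∏ j, k8b1_w j0 i0 l j z (x i0) t ^ (α j : ℕ) :=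
        Finset.prod_congr rfl fun j _ => by rw [hw j]
      refine h0.trans ((hv (fun j => (α j : ℕ)) z (x i0) t hX).trans ?_)
      rw [Fintype.sum_prod_type]
      refine Finset.sum_congr rfl fun b _ => ?_
      rw [k8b1_boxsum (hG L α b).2.2 z t, Finset.sum_mul]
      refine Finset.sum_congr rfl fun δ _ => ?_
      ring
    unfold ev
    rw [Finset.sum_congr rfl fun α _ => by rw [h1 α, Finset.mul_sum], Finset.sum_comm]
    refine Finset.sum_congr rfl fun i _ => ?_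
    rw [Finset.sum_mul]
    refine Finset.sum_congr rfl fun α _ => ?_
    ring
  obtain ⟨W, hW⟩ : ∃ W : ℝ, W = (Zb ^ D L) ^ k * A ^ (N' + 1) := ⟨_, rfl⟩
  have hW0 : 0 ≤ W := by rw [hW]; positivity
  have hwt : ∀ i : Fin (N' + 1) × ({i : Fin k // i ≠ i0 ∧ i ≠ j0} → Fin (D L + 1)),
      ‖(∏ s, z s ^ (i.2 s : ℕ)) * x i0 ^ (i.1 : ℕ)‖ ≤ W := by
    intro i
    rw [norm_mul, norm_prod, norm_pow, hW]
    refine mul_le_mul ?_ ?_ (by positivity) (by positivity)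
    · calc ∏ s, ‖z s ^ (i.2 s : ℕ)‖ ≤ ∏ _s : {i : Fin k // i ≠ i0 ∧ i ≠ j0}, Zb ^ D L := by
            refine Finset.prod_le_prod (fun s _ => norm_nonneg _) fun s _ => ?_
            rw [norm_pow]
            exact (pow_le_pow_left₀ (norm_nonneg _) (hzn s) _).trans
              (pow_le_pow_right₀ hZb1 (Nat.lt_succ_iff.1 (i.2 s).2))
        _ = (Zb ^ D L) ^ (k - 2) := by
            rw [Finset.prod_const, Finset.card_univ, k8b1_card j0 i0 hij]
        _ ≤ (Zb ^ D L) ^ k := pow_le_pow_right₀ (one_le_pow₀ hZb1) (by omega)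
    · exact (pow_le_pow_left₀ (norm_nonneg _) (hxA i0) _).trans (pow_le_pow_right₀ hA i.1.2.le)
  rw [hev]
  have hEC := (Real.exp_pos (-((C + e0 + 1) * L))).le
  have hlW : ((c0 * L ^ (k - 2) : ℕ) : ℝ) * W ≤ Real.exp (L * e0) := by
    have h1 : ((c0 * L ^ (k - 2) : ℕ) : ℝ) * W = ((c0 : ℝ) * A ^ (N' + 1)) * ((L : ℝ) ^ (k - 2) * (Zb ^ D L) ^ k) := by
      rw [hW]
      push_cast
      ring
    have h2 : (c0 : ℝ) * A ^ (N' + 1) ≤ Real.exp (L * Real.log ((c0 : ℝ) * A ^ (N' + 1))) := by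
      have h3 : (c0 : ℝ) * A ^ (N' + 1) = Real.exp (Real.log ((c0 : ℝ) * A ^ (N' + 1))) :=
        (Real.exp_log (by linarith)).symm
      refine h3.le.trans (Real.exp_le_exp.2 ?_)
      exact le_mul_of_one_le_left (Real.log_nonneg hcA1) hL1
    have h3 : (L : ℝ) ^ (k - 2) ≤ Real.exp (k * L * Real.log 2) := by
      refine le_trans ?_ (bp5_card k L)
      calc (L : ℝ) ^ (k - 2) ≤ ((L : ℝ) + 1) ^ (k - 2) := pow_le_pow_left₀ (by linarith) (by linarith) _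
        _ ≤ ((L : ℝ) + 1) ^ k := pow_le_pow_right₀ (by linarith) (by omega)
    have h4 : (Zb ^ D L) ^ k = Real.exp (L * (((d0 : ℝ) + 1) * k * k * Real.log Zb)) := by
      rw [← pow_mul, bp5_pow Zb (by linarith), hD]
      push_cast
      congr 1
      ring
    rw [h1, h4]
    calc _ ≤ Real.exp (L * Real.log ((c0 : ℝ) * A ^ (N' + 1))) * (Real.exp (k * L * Real.log 2) *
          Real.exp (L * (((d0 : ℝ) + 1) * k * k * Real.log Zb))) := by
          refine mul_le_mul h2 ?_ (by positivity) (Real.exp_pos _).le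
          exact mul_le_mul_of_nonneg_right h3 (Real.exp_pos _).le
      _ = Real.exp (L * e0) := by
          rw [← Real.exp_add, ← Real.exp_add, he0]
          congr 1
          ring
  calc _ ≤ ∑ i : Fin (N' + 1) × ({i : Fin k // i ≠ i0 ∧ i ≠ j0} → Fin (D L + 1)),
        ‖(∑ α, (f α : ℂ) * MvPolynomial.coeff (Finsupp.equivFunOnFinite.symm fun s => (i.2 s : ℕ))
          (H (fun j => (α j : ℕ)) i.1) t) * ((∏ s, z s ^ (i.2 s : ℕ)) * x i0 ^ (i.1 : ℕ))‖ := norm_sum_le _ _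
    _ ≤ ∑ _i : Fin (N' + 1) × ({i : Fin k // i ≠ i0 ∧ i ≠ j0} → Fin (D L + 1)),
        Real.exp (-((C + e0 + 1) * L)) * W := by
        refine Finset.sum_le_sum fun i _ => ?_
        rw [norm_mul]
        exact mul_le_mul (hf2 i t ht) (hwt i) (norm_nonneg _) hEC
    _ = (Fintype.card (Fin (N' + 1) × ({i : Fin k // i ≠ i0 ∧ i ≠ j0} → Fin (D L + 1))) : ℝ) *
        (Real.exp (-((C + e0 + 1) * L)) * W) := by
        rw [Finset.sum_const, Finset.card_univ, nsmul_eq_mul]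
    _ ≤ ((c0 * L ^ (k - 2) : ℕ) : ℝ) * (Real.exp (-((C + e0 + 1) * L)) * W) := by
        refine mul_le_mul_of_nonneg_right ?_ (mul_nonneg hEC hW0)
        exact_mod_cast hcard L hL
    _ = (((c0 * L ^ (k - 2) : ℕ) : ℝ) * W) * Real.exp (-((C + e0 + 1) * L)) := by ring
    _ ≤ Real.exp (L * e0) * Real.exp (-((C + e0 + 1) * L)) := mul_le_mul_of_nonneg_right hlW hEC
    _ = Real.exp (-((C + 1) * L)) := by
        rw [← Real.exp_add]
        congr 1
        ring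
    _ < Real.exp (-(C * L)) := Real.exp_lt_exp.2 (by linarith)

end Pool.Agent.Z8
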