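import Pool.Agent.Z8.L1
import Pool.Agent.Z8.B1
import Pool.Agent.Z7.B3

namespace Pool.Agent.Z8

open Pool.Agent.ZL2 Filter Topology
open Pool.Agent.Z5 (fr Gen ev2 Alg)
open Pool.Agent.Z6 (dt)
open Pool.Agent.Z7 (lg Cv HHp Chart)

variable {k m : ℕ} [NeZero m]

/-- Small polynomials near the point `y2`. -/
def Good (S : Sk k m) (u : Fin m → ℝ) (M : Fin k → Fin m → ℝ) (y2 : Fin m → ℂ) : Prop :=
  ∃ O ∈ 𝓝 y2, ∀ C : ℝ, ∃ (L : ℕ) (f : (Fin k → Fin (L + 1)) → ℤ), 1 ≤ L ∧ f ≠ 0 ∧ (∀ α, |f α| ≤ 2 ^ L) ∧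
    ∀ (x : Fin k → ℂ) (y : Fin m → ℂ), y ∈ O → y ∈ S.C → dt u (lg y) = 0 → (∀ j, x j ≠ 0) →
      (∀ j, lg x j = dt (M j) (lg y)) → evk S.Φ x y = 0 →
        ‖ev f (Function.update x S.j0 (y 0))‖ < Real.exp (-(C * L))

omit [NeZero m] in
theorem k8b3_sp_eq (Φ : MvPolynomial (Fin k) (MvPolynomial (Fin m) ℂ)) (y : Fin m → ℂ) :
    sp Φ y = ∑ α ∈ Φ.support, MvPolynomial.monomial α (MvPolynomial.eval y (Φ.coeff α)) := by
  unfold sp
  conv_lhs => rw [Φ.as_sum]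
  rw [map_sum]
  refine Finset.sum_congr rfl fun α _ => ?_
  rw [MvPolynomial.map_monomial]

omit [NeZero m] in
theorem k8b3_evk_eq (Φ : MvPolynomial (Fin k) (MvPolynomial (Fin m) ℂ)) (x : Fin k → ℂ) (y : Fin m → ℂ) :
    evk Φ x y = ∑ α ∈ Φ.support, MvPolynomial.eval y (Φ.coeff α) * ∏ j, x j ^ α j := by
  unfold evk sp
  rw [MvPolynomial.eval_map, MvPolynomial.eval₂_eq']

theorem k8b3_inj (s : Finset (Fin k →₀ ℕ)) (D : Fin k →₀ ℕ) (hD : ∀ α ∈ s, α ≤ D) :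
    Set.InjOn (fun α => D - α) (s : Set (Fin k →₀ ℕ)) := by
  intro α hα β hβ h
  have h' : D - α = D - β := h
  rw [← tsub_tsub_cancel_of_le (hD α hα), h', tsub_tsub_cancel_of_le (hD β hβ)]

/-- reversing a polynomial -/
theorem k8b3_alg (s : Finset (Fin k →₀ ℕ)) (D : Fin k →₀ ℕ) (hD : ∀ α ∈ s, α ≤ D) (a : (Fin k →₀ ℕ) → ℂ)
    (r x : Fin k → ℂ) (hx : ∀ j, x j ≠ 0) :
    ∑ β ∈ s.image (fun α => D - α), (a (D - β) * ∏ j, r j ^ (D - β) j) * ∏ j, x j ^ β j =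
      (∏ j, x j ^ D j) * ∑ α ∈ s, a α * ∏ j, (r j / x j) ^ α j := by
  classical
  rw [Finset.sum_image (k8b3_inj s D hD), Finset.mul_sum]
  refine Finset.sum_congr rfl fun α hα => ?_
  have h1 : D - (D - α) = α := tsub_tsub_cancel_of_le (hD α hα)
  have h2 : ∀ j, x j ^ (D - α) j = x j ^ D j * (x j ^ α j)⁻¹ := by
    intro j
    rw [Finsupp.tsub_apply, pow_sub₀ _ (hx j) (hD α hα j)]
  simp only [h1, h2, div_pow]
  rw [Finset.prod_mul_distrib]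
  have h3 : ∏ j, r j ^ α j / x j ^ α j = (∏ j, r j ^ α j) * ∏ j, (x j ^ α j)⁻¹ := by
    rw [← Finset.prod_mul_distrib]
    exact Finset.prod_congr rfl fun j _ => div_eq_mul_inv _ _
  rw [h3]
  ring

theorem k8b3_conj (s : Finset (Fin k →₀ ℕ)) (a : (Fin k →₀ ℕ) → ℂ) (w : Fin k → ℂ) :
    ∑ α ∈ s, (starRingEnd ℂ) (a α) * ∏ j, w j ^ α j =
      (starRingEnd ℂ) (∑ α ∈ s, a α * ∏ j, (starRingEnd ℂ) (w j) ^ α j) := by
  rw [map_sum]
  refine Finset.sum_congr rfl fun α _ => ?_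
  simp only [map_mul, map_prod, map_pow, Complex.conj_conj]

/-- the support of the specialised polynomial -/
theorem k8b3_supp (S : Sk k m) {y : Fin m → ℂ} (hy : y ∈ S.C) (hyE : y ∉ S.E) :
    (sp S.Φ y).support = S.Φ.support := by
  ext α
  unfold sp
  rw [MvPolynomial.mem_support_iff, MvPolynomial.coeff_map, MvPolynomial.mem_support_iff]
  constructor
  · intro h h'
    rw [h', map_zero] at h
    exact h rfl
  · intro h
    exact S.coef y hy hyE α (MvPolynomial.mem_support_iff.2 h)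

theorem k8b3_rc (S : Sk k m) {y : Fin m → ℂ} (hy : y ∈ S.C) (hyE : y ∉ S.E) (r : Fin k → ℝ) :
    rc (sp S.Φ y) r = ∑ β ∈ S.Φ.support.image (fun α => S.Φ.support.sup id - α),
      MvPolynomial.monomial β ((starRingEnd ℂ) (MvPolynomial.eval y (S.Φ.coeff (S.Φ.support.sup id - β))) *
        ∏ j, (r j : ℂ) ^ (S.Φ.support.sup id - β) j) := by
  classical
  have hD : ∀ α ∈ S.Φ.support, α ≤ S.Φ.support.sup id := fun α hα => Finset.le_sup (f := id) hα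
  rw [Finset.sum_image (k8b3_inj _ _ hD)]
  unfold rc dg
  rw [k8b3_supp S hy hyE]
  refine Finset.sum_congr rfl fun α hα => ?_
  rw [tsub_tsub_cancel_of_le (hD α hα)]
  congr 3

/-- the Schwarz function and the functions `R j` -/
theorem k8b3_setup {D : Cv m} {y1 : Fin m → ℂ} {u : Fin m → ℝ}
    (hu : dt u (lg y1) = 0) {ρ : ℝ} {η ℓ : Fin m → ℂ → ℂ} (hch : Chart D y1 ρ η ℓ)
    (hcr : ∑ i, (u i : ℂ) * (deriv (η i) (y1 0) / η i (y1 0)) ≠ 0) (M : Fin k → Fin m → ℝ) :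
    ∃ (ρ2 : ℝ) (ζ : ℂ → ℂ) (R : Fin k → ℂ → ℂ), 0 < ρ2 ∧ ρ2 ≤ ρ ∧
      (∀ t ∈ Metric.ball (y1 0) ρ2, ζ t ∈ Metric.ball (y1 0) ρ ∧
        (∀ g : ℂ → ℂ, DifferentiableOn ℂ g (Metric.ball (y1 0) ρ) →
          DifferentiableAt ℂ (fun t => (starRingEnd ℂ) (g (ζ t))) t) ∧
        (∀ j, DifferentiableAt ℂ (R j) t) ∧
        (dt u (lg fun i => η i t) = 0 → ζ t = t ∧
          ∀ j, R j t = ((Real.exp (2 * dt (M j) (lg fun i => η i t)) : ℝ) : ℂ))) := by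
  have ht0m : y1 0 ∈ Metric.ball (y1 0) ρ := Metric.mem_ball_self hch.pos
  have hre : ∀ t ∈ Metric.ball (y1 0) ρ, (∑ i, (u i : ℂ) * ℓ i t).re = dt u (lg fun i => η i t) := by
    intro t ht
    rw [Complex.re_sum]
    unfold Z6.dt
    refine Finset.sum_congr rfl fun i _ => ?_
    rw [Complex.re_ofReal_mul, hch.re_eq i ht]
  have hfd : ∀ t ∈ Metric.ball (y1 0) ρ,
      HasDerivAt (fun t => ∑ i, (u i : ℂ) * ℓ i t) (∑ i, (u i : ℂ) * (deriv (η i) t / η i t)) t := by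
    intro t ht
    exact HasDerivAt.fun_sum (u := Finset.univ) (A := fun i t => (u i : ℂ) * ℓ i t)
      (A' := fun i => (u i : ℂ) * (deriv (η i) t / η i t)) (x := t)
      (fun i _ => (hch.der i t ht).const_mul _)
  have hb : (fun i => η i (y1 0)) = y1 := funext hch.base
  have hre0 : (∑ i, (u i : ℂ) * ℓ i (y1 0)).re = 0 := by
    rw [hre _ ht0m, hb]; exact hu
  obtain ⟨ρ1, hρ1, χ, hχ, hχ2⟩ := Pool.Agent.Z5.schwarz (f := fun t => ∑ i, (u i : ℂ) * ℓ i t) (t0 := y1 0)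
    (by
      filter_upwards [Metric.ball_mem_nhds (y1 0) hch.pos] with t ht
      exact (hfd t ht).differentiableAt)
    (by rw [(hfd _ ht0m).deriv]; exact hcr)
    hre0
  have hχ0 : χ (y1 0) = (starRingEnd ℂ) (y1 0) := hχ2 _ (Metric.mem_ball_self hρ1) hre0
  have hχc : ContinuousAt χ (y1 0) :=
    (hχ.differentiableAt (Metric.ball_mem_nhds (y1 0) hρ1)).continuousAt
  have hnear : ∀ᶠ t in 𝓝 (y1 0), (starRingEnd ℂ) (χ t) ∈ Metric.ball (y1 0) ρ := by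
    have h1 : ContinuousAt (fun t => (starRingEnd ℂ) (χ t)) (y1 0) :=
      Complex.continuous_conj.continuousAt.comp hχc
    have h2 : (starRingEnd ℂ) (χ (y1 0)) = y1 0 := by rw [hχ0, Complex.conj_conj]
    have h3 : Metric.ball (y1 0) ρ ∈ 𝓝 ((starRingEnd ℂ) (χ (y1 0))) := by
      rw [h2]; exact Metric.ball_mem_nhds _ hch.pos
    exact h1 h3
  have hev : ∀ᶠ t in 𝓝 (y1 0), t ∈ Metric.ball (y1 0) ρ ∧ t ∈ Metric.ball (y1 0) ρ1 ∧
      (starRingEnd ℂ) (χ t) ∈ Metric.ball (y1 0) ρ := by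
    filter_upwards [Metric.ball_mem_nhds _ hch.pos, Metric.ball_mem_nhds _ hρ1, hnear] with t a1 a2 a3
    exact ⟨a1, a2, a3⟩
  obtain ⟨ρ2', hρ2', hball⟩ := Metric.eventually_nhds_iff_ball.1 hev
  have hball' : ∀ t ∈ Metric.ball (y1 0) (min ρ2' ρ), t ∈ Metric.ball (y1 0) ρ ∧ t ∈ Metric.ball (y1 0) ρ1 ∧
      (starRingEnd ℂ) (χ t) ∈ Metric.ball (y1 0) ρ := fun t ht =>
    hball t (Metric.ball_subset_ball (min_le_left _ _) ht)
  have hcc : ∀ g : ℂ → ℂ, DifferentiableOn ℂ g (Metric.ball (y1 0) ρ) →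
      ∀ t ∈ Metric.ball (y1 0) (min ρ2' ρ),
        DifferentiableAt ℂ (fun t => (starRingEnd ℂ) (g ((starRingEnd ℂ) (χ t)))) t := by
    intro g hg t ht
    obtain ⟨a1, a2, a3⟩ := hball' t ht
    have h3 : DifferentiableAt ℂ (fun s => (starRingEnd ℂ) (g ((starRingEnd ℂ) s))) (χ t) := by
      have h4 := (hg.differentiableAt (Metric.isOpen_ball.mem_nhds a3)).conj_conj
      rw [Complex.conj_conj] at h4
      exact h4
    exact h3.comp t (hχ.differentiableAt (Metric.isOpen_ball.mem_nhds a2))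
  have hℓd : ∀ i, DifferentiableOn ℂ (ℓ i) (Metric.ball (y1 0) ρ) := fun i t ht =>
    (hch.der i t ht).differentiableAt.differentiableWithinAt
  refine ⟨min ρ2' ρ, fun t => (starRingEnd ℂ) (χ t), fun j t => Complex.exp (2 * ∑ i, (M j i : ℂ) *
    ((ℓ i t + (starRingEnd ℂ) (ℓ i ((starRingEnd ℂ) (χ t)))) / 2)), lt_min hρ2' hch.pos, min_le_right _ _, ?_⟩
  intro t ht
  obtain ⟨a1, a2, a3⟩ := hball' t ht
  refine ⟨a3, fun g hg => hcc g hg t ht, ?_, ?_⟩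
  · intro j
    refine DifferentiableAt.cexp ?_
    refine DifferentiableAt.const_mul ?_ _
    refine DifferentiableAt.fun_sum fun i _ => ?_
    refine DifferentiableAt.const_mul ?_ _
    exact ((hch.der i t a1).differentiableAt.add (hcc (ℓ i) (hℓd i) t ht)).div_const 2
  · intro h2
    have e1 : (starRingEnd ℂ) (χ t) = t := by
      rw [hχ2 t a2 (by rw [hre t a1]; exact h2), Complex.conj_conj]
    refine ⟨e1, fun j => ?_⟩
    have e2 : ∑ i, (M j i : ℂ) * ((ℓ i t + (starRingEnd ℂ) (ℓ i ((starRingEnd ℂ) (χ t)))) / 2) =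
        ((dt (M j) (lg fun i => η i t) : ℝ) : ℂ) := by
      unfold Z6.dt
      push_cast
      refine Finset.sum_congr rfl fun i _ => ?_
      rw [e1, Complex.add_conj, hch.re_eq i a1]
      push_cast
      ring
    show Complex.exp (2 * ∑ i, (M j i : ℂ) *
      ((ℓ i t + (starRingEnd ℂ) (ℓ i ((starRingEnd ℂ) (χ t)))) / 2)) = _
    rw [e2]
    push_cast
    rfl

/-- the equation without `x_j0` over the holomorphic functions near `y1` -/
theorem k8b3_eq (S : Sk k m) {y1 : Fin m → ℂ} (hy : y1 ∈ S.C) (hyE : y1 ∉ S.E) {u : Fin m → ℝ}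
    (hu : dt u (lg y1) = 0) {ρ : ℝ} {η ℓ : Fin m → ℂ → ℂ} (hch : Chart S.toCv y1 ρ η ℓ)
    (hcr : ∑ i, (u i : ℂ) * (deriv (η i) (y1 0) / η i (y1 0)) ≠ 0)
    (hacc : ∀ O ∈ 𝓝 y1, ∃ y ∈ O, y ∈ S.C ∧ y 0 ≠ y1 0 ∧ dt u (lg y) = 0) (M : Fin k → Fin m → ℝ) :
    ∃ (ρ2 : ℝ) (sc : Finset (Fin k →₀ ℕ)) (c : (Fin k →₀ ℕ) → ℂ → ℂ), 0 < ρ2 ∧ ρ2 ≤ ρ ∧
      (∀ γ, DifferentiableOn ℂ (c γ) (Metric.ball (y1 0) ρ2)) ∧
      (∀ γ ∈ sc, γ S.j0 = 0) ∧ (∃ γ ∈ sc, ∃ t ∈ Metric.ball (y1 0) ρ2, c γ t ≠ 0) ∧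
      ∀ (x : Fin k → ℂ) (y : Fin m → ℂ), y 0 ∈ Metric.ball (y1 0) ρ2 → (∀ i, y i = η i (y 0)) →
        dt u (lg y) = 0 → (∀ j, x j ≠ 0) → (∀ j, lg x j = dt (M j) (lg y)) → evk S.Φ x y = 0 →
        ∑ γ ∈ sc, c γ (y 0) * ∏ j, x j ^ γ j = 0 := by
  classical
  have hu0 : u ≠ 0 := by
    rintro rfl
    apply hcr
    refine Finset.sum_eq_zero fun i _ => ?_
    rw [Pi.zero_apply, Complex.ofReal_zero, zero_mul]
  obtain ⟨ρ2, ζ, R, hρ2, hle, hZ⟩ := k8b3_setup hu hch hcr M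
  have hsub : Metric.ball (y1 0) ρ2 ⊆ Metric.ball (y1 0) ρ := Metric.ball_subset_ball hle
  obtain ⟨D, hDd⟩ : ∃ D : Fin k →₀ ℕ, D = S.Φ.support.sup id := ⟨_, rfl⟩
  have hD : ∀ α ∈ S.Φ.support, α ≤ D := fun α hα => hDd ▸ Finset.le_sup (f := id) hα
  obtain ⟨a, ha⟩ : ∃ a : (Fin k →₀ ℕ) → ℂ → ℂ, a = fun α t => MvPolynomial.eval (fun i => η i t) (S.Φ.coeff α) :=
    ⟨_, rfl⟩
  obtain ⟨b, hb⟩ : ∃ b : (Fin k →₀ ℕ) → ℂ → ℂ, b = fun β t =>
    (starRingEnd ℂ) (a (D - β) (ζ t)) * ∏ j, R j t ^ (D - β) j := ⟨_, rfl⟩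
  have had : ∀ α, DifferentiableOn ℂ (a α) (Metric.ball (y1 0) ρ) := by
    intro α t ht
    rw [ha]
    exact (Pool.Agent.Z7.b3_poly_diff (fun i => (hch.diff i).differentiableAt (Metric.isOpen_ball.mem_nhds ht))
      _).differentiableWithinAt
  have hbd : ∀ β, DifferentiableOn ℂ (b β) (Metric.ball (y1 0) ρ2) := by
    intro β t ht
    obtain ⟨-, h1, h2, -⟩ := hZ t ht
    rw [hb]
    refine DifferentiableAt.differentiableWithinAt ?_
    refine (h1 _ (had _)).mul ?_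
    exact DifferentiableAt.fun_finsetProd fun j _ => (h2 j).pow _
  -- the second sum
  have hsum : ∀ (t : ℂ) (x : Fin k → ℂ), (∀ j, x j ≠ 0) →
      ∑ β ∈ S.Φ.support.image (fun α => D - α), b β t * ∏ j, x j ^ β j =
        (∏ j, x j ^ D j) * (starRingEnd ℂ) (∑ α ∈ S.Φ.support, a α (ζ t) *
          ∏ j, (starRingEnd ℂ) (R j t / x j) ^ α j) := by
    intro t x hx
    rw [← k8b3_conj]
    have := k8b3_alg S.Φ.support D hD (fun α => (starRingEnd ℂ) (a α (ζ t))) (fun j => R j t) x hx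
    rw [← this, hb]
  -- the value of the first sum
  have hev : ∀ (y : Fin m → ℂ) (x : Fin k → ℂ), (∀ i, y i = η i (y 0)) →
      ∑ α ∈ S.Φ.support, a α (y 0) * ∏ j, x j ^ α j = evk S.Φ x y := by
    intro y x h
    rw [k8b3_evk_eq, ha]
    have : (fun i => η i (y 0)) = y := funext fun i => (h i).symm
    simp only [this]
  obtain ⟨sc, c, hc, hcj, hc0, hcx⟩ := elim S.j0 hρ2 S.Φ.support (S.Φ.support.image (fun α => D - α)) a b
    (fun α => (had α).mono hsub) hbd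
    (by
      intro O hO
      have hc0 : ContinuousAt (fun y : Fin m → ℂ => y 0) y1 := (continuous_apply 0).continuousAt
      have hE : ∀ᶠ y in 𝓝 y1, y ∉ S.E := S.hE.isClosed.isOpen_compl.mem_nhds hyE
      have hW : ∀ᶠ y in 𝓝 y1, y 0 ∈ O ∧ y 0 ∈ Metric.ball (y1 0) ρ2 ∧ y ∉ S.E ∧
          (y ∈ S.C → y 0 ∈ Metric.ball (y1 0) ρ ∧ ∀ i, y i = η i (y 0)) := by
        filter_upwards [hc0.eventually_mem hO, hc0.eventually_mem (Metric.ball_mem_nhds _ hρ2), hE,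
          hch.uniq] with y q1 q2 q3 q4
        exact ⟨q1, q2, q3, q4⟩
      obtain ⟨y, ⟨q1, q2, q3, q4⟩, hyC, -, hne, hlev, hrel⟩ := S.nrec u hu0 y1 hy hyE hacc _ hW
      have q5 := (q4 hyC).2
      have hyy : (fun i => η i (y 0)) = y := funext fun i => (q5 i).symm
      obtain ⟨-, -, -, hz⟩ := hZ _ q2
      rw [hyy] at hz
      obtain ⟨hz1, hz2⟩ := hz hlev
      refine ⟨y 0, q1, q2, hne, ?_⟩
      have e1 : ∑ α ∈ S.Φ.support, MvPolynomial.monomial α (a α (y 0)) = sp S.Φ y := by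
        rw [k8b3_sp_eq, ha]
        simp only [hyy]
      have e2 : ∑ β ∈ S.Φ.support.image (fun α => D - α), MvPolynomial.monomial β (b β (y 0)) =
          rc (sp S.Φ y) (fun j => Real.exp (2 * dt (M j) (lg y))) := by
        rw [k8b3_rc S hyC q3, ← hDd, hb, ha]
        refine Finset.sum_congr rfl fun β _ => ?_
        simp only [hz1, hyy, hz2]
      rw [e1, e2]
      exact hrel (fun j => Real.exp (2 * dt (M j) (lg y))) fun j => Real.exp_pos _)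
  refine ⟨ρ2, sc, c, hρ2, hle, hc, hcj, hc0, ?_⟩
  intro x y hy2 hyη hlev hx0 hxM hΦ
  have hyy : (fun i => η i (y 0)) = y := funext fun i => (hyη i).symm
  obtain ⟨-, -, -, hz⟩ := hZ _ hy2
  rw [hyy] at hz
  obtain ⟨hz1, hz2⟩ := hz hlev
  refine hcx _ hy2 x ?_ ?_
  · rw [hev y x hyη]; exact hΦ
  · rw [hsum _ x hx0, hz1, hev y _ hyη]
    have hw : (fun j => (starRingEnd ℂ) (R j (y 0) / x j)) = x := by
      funext j
      have h1 : ‖x j‖ = Real.exp (dt (M j) (lg y)) := by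
        rw [← hxM j]
        exact (Real.exp_log (norm_pos_iff.2 (hx0 j))).symm
      have h2 : ((Real.exp (2 * dt (M j) (lg y)) : ℝ) : ℂ) = (starRingEnd ℂ) (x j) * x j := by
        rw [mul_comm ((starRingEnd ℂ) (x j)), Complex.mul_conj, Complex.normSq_eq_norm_sq, h1, ← Real.exp_nat_mul]
        push_cast
        rfl
      rw [hz2 j, h2, mul_div_assoc, div_self (hx0 j), mul_one, Complex.conj_conj]
    rw [hw, hΦ, map_zero, mul_zero]

/-- Row Z8-B3. As `Z7.local_small`. The conjugate equation: multiply the conjugate of `Φ(x, y) = 0` (with `conj x_j = R_j(t) / x_j`) by `x^D`, `D = dg (sp Φ y)` = the sup of the support of `Φ` (all coefficients are nonzero at `y ∉ E`): at the `t = y 0` of the level curve the second polynomial is exactly `rc (sp Φ y) r`, `r_j = R_j(t) = exp (2 dt (M j) (lg y)) > 0`, and the first is `sp Φ y`: `S.nrec` gives `hrp` of `elim`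
(at the `t = y 0`, `y ∈ C` near `y1` on the level curve, `hacc`). Then `elim` with `j0 = S.j0`, `monic_near`, `arc_small` near every other `t2`. -/
theorem local_small (hk : 2 ≤ k) (S : Sk k m) {y1 : Fin m → ℂ} (hy : y1 ∈ S.C) (hyE : y1 ∉ S.E) {u : Fin m → ℝ}
    (hu : dt u (lg y1) = 0) {ρ : ℝ} {η ℓ : Fin m → ℂ → ℂ} (hch : Chart S.toCv y1 ρ η ℓ)
    (hcr : ∑ i, (u i : ℂ) * (deriv (η i) (y1 0) / η i (y1 0)) ≠ 0)
    (hacc : ∀ O ∈ 𝓝 y1, ∃ y ∈ O, y ∈ S.C ∧ y 0 ≠ y1 0 ∧ dt u (lg y) = 0) (M : Fin k → Fin m → ℝ) :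
    ∃ O ∈ 𝓝 y1, ∀ y2 ∈ O, y2 ∈ S.C → dt u (lg y2) = 0 → y2 ≠ y1 → Good S u M y2 := by
  obtain ⟨ρ2, sc, c, hρ2, hle, hc, hcj, hc0, hx⟩ := k8b3_eq S hy hyE hu hch hcr hacc M
  obtain ⟨i0, l, ρ3, hij, hρ3, hle3, hmon⟩ := monic_near hk S.j0 hρ2 sc c hc hcj hc0
  have hcont : ∀ w : Fin m → ℂ, ContinuousAt (fun y : Fin m → ℂ => y 0) w := fun w =>
    (continuous_apply 0).continuousAt
  have hall : ∀ᶠ y in 𝓝 y1, (∀ᶠ z in 𝓝 y, z ∈ S.C → z 0 ∈ Metric.ball (y1 0) ρ ∧ ∀ i, z i = η i (z 0)) ∧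
      y 0 ∈ Metric.ball (y1 0) ρ3 := by
    filter_upwards [hch.uniq.eventually_nhds, (hcont y1).eventually_mem (Metric.ball_mem_nhds _ hρ3)]
      with y h1 h2
    exact ⟨h1, h2⟩
  refine ⟨_, hall, ?_⟩
  rintro y2 ⟨h1, h2⟩ hy2 hlev2 hne
  have h3 := (h1.self_of_nhds hy2).2
  have hne0 : y2 0 ≠ y1 0 := by
    intro e
    apply hne
    funext i
    rw [h3 i, e, hch.base i]
  obtain ⟨N', ρ', A, se, e, hN', hρ', hA, hsub', hed, heA, hse, hdeg, hex⟩ := hmon _ h2 hne0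
  -- the bound of `x j`
  have hdt : ∀ j, ContinuousAt (fun y : Fin m → ℂ => dt (M j) (lg y)) y2 := by
    intro j
    unfold Z6.dt
    refine tendsto_finsetSum _ fun i _ => ?_
    exact (Pool.Agent.Z7.continuousAt_lg (S.ne y2 hy2 i)).const_mul (M j i)
  have hdt2 : ∀ᶠ y in 𝓝 y2, ∀ j, dt (M j) (lg y) < dt (M j) (lg y2) + 1 := by
    rw [eventually_all]
    intro j
    exact (hdt j).eventually (gt_mem_nhds (by linarith))
  obtain ⟨A2, hA2⟩ : ∃ A2 : ℝ, A2 = A + ‖y2 0‖ + ρ' + ∑ j, Real.exp (dt (M j) (lg y2) + 1) := ⟨_, rfl⟩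
  have p1 := norm_nonneg (y2 0)
  have p2 : 0 ≤ ∑ j, Real.exp (dt (M j) (lg y2) + 1) := Finset.sum_nonneg fun j _ => (Real.exp_pos _).le
  have p3 : ∀ j, Real.exp (dt (M j) (lg y2) + 1) ≤ ∑ j, Real.exp (dt (M j) (lg y2) + 1) := fun j =>
    Finset.single_le_sum (f := fun j => Real.exp (dt (M j) (lg y2) + 1)) (fun j _ => (Real.exp_pos _).le)
      (Finset.mem_univ j)
  have hO : ∀ᶠ y in 𝓝 y2, (y ∈ S.C → y 0 ∈ Metric.ball (y1 0) ρ ∧ ∀ i, y i = η i (y 0)) ∧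
      y 0 ∈ Metric.ball (y2 0) (ρ' / 2) ∧ ∀ j, dt (M j) (lg y) < dt (M j) (lg y2) + 1 := by
    filter_upwards [h1, (hcont y2).eventually_mem (Metric.ball_mem_nhds _ (half_pos hρ')), hdt2]
      with y q1 q2 q3
    exact ⟨q1, q2, q3⟩
  refine ⟨_, hO, fun C => ?_⟩
  obtain ⟨L, f, hL, hf, hfL, hsm⟩ := arc_small hk S.j0 i0 hij l N' hN' (y2 0) ρ' A2 hρ' (by linarith) se e hed
    (fun a γ t ht => (heA a γ t ht).trans (by linarith)) hse hdeg
    (by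
      intro t ht
      have q : ‖t - y2 0‖ < ρ' := by rwa [Metric.mem_ball, dist_eq_norm] at ht
      have q2 : ‖t‖ ≤ ‖t - y2 0‖ + ‖y2 0‖ := by
        have := norm_add_le (t - y2 0) (y2 0)
        rwa [sub_add_cancel] at this
      linarith) C
  refine ⟨L, f, hL, hf, hfL, ?_⟩
  rintro x y ⟨q1, q2, q3⟩ hyC hlev hx0 hxM hΦ
  have q4 := (q1 hyC).2
  have q5 : y 0 ∈ Metric.ball (y2 0) ρ' := Metric.ball_subset_ball (by linarith) q2
  have q6 : ∑ γ ∈ sc, c γ (y 0) * ∏ j, x j ^ γ j = 0 := hx x y (hsub' q5) q4 hlev hx0 hxM hΦ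
  refine hsm x (y 0) ?_ ?_ (hex _ q5 _ q6)
  · rw [Metric.mem_ball, dist_eq_norm] at q2
    exact q2.le
  · intro j
    have h4 : ‖x j‖ = Real.exp (dt (M j) (lg y)) := by
      rw [← hxM j]
      exact (Real.exp_log (norm_pos_iff.2 (hx0 j))).symm
    have h5 : Real.exp (dt (M j) (lg y)) ≤ Real.exp (dt (M j) (lg y2) + 1) := Real.exp_le_exp.2 (q3 j).le
    have h6 := p3 j
    rw [h4]
    linarith

end Pool.Agent.Z8
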