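import Pool.Agent.Z7.Defs
import Pool.Agent.Z7.A2

namespace Pool.Agent.Z8

open Pool.Agent.ZL2 Filter Topology
open Pool.Agent.Z5 (fr Gen ev2)
open Pool.Agent.Z6 (dt)
open Pool.Agent.Z7 (lg Cv HHp Chart)

variable {k m : ℕ}

/-- The polynomial in `x` obtained by fixing `y`. -/
noncomputable def sp (Φ : MvPolynomial (Fin k) (MvPolynomial (Fin m) ℂ)) (y : Fin m → ℂ) : MvPolynomial (Fin k) ℂ :=
  MvPolynomial.map (MvPolynomial.eval y) Φ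

/-- The value at `(x, y)` of a polynomial in `x` with coefficients in `ℂ[y]`. -/
noncomputable def evk (Φ : MvPolynomial (Fin k) (MvPolynomial (Fin m) ℂ)) (x : Fin k → ℂ) (y : Fin m → ℂ) : ℂ :=
  MvPolynomial.eval x (sp Φ y)

/-- The vector of the degrees in the variables. -/
noncomputable def dg (P : MvPolynomial (Fin k) ℂ) : Fin k →₀ ℕ := P.support.sup id

/-- The reciprocal polynomial `x^D conj(P)(r / x)`, `D` = the degrees of `P`. -/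
noncomputable def rc (P : MvPolynomial (Fin k) ℂ) (r : Fin k → ℝ) : MvPolynomial (Fin k) ℂ :=
  ∑ α ∈ P.support, MvPolynomial.monomial (dg P - α) ((starRingEnd ℂ) (P.coeff α) * ∏ j, (r j : ℂ) ^ α j)

/-- The data of a hypersurface bundle `Φ(x, y) = 0`, `y ∈ C`, in the product of the torus of dimension `k` and `C`. The
variable `x_j0` is the one which is eliminated. -/
structure Sk (k m : ℕ) [NeZero m] extends Cv m where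
  Φ : MvPolynomial (Fin k) (MvPolynomial (Fin m) ℂ)
  nd : ∀ j : Fin k, ∃ α ∈ Φ.support, α j = 0
  full : ∀ e : Fin k → ℤ, e ≠ 0 → ∃ α ∈ Φ.support, ∃ β ∈ Φ.support, ∑ j, e j * (α j : ℤ) ≠ ∑ j, e j * (β j : ℤ)
  coef : ∀ y ∈ C, y ∉ E → ∀ α ∈ Φ.support, MvPolynomial.eval y (Φ.coeff α) ≠ 0
  nrec : ∀ u : Fin m → ℝ, u ≠ 0 → ∀ y1 ∈ C, y1 ∉ E → (∀ O ∈ 𝓝 y1, ∃ y ∈ O, y ∈ C ∧ y 0 ≠ y1 0 ∧ dt u (lg y) = 0) →
    ∀ O ∈ 𝓝 y1, ∃ y ∈ O, y ∈ C ∧ y ∉ E ∧ y 0 ≠ y1 0 ∧ dt u (lg y) = 0 ∧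
      ∀ r : Fin k → ℝ, (∀ j, 0 < r j) → IsRelPrime (sp Φ y) (rc (sp Φ y) r)
  j0 : Fin k

variable [NeZero m]

/-- The row of the direction `α - β`. -/
def rwk (M : Fin k → Fin m → ℝ) (α β : Fin k →₀ ℕ) : Fin m → ℝ :=
  fun i => ∑ j, ((α j : ℝ) - (β j : ℝ)) * M j i

/-- The part of `Φ` of degree `c` for the cocharacter `e`. -/
noncomputable def lev (Φ : MvPolynomial (Fin k) (MvPolynomial (Fin m) ℂ)) (e : Fin k → ℤ) (c : ℤ) :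
    Finset (Fin k →₀ ℕ) := Φ.support.filter (fun α => ∑ j, e j * (α j : ℤ) = c)

/-- A sequence of Galois orbits of points `(x, y)` of `S` with the relations `u · log |y| = 0`,
`log |x_j| = M_j · log |y|`; the level sums of `Φ` do not vanish at the points. -/
structure Sq (S : Sk k m) (U : Ultrafilter ℕ) where
  ι : ℕ → Type
  fin : ∀ n, Fintype (ι n)
  ne : ∀ n, Nonempty (ι n)
  x : ∀ n, ι n → Fin k → ℂ
  y : ∀ n, ι n → Fin m → ℂ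
  u : ℕ → Fin m → ℝ
  M : ℕ → Fin k → Fin m → ℝ
  B : ℝ
  κ : ℝ
  hx : ∀ n σ j, x n σ j ≠ 0
  hy : ∀ n σ, y n σ ∈ S.C
  hyE : ∀ n σ, y n σ ∉ S.E
  hΦ : ∀ n σ, evk S.Φ (x n σ) (y n σ) = 0
  hu : ∀ n, dt (u n) (u n) = 1
  hM : ∀ n j, dt (M n j) (u n) = 0
  r0 : ∀ n σ, dt (u n) (lg (y n σ)) = 0
  r1 : ∀ n σ j, lg (x n σ) j = dt (M n j) (lg (y n σ))
  hB : ∀ n i, ∑ σ, |lg (y n σ) i| ≤ B * Fintype.card (ι n)
  gen : Gen (k := 1) (U : Filter ℕ) κ (fun n σ _ => y n σ 0)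
  lev0 : ∀ n σ (e : Fin k → ℤ) (c : ℤ), e ≠ 0 → (lev S.Φ e c).Nonempty →
    ∑ α ∈ lev S.Φ e c, MvPolynomial.eval (y n σ) (S.Φ.coeff α) * ∏ j, x n σ j ^ α j ≠ 0
  big : ∀ (e : Fin k → ℤ) (c : ℤ) (A : ℝ), e ≠ 0 → ∃ C0 : ℝ, ∀ n,
    (∀ α ∈ lev S.Φ e c, ∀ β ∈ lev S.Φ e c, ∑ i, |rwk (M n) α β i| ≤ A) → ∀ α ∈ lev S.Φ e c,
      ∑ σ, |Real.log ‖∑ β ∈ lev S.Φ e c, MvPolynomial.eval (y n σ) (S.Φ.coeff β) * ∏ j, x n σ j ^ β j‖ -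
        ∑ j, (α j : ℝ) * lg (x n σ) j| ≤ C0 * Fintype.card (ι n)

attribute [instance] Sq.fin Sq.ne

/-- `|M| ≤ A` eventually. -/
def Sq.Bdd {S : Sk k m} {U : Ultrafilter ℕ} (Z : Sq S U) (A : ℝ) : Prop :=
  ∀ᶠ n in (U : Filter ℕ), ∀ j i, |Z.M n j i| ≤ A

end Pool.Agent.Z8
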