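import Pool.Agent.Z8.K0
import Pool.Agent.Z8.A4
import Pool.Agent.Z8.B4
import Pool.Agent.Z7.E2
import Pool.Agent.Z7.E6

namespace Pool.Agent.Z8

open Pool.Agent.ZL2 Filter Topology
open Pool.Agent.Z5 (fr Gen ev2 sum_le_hh bp_ineq)
open Pool.Agent.Z6 (dt)
open Pool.Agent.Z7 (lg Cv HHp Chart Rat)

variable {F : Type} [Field F] [NumberField F] [Algebra F ℂ] {k m : ℕ} [NeZero m] {S : Sk k m}

theorem ArM.bdd (A : ArM F S) (U : Ultrafilter ℕ) (hU : (U : Filter ℕ) ≤ cofinite) : ∃ A0, (A.sq U hU).Bdd A0 :=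
  bddM A.hm A.hH (A.sq U hU)

/-- Row Z8-E2a. No generic sequence with bounded slopes: as `Z7.ArM.exists_eq` (heights of the `x n j` from `r1` and the bounded `M`, `bp_ineq`, `hgen`, `core1` of row B4) for the points `Function.update (x n) S.j0 (y n 0)`, `U = hyperfilter ℕ`. -/
theorem ArM.false (A : ArM F S) : False := by
  obtain ⟨U, hUc⟩ : ∃ U : Ultrafilter ℕ, (U : Filter ℕ) ≤ cofinite := ⟨hyperfilter ℕ, hyperfilter_le_cofinite⟩
  obtain ⟨A0, hA0⟩ := A.bdd U hUc
  have hA : ∀ᶠ n in (U : Filter ℕ), ∀ j i, |A.M n j i| ≤ A0 := hA0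
  have hX : ∀ᶠ n in (U : Filter ℕ), ∀ j, hh (A.x n j) ≤ (m * |m * A0| * |A.B0| + 0) * Module.finrank ℚ (A.K n) := by
    filter_upwards [hA] with n hn j
    refine Z6.n2_row (e := 1) (r := A.M n j) (A.hx n j) one_ne_zero (A.y_ne n) ?_
      (A.hB0.2 n (A.u n) (A.hu n) (A.r0 n)).1 (by rw [Z5.n2_hh_one, zero_mul]) ?_
    · calc ∑ i, |A.M n j i| ≤ ∑ _i : Fin m, A0 := Finset.sum_le_sum fun i _ => hn j i
        _ = m * A0 := by simp
    · intro p
      rw [A.r1 n p j, lv_one, add_zero]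
  obtain ⟨B0, hB⟩ : ∃ B0 : ℝ, B0 = max (m * |m * A0| * |A.B0| + 0) A.B0 := ⟨_, rfl⟩
  have hG : Gen (k := k) (U : Filter ℕ)
      ((Module.finrank ℚ F : ℝ) * ((k : ℝ) * B0 + ((k : ℝ) + 1) * Real.log 2))
      (fun n (σ : A.K n →ₐ[F] ℂ) => Function.update (fun j => σ (A.x n j)) S.j0 (σ (A.y n 0))) := by
    intro L f hL hf hfB C' hC'
    have hev : ∀ᶠ n in (U : Filter ℕ), ev f (Function.update (A.x n) S.j0 (A.y n 0)) ≠ 0 := hUc (A.hgen L f hf)
    filter_upwards [hX, hev] with n h1 h3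
    have hDn : (0 : ℝ) ≤ (Module.finrank ℚ (A.K n) : ℝ) := Nat.cast_nonneg _
    have key := bp_ineq (F := F) (K := A.K n) hL f hfB (Function.update (A.x n) S.j0 (A.y n 0)) (by
      intro l
      rcases eq_or_ne l S.j0 with rfl | hl
      · rw [Function.update_self]
        exact A.y_ne n 0
      · rw [Function.update_of_ne hl]
        exact A.hx n l) (B := B0) (by
      intro l
      rcases eq_or_ne l S.j0 with rfl | hl
      · rw [Function.update_self]
        refine ((A.hB0.2 n (A.u n) (A.hu n) (A.r0 n)).1 0).trans (mul_le_mul_of_nonneg_right ?_ hDn)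
        rw [hB]
        exact le_max_right _ _
      · rw [Function.update_of_ne hl]
        refine (h1 l).trans (mul_le_mul_of_nonneg_right ?_ hDn)
        rw [hB]
        exact le_max_left _ _) h3 hC'
    have e : ∀ σ : A.K n →ₐ[F] ℂ, (Function.update (fun j => σ (A.x n j)) S.j0 (σ (A.y n 0)) : Fin k → ℂ) =
        fun l => σ (Function.update (A.x n) S.j0 (A.y n 0) l) := by
      intro σ
      funext l
      rcases eq_or_ne l S.j0 with rfl | hl
      · rw [Function.update_self, Function.update_self]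
      · rw [Function.update_of_ne hl, Function.update_of_ne hl]
    simp only [e]
    exact key
  exact core1 A.hk (A.sq U hUc) hA0 hG

/-- The points of `G_m^(k+m)`. -/
def Ar.pt (A : Ar F S) (n : ℕ) : Fin k ⊕ Fin m → A.K n := Sum.elim (A.x n) (A.y n)

/-- The real relations. -/
def Ar.N (A : Ar F S) (n : ℕ) : Submodule ℝ (Fin k ⊕ Fin m → ℝ) where
  carrier := {w | ∀ p : Pl (A.K n), ∑ i, w i * lv p (A.pt n i) = 0}
  add_mem' {v w} hv hw p := by
    have h : ∑ i, (v + w) i * lv p (A.pt n i) =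
        ∑ i, v i * lv p (A.pt n i) + ∑ i, w i * lv p (A.pt n i) := by
      rw [← Finset.sum_add_distrib]
      exact Finset.sum_congr rfl fun i _ => by rw [Pi.add_apply, add_mul]
    rw [h, hv p, hw p, add_zero]
  zero_mem' p := by simp
  smul_mem' r w hw p := by
    have h : ∑ i, (r • w) i * lv p (A.pt n i) = r * ∑ i, w i * lv p (A.pt n i) := by
      rw [Finset.mul_sum]
      exact Finset.sum_congr rfl fun i _ => by rw [Pi.smul_apply, smul_eq_mul, mul_assoc]
    rw [h, hw p, mul_zero]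

/-- A subsequence. -/
def Ar.comp (A : Ar F S) (φ : ℕ → ℕ) (hφ : Function.Injective φ) : Ar F S where
  hk := A.hk
  hm := A.hm
  rat := A.rat
  hH := A.hH
  inf := A.inf
  Φ := A.Φ
  hΦ := A.hΦ
  K n := A.K (φ n)
  j n := A.j (φ n)
  x n := A.x (φ n)
  y n := A.y (φ n)
  hx n := A.hx (φ n)
  hy n := A.hy (φ n)
  hyE n := A.hyE (φ n)
  hP n := A.hP (φ n)
  hsub n := A.hsub (φ n)
  hgen L f hf := hφ.tendsto_cofinite.eventually (A.hgen L f hf)

/-- Row Z8-E2b. As `Z7.Ar.finite_two`. -/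
theorem Ar.finite_two (A : Ar F S) : {n : ℕ | ∃ u v : Fin m → ℝ, dt u u = 1 ∧ dt v v = 1 ∧ dt u v = 0 ∧
    (∀ p : Pl (A.K n), ∑ i, u i * lv p (A.y n i) = 0) ∧ (∀ p : Pl (A.K n), ∑ i, v i * lv p (A.y n i) = 0)}.Finite := by
  classical
  by_contra hcon
  obtain ⟨φ, hφ, hm⟩ := Pool.Agent.Z5.k3_sub hcon
  choose u v a1 a2 a3 a4 a5 using hm
  exact (A.comp _ hφ).no_two u v a1 a2 a3 (fun n p => a4 n p) (fun n p => a5 n p)

/-- Row Z8-E2c. As the proof of `Z7.Ar.main`: `dichotomy` (row N3), `finite_two`, then an `ArM` along a subsequence and `ArM.false`. -/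
theorem Ar.main (A : Ar F S) (hN : ∀ n, k + 1 ≤ Module.finrank ℝ (A.N n)) : False := by
  classical
  have hdich := fun n => dichotomy (A.N n) (hN n)
  have hY : ∀ n (u : Fin m → ℝ), inY u ∈ A.N n → ∀ p : Pl (A.K n), ∑ i, u i * lv p (A.y n i) = 0 := by
    intro n u h p
    have h1 : ∑ l, inY u l * lv p (A.pt n l) = 0 := h p
    rw [Fintype.sum_sum_type] at h1
    have h2 : ∑ x : Fin k, inY u (Sum.inl x) * lv p (A.pt n (Sum.inl x)) = 0 :=
      Finset.sum_eq_zero fun x _ => by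
        show (0 : ℝ) * _ = 0
        rw [zero_mul]
    rw [h2, zero_add] at h1
    exact h1
  have hXr : ∀ n (j : Fin k) (w : Fin m → ℝ), inX j w ∈ A.N n → ∀ p : Pl (A.K n),
      lv p (A.x n j) = ∑ i, w i * lv p (A.y n i) := by
    intro n j w h p
    have h1 : ∑ l, inX j w l * lv p (A.pt n l) = 0 := h p
    rw [Fintype.sum_sum_type] at h1
    have h2 : ∑ x : Fin k, inX j w (Sum.inl x) * lv p (A.pt n (Sum.inl x)) = lv p (A.x n j) := by
      rw [Finset.sum_eq_single j]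
      · show (Pi.single j 1 : Fin k → ℝ) j * lv p (A.x n j) = _
        rw [Pi.single_eq_same, one_mul]
      · intro x _ hx
        show (Pi.single j 1 : Fin k → ℝ) x * _ = 0
        rw [Pi.single_eq_of_ne hx, zero_mul]
      · intro h'; exact absurd (Finset.mem_univ _) h'
    have h3 : ∑ x : Fin m, inX j w (Sum.inr x) * lv p (A.pt n (Sum.inr x)) = - ∑ i, w i * lv p (A.y n i) := by
      rw [← Finset.sum_neg_distrib]
      refine Finset.sum_congr rfl fun x _ => ?_
      show (- w x) * lv p (A.y n x) = _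
      ring
    rw [h2, h3] at h1
    linarith
  have h1 : {n | ∃ u v : Fin m → ℝ, dt u u = 1 ∧ dt v v = 1 ∧ dt u v = 0 ∧ inY (k := k) u ∈ A.N n ∧
      inY (k := k) v ∈ A.N n}.Finite := by
    refine A.finite_two.subset ?_
    rintro n ⟨u, v, a1, a2, a3, a4, a5⟩
    exact ⟨u, v, a1, a2, a3, hY _ _ a4, hY _ _ a5⟩
  have h2 : {n | ∃ (u : Fin m → ℝ) (M : Fin k → Fin m → ℝ), dt u u = 1 ∧ (∀ j, dt (M j) u = 0) ∧ inY u ∈ A.N n ∧
      ∀ j, inX j (M j) ∈ A.N n}.Infinite := by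
    refine h1.infinite_compl.mono fun n hn => ?_
    exact (hdich n).resolve_left hn
  obtain ⟨φ, hφ, hm⟩ := Pool.Agent.Z5.k3_sub h2
  choose u M b1 b2 b3 b4 using hm
  let T : ArM F S :=
    { toAr := A.comp φ hφ
      u := u
      M := M
      hu := b1
      hM := b2
      r0 := fun n p => hY _ _ (b3 n) p
      r1 := fun n p j => hXr _ j _ (b4 n j) p }
  exact T.false

end Pool.Agent.Z8
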