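import Pool.Agent.Z8.Defs
import Pool.Agent.Z7.G5
import Pool.Agent.Z7.H3

open MvPolynomial Pool.Agent.MP_dd1803_nt Pool.Agent.ZPA Pool.Agent.ZL2

namespace Pool.Agent.Z8

open Pool.Agent.Z7 (HC Cv HHp Rat)

variable {k m : ℕ}

/-- The first coordinates of a point, as complex numbers. -/
def xs (p : Fin k ⊕ Fin m → ℂˣ) : Fin k → ℂ := fun j => (p (Sum.inl j) : ℂ)

/-- The last coordinates of a point, as complex numbers. -/
def ys (p : Fin k ⊕ Fin m → ℂˣ) : Fin m → ℂ := fun i => (p (Sum.inr i) : ℂ)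

/-- The cylinder over the curve. -/
def Cyl (k : ℕ) (C : Set (Fin m → ℂˣ)) : Set (Fin k ⊕ Fin m → ℂˣ) := {p | (fun i => p (Sum.inr i)) ∈ C}

/-- The hypersurface bundle. -/
def VSk (C : Set (Fin m → ℂˣ)) (Φ : MvPolynomial (Fin k) (MvPolynomial (Fin m) ℂ)) : Set (Fin k ⊕ Fin m → ℂˣ) :=
  {p | (fun i => p (Sum.inr i)) ∈ C ∧ evk Φ (xs p) (ys p) = 0}

/-- The fibre polynomial at `y` has a factor in common with one of its reciprocals. -/
def RecK (Φ : MvPolynomial (Fin k) (MvPolynomial (Fin m) ℂ)) (y : Fin m → ℂ) : Prop :=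
  ∃ r : Fin k → ℝ, (∀ j, 0 < r j) ∧ ¬ IsRelPrime (sp Φ y) (rc (sp Φ y) r)

/-- The points of `C` outside a finite set whose fibre polynomial has a factor in common with one of its reciprocals satisfy
a real algebraic equation `G(y_0, conj y_0) = 0`, and only finitely many of them have a given absolute value of a given
nontrivial character. -/
def NRk [NeZero m] (C : Set (Fin m → ℂˣ)) (Φ : MvPolynomial (Fin k) (MvPolynomial (Fin m) ℂ)) : Prop :=
  ∃ E : Set (Fin m → ℂˣ), E.Finite ∧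
    (∃ G : Polynomial (Polynomial ℂ), G ≠ 0 ∧ ∀ y ∈ C, y ∉ E → RecK Φ (co y) →
      Pool.Agent.Z5.ev2 G (co y 0) ((starRingEnd ℂ) (co y 0)) = 0) ∧
    ∀ n : Fin m → ℤ, n ≠ 0 → ∀ r : ℝ,
      {y : Fin m → ℂˣ | y ∈ C ∧ y ∉ E ∧ RecK Φ (co y) ∧ ‖((ch n y : ℂˣ) : ℂ)‖ = r}.Finite

/-- The fibre polynomials are not homogeneous for a nonzero grading. -/
def Fullk (C : Set (Fin m → ℂˣ)) (Φ : MvPolynomial (Fin k) (MvPolynomial (Fin m) ℂ)) : Prop :=
  ∀ e : Fin k → ℤ, e ≠ 0 → ∃ α β : Fin k →₀ ℕ, (∃ y ∈ C, eval (co y) (Φ.coeff α) ≠ 0) ∧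
    (∃ y ∈ C, eval (co y) (Φ.coeff β) ≠ 0) ∧ ∑ j, e j * (α j : ℤ) ≠ ∑ j, e j * (β j : ℤ)

/-- Coefficients which are algebraic numbers. -/
def AlgCk (Φ : MvPolynomial (Fin k) (MvPolynomial (Fin m) ℂ)) : Prop :=
  ∀ α β, IsAlgebraic ℚ (MvPolynomial.coeff β (MvPolynomial.coeff α Φ))

/-- The level sums. -/
noncomputable def levs (Φ : MvPolynomial (Fin k) (MvPolynomial (Fin m) ℂ)) (e : Fin k → ℤ) (c : ℤ) (x : Fin k → ℂ)
    (y : Fin m → ℂ) : ℂ := ∑ α ∈ lev Φ e c, eval y (Φ.coeff α) * ∏ j, x j ^ α j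

theorem evk_eq (Φ : MvPolynomial (Fin k) (MvPolynomial (Fin m) ℂ)) (x : Fin k → ℂ) (y : Fin m → ℂ) :
    evk Φ x y = ∑ α ∈ Φ.support, eval y (Φ.coeff α) * ∏ j, x j ^ α j := by
  unfold evk sp
  rw [MvPolynomial.eval_map, MvPolynomial.eval₂_eq']

variable {C : Set (Fin m → ℂˣ)} {Φ : MvPolynomial (Fin k) (MvPolynomial (Fin m) ℂ)}

theorem k8g0a_supp (P : MvPolynomial (Fin k) ℂ) (μ : Fin k →₀ ℕ) :
    (monomial μ 1 * P).support = P.support.image (fun β => μ + β) := by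
  classical
  ext β
  rw [MvPolynomial.mem_support_iff, coeff_monomial_mul', one_mul, Finset.mem_image]
  constructor
  · intro h1
    have h2 : μ ≤ β := by
      by_contra h2
      rw [if_neg h2] at h1
      exact h1 rfl
    rw [if_pos h2] at h1
    exact ⟨β - μ, MvPolynomial.mem_support_iff.2 h1, add_tsub_cancel_of_le h2⟩
  · rintro ⟨γ, hγ, rfl⟩
    rw [if_pos le_self_add, add_tsub_cancel_left]
    exact MvPolynomial.mem_support_iff.1 hγ

theorem k8g0a_dg {P : MvPolynomial (Fin k) ℂ} (hP : P ≠ 0) (μ : Fin k →₀ ℕ) :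
    dg (monomial μ 1 * P) = μ + dg P := by
  classical
  have hne : P.support.Nonempty := by
    rw [Finset.nonempty_iff_ne_empty]
    intro h1
    exact hP (MvPolynomial.support_eq_empty.1 h1)
  unfold dg
  rw [k8g0a_supp, Finset.sup_image]
  apply le_antisymm
  · refine Finset.sup_le fun β hβ => ?_
    exact add_le_add_right (Finset.le_sup (f := id) hβ) μ
  · obtain ⟨β0, hβ0⟩ := hne
    have h0 : μ ≤ P.support.sup (id ∘ fun β => μ + β) :=
      le_trans le_self_add (Finset.le_sup (f := id ∘ fun β => μ + β) hβ0)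
    intro j
    rw [Finsupp.add_apply]
    have h1 : P.support.sup id ≤ P.support.sup (id ∘ fun β => μ + β) - μ := by
      refine Finset.sup_le fun β hβ => ?_
      have h2 : μ + β ≤ P.support.sup (id ∘ fun β => μ + β) := Finset.le_sup (f := id ∘ fun β => μ + β) hβ
      intro i
      have h3 := h2 i
      rw [Finsupp.add_apply] at h3
      rw [Finsupp.tsub_apply]
      show β i ≤ _
      omega
    have h4 := h1 j
    have h5 := h0 j
    rw [Finsupp.tsub_apply] at h4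
    omega

theorem k8g0a_rc (P : MvPolynomial (Fin k) ℂ) (μ : Fin k →₀ ℕ) (r : Fin k → ℝ) :
    rc (monomial μ 1 * P) r = MvPolynomial.C (∏ j, (r j : ℂ) ^ μ j) * rc P r := by
  classical
  by_cases hP : P = 0
  · subst hP
    unfold rc
    simp
  unfold rc
  rw [k8g0a_dg hP, k8g0a_supp, Finset.sum_image (fun a _ b _ h1 => add_left_cancel h1), Finset.mul_sum]
  refine Finset.sum_congr rfl fun β _ => ?_
  rw [C_mul_monomial]
  have h1 : μ + dg P - (μ + β) = dg P - β := by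
    ext j
    simp only [Finsupp.tsub_apply, Finsupp.add_apply]
    omega
  have h2 : (monomial μ 1 * P).coeff (μ + β) = P.coeff β := by
    rw [coeff_monomial_mul', if_pos le_self_add, add_tsub_cancel_left, one_mul]
  rw [h1, h2]
  congr 1
  have h3 : ∏ j, (r j : ℂ) ^ (μ + β) j = (∏ j, (r j : ℂ) ^ μ j) * ∏ j, (r j : ℂ) ^ β j := by
    rw [← Finset.prod_mul_distrib]
    exact Finset.prod_congr rfl fun j _ => by rw [Finsupp.add_apply, pow_add]
  rw [h3]
  ring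

/-- Row Z8-G0a. As `Z7.exists_Sf` (Z7/G0.lean). `Φ'` = `Φ` without the terms `α` whose coefficient vanishes on `C`, divided by the largest monomial `x^μ` dividing all its terms (`nd`). Same zeros with `x_j ≠ 0`, `y ∈ C`. `full`: from `Fullk` (the support of `Φ'` is the set of the `α - μ`, `α` with a coefficient not vanishing on `C`). `E` is enlarged by the finitely many points where one of the remaining coefficients
vanishes and by the set of `NRk`. `nrec`: for `y ∈ C`, `sp Φ (co y) = x^μ P'`, `P' = sp Φ' (co y)`, and at `y ∉ E` (support of `P'` = support of `Φ'`) `dg (x^μ P') = μ + dg P'`, so `rc (x^μ P') r = r^μ * rc P' r`: `P'` divides the first and `rc P' r` divides the second polynomial of `NRk`, and divisors of relatively prime elements are relatively prime. -/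
theorem exists_Sk [NeZero m] (h : HC C) (hNR : NRk C Φ) (hF : Fullk C Φ) (hk : 1 ≤ k) (j0 : Fin k) :
    ∃ S : Sk k m, S.j0 = j0 ∧ S.C = co '' C ∧ (Rat S.toCv ∧ HHp S.toCv) ∧
      (∀ y ∈ C, ∀ x : Fin k → ℂ, (∀ j, x j ≠ 0) → (evk S.Φ x (co y) = 0 ↔ evk Φ x (co y) = 0)) ∧
      (AlgCk Φ → AlgCk S.Φ) := by
  classical
  obtain ⟨D, hD, hR, hHH⟩ := Pool.Agent.Z7.exists_Cv h
  obtain ⟨E0, hE0, ⟨G, hG0, hG⟩, hI⟩ := hNR
  obtain ⟨s, hs⟩ : ∃ s : Finset (Fin k →₀ ℕ), ∀ α, α ∈ s ↔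
      ∃ y ∈ C, MvPolynomial.eval (co y) (Φ.coeff α) ≠ 0 := by
    refine ⟨Φ.support.filter fun α => ∃ y ∈ C, MvPolynomial.eval (co y) (Φ.coeff α) ≠ 0, fun α => ?_⟩
    rw [Finset.mem_filter, MvPolynomial.mem_support_iff]
    refine ⟨fun h1 => h1.2, fun h1 => ⟨fun h2 => ?_, h1⟩⟩
    obtain ⟨y, -, hy⟩ := h1
    rw [h2, map_zero] at hy
    exact hy rfl
  have hs0 : ∀ α, α ∉ s → ∀ y ∈ C, MvPolynomial.eval (co y) (Φ.coeff α) = 0 := by
    intro α hα y hy
    by_contra h1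
    exact hα ((hs α).2 ⟨y, hy, h1⟩)
  -- the nonvanishing terms
  obtain ⟨Ψ, hΨ⟩ : ∃ Ψ : MvPolynomial (Fin k) (MvPolynomial (Fin m) ℂ), ∀ β,
      Ψ.coeff β = if β ∈ s then Φ.coeff β else 0 := by
    refine ⟨∑ α ∈ s, monomial α (Φ.coeff α), fun β => ?_⟩
    rw [coeff_sum]
    simp only [coeff_monomial]
    rw [Finset.sum_ite_eq']
  have hΨe : ∀ y ∈ C, sp Ψ (co y) = sp Φ (co y) := by
    intro y hy
    unfold sp
    ext β
    rw [coeff_map, coeff_map, hΨ]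
    split_ifs with h1
    · rfl
    · rw [map_zero, hs0 β h1 y hy]
  have hsne : s.Nonempty := by
    obtain ⟨α, β, h1, -, -⟩ := hF (Pi.single j0 1) (by
      intro h0
      have := congrFun h0 j0
      rw [Pi.single_eq_same, Pi.zero_apply] at this
      exact one_ne_zero this)
    exact ⟨α, (hs α).2 h1⟩
  -- the exponents of the largest monomial
  obtain ⟨μ, hμ⟩ : ∃ μ : Fin k →₀ ℕ, (∀ α ∈ s, μ ≤ α) ∧ ∀ j, ∃ α ∈ s, α j = μ j := by
    refine ⟨Finsupp.equivFunOnFinite.symm fun j => s.inf' hsne fun α => α j, fun α hα j => ?_, fun j => ?_⟩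
    · exact Finset.inf'_le (fun α : Fin k →₀ ℕ => α j) hα
    · obtain ⟨α, hα, h1⟩ := Finset.exists_mem_eq_inf' hsne (fun α : Fin k →₀ ℕ => α j)
      exact ⟨α, hα, h1.symm⟩
  obtain ⟨Θ, hΘ⟩ : ∃ Θ : MvPolynomial (Fin k) (MvPolynomial (Fin m) ℂ), Θ = Ψ.divMonomial μ := ⟨_, rfl⟩
  have hΘc : ∀ β, Θ.coeff β = if μ + β ∈ s then Φ.coeff (μ + β) else 0 := by
    intro β
    rw [hΘ, coeff_divMonomial, hΨ]
  have hΘm : monomial μ 1 * Θ = Ψ := by
    ext1 β
    rw [coeff_monomial_mul', one_mul]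
    split_ifs with h1
    · rw [hΘc, hΨ, add_tsub_cancel_of_le h1]
    · rw [hΨ, if_neg]
      intro h2
      exact h1 (hμ.1 β h2)
  have hsp : ∀ y ∈ C, sp Φ (co y) = monomial μ 1 * sp Θ (co y) := by
    intro y hy
    rw [← hΨe y hy]
    unfold sp
    rw [← hΘm, map_mul, map_monomial, map_one]
  have hev : ∀ y ∈ C, ∀ x : Fin k → ℂ, evk Φ x (co y) = (∏ j, x j ^ μ j) * evk Θ x (co y) := by
    intro y hy x
    unfold evk
    rw [hsp y hy, map_mul, eval_monomial, one_mul]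
    congr 1
    rw [Finsupp.prod_fintype]
    intro i
    exact pow_zero _
  have hiff : ∀ y ∈ C, ∀ x : Fin k → ℂ, (∀ j, x j ≠ 0) → (evk Θ x (co y) = 0 ↔ evk Φ x (co y) = 0) := by
    intro y hy x hx
    rw [hev y hy x, mul_eq_zero]
    have h1 : ∏ j, x j ^ μ j ≠ 0 := Finset.prod_ne_zero_iff.2 fun j _ => pow_ne_zero _ (hx j)
    exact ⟨fun h2 => Or.inr h2, fun h2 => h2.resolve_left h1⟩
  have hsup : ∀ α ∈ s, α - μ ∈ Θ.support := by
    intro α hα
    rw [MvPolynomial.mem_support_iff, hΘc, add_tsub_cancel_of_le (hμ.1 α hα), if_pos hα]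
    obtain ⟨y, -, hy⟩ := (hs α).1 hα
    intro h1
    rw [h1, map_zero] at hy
    exact hy rfl
  have hcoef : ∀ α ∈ Θ.support, {y : Fin m → ℂ | y ∈ co '' C ∧ MvPolynomial.eval y (Θ.coeff α) = 0}.Finite := by
    intro α hα
    rw [MvPolynomial.mem_support_iff, hΘc] at hα
    have h1 : μ + α ∈ s := by
      by_contra h1
      rw [if_neg h1] at hα
      exact hα rfl
    rw [hΘc, if_pos h1]
    exact Pool.Agent.Z7.g0_img (h.fin_poly ((hs _).1 h1))
  obtain ⟨D', hC', hE', hR', hH'⟩ : ∃ D' : Cv m, D'.C = D.C ∧ D'.E = (D.E ∪ co '' E0) ∪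
      ⋃ α ∈ Θ.support, {y : Fin m → ℂ | y ∈ co '' C ∧ MvPolynomial.eval y (Θ.coeff α) = 0} ∧ Rat D' ∧ HHp D' := ⟨{
      C := D.C
      E := (D.E ∪ co '' E0) ∪ ⋃ α ∈ Θ.support, {y : Fin m → ℂ | y ∈ co '' C ∧ MvPolynomial.eval y (Θ.coeff α) = 0}
      hE := (D.hE.union (hE0.image _)).union (Set.Finite.biUnion (Finset.finite_toSet _) hcoef)
      q := D.q
      hq0 := D.hq0
      ne := D.ne
      hq := D.hq
      sep := fun y hy hyE i => D.sep y hy (fun h1 => hyE (Or.inl (Or.inl h1))) i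
      cpt := D.cpt
      irr := D.irr
      fib := D.fib
      mon := D.mon }, rfl, rfl, hR, fun u v huv y0 hy0 hyE => hHH u v huv y0 hy0 (fun h1 => hyE (Or.inl (Or.inl h1)))⟩
  have hCC : D'.C = co '' C := hC'.trans hD
  have hrec : ∀ z ∈ C, RecK Θ (co z) → RecK Φ (co z) := by
    rintro z hz ⟨r, hr, h1⟩
    refine ⟨r, hr, fun h2 => h1 ?_⟩
    rw [hsp z hz, k8g0a_rc] at h2
    exact fun d hd1 hd2 => h2 (hd1.trans (Dvd.intro_left _ rfl)) (hd2.trans (Dvd.intro_left _ rfl))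
  refine ⟨{
    toCv := D'
    Φ := Θ
    nd := ?_
    full := ?_
    coef := ?_
    nrec := ?_
    j0 := j0 }, rfl, hCC, ⟨hR', hH'⟩, hiff, ?_⟩
  · intro j
    obtain ⟨α, hα, hαj⟩ := hμ.2 j
    refine ⟨α - μ, hsup α hα, ?_⟩
    rw [Finsupp.tsub_apply, hαj, Nat.sub_self]
  · intro e he
    obtain ⟨α, β, h1, h2, h3⟩ := hF e he
    have h4 := (hs α).2 h1
    have h5 := (hs β).2 h2
    refine ⟨α - μ, hsup α h4, β - μ, hsup β h5, fun h6 => h3 ?_⟩
    have h7 : ∀ γ : Fin k →₀ ℕ, μ ≤ γ → ∑ j, e j * ((γ - μ) j : ℤ) = ∑ j, e j * (γ j : ℤ) - ∑ j, e j * (μ j : ℤ) := by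
      intro γ hγ
      rw [← Finset.sum_sub_distrib]
      refine Finset.sum_congr rfl fun j _ => ?_
      rw [Finsupp.tsub_apply, Nat.cast_sub (hγ j)]
      ring
    rw [h7 α (hμ.1 α h4), h7 β (hμ.1 β h5)] at h6
    linarith
  · intro y hy hyE α hα h1
    apply hyE
    rw [hE']
    right
    rw [Set.mem_iUnion₂]
    exact ⟨α, hα, hCC ▸ hy, h1⟩
  · intro u hu0 y1 hy1 hy1E hacc O hO
    obtain ⟨y, h1, h2, h3, h4, h5, h6⟩ := Pool.Agent.Z7.arc_of_int D' {y | y ∉ co '' E0 ∧ RecK Θ y}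
      ⟨G, hG0, by
        rintro y hy ⟨hy1, hy2⟩
        obtain ⟨z, hz, rfl⟩ := hCC ▸ hy
        exact hG z hz (fun h7 => hy1 ⟨z, h7, rfl⟩) (hrec z hz hy2)⟩
      (by
        intro n hn r
        rw [hCC]
        refine (Pool.Agent.Z7.g0_img (C := C) (R := fun y => y ∉ co '' E0 ∧ RecK Φ y ∧ ‖∏ i, y i ^ n i‖ = r) ?_).subset ?_
        · refine (hI n hn r).subset ?_
          rintro z ⟨hz, h7, h8, h9⟩
          rw [Pool.Agent.Z7.g0_ch] at h9
          exact ⟨hz, fun h10 => h7 ⟨z, h10, rfl⟩, h8, h9⟩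
        · rintro _ ⟨⟨z, hz, rfl⟩, ⟨h7, h8⟩, h9⟩
          exact ⟨⟨z, hz, rfl⟩, h7, hrec z hz h8, h9⟩)
      hu0 hy1 hy1E hacc O hO
    refine ⟨y, h1, h2, h3, h4, h5, fun r hr => ?_⟩
    by_contra hc
    refine h6 ⟨fun h7 => h3 ?_, r, hr, hc⟩
    rw [hE']
    exact Or.inl (Or.inr h7)
  · intro hA α β
    show IsAlgebraic ℚ (MvPolynomial.coeff β (MvPolynomial.coeff α Θ))
    rw [hΘc]
    split_ifs with h1
    · exact hA _ _
    · rw [coeff_zero]
      exact isAlgebraic_zero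

/-- The equation of the bundle over a field of coefficients. -/
theorem k8g0b_poly {F : Type} [Field F] [Algebra F ℂ] {k m : ℕ} (Ψ : MvPolynomial (Fin k) (MvPolynomial (Fin m) F)) :
    ∃ p : MvPolynomial (Fin k ⊕ Fin m) F, ∀ x : Fin k ⊕ Fin m → ℂ, aeval x p =
      evk (MvPolynomial.map (MvPolynomial.map (algebraMap F ℂ)) Ψ) (fun j => x (Sum.inl j)) (fun i => x (Sum.inr i)) := by
  refine ⟨(sumAlgEquiv F (Fin k) (Fin m)).symm Ψ, fun x => ?_⟩
  have h1 : x = Sum.elim (fun j => x (Sum.inl j)) (fun i => x (Sum.inr i)) := by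
    funext l
    rcases l with l | l <;> rfl
  rw [h1, aeval_sum_eq, AlgEquiv.apply_symm_apply]
  unfold evk sp
  have h2 : ((MvPolynomial.eval fun i => x (Sum.inr i)).comp (MvPolynomial.map (algebraMap F ℂ))) =
      (aeval (fun i => x (Sum.inr i)) : MvPolynomial (Fin m) F →ₐ[F] ℂ).toRingHom := by
    refine MvPolynomial.ringHom_ext (fun r => ?_) (fun i => ?_)
    · simp
    · simp
  rw [MvPolynomial.map_map, MvPolynomial.aeval_eq_eval]
  show _ = MvPolynomial.eval _ (MvPolynomial.map ((MvPolynomial.eval fun i => x (Sum.inr i)).comp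
    (MvPolynomial.map (algebraMap F ℂ))) Ψ)
  rw [h2]
  rfl

theorem k8g0b_map {k m : ℕ} (Φ : MvPolynomial (Fin k) (MvPolynomial (Fin m) ℂ)) :
    MvPolynomial.map (MvPolynomial.map (algebraMap ℂ ℂ)) Φ = Φ := by
  have h2 : (MvPolynomial.map (RingHom.id ℂ) : MvPolynomial (Fin m) ℂ →+* MvPolynomial (Fin m) ℂ) = RingHom.id _ :=
    RingHom.ext fun q => MvPolynomial.map_id q
  rw [Algebra.algebraMap_self, h2, MvPolynomial.map_id]

/-- Row Z8-G0b. The models of the following four are `g5_poly`, `g5_irr`, `g5_ge`, `g5_le`, `zclosed_VS`, `cl_VS` in Z7/G5.lean. -/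
theorem exists_poly (Φ : MvPolynomial (Fin k) (MvPolynomial (Fin m) ℂ)) :
    ∃ p : MvPolynomial (Fin k ⊕ Fin m) ℂ, ∀ x : Fin k → ℂ, ∀ y : Fin m → ℂ, eval (Sum.elim x y) p = evk Φ x y := by
  obtain ⟨p, hp⟩ := k8g0b_poly (F := ℂ) Φ
  refine ⟨p, fun x y => ?_⟩
  have h1 := hp (Sum.elim x y)
  rw [k8g0b_map, MvPolynomial.aeval_eq_eval] at h1
  exact h1

theorem k8g0b_cyl (C : Set (Fin m → ℂˣ)) : Cyl k C = prodSet (Set.univ : Set (Fin k → ℂˣ)) C := by
  ext x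
  constructor
  · intro h
    exact ⟨trivial, h⟩
  · intro h
    exact h.2

theorem cyl_irr (h : HC C) : Irr (Cyl k C) ∧ td ℂ (Cyl k C) = k + 1 := by
  have hI : Irr (Cyl k C) := by
    rw [k8g0b_cyl]
    exact irr_univ.prodSet h.irr
  refine ⟨hI, le_antisymm ?_ ?_⟩
  · have h1 := td_le_pull' (k := ℂ) hI.pirr (e := (Sum.inr : Fin m → Fin k ⊕ Fin m)) Sum.inr_injective
    have h2 : pull (Sum.inr : Fin m → Fin k ⊕ Fin m) '' (Cyl k C) ⊆ C := by
      rintro _ ⟨x, hx, rfl⟩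
      exact hx
    have h3 : td ℂ (pull (Sum.inr : Fin m → Fin k ⊕ Fin m) '' (Cyl k C)) ≤ td ℂ C :=
      td_mono (hI.pirr.pull _) h.irr.pirr h2
    have h4 : (Set.range (Sum.inr : Fin m → Fin k ⊕ Fin m))ᶜ.ncard ≤ k := by
      rw [Set.compl_range_inr, ← Set.image_univ]
      refine (Set.ncard_image_le Set.finite_univ).trans ?_
      rw [Set.ncard_univ, Nat.card_eq_fintype_card, Fintype.card_fin]
    rw [h.dim] at h3
    omega
  · rw [k8g0b_cyl]
    have h1 := td_prod_ge (F := ℂ) (k := ℂ) (A := (Set.univ : Set (Fin k → ℂˣ))) (B := C) irr_univ.pirr h.irr.pirr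
    rw [td_univ, h.dim, Fintype.card_fin] at h1
    exact h1

theorem k8g0b_eq (C : Set (Fin m → ℂˣ)) (Φ : MvPolynomial (Fin k) (MvPolynomial (Fin m) ℂ)) :
    ∃ p : MvPolynomial (Fin k ⊕ Fin m) ℂ, VSk C Φ = Cyl k C ∩ zp p := by
  obtain ⟨p, hp⟩ := k8g0b_poly (F := ℂ) Φ
  refine ⟨p, ?_⟩
  ext x
  rw [Set.mem_inter_iff, mem_zp, hp, k8g0b_map]
  exact Iff.rfl

theorem zclosed_VSk (hC : ZClosed C) : ZClosed (VSk C Φ) := by
  obtain ⟨p, hp⟩ := k8g0b_eq C Φ
  rw [hp, k8g0b_cyl]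
  exact (zclosed_univ.prodSet hC).inter (zclosed_zp p)

theorem cl_VSk (h : HC C) (hΦa : AlgCk Φ) : cl (acl (∅ : Set ℂ)) (VSk C Φ) = VSk C Φ := by
  classical
  obtain ⟨Ψ, hΨ⟩ : ∃ Ψ : MvPolynomial (Fin k) (MvPolynomial (Fin m) (acl (∅ : Set ℂ))),
      MvPolynomial.map (MvPolynomial.map (algebraMap (acl (∅ : Set ℂ)) ℂ)) Ψ = Φ := by
    have h1 : ∀ α, ∃ ψ : MvPolynomial (Fin m) (acl (∅ : Set ℂ)),
        MvPolynomial.map (algebraMap (acl (∅ : Set ℂ)) ℂ) ψ = Φ.coeff α := by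
      intro α
      have h2 : Φ.coeff α ∈ Set.range (MvPolynomial.map (σ := Fin m) (algebraMap (acl (∅ : Set ℂ)) ℂ)) := by
        rw [MvPolynomial.mem_range_map_iff_coeffs_subset]
        intro c hc
        obtain ⟨β, -, rfl⟩ := MvPolynomial.mem_coeffs_iff.1 hc
        exact ⟨⟨_, mem_acl_empty.2 (hΦa α β)⟩, rfl⟩
      exact h2
    choose ψ hψ using h1
    have h3 : Φ ∈ Set.range (MvPolynomial.map (σ := Fin k)
        (MvPolynomial.map (σ := Fin m) (algebraMap (acl (∅ : Set ℂ)) ℂ))) := by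
      rw [MvPolynomial.mem_range_map_iff_coeffs_subset]
      intro c hc
      obtain ⟨α, -, rfl⟩ := MvPolynomial.mem_coeffs_iff.1 hc
      exact ⟨ψ α, hψ α⟩
    exact h3
  obtain ⟨p, hp⟩ := k8g0b_poly Ψ
  have key : VSk C Φ = zl (acl (∅ : Set ℂ)) (insert p
      ((fun q => rename (Sum.inr : Fin m → Fin k ⊕ Fin m) q) '' (vI (acl (∅ : Set ℂ)) C : Set (MvPolynomial _ _)))) := by
    ext x
    have h1 : (fun i => x (Sum.inr i)) ∈ C ↔ ∀ q ∈ vI (acl (∅ : Set ℂ)) C,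
        aeval (co fun i => x (Sum.inr i)) q = 0 := by
      conv_lhs => rw [← h.alg]
      rfl
    have h2 : evk Φ (xs x) (ys x) = aeval (co x) p := by
      rw [hp, hΨ]
      rfl
    rw [mem_zl]
    constructor
    · rintro ⟨h3, h4⟩ q hq
      rcases hq with rfl | ⟨q, hq, rfl⟩
      · rw [← h2]
        exact h4
      · show aeval (co x) (rename _ q) = 0
        rw [aeval_rename]
        exact h1.1 h3 q hq
    · intro h3
      refine ⟨h1.2 fun q hq => ?_, ?_⟩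
      · have h4 := h3 _ (Set.mem_insert_of_mem _ ⟨q, hq, rfl⟩)
        simp only [aeval_rename] at h4
        exact h4
      · rw [h2]
        exact h3 _ (Set.mem_insert _ _)
  rw [key, cl_zl]

end Pool.Agent.Z8
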