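import Pool.Agent.Z8.G0
import Pool.Agent.Z8.E2
import Pool.Agent.Z7.G1

open MvPolynomial Pool.Agent.MP_dd1803_nt Pool.Agent.ZPA Pool.Agent.ZL2

namespace Pool.Agent.Z8

open Filter Topology
open Pool.Agent.Z7 (HC Cv HHp Rat)

variable {k m : ℕ} [NeZero m]

omit [NeZero m] in
theorem k8g1_ev {F : Type} [Field F] [Algebra F ℂ] {K : Type} [Field K] [Algebra F K] (τ : K →ₐ[F] ℂ)
    (Φ : MvPolynomial (Fin k) (MvPolynomial (Fin m) F)) (x : Fin k → K) (y : Fin m → K) :
    evk (map (map (algebraMap F ℂ)) Φ) (fun i => τ (x i)) (fun i => τ (y i)) =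
      τ (eval x (map ((aeval y : MvPolynomial (Fin m) F →ₐ[F] K) : MvPolynomial (Fin m) F →+* K) Φ)) := by
  unfold evk sp
  rw [MvPolynomial.map_map]
  have h1 : ((eval fun i => τ (y i)).comp (map (algebraMap F ℂ)) : MvPolynomial (Fin m) F →+* ℂ) =
      (τ : K →+* ℂ).comp ((aeval y : MvPolynomial (Fin m) F →ₐ[F] K) : MvPolynomial (Fin m) F →+* K) := by
    apply RingHom.ext
    intro p
    show eval _ (map _ p) = τ (aeval y p)
    rw [← eval₂_eq_eval_map, ← aeval_def]
    exact (MvPolynomial.comp_aeval_apply y τ p).symm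
  rw [h1, ← MvPolynomial.map_map]
  rw [MvPolynomial.eval_map]
  exact (MvPolynomial.eval₂_comp_left (τ : K →+* ℂ) (RingHom.id K) x _).symm

omit [NeZero m] in
/-- Values of the coefficients. -/
theorem k8g1_co {F : Type} [Field F] [Algebra F ℂ] {K : Type} [Field K] [Algebra F K] (τ : K →ₐ[F] ℂ)
    (Φ' : MvPolynomial (Fin k) (MvPolynomial (Fin m) F)) (y : Fin m → K) (α : Fin k →₀ ℕ) :
    τ (aeval y (Φ'.coeff α)) = eval (fun i => τ (y i)) ((map (map (algebraMap F ℂ)) Φ').coeff α) := by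
  rw [coeff_map, eval_map, MvPolynomial.comp_aeval_apply, aeval_def]

/-- A polynomial in the variable with the number `j0`. -/
theorem k8g1_one (j0 : Fin k) {t : ℂ} (ht : IsAlgebraic ℚ t) :
    ∃ (L : ℕ) (f : (Fin k → Fin (L + 1)) → ℤ), f ≠ 0 ∧ ∀ z : Fin k → ℂ, z j0 = t → ev f z = 0 := by
  classical
  have htZ : IsAlgebraic ℤ t := (IsFractionRing.isAlgebraic_iff ℤ ℚ ℂ).2 ht
  obtain ⟨p, hp0, hp⟩ := htZ
  refine ⟨p.natDegree, fun α => if ∀ i, i ≠ j0 → α i = 0 then p.coeff (α j0 : ℕ) else 0, ?_, ?_⟩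
  · intro h
    apply hp0
    rw [← Polynomial.leadingCoeff_eq_zero]
    have h1 := congrFun h (Function.update (fun _ => 0) j0 (Fin.last p.natDegree))
    simp only [Pi.zero_apply] at h1
    rw [if_pos (fun i hi => Function.update_of_ne hi _ _), Function.update_self, Fin.val_last] at h1
    exact h1
  · intro z hz
    have h1 : ev (fun α : Fin k → Fin (p.natDegree + 1) =>
        if ∀ i, i ≠ j0 → α i = 0 then p.coeff (α j0 : ℕ) else 0) z =
        ∑ n : Fin (p.natDegree + 1), (p.coeff (n : ℕ) : ℂ) * t ^ (n : ℕ) := by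
      unfold ev
      symm
      refine Finset.sum_of_injOn (fun n => Function.update (fun _ => (0 : Fin (p.natDegree + 1))) j0 n) ?_ ?_ ?_ ?_
      · intro a _ b _ hab
        have h2 := congrFun hab j0
        simpa using h2
      · intro a _
        exact Finset.mem_coe.2 (Finset.mem_univ _)
      · intro α _ hα
        beta_reduce
        rw [if_neg, Int.cast_zero, zero_mul]
        intro h2
        apply hα
        refine ⟨α j0, Finset.mem_coe.2 (Finset.mem_univ _), ?_⟩
        funext i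
        by_cases hi : i = j0
        · subst hi
          exact Function.update_self _ _ _
        · show Function.update (fun _ => (0 : Fin (p.natDegree + 1))) j0 (α j0) i = α i
          rw [Function.update_of_ne hi, h2 i hi]
      · intro n _
        beta_reduce
        rw [if_pos (fun i hi => Function.update_of_ne hi _ _), Function.update_self]
        congr 1
        rw [Finset.prod_eq_single j0]
        · rw [Function.update_self, hz]
        · intro i _ hi
          rw [Function.update_of_ne hi]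
          simp
        · intro h2
          exact absurd (Finset.mem_univ _) h2
    rw [h1, ← hp, Polynomial.aeval_eq_sum_range, Finset.sum_range]
    refine Finset.sum_congr rfl fun n _ => ?_
    rw [zsmul_eq_mul]

/-- Row Z8-G1a. As `Z7.exists_Ar` (Z7/G1.lean): `F ⊂ ℂ` generated by the coefficients of `S.Φ` and of finitely many polynomials which define `C` (`Z7.g1_gal`), `K n = F(P n i)`. `hyE`: choose a subsequence: for `y* ∈ S.E`, `σ (y n 0) = y* 0` implies that `P n (inr 0)` is a root of the minimal polynomial of `y* 0` over `F`, so finitely many algebraic values, and each value `t` is taken finitely often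
by `hPg` (the minimal polynomial of `t` over `ℤ`, as a polynomial in the variable number `j0`). `hsub`, `hgen`: apply `A.j n` to the sums (`map_sum`, injectivity), `hPs`, `hPg` (along the injective `φ`: `Function.Injective.tendsto_cofinite`). `inf`: `HC.infinite`. -/
theorem exists_Ar {C : Set (Fin m → ℂˣ)} (h : HC C) {S : Sk k m} (hk : 2 ≤ k) (hm : 2 ≤ m) (hS : S.C = co '' C)
    (hR : Rat S.toCv ∧ HHp S.toCv) (hΦa : AlgCk S.Φ) (P : ℕ → Fin k ⊕ Fin m → ℂˣ)
    (hPV : ∀ n, P n ∈ VSk C S.Φ) (hPa : ∀ n i, IsAlgebraic ℚ (P n i : ℂ))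
    (hPs : ∀ n (e : Fin k → ℤ) (c : ℤ), e ≠ 0 → (lev S.Φ e c).Nonempty → levs S.Φ e c (xs (P n)) (ys (P n)) ≠ 0)
    (hPg : ∀ (L : ℕ) (f : (Fin k → Fin (L + 1)) → ℤ), f ≠ 0 →
      ∀ᶠ n in cofinite, ev f (Function.update (xs (P n)) S.j0 (ys (P n) 0)) ≠ 0) :
    ∃ (F : Type) (_ : Field F) (_ : NumberField F) (_ : Algebra F ℂ) (A : Ar F S) (φ : ℕ → ℕ),
      Function.Injective φ ∧ ∀ n i, A.j n (A.pt n i) = (P (φ n) i : ℂ) := by
  classical
  obtain ⟨S1, hS1, hS1a, hgal⟩ := Z7.g1_gal h.alg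
  obtain ⟨S2, hS2def⟩ : ∃ S2 : Set ℂ, S2 = ⋃ a ∈ S.Φ.support, ((S.Φ.coeff a).coeffs : Set ℂ) := ⟨_, rfl⟩
  have hS2 : S2.Finite := by
    rw [hS2def]
    exact Set.Finite.biUnion S.Φ.support.finite_toSet fun a _ => Finset.finite_toSet _
  have hS2a : ∀ z ∈ S2, IsIntegral ℚ z := by
    intro z hz
    rw [hS2def] at hz
    simp only [Set.mem_iUnion] at hz
    obtain ⟨a, -, hz⟩ := hz
    obtain ⟨b, -, rfl⟩ := MvPolynomial.mem_coeffs_iff.1 (Finset.mem_coe.1 hz)
    exact (hΦa a b).isIntegral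
  have hSfin : (S1 ∪ S2).Finite := hS1.union hS2
  have hSf : Finite (S1 ∪ S2 : Set ℂ) := hSfin
  let F : IntermediateField ℚ ℂ := IntermediateField.adjoin ℚ (S1 ∪ S2)
  have hFfin : FiniteDimensional ℚ F := by
    refine IntermediateField.finiteDimensional_adjoin ?_
    rintro z (hz | hz)
    · exact hS1a z hz
    · exact hS2a z hz
  have hFn : NumberField F := ⟨⟩
  have hmem : ∀ z ∈ S1 ∪ S2, z ∈ F := fun z hz => IntermediateField.subset_adjoin ℚ _ hz
  obtain ⟨Φ', hΦ'⟩ := Z7.g1_lift2 F S.Φ (by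
    intro a b
    by_cases h0 : (S.Φ.coeff a).coeff b = 0
    · rw [h0]
      exact zero_mem F
    · apply hmem
      right
      have ha : a ∈ S.Φ.support := by
        rw [mem_support_iff]
        intro h1
        rw [h1, coeff_zero] at h0
        exact h0 rfl
      rw [hS2def]
      exact Set.mem_biUnion ha (Finset.mem_coe.2 (coeff_mem_coeffs b h0)))
  have hgal' := hgal F (fun z hz => hmem z (Or.inl hz))
  let T : ℕ → Set ℂ := fun n => Set.range (fun i => (P n i : ℂ))
  let K : ℕ → IntermediateField F ℂ := fun n => IntermediateField.adjoin F (T n)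
  have hKfin : ∀ n, FiniteDimensional F (K n) := by
    intro n
    have hT : Finite (T n) := (Set.finite_range _ : (Set.range (fun i => (P n i : ℂ))).Finite)
    refine IntermediateField.finiteDimensional_adjoin ?_
    rintro z ⟨i, rfl⟩
    exact (hPa n i).isIntegral.tower_top
  have hKn : ∀ n, NumberField (K n) := by
    intro n
    have h1 := hKfin n
    have h2 : FiniteDimensional ℚ (K n) := FiniteDimensional.trans ℚ F (K n)
    exact ⟨⟩
  have hPm : ∀ n i, (P n i : ℂ) ∈ K n := fun n i => IntermediateField.subset_adjoin F (T n) ⟨i, rfl⟩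
  let y : ∀ n, Fin m → K n := fun n i => ⟨P n (Sum.inr i), hPm n _⟩
  let x : ∀ n, Fin k → K n := fun n i => ⟨P n (Sum.inl i), hPm n _⟩
  have hy : ∀ n (σ : K n →ₐ[F] ℂ), (fun i => σ (y n i)) ∈ S.C := by
    intro n σ
    rw [hS]
    exact hgal' (K n) (K n).val σ (y n) ⟨_, (hPV n).1, rfl⟩
  have hP : ∀ n (σ : K n →ₐ[F] ℂ), evk S.Φ (fun i => σ (x n i)) (fun i => σ (y n i)) = 0 := by
    intro n σ
    have e1 := k8g1_ev (K n).val Φ' (x n) (y n)
    rw [hΦ'] at e1
    have e2 : (K n).val (eval (x n) (map ((aeval (y n) : MvPolynomial (Fin m) F →ₐ[F] K n) :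
        MvPolynomial (Fin m) F →+* K n) Φ')) = 0 := by
      rw [← e1]
      exact (hPV n).2
    have e3 : eval (x n) (map ((aeval (y n) : MvPolynomial (Fin m) F →ₐ[F] K n) :
        MvPolynomial (Fin m) F →+* K n) Φ') = 0 := by
      apply ((K n).val : K n →+* ℂ).injective
      rw [map_zero]
      exact e2
    have e4 := k8g1_ev σ Φ' (x n) (y n)
    rw [hΦ', e3, map_zero] at e4
    exact e4
  have hval : ∀ t : ℂ, {n | (P n (Sum.inr 0) : ℂ) = t}.Finite := by
    intro t
    by_cases hne : {n | (P n (Sum.inr 0) : ℂ) = t}.Nonempty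
    · obtain ⟨n0, hn0⟩ := hne
      have ht : IsAlgebraic ℚ t := by
        rw [← (show (P n0 (Sum.inr 0) : ℂ) = t from hn0)]
        exact hPa n0 _
      obtain ⟨L, f, hf0, hf⟩ := k8g1_one S.j0 ht
      have h1 := hPg L f hf0
      rw [Filter.eventually_cofinite] at h1
      refine h1.subset ?_
      intro n hn hne
      apply hne
      refine hf _ ?_
      rw [Function.update_self]
      exact hn
    · rw [Set.not_nonempty_iff_eq_empty] at hne
      rw [hne]
      exact Set.finite_empty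
  have hbad : {n | ∃ σ : K n →ₐ[F] ℂ, (fun i => σ (y n i)) ∈ S.E}.Finite := by
    have hfin : (⋃ e ∈ S.E, ⋃ t ∈ (minpoly F (e 0)).rootSet ℂ, {n | (P n (Sum.inr 0) : ℂ) = t}).Finite := by
      refine S.hE.biUnion fun e _ => ?_
      exact (Polynomial.rootSet_finite _ _).biUnion fun t _ => hval t
    refine hfin.subset ?_
    rintro n ⟨σ, hσ⟩
    simp only [Set.mem_iUnion]
    refine ⟨_, hσ, (P n (Sum.inr 0) : ℂ), ?_, rfl⟩
    rw [Polynomial.mem_rootSet]
    have hK := hKfin n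
    have hint : IsIntegral F (y n 0) := IsIntegral.of_finite F _
    have e1 : minpoly F (σ (y n 0)) = minpoly F (y n 0) :=
      minpoly.algHom_eq σ (σ : K n →+* ℂ).injective _
    have e2 : minpoly F ((K n).val (y n 0)) = minpoly F (y n 0) :=
      minpoly.algHom_eq _ ((K n).val : K n →+* ℂ).injective _
    refine ⟨?_, ?_⟩
    · show minpoly F (σ (y n 0)) ≠ 0
      rw [e1]
      exact minpoly.ne_zero hint
    · show Polynomial.aeval (P n (Sum.inr 0) : ℂ) (minpoly F (σ (y n 0))) = 0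
      rw [e1, ← e2]
      exact minpoly.aeval F _
  have hinf := hbad.infinite_compl
  have e := hinf.natEmbedding
  obtain ⟨φ, hφe⟩ : ∃ φ : ℕ → ℕ, ∀ n, φ n = (e n : ℕ) := ⟨fun n => (e n : ℕ), fun n => rfl⟩
  have hφ : Function.Injective φ := fun n n' h => e.injective (Subtype.ext (by rw [← hφe, ← hφe, h]))
  have hφ' : ∀ n (σ : K (φ n) →ₐ[F] ℂ), (fun i => σ (y (φ n) i)) ∉ S.E := by
    intro n
    rw [hφe]
    exact fun σ hσ => (e n).2 ⟨σ, hσ⟩
  have hsub : ∀ n (e : Fin k → ℤ) (c : ℤ), e ≠ 0 → (lev S.Φ e c).Nonempty →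
      ∑ α ∈ lev S.Φ e c, MvPolynomial.aeval (y n) (Φ'.coeff α) * ∏ i, x n i ^ α i ≠ 0 := by
    intro n e c he hne h0
    apply hPs n e c he hne
    have h1 := congrArg (K n).val h0
    rw [map_zero, map_sum] at h1
    rw [← h1]
    unfold levs
    refine Finset.sum_congr rfl fun α _ => ?_
    rw [map_mul, map_prod, k8g1_co, hΦ']
    simp only [map_pow]
    rfl
  have hgen : ∀ (L : ℕ) (f : (Fin k → Fin (L + 1)) → ℤ), f ≠ 0 →
      ∀ᶠ n in cofinite, ev f (Function.update (x n) S.j0 (y n 0)) ≠ 0 := by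
    intro L f hf
    filter_upwards [hPg L f hf] with n hn h0
    apply hn
    have h1 := Z5.k0_ev ((K n).val : K n →+* ℂ) f (Function.update (x n) S.j0 (y n 0))
    rw [h0, map_zero] at h1
    rw [h1]
    congr 1
    funext i
    by_cases hi : i = S.j0
    · subst hi
      rw [Function.update_self, Function.update_self]
      rfl
    · rw [Function.update_of_ne hi, Function.update_of_ne hi]
      rfl
  have hCinf : S.C.Infinite := by
    rw [hS]
    refine h.infinite.image ?_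
    intro a _ b _ hab
    funext i
    exact Units.ext (congrFun hab i)
  let A : Ar F S :=
    { hk := hk
      hm := hm
      rat := hR.1
      hH := hR.2
      inf := hCinf
      Φ := Φ'
      hΦ := hΦ'
      K := fun n => K (φ n)
      fld := fun n => inferInstance
      nf := fun n => hKn (φ n)
      alg := fun n => inferInstance
      fd := fun n => hKfin (φ n)
      j := fun n => (K (φ n)).val
      x := fun n => x (φ n)
      y := fun n => y (φ n)
      hx := fun n i h => (P (φ n) (Sum.inl i)).ne_zero (congrArg Subtype.val h)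
      hy := fun n => hy (φ n)
      hyE := hφ'
      hP := fun n => hP (φ n)
      hsub := fun n => hsub (φ n)
      hgen := fun L f hf => hφ.tendsto_cofinite.eventually (hgen L f hf) }
  refine ⟨F, inferInstance, hFn, inferInstance, A, φ, hφ, ?_⟩
  intro n i
  rcases i with i | i
  · rfl
  · rfl

variable {F : Type} [Field F] [NumberField F] [Algebra F ℂ] {S : Sk k m}

/-- Row Z8-G1b. As `Z7.Ar.mem_Lam_iff`. -/
theorem Ar.mem_Lam_iff (A : Ar F S) {n : ℕ} {P : Fin k ⊕ Fin m → ℂˣ}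
    (hP : ∀ i, A.j n (A.pt n i) = (P i : ℂ)) (v : Fin k ⊕ Fin m → ℤ) :
    v ∈ Lam ({P} : Set (Fin k ⊕ Fin m → ℂˣ)) ↔ (fun i => (v i : ℝ)) ∈ A.N n := by
  have hpt : ∀ k, A.pt n k ≠ 0 := by
    intro k h
    have h1 := hP k
    rw [h, map_zero] at h1
    exact (P k).ne_zero h1.symm
  obtain ⟨z, hz⟩ : ∃ z : A.K n, z = ∏ k, A.pt n k ^ v k := ⟨_, rfl⟩
  have hz0 : z ≠ 0 := by
    rw [hz]
    exact Finset.prod_ne_zero_iff.2 fun k _ => zpow_ne_zero _ (hpt k)
  have hjz : A.j n z = ((ch v P : ℂˣ) : ℂ) := by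
    rw [hz, map_prod]
    unfold ch
    rw [Units.coe_prod]
    refine Finset.prod_congr rfl fun k _ => ?_
    rw [map_zpow₀, hP k, Units.val_zpow_eq_zpow_val]
  have hlv : ∀ p : Pl (A.K n), lv p z = ∑ k, (v k : ℝ) * lv p (A.pt n k) := by
    intro p
    rw [hz, Z5.k4_lv_prod p _ _ hpt]
  have hj : Function.Injective (A.j n) := (A.j n : A.K n →+* ℂ).injective
  have hpow : ∀ N : ℕ, ch v P ^ N = 1 ↔ z ^ N = 1 := by
    intro N
    constructor
    · intro h
      apply hj
      rw [map_pow, map_one, hjz, ← Units.val_pow_eq_pow_val, h, Units.val_one]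
    · intro h
      apply Units.ext
      rw [Units.val_pow_eq_pow_val, ← hjz, ← map_pow, h, map_one]
      rfl
  constructor
  · rintro ⟨N, hN, h⟩
    have h1 := (hpow N).1 (h P rfl)
    intro p
    have h2 : lv p (z ^ N) = 0 := by rw [h1, lv_one]
    rw [lv_pow, hlv] at h2
    exact (mul_eq_zero.1 h2).resolve_left (by exact_mod_cast hN.ne')
  · intro h
    have h0 : ∀ p : Pl (A.K n), lv p z = 0 := fun p => by rw [hlv]; exact h p
    by_contra hcon
    have h1 : ∀ N : ℕ, 0 < N → z ^ N ≠ 1 := by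
      intro N hN h2
      apply hcon
      refine ⟨N, hN, ?_⟩
      intro x hx
      rw [Set.mem_singleton_iff] at hx
      subst hx
      exact (hpow N).2 h2
    obtain ⟨c0, hc0, h2⟩ := Z5.hh_lower z hz0 h1
    have h3 := h2 (A.K n)
    have h4 : Pool.Agent.ZL2.hh (algebraMap (A.K n) (A.K n) z) = 0 := by
      unfold Pool.Agent.ZL2.hh
      rw [Sm_congr (g := fun _ => 0) (fun p => ?_), Sm_zero]
      show max 0 (lv p z) = 0
      rw [h0 p, max_self]
    rw [h4] at h3
    have h5 : (0 : ℝ) < Module.finrank ℚ (A.K n) := by exact_mod_cast Module.finrank_pos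
    have := mul_pos hc0 h5
    linarith

/-- Row Z8-G1c. As `Z7.Ar.rk_le`. -/
theorem Ar.rk_le (A : Ar F S) {n : ℕ} {P : Fin k ⊕ Fin m → ℂˣ}
    (hP : ∀ i, A.j n (A.pt n i) = (P i : ℂ)) :
    rk ({P} : Set (Fin k ⊕ Fin m → ℂˣ)) ≤ Module.finrank ℝ (A.N n) := by
  classical
  unfold rk
  obtain ⟨B⟩ : Nonempty (Module.Basis (Fin (Module.finrank ℤ (Lam ({P} : Set (Fin k ⊕ Fin m → ℂˣ))))) ℤ
    (Lam ({P} : Set (Fin k ⊕ Fin m → ℂˣ)))) := ⟨Module.finBasis ℤ _⟩
  have h1 : LinearIndependent ℤ (fun i => ((B i : Lam ({P} : Set (Fin k ⊕ Fin m → ℂˣ))) : Fin k ⊕ Fin m → ℤ)) :=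
    B.linearIndependent.map' (Lam ({P} : Set (Fin k ⊕ Fin m → ℂˣ))).subtype (Submodule.ker_subtype _)
  have h2 : LinearIndependent ℝ (fun i => (algebraMap ℤ ℝ) ∘
      ((B i : Lam ({P} : Set (Fin k ⊕ Fin m → ℂˣ))) : Fin k ⊕ Fin m → ℤ)) := by
    rw [linearIndependent_algebraMap_comp_iff]
    exact h1
  let w : Fin (Module.finrank ℤ (Lam ({P} : Set (Fin k ⊕ Fin m → ℂˣ)))) → A.N n := fun i =>
    ⟨fun q => (((B i : Lam ({P} : Set (Fin k ⊕ Fin m → ℂˣ))) : Fin k ⊕ Fin m → ℤ) q : ℝ),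
      (A.mem_Lam_iff hP _).1 (B i).2⟩
  have h3 : LinearIndependent ℝ w := by
    apply LinearIndependent.of_comp (A.N n).subtype
    exact h2
  have h4 := h3.fintype_card_le_finrank
  rwa [Fintype.card_fin] at h4

theorem no_seq {C : Set (Fin m → ℂˣ)} (h : HC C) {S : Sk k m} (hk : 2 ≤ k) (hm : 2 ≤ m) (hS : S.C = co '' C)
    (hR : Rat S.toCv ∧ HHp S.toCv) (hΦa : AlgCk S.Φ) (P : ℕ → Fin k ⊕ Fin m → ℂˣ)
    (hPV : ∀ n, P n ∈ VSk C S.Φ) (hPa : ∀ n i, IsAlgebraic ℚ (P n i : ℂ))
    (hPs : ∀ n (e : Fin k → ℤ) (c : ℤ), e ≠ 0 → (lev S.Φ e c).Nonempty → levs S.Φ e c (xs (P n)) (ys (P n)) ≠ 0)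
    (hPg : ∀ (L : ℕ) (f : (Fin k → Fin (L + 1)) → ℤ), f ≠ 0 →
      ∀ᶠ n in cofinite, ev f (Function.update (xs (P n)) S.j0 (ys (P n) 0)) ≠ 0)
    (hrk : ∀ n, k + 1 ≤ rk ({P n} : Set (Fin k ⊕ Fin m → ℂˣ))) : False := by
  obtain ⟨F, i1, i2, i3, A, φ, -, hA⟩ := exists_Ar h hk hm hS hR hΦa P hPV hPa hPs hPg
  exact A.main fun n => (hrk (φ n)).trans (A.rk_le (hA n))

end Pool.Agent.Z8
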