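import Pool.Agent.Z8.G0
import Pool.Agent.ZL2.Geom4

open MvPolynomial Pool.Agent.MP_dd1803_nt Pool.Agent.ZPA Pool.Agent.ZL2

namespace Pool.Agent.Z8

open Filter Topology
open Pool.Agent.Z7 (HC Cv HHp Rat)

variable {k m : ℕ}

/-- Row Z8-G2a. A component of maximal dimension is stable under a one dimensional torus. PROOF. For `g : ℂˣ` let `V_g` be the image of `V` under `p ↦ p * g^w` (`ZPA.tr`, `irr_image_tr`, compare ZL2/Geom3 `coset_point`): irreducible, contained in `W`, `td V_g = td V`, so it is a component of `W` (a larger irreducible subset of `W` has `td ≤ td V`, so it is equal: `eq_of_td_le`). `W` has finitely many components, `M` say.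
For `μ : ℂˣ` two of the `V_{μ^i}`, `i = 0..M`, are equal, so `V_{μ^j} = V` for some `1 ≤ j ≤ M`, so `V_{μ^(M!)} = V`. Every `g` is of the form `μ^(M!)` (`ℂ` is algebraically closed). -/
theorem stable {κ : Type} [Fintype κ] {V W : Set (κ → ℂˣ)} (hV : Irr V) (hW : ZClosed W) (hVW : V ⊆ W)
    (hd : ∀ Y, Irr Y → Y ⊆ W → td ℂ Y ≤ td ℂ V) (w : κ → ℤ)
    (hst : ∀ p ∈ W, ∀ g : ℂˣ, (fun i => p i * g ^ w i) ∈ W) : ∀ p ∈ V, ∀ g : ℂˣ, (fun i => p i * g ^ w i) ∈ V := by
  classical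
  let gw : ℂˣ → κ → ℂˣ := fun g i => g ^ w i
  have hmul : ∀ g h x, Tr.tr (gw g) (Tr.tr (gw h) x) = Tr.tr (gw (g * h)) x := by
    intro g h x
    funext i
    simp only [Tr.tr, gw, mul_zpow, mul_assoc]
  have hone : ∀ x, Tr.tr (gw 1) x = x := by
    intro x
    funext i
    simp only [Tr.tr, gw, one_zpow, one_mul]
  have htd : ∀ g, td ℂ (Tr.tr (gw g) '' V) = td ℂ V := by
    intro g
    have h1 := Tr.dm_image_tr (gw g) V
    rw [dm_irr (Tr.irr_image_tr (gw g) hV), dm_irr hV] at h1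
    exact_mod_cast h1
  have htr : ∀ g x, Tr.tr (gw g) x = fun i => x i * g ^ w i := by
    intro g x
    funext i
    exact mul_comm _ _
  have hC : ∀ g, Comp W (Tr.tr (gw g) '' V) := by
    intro g
    refine ⟨⟨Tr.irr_image_tr _ hV, ?_⟩, ?_⟩
    · rintro _ ⟨x, hx, rfl⟩
      rw [htr]
      exact hst x (hVW hx) g
    · rintro Y ⟨hY, hYW⟩ hle
      exact (eq_of_td_le (Tr.irr_image_tr _ hV) hY hle (by
        rw [htd]
        exact hd Y hY hYW)).ge
  set M := (finite_comp hW).toFinset.card with hM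
  have key : ∀ μ : ℂˣ, Tr.tr (gw (μ ^ M.factorial)) '' V = V := by
    intro μ
    have step : ∀ i j, i < j → j ≤ M → Tr.tr (gw (μ ^ i)) '' V = Tr.tr (gw (μ ^ j)) '' V →
        Tr.tr (gw (μ ^ M.factorial)) '' V = V := by
      intro i j hij hj he
      have h1 : Tr.tr (gw (μ ^ (j - i))) '' V = V := by
        have h2 := congrArg (fun S => Tr.tr (gw ((μ ^ i)⁻¹)) '' S) he
        simp only [Set.image_image, hmul] at h2
        rw [inv_mul_cancel] at h2
        simp only [hone, Set.image_id'] at h2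
        have h3 : (μ ^ i)⁻¹ * μ ^ j = μ ^ (j - i) := by
          rw [inv_mul_eq_iff_eq_mul, ← pow_add]
          congr 1
          omega
        rw [h3] at h2
        exact h2.symm
      have h3 : ∀ l, Tr.tr (gw (μ ^ ((j - i) * l))) '' V = V := by
        intro l
        induction l with
        | zero =>
          rw [mul_zero, pow_zero]
          simp only [hone, Set.image_id']
        | succ l ih =>
          have h4 : Tr.tr (gw (μ ^ ((j - i) * (l + 1)))) '' V =
              Tr.tr (gw (μ ^ ((j - i) * l))) '' (Tr.tr (gw (μ ^ (j - i))) '' V) := by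
            rw [Set.image_image]
            simp only [hmul]
            rw [← pow_add, ← Nat.mul_succ]
          rw [h4, h1, ih]
      obtain ⟨l, hl⟩ := Nat.dvd_factorial (show 0 < j - i by omega) (show j - i ≤ M by omega)
      rw [hl]
      exact h3 l
    obtain ⟨i, hi, j, hj, hij, he⟩ := Finset.exists_ne_map_eq_of_card_lt_of_maps_to
      (s := Finset.range (M + 1)) (t := (finite_comp hW).toFinset) (f := fun i => Tr.tr (gw (μ ^ i)) '' V)
      (by
        rw [Finset.card_range]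
        omega)
      (by
        intro i _
        rw [Set.Finite.coe_toFinset]
        exact hC _)
    rw [Finset.mem_range] at hi hj
    rcases lt_or_gt_of_ne hij with h | h
    · exact step i j h (by omega) he
    · exact step j i h (by omega) he.symm
  intro p hp g
  obtain ⟨z, hz⟩ := IsAlgClosed.exists_pow_nat_eq (g : ℂ) (Nat.factorial_pos M)
  have hz0 : z ≠ 0 := by
    intro h
    rw [h, zero_pow (Nat.factorial_pos M).ne'] at hz
    exact g.ne_zero hz.symm
  have hμ : (Units.mk0 z hz0) ^ M.factorial = g := by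
    apply Units.ext
    rw [Units.val_pow_eq_pow_val, Units.val_mk0]
    exact hz
  have h6 := key (Units.mk0 z hz0)
  rw [hμ] at h6
  have h5 : Tr.tr (gw g) p ∈ V := by
    rw [← h6]
    exact ⟨p, hp, rfl⟩
  rw [htr] at h5
  exact h5

/-- a polynomial over `ℂ` with two nonzero coefficients has a nonzero root -/
theorem k8g2b_root (Q : Polynomial ℂ) (a b : ℕ) (hab : a ≠ b) (ha : Q.coeff a ≠ 0) (hb : Q.coeff b ≠ 0) :
    ∃ z : ℂ, z ≠ 0 ∧ Q.eval z = 0 := by
  by_contra hc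
  push Not at hc
  have hQ : Q ≠ 0 := by
    intro h
    rw [h, Polynomial.coeff_zero] at ha
    exact ha rfl
  have h1 : Q.roots = Multiset.replicate (Multiset.card Q.roots) 0 := by
    apply Multiset.eq_replicate_card.2
    intro z hz
    by_contra hz0
    exact hc z hz0 ((Polynomial.mem_roots hQ).1 hz)
  have h2 := (IsAlgClosed.splits Q).eq_prod_roots
  rw [h1, Multiset.map_replicate, Multiset.prod_replicate, Polynomial.C_0, sub_zero] at h2
  rw [h2, Polynomial.coeff_C_mul, Polynomial.coeff_X_pow] at ha hb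
  split_ifs at ha with h3
  · split_ifs at hb with h4
    · exact hab (h3.trans h4.symm)
    · exact hb (mul_zero _)
  · exact ha (mul_zero _)

/-- Row Z8-G2b. A polynomial whose zero set in the torus is stable under the cocharacter `e` is homogeneous for `e`. PROOF. `P = ∑_c T_c` (parts of degree `c`), `P(g^e x) = ∑_c g^c T_c(x)`. If at some `x` with nonzero coordinates two of the `T_c(x)` are not zero then the Laurent polynomial `g ↦ ∑_c g^c T_c(x)` has a zero `g0 ≠ 0` (`ℂ` algebraically closed, at least two terms);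
by stability it vanishes for all `g = g0 g'`, so all `T_c(x) g0^c = 0`: contradiction. So for two different levels `c, c'` the product `T_c T_c'` vanishes at all `x` with nonzero coordinates, so it is the zero polynomial (multiply with the product of the variables, `MvPolynomial.funext`), so `T_c = 0` or `T_c' = 0`; but the coefficients of the monomials of the support are not zero. -/
theorem homog_of_stable (P : MvPolynomial (Fin k) ℂ) (e : Fin k → ℤ)
    (hst : ∀ x : Fin k → ℂˣ, eval (fun j => (x j : ℂ)) P = 0 → ∀ g : ℂˣ,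
      eval (fun j => ((x j * g ^ e j : ℂˣ) : ℂ)) P = 0) :
    ∀ α ∈ P.support, ∀ β ∈ P.support, ∑ j, e j * (α j : ℤ) = ∑ j, e j * (β j : ℤ) := by
  classical
  intro α hα β hβ
  by_contra hne
  set lv : (Fin k →₀ ℕ) → ℤ := fun γ => ∑ j, e j * (γ j : ℤ) with hlv
  have hne' : lv α ≠ lv β := hne
  -- the parts
  let T : ℤ → MvPolynomial (Fin k) ℂ := fun c => ∑ γ ∈ P.support.filter (fun γ => lv γ = c), monomial γ (P.coeff γ)
  have hT : ∀ γ ∈ P.support, T (lv γ) ≠ 0 := by
    intro γ hγ h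
    have h1 := congrArg (MvPolynomial.coeff γ) h
    simp only [T, MvPolynomial.coeff_sum, MvPolynomial.coeff_monomial, MvPolynomial.coeff_zero] at h1
    rw [Finset.sum_ite_eq', if_pos (show γ ∈ P.support.filter (fun δ => lv δ = lv γ) from
      Finset.mem_filter.2 ⟨hγ, rfl⟩)] at h1
    exact (MvPolynomial.mem_support_iff.1 hγ) h1
  have hprod : T (lv α) * T (lv β) * ∏ j : Fin k, (X j : MvPolynomial (Fin k) ℂ) ≠ 0 := by
    refine mul_ne_zero (mul_ne_zero (hT α hα) (hT β hβ)) ?_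
    rw [Finset.prod_ne_zero_iff]
    intro j _
    exact MvPolynomial.X_ne_zero j
  obtain ⟨x, hx⟩ : ∃ x : Fin k → ℂ, eval x (T (lv α) * T (lv β) * ∏ j : Fin k, (X j : MvPolynomial (Fin k) ℂ)) ≠ 0 := by
    by_contra hc
    push Not at hc
    exact hprod (MvPolynomial.funext fun x => by rw [hc x, map_zero])
  rw [map_mul, map_mul, map_prod] at hx
  simp only [eval_X] at hx
  have hxa : eval x (T (lv α)) ≠ 0 := left_ne_zero_of_mul (left_ne_zero_of_mul hx)
  have hxb : eval x (T (lv β)) ≠ 0 := right_ne_zero_of_mul (left_ne_zero_of_mul hx)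
  have hx0 : ∀ j, x j ≠ 0 := fun j => Finset.prod_ne_zero_iff.1 (right_ne_zero_of_mul hx) j (Finset.mem_univ j)
  -- the shift
  obtain ⟨N, hN⟩ : ∃ N : ℕ, ∀ γ ∈ P.support, 0 ≤ lv γ + N := by
    refine ⟨∑ γ ∈ P.support, (lv γ).natAbs, fun γ hγ => ?_⟩
    have h1 : (lv γ).natAbs ≤ ∑ γ ∈ P.support, (lv γ).natAbs :=
      Finset.single_le_sum (f := fun γ => (lv γ).natAbs) (fun _ _ => Nat.zero_le _) hγ
    omega
  set Q : Polynomial ℂ := ∑ γ ∈ P.support, Polynomial.monomial (lv γ + N).toNat (P.coeff γ * ∏ j, x j ^ γ j) with hQ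
  have hQc : ∀ γ ∈ P.support, Q.coeff (lv γ + N).toNat = eval x (T (lv γ)) := by
    intro γ hγ
    rw [hQ, Polynomial.finsetSum_coeff]
    simp only [T, map_sum, Polynomial.coeff_monomial, eval_monomial]
    rw [Finset.sum_filter]
    refine Finset.sum_congr rfl fun δ hδ => ?_
    have h1 := hN γ hγ
    have h2 := hN δ hδ
    have h3 : (lv δ + N).toNat = (lv γ + N).toNat ↔ lv δ = lv γ := by omega
    by_cases h4 : lv δ = lv γ
    · rw [if_pos (h3.2 h4), if_pos h4, Finsupp.prod_fintype]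
      intro i
      exact pow_zero _
    · rw [if_neg (fun h => h4 (h3.1 h)), if_neg h4]
  have hev : ∀ g : ℂˣ, Q.eval (g : ℂ) = (g : ℂ) ^ N *
      eval (fun j => ((Units.mk0 (x j) (hx0 j) * g ^ e j : ℂˣ) : ℂ)) P := by
    intro g
    rw [MvPolynomial.eval_eq', Finset.mul_sum, hQ, Polynomial.eval_finsetSum]
    refine Finset.sum_congr rfl fun γ hγ => ?_
    rw [Polynomial.eval_monomial]
    have h1 : ∏ j, ((Units.mk0 (x j) (hx0 j) * g ^ e j : ℂˣ) : ℂ) ^ γ j = (∏ j, x j ^ γ j) * (g : ℂ) ^ (lv γ) := by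
      rw [hlv]
      have h2' : ∀ s : Finset (Fin k), (g : ℂ) ^ (∑ j ∈ s, e j * (γ j : ℤ)) = ∏ j ∈ s, ((g : ℂ) ^ e j) ^ γ j := by
        intro s
        induction s using Finset.induction_on with
        | empty => rw [Finset.sum_empty, Finset.prod_empty, zpow_zero]
        | insert a s ha ih =>
          rw [Finset.sum_insert ha, Finset.prod_insert ha, zpow_add₀ g.ne_zero, ih, zpow_mul, zpow_natCast]
      have h2 := h2' Finset.univ
      show _ = (∏ j, x j ^ γ j) * (g : ℂ) ^ (∑ j, e j * (γ j : ℤ))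
      rw [h2, ← Finset.prod_mul_distrib]
      refine Finset.prod_congr rfl fun j _ => ?_
      rw [Units.val_mul, Units.val_mk0, Units.val_zpow_eq_zpow_val, mul_pow]
    rw [h1]
    have h3 : (g : ℂ) ^ (lv γ + N).toNat = (g : ℂ) ^ N * (g : ℂ) ^ (lv γ) := by
      rw [← zpow_natCast, Int.toNat_of_nonneg (hN γ hγ), zpow_add₀ g.ne_zero, zpow_natCast, mul_comm]
    rw [h3]
    ring
  have hα' := hQc α hα
  have hβ' := hQc β hβ
  have hNα := hN α hα
  have hNβ := hN β hβ
  obtain ⟨z, hz0, hz⟩ := k8g2b_root Q (lv α + N).toNat (lv β + N).toNat (by omega) (by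
    rw [hα']
    exact hxa) (by
    rw [hβ']
    exact hxb)
  have hroot := hev (Units.mk0 z hz0)
  rw [Units.val_mk0, hz] at hroot
  have hP0 := (mul_eq_zero.1 hroot.symm).resolve_left (pow_ne_zero _ hz0)
  have hall := hst _ hP0
  have hQ0 : Q = 0 := by
    apply Polynomial.eq_zero_of_infinite_isRoot
    refine Set.Infinite.mono (s := {0}ᶜ) ?_ (Set.finite_singleton (0 : ℂ)).infinite_compl
    intro g hg
    have hg0 : g ≠ 0 := hg
    show Q.eval g = 0
    have h1 := hev (Units.mk0 g hg0)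
    rw [Units.val_mk0] at h1
    have h2 := hall ((Units.mk0 z hz0)⁻¹ * Units.mk0 g hg0)
    have h3 : (fun j => ((Units.mk0 (x j) (hx0 j) * Units.mk0 z hz0 ^ e j *
        ((Units.mk0 z hz0)⁻¹ * Units.mk0 g hg0) ^ e j : ℂˣ) : ℂ)) =
        fun j => ((Units.mk0 (x j) (hx0 j) * Units.mk0 g hg0 ^ e j : ℂˣ) : ℂ) := by
      funext j
      congr 1
      rw [mul_zpow, inv_zpow, mul_assoc, mul_inv_cancel_left]
    rw [h3] at h2
    rw [h1, h2, mul_zero]
  rw [← hα', hQ0, Polynomial.coeff_zero] at hxa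
  exact hxa rfl

variable [NeZero m] {C : Set (Fin m → ℂˣ)}

/-- Row Z8-G2c. `levs S.Φ e c` does not vanish on the cylinder (at `y ∈ C`, `co y ∉ S.E`, `HC.infinite`, the coefficients of the `α ∈ lev` are not zero, `S.coef`, and a nonzero polynomial does not vanish on the torus), so `Y` is a proper irreducible closed subset of `Cyl k C`: `td_lt` and `cyl_irr`. -/
theorem td_lev (h : HC C) {S : Sk k m} (hS : S.C = co '' C) {e : Fin k → ℤ} {c : ℤ} (hc : (lev S.Φ e c).Nonempty)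
    {Y : Set (Fin k ⊕ Fin m → ℂˣ)} (hY : Irr Y) (hYC : Y ⊆ Cyl k C)
    (h0 : ∀ p ∈ Y, levs S.Φ e c (xs p) (ys p) = 0) : td ℂ Y ≤ k := by
  classical
  obtain ⟨hCi, hCd⟩ := cyl_irr (k := k) h
  obtain ⟨α, hα⟩ := hc
  have h1 : Y ⊂ Cyl k C := by
    refine ⟨hYC, fun hCY => ?_⟩
    have hEf : {y : Fin m → ℂˣ | co y ∈ S.E}.Finite :=
      S.hE.preimage (fun y _ z _ hyz => funext fun i => Units.ext (congrFun hyz i))
    obtain ⟨y, hy, hyE⟩ := (h.infinite.sdiff hEf).nonempty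
    have hyE' : co y ∉ S.E := hyE
    have hyC : co y ∈ S.C := by rw [hS]; exact ⟨y, hy, rfl⟩
    have hQ : ∑ β ∈ lev S.Φ e c, monomial β (eval (co y) (S.Φ.coeff β)) = (0 : MvPolynomial (Fin k) ℂ) := by
      refine MvPolynomial.funext_set (fun _ => {z : ℂ | z ≠ 0}) (fun _ => ?_) (fun x hx => ?_)
      · have : ({(0 : ℂ)}ᶜ : Set ℂ).Infinite := (Set.finite_singleton (0 : ℂ)).infinite_compl
        exact this
      · have hx' : ∀ j, x j ≠ 0 := fun j => hx j (Set.mem_univ j)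
        have h2 := h0 (Sum.elim (fun j => Units.mk0 (x j) (hx' j)) y) (hCY hy)
        have h3 : xs (Sum.elim (fun j => Units.mk0 (x j) (hx' j)) y : Fin k ⊕ Fin m → ℂˣ) = x := rfl
        have h4 : ys (Sum.elim (fun j => Units.mk0 (x j) (hx' j)) y : Fin k ⊕ Fin m → ℂˣ) = co y := rfl
        rw [h3, h4] at h2
        rw [map_sum, map_zero]
        unfold levs at h2
        rw [← h2]
        refine Finset.sum_congr rfl fun β _ => ?_
        rw [eval_monomial, Finsupp.prod_fintype _ _ (fun i => pow_zero _)]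
    have h5 := congrArg (MvPolynomial.coeff α) hQ
    rw [coeff_sum, coeff_zero, Finset.sum_eq_single α] at h5
    · rw [coeff_monomial, if_pos rfl] at h5
      exact S.coef (co y) hyC hyE' α (Finset.mem_filter.1 hα).1 h5
    · intro β _ hβ
      rw [coeff_monomial, if_neg hβ]
    · intro h6
      exact absurd hα h6
  have h2 := td_lt hY hCi h1
  omega

/-- Row Z8-G2d. `≤`: as `td_lev` (`S.Φ` does not vanish on the cylinder; the support of `S.Φ` is not empty by `S.nd`, `1 ≤ k`); `≥`: `krull` with `exists_poly` (`VSk C S.Φ = Cyl k C ∩ zp p`, an irreducible set is its own component). -/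
theorem td_VSk (h : HC C) {S : Sk k m} (hk : 1 ≤ k) (hS : S.C = co '' C) (hV : Irr (VSk C S.Φ)) :
    td ℂ (VSk C S.Φ) = k := by
  classical
  obtain ⟨hCi, hCd⟩ := cyl_irr (k := k) h
  have hlev : lev S.Φ 0 0 = S.Φ.support := by
    unfold lev
    refine Finset.filter_true_of_mem fun α _ => ?_
    simp
  have hle : td ℂ (VSk C S.Φ) ≤ k := by
    refine td_lev h hS (e := 0) (c := 0) ?_ hV (fun p hp => hp.1) (fun p hp => ?_)
    · rw [hlev]
      obtain ⟨α, hα, -⟩ := S.nd ⟨0, hk⟩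
      exact ⟨α, hα⟩
    · unfold levs
      rw [hlev, ← evk_eq]
      exact hp.2
  obtain ⟨P, hP⟩ := exists_poly S.Φ
  have heq : VSk C S.Φ = Cyl k C ∩ zp P := by
    ext p
    rw [Set.mem_inter_iff, mem_zp, MvPolynomial.aeval_eq_eval]
    have h1 : co p = Sum.elim (xs p) (ys p) := by
      funext i
      rcases i with i | i <;> rfl
    have h2 : (eval (co p)) P = evk S.Φ (xs p) (ys p) := by
      rw [h1, hP]
    constructor
    · rintro ⟨h3, h4⟩
      exact ⟨h3, h2.trans h4⟩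
    · rintro ⟨h3, h4⟩
      exact ⟨h3, h2.symm.trans h4⟩
  have hcomp : Comp (Cyl k C ∩ zp P) (VSk C S.Φ) := by
    refine ⟨⟨hV, heq.subset⟩, fun Z hZ _ => ?_⟩
    rw [heq]
    exact hZ.2
  have h3 := krull hCi P hcomp
  omega

/-- The polynomial of a level. -/
noncomputable def k8g2e_P (Φ : MvPolynomial (Fin k) (MvPolynomial (Fin m) ℂ)) (e : Fin k → ℤ) (c : ℤ) :
    MvPolynomial (Fin k) (MvPolynomial (Fin m) ℂ) := ∑ α ∈ lev Φ e c, monomial α (Φ.coeff α)

omit [NeZero m] in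
theorem k8g2e_ev (Φ : MvPolynomial (Fin k) (MvPolynomial (Fin m) ℂ)) (e : Fin k → ℤ) (c : ℤ) (x : Fin k → ℂ)
    (y : Fin m → ℂ) : evk (k8g2e_P Φ e c) x y = levs Φ e c x y := by
  unfold evk sp k8g2e_P levs
  rw [map_sum, map_sum]
  refine Finset.sum_congr rfl fun α _ => ?_
  rw [map_monomial, eval_monomial, Finsupp.prod_fintype _ _ (fun i => pow_zero _)]

theorem k8g2e_zs (g : ℂˣ) (s : Finset (Fin k)) (f : Fin k → ℤ) : ∏ j ∈ s, g ^ f j = g ^ ∑ j ∈ s, f j := by
  classical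
  induction s using Finset.induction_on with
  | empty => simp
  | insert a s ha ih => rw [Finset.prod_insert ha, Finset.sum_insert ha, ih, zpow_add]

omit [NeZero m] in
theorem k8g2e_smul (Φ : MvPolynomial (Fin k) (MvPolynomial (Fin m) ℂ)) (e : Fin k → ℤ) (c : ℤ) (x : Fin k → ℂˣ)
    (y : Fin m → ℂ) (g : ℂˣ) : levs Φ e c (fun j => ((x j * g ^ e j : ℂˣ) : ℂ)) y =
      ((g ^ c : ℂˣ) : ℂ) * levs Φ e c (fun j => (x j : ℂ)) y := by
  unfold levs
  rw [Finset.mul_sum]
  refine Finset.sum_congr rfl fun α hα => ?_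
  have h1 : ∑ j, e j * (α j : ℤ) = c := (Finset.mem_filter.1 hα).2
  have h2 : ∏ j, (x j * g ^ e j) ^ α j = (g ^ c) * ∏ j, x j ^ α j := by
    simp_rw [mul_pow]
    rw [Finset.prod_mul_distrib, mul_comm]
    congr 1
    rw [← h1, ← k8g2e_zs]
    refine Finset.prod_congr rfl fun j _ => ?_
    rw [zpow_mul, zpow_natCast]
  have h3 : ∏ j, ((x j * g ^ e j : ℂˣ) : ℂ) ^ α j = ((g ^ c : ℂˣ) : ℂ) * ∏ j, (x j : ℂ) ^ α j := by
    have h4 := congrArg (Units.val) h2
    rw [Units.val_mul, Units.coe_prod, Units.coe_prod] at h4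
    simp only [Units.val_pow_eq_pow_val] at h4
    exact h4
  rw [h3]
  ring

/-- Row Z8-G2e. The level sums do not vanish on `V = VSk C S.Φ`. PROOF. If `levs S.Φ e c` vanishes on `V` let `W` be the set of the points of the cylinder where it vanishes: closed (compare `exists_poly` and `zclosed_VSk`: `VSk C Φ'` with `Φ' = ∑_{α ∈ lev} monomial α (S.Φ.coeff α)`), stable under `x ↦ g^e x` (`levs` is multiplied with `g^c`), and the irreducible subsets have `td ≤ k = td V` (`td_lev`, `td_VSk`).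
By `stable` (with `w = Sum.elim e 0`) `V` is stable. Take `y ∈ C` with `co y ∉ S.E`: `homog_of_stable` for `sp S.Φ (co y)`, whose support is the support of `S.Φ` (`S.coef`), contradicts `S.full e`. -/
theorem lev_ne (h : HC C) {S : Sk k m} (hS : S.C = co '' C) {V : Set (Fin k ⊕ Fin m → ℂˣ)} (hV : Irr V)
    (hVd : td ℂ V = k) (hVS : V ⊆ VSk C S.Φ) (hVE : ∀ p ∈ VSk C S.Φ, ys p ∉ S.E → p ∈ V) {e : Fin k → ℤ}
    (he : e ≠ 0) {c : ℤ} (hc : (lev S.Φ e c).Nonempty) :
    ∃ p ∈ V, levs S.Φ e c (xs p) (ys p) ≠ 0 := by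
  classical
  by_contra hcon
  push Not at hcon
  have hcoinj : Function.Injective (co : (Fin m → ℂˣ) → Fin m → ℂ) := fun a b hab =>
    funext fun i => Units.ext (congrFun hab i)
  have hst : ∀ p ∈ VSk C (k8g2e_P S.Φ e c), ∀ g : ℂˣ,
      (fun i => p i * g ^ (Sum.elim e (0 : Fin m → ℤ)) i) ∈ VSk C (k8g2e_P S.Φ e c) := by
    rintro p ⟨h1, h2⟩ g
    have h3 : ∀ i : Fin m, p (Sum.inr i) * g ^ (Sum.elim e (0 : Fin m → ℤ)) (Sum.inr i) = p (Sum.inr i) := by
      intro i
      show p (Sum.inr i) * g ^ (0 : ℤ) = _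
      rw [zpow_zero, mul_one]
    refine ⟨?_, ?_⟩
    · show (fun i : Fin m => p (Sum.inr i) * g ^ (Sum.elim e (0 : Fin m → ℤ)) (Sum.inr i)) ∈ C
      simp only [h3]
      exact h1
    · rw [k8g2e_ev] at h2 ⊢
      have h4 : ys (fun i => p i * g ^ (Sum.elim e (0 : Fin m → ℤ)) i) = ys p := by
        funext i
        exact congrArg Units.val (h3 i)
      rw [h4]
      have h5 := k8g2e_smul S.Φ e c (fun j => p (Sum.inl j)) (ys p) g
      have h6 : levs S.Φ e c (fun j => ((p (Sum.inl j) : ℂˣ) : ℂ)) (ys p) = 0 := h2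
      rw [h6, mul_zero] at h5
      exact h5
  have hVW : V ⊆ VSk C (k8g2e_P S.Φ e c) := by
    intro p hp
    refine ⟨(hVS hp).1, ?_⟩
    rw [k8g2e_ev]
    exact hcon p hp
  have hd : ∀ Y, Irr Y → Y ⊆ VSk C (k8g2e_P S.Φ e c) → td ℂ Y ≤ td ℂ V := by
    intro Y hY hYW
    rw [hVd]
    refine td_lev h hS hc hY (fun p hp => (hYW hp).1) fun p hp => ?_
    have h1 := (hYW hp).2
    rw [k8g2e_ev] at h1
    exact h1
  have hstab := stable hV (zclosed_VSk h.irr.closed) hVW hd (Sum.elim e (0 : Fin m → ℤ)) hst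
  obtain ⟨y, hy, hyE⟩ := (h.infinite.sdiff (S.hE.preimage hcoinj.injOn)).nonempty
  have hyE' : co y ∉ S.E := hyE
  have hyC : co y ∈ S.C := hS ▸ ⟨y, hy, rfl⟩
  have hhom := homog_of_stable (sp S.Φ (co y)) e (by
    intro x hx g
    have h1 : (Sum.elim x y : Fin k ⊕ Fin m → ℂˣ) ∈ V := hVE _ ⟨hy, hx⟩ hyE'
    have h2 := (hVS (hstab _ h1 g)).2
    have h3 : ys (fun i => (Sum.elim x y : Fin k ⊕ Fin m → ℂˣ) i * g ^ (Sum.elim e (0 : Fin m → ℤ)) i) = co y := by
      funext i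
      show ((y i * g ^ (0 : ℤ) : ℂˣ) : ℂ) = y i
      rw [zpow_zero, mul_one]
    rw [h3] at h2
    exact h2)
  obtain ⟨α, hα, β, hβ, hne⟩ := S.full e he
  have hsup : ∀ α ∈ S.Φ.support, α ∈ (sp S.Φ (co y)).support := by
    intro α hα
    rw [mem_support_iff]
    unfold sp
    rw [coeff_map]
    exact S.coef _ hyC hyE' α hα
  exact hne (hhom α (hsup α hα) β (hsup β hβ))

/-- Evaluation of a function on `V` at a point of `V`. -/
noncomputable def k8g2f_at {κ : Type} {V : Set (κ → ℂˣ)} {p : κ → ℂˣ} (hp : p ∈ V) :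
    (MvPolynomial κ ℂ ⧸ vI ℂ V) →ₐ[ℂ] ℂ :=
  Ideal.Quotient.liftₐ (vI ℂ V) (aeval (co p)) fun _ ha => mem_vI.1 ha p hp

theorem k8g2f_at_gen {κ : Type} {V : Set (κ → ℂˣ)} {p : κ → ℂˣ} (hp : p ∈ V) (i : κ) :
    k8g2f_at hp (gen ℂ V i) = co p i := by
  have h1 : k8g2f_at hp (gen ℂ V i) = aeval (co p) (X i : MvPolynomial κ ℂ) := rfl
  rw [h1, aeval_X]

theorem k8g2f_zero {κ : Type} {V : Set (κ → ℂˣ)} {a : MvPolynomial κ ℂ ⧸ vI ℂ V}
    (h : ∀ p, ∀ hp : p ∈ V, k8g2f_at hp a = 0) : a = 0 := by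
  obtain ⟨q, rfl⟩ := Ideal.Quotient.mk_surjective a
  rw [Ideal.Quotient.eq_zero_iff_mem, mem_vI]
  intro p hp
  exact h p hp

/-- Every point of the curve outside of `E` is the projection of a point of the bundle. -/
theorem k8g2f_dom {S : Sk k m} (hS : S.C = co '' C) {V : Set (Fin k ⊕ Fin m → ℂˣ)}
    (hVE : ∀ p ∈ VSk C S.Φ, ys p ∉ S.E → p ∈ V) {y : Fin m → ℂˣ} (hy : y ∈ C) (hyE : co y ∉ S.E) :
    ∃ p ∈ V, ∀ i, p (Sum.inr i) = y i := by
  classical
  by_contra hcon
  push Not at hcon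
  have he : (Pi.single S.j0 1 : Fin k → ℤ) ≠ 0 := by
    intro h0
    have := congrFun h0 S.j0
    rw [Pi.single_eq_same, Pi.zero_apply] at this
    exact one_ne_zero this
  have hhom := homog_of_stable (sp S.Φ (co y)) (Pi.single S.j0 1) (by
    intro x hx g
    exfalso
    obtain ⟨i, hi⟩ := hcon (Sum.elim x y : Fin k ⊕ Fin m → ℂˣ) (hVE _ ⟨hy, hx⟩ hyE)
    exact hi rfl)
  obtain ⟨α, hα, β, hβ, hne⟩ := S.full _ he
  have hsup : ∀ α ∈ S.Φ.support, α ∈ (sp S.Φ (co y)).support := by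
    intro α hα
    rw [mem_support_iff]
    unfold sp
    rw [coeff_map]
    exact S.coef _ (hS ▸ ⟨y, hy, rfl⟩) hyE α hα
  exact hne (hhom α (hsup α hα) β (hsup β hβ))

/-- The coordinates which form a basis. -/
def k8g2f_φ (j0 : Fin k) (j : Fin k) : Fin k ⊕ Fin m := if j = j0 then Sum.inr 0 else Sum.inl j

theorem k8g2f_inj (j0 : Fin k) : Function.Injective (k8g2f_φ (m := m) j0) := by
  intro a b hab
  unfold k8g2f_φ at hab
  by_cases ha : a = j0 <;> by_cases hb : b = j0 <;> simp_all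

theorem k8g2f_y (h : HC C) {S : Sk k m} (hS : S.C = co '' C) {V : Set (Fin k ⊕ Fin m → ℂˣ)}
    (hVS : V ⊆ VSk C S.Φ) (hVE : ∀ p ∈ VSk C S.Φ, ys p ∉ S.E → p ∈ V) (i : Fin m) :
    IsAlgebraic (Algebra.adjoin ℂ (gen ℂ V '' Set.range (k8g2f_φ (m := m) S.j0)))
      (gen ℂ V (Sum.inr i)) := by
  classical
  have h0 : gen ℂ V (Sum.inr 0) ∈
      Algebra.adjoin ℂ (gen ℂ V '' Set.range (k8g2f_φ (m := m) S.j0)) :=
    Algebra.subset_adjoin ⟨_, ⟨S.j0, by simp [k8g2f_φ]⟩, rfl⟩
  obtain ⟨n, hn⟩ : ∃ n, (S.q i).coeff n ≠ 0 := by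
    by_contra hcon
    push Not at hcon
    exact S.hq0 i (Polynomial.ext fun n => by rw [hcon n, Polynomial.coeff_zero])
  have hcoinj : Function.Injective (co : (Fin m → ℂˣ) → Fin m → ℂ) := fun a b hab =>
    funext fun i => Units.ext (congrFun hab i)
  refine ⟨(S.q i).map ((Polynomial.aeval (⟨_, h0⟩ :
    Algebra.adjoin ℂ (gen ℂ V '' Set.range (k8g2f_φ (m := m) S.j0)))) : Polynomial ℂ →ₐ[ℂ] _).toRingHom, ?_, ?_⟩
  · intro hz
    have h1 := congrArg (fun G => G.coeff n) hz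
    simp only [Polynomial.coeff_map, Polynomial.coeff_zero] at h1
    have h2 : Polynomial.aeval (gen ℂ V (Sum.inr 0)) ((S.q i).coeff n) = 0 := by
      have h3 := congrArg (fun z : Algebra.adjoin ℂ (gen ℂ V '' Set.range (k8g2f_φ (m := m) S.j0)) =>
        (z : MvPolynomial (Fin k ⊕ Fin m) ℂ ⧸ vI ℂ V)) h1
      simp only [ZeroMemClass.coe_zero] at h3
      rw [← h3]
      exact (Polynomial.aeval_algHom_apply (Subalgebra.val _) (⟨_, h0⟩ :
        Algebra.adjoin ℂ (gen ℂ V '' Set.range (k8g2f_φ (m := m) S.j0))) _)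
    have h4 : ∀ p ∈ V, (p (Sum.inr 0) : ℂ) ∈ ((S.q i).coeff n).roots.toFinset := by
      intro p hp
      rw [Multiset.mem_toFinset, Polynomial.mem_roots hn]
      have h5 := congrArg (k8g2f_at hp) h2
      rw [← Polynomial.aeval_algHom_apply, k8g2f_at_gen, map_zero] at h5
      exact h5
    apply h.infinite
    refine Set.Finite.of_finite_image (f := co) ?_ hcoinj.injOn
    refine (S.hE.union ((((S.q i).coeff n).roots.toFinset.finite_toSet).biUnion fun t _ => S.fib t)).subset ?_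
    rintro _ ⟨y, hy, rfl⟩
    by_cases hyE : co y ∈ S.E
    · exact Or.inl hyE
    · right
      obtain ⟨p, hp, hpy⟩ := k8g2f_dom hS hVE hy hyE
      rw [Set.mem_iUnion₂]
      refine ⟨(p (Sum.inr 0) : ℂ), h4 p hp, ?_, ?_⟩
      · rw [hS]
        exact ⟨y, hy, rfl⟩
      · rw [hpy 0]
        rfl
  · apply k8g2f_zero
    intro p hp
    rw [Polynomial.aeval_def, Polynomial.eval₂_map]
    show (k8g2f_at hp).toRingHom _ = 0
    rw [Polynomial.hom_eval₂]
    have h1 := S.hq (ys p) (by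
      rw [hS]
      exact ⟨_, (hVS hp).1, rfl⟩) i
    unfold Pool.Agent.Z5.ev2 at h1
    rw [Polynomial.eval_map] at h1
    have h2 : (k8g2f_at hp).toRingHom (gen ℂ V (Sum.inr i)) = ys p i := k8g2f_at_gen hp _
    rw [h2]
    refine Eq.trans ?_ h1
    congr 1
    refine Polynomial.ringHom_ext (fun r => ?_) ?_
    · simp
    · simp only [RingHom.comp_apply, Polynomial.coe_evalRingHom, Polynomial.eval_X]
      show k8g2f_at hp (algebraMap _ _ (Polynomial.aeval _ Polynomial.X)) = _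
      rw [Polynomial.aeval_X]
      exact k8g2f_at_gen hp _

theorem k8g2f_x (h : HC C) {S : Sk k m} (hS : S.C = co '' C) {V : Set (Fin k ⊕ Fin m → ℂˣ)} (hV : Irr V)
    (hVd : td ℂ V = k) (hVS : V ⊆ VSk C S.Φ) (hVE : ∀ p ∈ VSk C S.Φ, ys p ∉ S.E → p ∈ V) :
    IsAlgebraic (Algebra.adjoin ℂ (gen ℂ V '' {(Sum.inl S.j0 : Fin k ⊕ Fin m)}ᶜ))
      (gen ℂ V (Sum.inl S.j0)) := by
  classical
  obtain ⟨R1, hR1⟩ : ∃ R1 : Subalgebra ℂ (MvPolynomial (Fin k ⊕ Fin m) ℂ ⧸ vI ℂ V),
    R1 = Algebra.adjoin ℂ (gen ℂ V '' {(Sum.inl S.j0 : Fin k ⊕ Fin m)}ᶜ) := ⟨_, rfl⟩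
  have hm : ∀ i : Fin k ⊕ Fin m, i ≠ Sum.inl S.j0 → gen ℂ V i ∈ R1 := fun i hi =>
    hR1 ▸ Algebra.subset_adjoin ⟨i, hi, rfl⟩
  rw [← hR1]
  let gy : Fin m → R1 := fun i => ⟨gen ℂ _ (Sum.inr i), hm _ (by simp)⟩
  let gx : Fin k → R1 := fun j => if hj : j = S.j0 then 1 else
    ⟨gen ℂ _ (Sum.inl j), hm _ (fun h => hj (Sum.inl_injective h))⟩
  let c : (Fin k →₀ ℕ) → R1 := fun α => aeval gy (S.Φ.coeff α) * ∏ j, gx j ^ α j
  have key : ∀ p, ∀ hp : p ∈ V, ∀ α : Fin k →₀ ℕ, k8g2f_at hp (c α) * (xs p S.j0) ^ (α S.j0) =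
      eval (ys p) (S.Φ.coeff α) * ∏ j, xs p j ^ α j := by
    intro p hp α
    let ψ : R1 →ₐ[ℂ] ℂ := (k8g2f_at hp).comp R1.val
    have h1 : k8g2f_at hp (c α) = ψ (c α) := rfl
    have h2 : ψ (aeval gy (S.Φ.coeff α)) = eval (ys p) (S.Φ.coeff α) := by
      rw [MvPolynomial.comp_aeval_apply]
      have h3 : (fun i => ψ (gy i)) = ys p := by
        funext i
        exact k8g2f_at_gen hp _
      rw [h3, MvPolynomial.aeval_eq_eval]
    have h4 : ∀ j, j ≠ S.j0 → ψ (gx j) = xs p j := by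
      intro j hj
      have h5 : gx j = ⟨gen ℂ _ (Sum.inl j), hm _ (fun h => hj (Sum.inl_injective h))⟩ := dif_neg hj
      rw [h5]
      exact k8g2f_at_gen hp _
    have h6 : ψ (gx S.j0) = 1 := by
      have h7 : gx S.j0 = 1 := dif_pos rfl
      rw [h7, map_one]
    rw [h1]
    show ψ (aeval gy (S.Φ.coeff α) * ∏ j, gx j ^ α j) * _ = _
    rw [map_mul, h2, map_prod, ← Finset.mul_prod_erase Finset.univ (fun j => ψ (gx j ^ α j)) (Finset.mem_univ S.j0),
      ← Finset.mul_prod_erase Finset.univ (fun j => xs p j ^ α j) (Finset.mem_univ S.j0), map_pow, h6, one_pow, one_mul]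
    have h8 : ∏ j ∈ Finset.univ.erase S.j0, ψ (gx j ^ α j) = ∏ j ∈ Finset.univ.erase S.j0, xs p j ^ α j := by
      refine Finset.prod_congr rfl fun j hj => ?_
      rw [map_pow, h4 j (Finset.ne_of_mem_erase hj)]
    rw [h8]
    ring
  have he : (Pi.single S.j0 1 : Fin k → ℤ) ≠ 0 := by
    intro h0
    have := congrFun h0 S.j0
    rw [Pi.single_eq_same, Pi.zero_apply] at this
    exact one_ne_zero this
  have hlev : ∀ α : Fin k →₀ ℕ, ∑ j, (Pi.single S.j0 1 : Fin k → ℤ) j * (α j : ℤ) = (α S.j0 : ℤ) := by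
    intro α
    rw [Finset.sum_eq_single S.j0]
    · rw [Pi.single_eq_same, one_mul]
    · intro j _ hj
      rw [Pi.single_eq_of_ne hj, zero_mul]
    · intro h
      exact absurd (Finset.mem_univ _) h
  obtain ⟨α0, hα0, -⟩ := S.nd S.j0
  refine ⟨∑ α ∈ S.Φ.support, Polynomial.monomial (α S.j0) (c α), ?_, ?_⟩
  · intro hz
    have h1 := congrArg (fun G => G.coeff (α0 S.j0)) hz
    simp only [Polynomial.finsetSum_coeff, Polynomial.coeff_monomial, Polynomial.coeff_zero] at h1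
    rw [← Finset.sum_filter] at h1
    obtain ⟨p, hp, hne⟩ := lev_ne (c := (α0 S.j0 : ℤ)) h hS hV hVd hVS hVE he
      ⟨α0, Finset.mem_filter.2 ⟨hα0, hlev α0⟩⟩
    apply hne
    unfold levs lev
    have h2 : S.Φ.support.filter (fun α => ∑ j, (Pi.single S.j0 1 : Fin k → ℤ) j * (α j : ℤ) = (α0 S.j0 : ℤ)) =
        S.Φ.support.filter (fun α => α S.j0 = α0 S.j0) := by
      refine Finset.filter_congr fun α _ => ?_
      rw [hlev α, Nat.cast_inj]
    rw [h2]
    have h3 := congrArg (fun z : R1 => k8g2f_at hp (z : MvPolynomial (Fin k ⊕ Fin m) ℂ ⧸ vI ℂ V)) h1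
    simp only [ZeroMemClass.coe_zero, map_zero, AddSubmonoidClass.coe_finsetSum, map_sum] at h3
    have h4 := congrArg (fun z : ℂ => z * xs p S.j0 ^ (α0 S.j0)) h3
    simp only [zero_mul, Finset.sum_mul] at h4
    rw [← h4]
    refine Finset.sum_congr rfl fun α hα => ?_
    rw [← key p hp α, (Finset.mem_filter.1 hα).2]
  · apply k8g2f_zero
    intro p hp
    have h1 := (hVS hp).2
    rw [evk_eq] at h1
    rw [map_sum, map_sum, ← h1]
    refine Finset.sum_congr rfl fun α _ => ?_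
    rw [Polynomial.aeval_monomial, map_mul, map_pow, k8g2f_at_gen, ← key p hp α]
    rfl

/-- Row Z8-G2f. The coordinates `x_j`, `j ≠ j0`, and `y_0` are algebraically independent on `V`. PROOF. Every coordinate is algebraic over these `k` ones in the coordinate ring of `V`: `y_i` over `y_0` by `S.q i` (not the zero polynomial in `x` over `ℂ(y_0)`, as `y_0` is transcendental: it is not constant on `V`... or use `S.hq0`, and `S.sep`); `x_j0` over `x_j` (`j ≠ j0`) and the `y_i`: in the equation `∑_c levs (single j0 1) c = 0`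
the coefficient of `x_j0^c` does not vanish on `V` (`lev_ne` with `e = Pi.single j0 1`; `S.full e` gives two different exponents, so one is `≥ 1`). As `td V = k` they are independent: `exists_basis` with `s0 = {inl j, j ≠ j0} ∪ {inr 0}` gives a basis inside `s0` with `k` elements, so `s0` is a basis (`Ind`); a nonzero polynomial in them does not vanish on `V`. Compare ZL2/Geom `exists_basis_Lines`.
If `y_0` is constant on `V` then (`S.fib`, `V` irreducible) all `y_i` are constant on `V`, equal to `y*`, so `V` is contained in `{y = y*}`, of dimension `k`: `V` is equal to it (`td V = k`), but some level sum does not vanish.. (or: then the level sums `T_c` of `lev_ne` give a nonzero polynomial in `x` alone vanishing on `V`, while `td V = k` makes the `x_j` independent). -/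
theorem indep (h : HC C) {S : Sk k m} (hS : S.C = co '' C) {V : Set (Fin k ⊕ Fin m → ℂˣ)} (hV : Irr V)
    (hVd : td ℂ V = k) (hVS : V ⊆ VSk C S.Φ) (hVE : ∀ p ∈ VSk C S.Φ, ys p ∉ S.E → p ∈ V)
    {L : ℕ} (f : (Fin k → Fin (L + 1)) → ℤ) (hf : f ≠ 0) :
    ∃ p ∈ V, ev f (Function.update (xs p) S.j0 (ys p 0)) ≠ 0 := by
  classical
  have hP := vI_isPrime (k := ℂ) hV.pirr
  have hne : Nontrivial (MvPolynomial (Fin k ⊕ Fin m) ℂ ⧸ vI ℂ V) := inferInstance
  have halg : ∀ i, IsAlgebraic (Algebra.adjoin ℂ (gen ℂ V '' Set.range (k8g2f_φ (m := m) S.j0)))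
      (gen ℂ V i) := by
    have hx : ∀ j, j ≠ S.j0 → IsAlgebraic (Algebra.adjoin ℂ (gen ℂ V '' Set.range (k8g2f_φ (m := m) S.j0)))
        (gen ℂ V (Sum.inl j)) := by
      intro j hj
      exact isAlgebraic_algebraMap (⟨gen ℂ V (Sum.inl j), Algebra.subset_adjoin ⟨_, ⟨j, by
        unfold k8g2f_φ
        rw [if_neg hj]⟩, rfl⟩⟩ :
        Algebra.adjoin ℂ (gen ℂ V '' Set.range (k8g2f_φ (m := m) S.j0)))
    rintro (j | i)
    · by_cases hj : j = S.j0
      · rw [hj]
        refine IsAlgebraic.adjoin_of_forall_isAlgebraic ?_ (k8g2f_x h hS hV hVd hVS hVE)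
        rintro _ ⟨⟨i, hi, rfl⟩, -⟩
        rcases i with j | i
        · exact hx j fun h => hi (by rw [h]; rfl)
        · exact k8g2f_y h hS hVS hVE i
      · exact hx j hj
    · exact k8g2f_y h hS hVS hVE i
  obtain ⟨s, hs0, hs, hc⟩ := exists_basis hV.pirr (Set.range (k8g2f_φ (m := m) S.j0)) halg
  rw [hVd] at hc
  have hseq : s = Set.range (k8g2f_φ (m := m) S.j0) := by
    refine Set.eq_of_subset_of_ncard_le hs0 ?_ (Set.toFinite _)
    rw [hc, ← Set.image_univ, Set.ncard_image_of_injective _ (k8g2f_inj _), Set.ncard_univ,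
      Nat.card_eq_fintype_card, Fintype.card_fin]
  rw [hseq, ind_iff_indF] at hs
  have hF := hs.comp (fun j : Fin k => (⟨k8g2f_φ (m := m) S.j0 j, j, rfl⟩ : Set.range (k8g2f_φ (m := m) S.j0))) (by
    intro a b hab
    exact k8g2f_inj _ (congrArg Subtype.val hab))
  by_contra hcon
  push Not at hcon
  have hp0 := hF (MvPolynomial.map (Int.castRingHom ℂ) (toP f)) (by
    intro p hp
    have h1 := hcon p hp
    rw [← aeval_toP] at h1
    have h2 : (fun i : Fin k => co p ((Subtype.val ∘ fun j : Fin k =>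
        (⟨k8g2f_φ (m := m) S.j0 j, j, rfl⟩ : Set.range (k8g2f_φ (m := m) S.j0))) i)) =
        Function.update (xs p) S.j0 (ys p 0) := by
      funext j
      show co p (k8g2f_φ (m := m) S.j0 j) = _
      unfold k8g2f_φ
      by_cases hj : j = S.j0
      · rw [if_pos hj, hj, Function.update_self]
        rfl
      · rw [if_neg hj, Function.update_of_ne hj]
        rfl
    rw [h2]
    have h3 : (Int.castRingHom ℂ) = algebraMap ℤ ℂ := rfl
    rw [h3, MvPolynomial.aeval_map_algebraMap]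
    exact h1)
  apply toP_ne hf
  exact MvPolynomial.map_injective _ Int.cast_injective (by rw [hp0, map_zero])


omit [NeZero m] in
theorem k8g2g_cl1 (Φ : MvPolynomial (Fin k) (MvPolynomial (Fin m) ℂ)) (T : Finset (Fin k →₀ ℕ)) :
    ZClosed {p : Fin k ⊕ Fin m → ℂˣ | ∑ α ∈ T, eval (ys p) (Φ.coeff α) * ∏ j, xs p j ^ α j = 0} := by
  obtain ⟨q, hq⟩ := exists_poly (∑ α ∈ T, monomial α (Φ.coeff α))
  have h1 : {p : Fin k ⊕ Fin m → ℂˣ | ∑ α ∈ T, eval (ys p) (Φ.coeff α) * ∏ j, xs p j ^ α j = 0} = zp q := by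
    ext p
    rw [mem_zp]
    have h2 : co p = Sum.elim (xs p) (ys p) := by
      funext i
      rcases i with i | i <;> rfl
    rw [h2, MvPolynomial.aeval_eq_eval, hq]
    unfold evk sp
    rw [map_sum, map_sum, Set.mem_ofPred_eq]
    have h3 : ∀ α : Fin k →₀ ℕ, eval (xs p) (map (eval (ys p)) (monomial α (Φ.coeff α))) =
        eval (ys p) (Φ.coeff α) * ∏ j, xs p j ^ α j := by
      intro α
      rw [map_monomial, eval_monomial, Finsupp.prod_fintype _ _ (fun i => pow_zero _)]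
    simp only [h3]
  rw [h1]
  exact zclosed_zp q

theorem k8g2g_cl2 (j0 : Fin k) {L : ℕ} (f : (Fin k → Fin (L + 1)) → ℤ) :
    ZClosed {p : Fin k ⊕ Fin m → ℂˣ | ev f (Function.update (xs p) j0 (ys p 0)) = 0} := by
  classical
  have h1 : {p : Fin k ⊕ Fin m → ℂˣ | ev f (Function.update (xs p) j0 (ys p 0)) = 0} =
      zp (rename (fun j : Fin k => if j = j0 then (Sum.inr 0 : Fin k ⊕ Fin m) else Sum.inl j)
        (MvPolynomial.map (algebraMap ℤ ℂ) (toP f))) := by
    ext p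
    rw [mem_zp, aeval_rename, MvPolynomial.aeval_map_algebraMap, aeval_toP, Set.mem_ofPred_eq]
    have h2 : (co p ∘ fun j : Fin k => if j = j0 then (Sum.inr 0 : Fin k ⊕ Fin m) else Sum.inl j) =
        Function.update (xs p) j0 (ys p 0) := by
      funext j
      show co p (if j = j0 then (Sum.inr 0 : Fin k ⊕ Fin m) else Sum.inl j) = _
      by_cases hj : j = j0
      · rw [if_pos hj, hj, Function.update_self]
        rfl
      · rw [if_neg hj, Function.update_of_ne hj]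
        rfl
    rw [h2]
  rw [h1]
  exact zclosed_zp _

/-- Row Z8-G2g. A generic sequence in a dense set. PROOF. Enumerate the countably many pairs `(L, f)`, `f ≠ 0` (`exists_surjective_nat` or `Encodable`). The zero sets in `V` of `ev f (...)` (`indep`), of the finitely many functions `levs S.Φ e c`, `e ≠ 0` (they depend only on the subset `lev S.Φ e c` of the support, `lev_ne`) are proper closed subsets of `V`; finite unions of proper closed subsets of the irreducible `V` are proper and do not contain `B` (`hd`).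
Choose `P n ∈ B` outside of the first `n` of the first kind and of all of the second kind. -/
theorem exists_gen (h : HC C) {S : Sk k m} (hS : S.C = co '' C) {V : Set (Fin k ⊕ Fin m → ℂˣ)} (hV : Irr V)
    (hVd : td ℂ V = k) (hVS : V ⊆ VSk C S.Φ) (hVE : ∀ p ∈ VSk C S.Φ, ys p ∉ S.E → p ∈ V)
    {B : Set (Fin k ⊕ Fin m → ℂˣ)} (hd : ∀ Z, ZClosed Z → B ⊆ Z → V ⊆ Z) :
    ∃ P : ℕ → Fin k ⊕ Fin m → ℂˣ, (∀ n, P n ∈ B) ∧
      (∀ n (e : Fin k → ℤ) (c : ℤ), e ≠ 0 → (lev S.Φ e c).Nonempty → levs S.Φ e c (xs (P n)) (ys (P n)) ≠ 0) ∧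
      ∀ (L : ℕ) (f : (Fin k → Fin (L + 1)) → ℤ), f ≠ 0 →
        ∀ᶠ n in cofinite, ev f (Function.update (xs (P n)) S.j0 (ys (P n) 0)) ≠ 0 := by
  classical
  let J : Type := Σ L : ℕ, {f : (Fin k → Fin (L + 1)) → ℤ // f ≠ 0}
  have hJ : Nonempty J := ⟨⟨0, fun _ => 1, fun h0 => one_ne_zero (congrFun h0 fun _ => 0)⟩⟩
  obtain ⟨g, hg⟩ := exists_surjective_nat J
  let Z1 : Finset (Fin k →₀ ℕ) → Set (Fin k ⊕ Fin m → ℂˣ) := fun T =>
    {p | ∑ α ∈ T, eval (ys p) (S.Φ.coeff α) * ∏ j, xs p j ^ α j = 0}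
  let Z2 : J → Set (Fin k ⊕ Fin m → ℂˣ) := fun i => {p | ev i.2.1 (Function.update (xs p) S.j0 (ys p 0)) = 0}
  let G : Finset (Finset (Fin k →₀ ℕ)) := S.Φ.support.powerset.filter fun T => ¬ V ⊆ Z1 T
  have hZ1 : ∀ T, ZClosed (Z1 T) := fun T => k8g2g_cl1 S.Φ T
  have hZ2 : ∀ i, ZClosed (Z2 i) := fun i => k8g2g_cl2 S.j0 i.2.1
  have hex : ∀ n : ℕ, ∃ p ∈ B, (∀ T ∈ G, p ∉ Z1 T) ∧ ∀ i ≤ n, p ∉ Z2 (g i) := by
    intro n
    by_contra hcon
    push Not at hcon
    have h1 : B ⊆ (⋃ T ∈ G, Z1 T) ∪ ⋃ i ∈ Finset.range (n + 1), Z2 (g i) := by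
      intro p hp
      by_cases h2 : ∀ T ∈ G, p ∉ Z1 T
      · right
        obtain ⟨i, hi, h3⟩ := hcon p hp h2
        rw [Set.mem_iUnion₂]
        exact ⟨i, Finset.mem_range.2 (by omega), h3⟩
      · left
        push Not at h2
        obtain ⟨T, hT, h3⟩ := h2
        rw [Set.mem_iUnion₂]
        exact ⟨T, hT, h3⟩
    have hc1 : ZClosed (⋃ T ∈ G, Z1 T) := ZClosed.finset_biUnion G fun T _ => hZ1 T
    have hc2 : ZClosed (⋃ i ∈ Finset.range (n + 1), Z2 (g i)) :=
      ZClosed.finset_biUnion (Finset.range (n + 1)) (X := fun i => Z2 (g i)) fun i _ => hZ2 _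
    have h4 := hd _ (hc1.union hc2) h1
    rcases hV.subset_or hc1 hc2 h4 with h5 | h5
    · have h6 : V ⊆ ⋃ W ∈ G.image Z1, W := by
        intro p hp
        obtain ⟨T, hT, h7⟩ := Set.mem_iUnion₂.1 (h5 hp)
        exact Set.mem_iUnion₂.2 ⟨Z1 T, Finset.mem_image_of_mem _ hT, h7⟩
      obtain ⟨W, hW, h7⟩ := hV.subset_of_finset (G.image Z1) (by
        intro W hW
        obtain ⟨T, -, rfl⟩ := Finset.mem_image.1 hW
        exact hZ1 T) h6
      obtain ⟨T, hT, rfl⟩ := Finset.mem_image.1 hW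
      exact (Finset.mem_filter.1 hT).2 h7
    · have h6 : V ⊆ ⋃ W ∈ (Finset.range (n + 1)).image (fun i => Z2 (g i)), W := by
        intro p hp
        obtain ⟨T, hT, h7⟩ := Set.mem_iUnion₂.1 (h5 hp)
        exact Set.mem_iUnion₂.2 ⟨Z2 (g T), Finset.mem_image.2 ⟨T, hT, rfl⟩, h7⟩
      obtain ⟨W, hW, h7⟩ := hV.subset_of_finset _ (by
        intro W hW
        obtain ⟨T, -, rfl⟩ := Finset.mem_image.1 hW
        exact hZ2 _) h6
      obtain ⟨i, -, rfl⟩ := Finset.mem_image.1 hW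
      obtain ⟨p, hp, h8⟩ := indep h hS hV hVd hVS hVE (g i).2.1 (g i).2.2
      exact h8 (h7 hp)
  choose P hPB hP1 hP2 using hex
  refine ⟨P, hPB, ?_, ?_⟩
  · intro n e c he hc h0
    refine hP1 n (lev S.Φ e c) (Finset.mem_filter.2 ⟨Finset.mem_powerset.2 (Finset.filter_subset _ _), ?_⟩) h0
    intro h1
    obtain ⟨p, hp, h2⟩ := lev_ne h hS hV hVd hVS hVE he hc
    exact h2 (h1 hp)
  · intro L f hf
    obtain ⟨i, hi⟩ := hg (⟨L, f, hf⟩ : J)
    rw [Nat.cofinite_eq_atTop]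
    filter_upwards [eventually_ge_atTop i] with n hn h0
    have h1 := hP2 n i hn
    rw [hi] at h1
    exact h1 h0

end Pool.Agent.Z8
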