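import Pool.Agent.Z8.G1
import Pool.Agent.Z8.G2
import Pool.Agent.Z7.G6

open MvPolynomial Pool.Agent.MP_dd1803_nt Pool.Agent.ZPA Pool.Agent.ZL2

namespace Pool.Agent.Z8

open Filter Topology
open Pool.Agent.Z7 (HC Cv HHp Rat)

/-- Row Z8-G3a. The components of a closed set defined over the algebraic numbers are defined over the algebraic numbers. There may be a lemma in MP_dd1803_nt/Acl.lean, ZPA or Z5..Z7 (`subset_core`, `irr_cl`, `isAlgClosed_acl`): `cl (acl ∅) X` is irreducible (`irr_cl`, `acl ∅` is algebraically closed) and contained in `V`, and contains `X`. -/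
theorem cl_comp {κ : Type} [Fintype κ] {V X : Set (κ → ℂˣ)} (hV : cl (acl (∅ : Set ℂ)) V = V) (hX : Comp V X) :
    cl (acl (∅ : Set ℂ)) X = X := by
  have hac : IsAlgClosed (acl (∅ : Set ℂ)) := isAlgClosed_acl _
  exact hX.cl hV

/-- Infinitely many roots of unity. -/
theorem k8g3b_roots : ∃ ζ : ℕ → ℂˣ, Function.Injective ζ ∧ ∀ n, ζ n ^ (n + 1) = 1 := by
  have h : ∀ n : ℕ, IsPrimitiveRoot (Complex.exp (2 * Real.pi * Complex.I / ((n + 1 : ℕ) : ℂ))) (n + 1) :=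
    fun n => Complex.isPrimitiveRoot_exp (n + 1) (Nat.succ_ne_zero n)
  refine ⟨fun n => Units.mk0 _ (Complex.exp_ne_zero (2 * Real.pi * Complex.I / ((n + 1 : ℕ) : ℂ))), ?_, fun n => ?_⟩
  · intro a b hab
    have h1 : Complex.exp (2 * Real.pi * Complex.I / ((a + 1 : ℕ) : ℂ)) =
        Complex.exp (2 * Real.pi * Complex.I / ((b + 1 : ℕ) : ℂ)) := congrArg (fun u : ℂˣ => (u : ℂ)) hab
    have h2 := h a
    rw [h1] at h2
    have h3 := h2.unique (h b)
    omega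
  · apply Units.ext
    rw [Units.val_pow_eq_pow_val, Units.val_mk0, Units.val_one]
    exact (h n).pow_eq_one

/-- The section by a coordinate which is a root of unity. -/
theorem k8g3b_sec {κ : Type} [Fintype κ] {X : Set (κ → ℂˣ)} (hXa : cl (acl (∅ : Set ℂ)) X = X) (i : κ) {z : ℂˣ}
    {N : ℕ} (hN : 0 < N) (hz : z ^ N = 1) :
    cl (acl (∅ : Set ℂ)) (X ∩ {x | x i = z}) = X ∩ {x | x i = z} := by
  classical
  have hza : IsAlgebraic ℚ (z : ℂ) := by
    refine ⟨Polynomial.X ^ N - 1, ?_, ?_⟩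
    · exact (Polynomial.monic_X_pow_sub_C (1 : ℚ) hN.ne').ne_zero
    · have h1 : ((z : ℂ)) ^ N = 1 := by rw [← Units.val_pow_eq_pow_val, hz, Units.val_one]
      simp [h1]
  obtain ⟨w, hw⟩ : ∃ w : acl (∅ : Set ℂ), algebraMap (acl (∅ : Set ℂ)) ℂ w = (z : ℂ) :=
    ⟨⟨_, mem_acl_empty.2 hza⟩, rfl⟩
  have key : X ∩ {x | x i = z} = zl (acl (∅ : Set ℂ)) (insert (MvPolynomial.X i - MvPolynomial.C w)
      (vI (acl (∅ : Set ℂ)) X : Set (MvPolynomial _ _))) := by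
    ext x
    have h1 : x ∈ X ↔ ∀ q ∈ vI (acl (∅ : Set ℂ)) X, aeval (co x) q = 0 := by
      conv_lhs => rw [← hXa]
      rfl
    have h2 : aeval (co x) (MvPolynomial.X i - MvPolynomial.C w : MvPolynomial κ (acl (∅ : Set ℂ))) = 0 ↔ x i = z := by
      rw [map_sub, aeval_X, ← MvPolynomial.algebraMap_eq, AlgHom.commutes, hw, sub_eq_zero]
      exact ⟨fun h3 => Units.ext h3, fun h3 => congrArg (fun u : ℂˣ => (u : ℂ)) h3⟩
    rw [mem_zl]
    constructor
    · rintro ⟨h3, h4⟩ q hq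
      rcases hq with rfl | hq
      · exact h2.2 h4
      · exact h1.1 h3 q hq
    · intro h3
      exact ⟨h1.2 fun q hq => h3 q (Set.mem_insert_of_mem _ hq), h2.1 (h3 _ (Set.mem_insert _ _))⟩
  rw [key, cl_zl]

theorem k8g3b_ind {κ : Type} [Fintype κ] {Z : Set (κ → ℂˣ)} (hZ : ZClosed Z) (d : ℕ) :
    ∀ X : Set (κ → ℂˣ), td ℂ X = d → Irr X → cl (acl (∅ : Set ℂ)) X = X → ¬ X ⊆ Z →
    ∃ p ∈ X, p ∉ Z ∧ (∀ i, IsAlgebraic ℚ (p i : ℂ)) ∧ cd X ≤ rk ({p} : Set (κ → ℂˣ)) := by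
  classical
  induction d with
  | zero =>
    intro X htd hX hXa hXZ
    obtain ⟨w, hw, hwa⟩ := Pool.Agent.Z6.g5_algpt hX hXa
    have h1 : ({w} : Set (κ → ℂˣ)) = X := eq_of_td_le (irr_singleton w) hX (Set.singleton_subset_iff.2 hw)
      (by rw [htd]; exact Nat.zero_le _)
    refine ⟨w, hw, fun h2 => hXZ ?_, hwa, ?_⟩
    · rw [← h1]
      exact Set.singleton_subset_iff.2 h2
    · unfold cd
      rw [htd, h1, add_zero]
  | succ d ih =>
    intro X htd hX hXa hXZ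
    obtain ⟨x0, hx0⟩ := hX.nonempty
    -- a coordinate which is not constant
    obtain ⟨i, hi⟩ : ∃ i : κ, ¬ ∃ c : ℂˣ, ∀ x ∈ X, x i = c := by
      by_contra hcon
      push Not at hcon
      choose c hc using hcon
      have h1 : X ⊆ {c} := fun x hx => funext fun i => hc i x hx
      have h2 := td_mono (k := ℂ) hX.pirr (pirr_singleton c) h1
      rw [td_singleton', htd] at h2
      omega
    obtain ⟨ζ, hζi, hζ⟩ := k8g3b_roots
    have hMc : {n : ℕ | ∃ x ∈ X, x i = ζ n}ᶜ.Finite := by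
      by_contra hinf
      apply hi
      refine exists_fibre hX i ((fun n => ((ζ n : ℂˣ) : ℂ)) '' {n : ℕ | ∃ x ∈ X, x i = ζ n}ᶜ) ?_ ?_
      · refine Set.Infinite.image ?_ hinf
        intro a _ b _ hab
        exact hζi (Units.ext hab)
      · rintro _ ⟨n, hn, rfl⟩ x hx h1
        exact hn ⟨x, hx, Units.ext h1⟩
    have hM : {n : ℕ | ∃ x ∈ X, x i = ζ n}.Infinite := by
      have := hMc.infinite_compl
      rwa [compl_compl] at this
    have hzp : ∀ z : ℂˣ, {x : κ → ℂˣ | x i = z} = zp (MvPolynomial.X i - MvPolynomial.C (z : ℂ)) := by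
      intro z
      ext x
      rw [mem_zp, map_sub, aeval_X, MvPolynomial.aeval_C, sub_eq_zero]
      exact ⟨fun h1 => congrArg (fun u : ℂˣ => (u : ℂ)) h1, fun h1 => Units.ext h1⟩
    have hch : ∀ z : ℂˣ, {x : κ → ℂˣ | ch (Pi.single i 1) x = z} = {x : κ → ℂˣ | x i = z} := by
      intro z
      ext x
      show ch (Pi.single i 1) x = z ↔ x i = z
      rw [ch_single, zpow_one]
    have hex : ∀ n ∈ {n : ℕ | ∃ x ∈ X, x i = ζ n}, ∃ Y, Comp (X ∩ {x | x i = ζ n}) Y := by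
      rintro n ⟨x, hx, hxi⟩
      have h1 : ZClosed (X ∩ {x | x i = ζ n}) := by
        rw [hzp]
        exact hX.closed.inter (zclosed_zp _)
      obtain ⟨Y, hY, -⟩ := exists_comp_mem h1 (x := x) ⟨hx, hxi⟩
      exact ⟨Y, hY⟩
    choose! Y hY using hex
    have hYd : ∀ n ∈ {n : ℕ | ∃ x ∈ X, x i = ζ n}, td ℂ (Y n) = d := by
      intro n hn
      have h1 := hY n hn
      have h2 : td ℂ X ≤ td ℂ (Y n) + 1 := by
        rw [hzp] at h1
        exact krull hX _ h1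
      have h3 : Y n ⊂ X := by
        refine ⟨fun x hx => (h1.subset hx).1, fun h3 => hi ⟨ζ n, fun x hx => (h1.subset (h3 hx)).2⟩⟩
      have h4 := td_lt h1.irr hX h3
      omega
    by_cases hcase : ∃ n ∈ {n : ℕ | ∃ x ∈ X, x i = ζ n}, ¬ Y n ⊆ Z
    · obtain ⟨n, hn, hnZ⟩ := hcase
      have h1 := hY n hn
      obtain ⟨p, hp, hpZ, hpa, hpr⟩ := ih (Y n) (hYd n hn) h1.irr
        (cl_comp (k8g3b_sec hXa i (Nat.succ_pos n) (hζ n)) h1) hnZ
      refine ⟨p, (h1.subset hp).1, hpZ, hpa, le_trans ?_ hpr⟩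
      rw [← hch] at h1
      exact cut_one hX ⟨n + 1, Nat.succ_pos n, hζ n⟩ h1
    · exfalso
      push Not at hcase
      have hcomp : ∀ n ∈ {n : ℕ | ∃ x ∈ X, x i = ζ n}, Comp (Z ∩ X) (Y n) := by
        intro n hn
        have h1 := hY n hn
        refine ⟨⟨h1.irr, fun x hx => ⟨hcase n hn hx, (h1.subset hx).1⟩⟩, ?_⟩
        rintro W ⟨hW, hWZ⟩ hYW
        have h2 : W ⊂ X := ⟨fun x hx => (hWZ hx).2, fun h3 => hXZ fun x hx => (hWZ (h3 hx)).1⟩
        have h3 := td_lt hW hX h2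
        have h4 : Y n = W := eq_of_td_le h1.irr hW hYW (by rw [hYd n hn]; omega)
        rw [← h4]
      have hinj : Set.InjOn Y {n : ℕ | ∃ x ∈ X, x i = ζ n} := by
        intro a ha b hb hab
        have h1 := hY a ha
        have h2 := hY b hb
        obtain ⟨x, hx⟩ := h1.irr.nonempty
        have h3 := (h1.subset hx).2
        rw [hab] at hx
        have h4 := (h2.subset hx).2
        apply hζi
        exact (show x i = ζ a from h3).symm.trans h4
      refine (hM.image hinj) ((finite_comp (hZ.inter hX.closed)).subset ?_)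
      rintro _ ⟨n, hn, rfl⟩
      exact hcomp n hn

/-- Row Z8-G3b. Special points of subvarieties over the algebraic numbers. PROOF. Induction on `td ℂ X`. If `td ℂ X = 0`, `X` is a point (`dm`, or all coordinates algebraic over `ℂ`, so constant; `Z6.g5_algpt` gives an algebraic point of `X`); `rk X = rk {p}`. Let `td ℂ X = d + 1`. A coordinate `x_i` is not constant on `X`. For all but finitely many roots of unity `ζ` the set `X ∩ {x_i = ζ}` is not empty (`exists_fibre`, the values which are missed).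
Let `Y_ζ` be a component of it: `td Y_ζ = d` (`krull`, `td_lt`: `Y_ζ ≠ X` as `x_i` is not constant), `cd X ≤ cd Y_ζ` (`cut_one` with `m = Pi.single i 1`, `c = ζ`), `cl (acl ∅) Y_ζ = Y_ζ` (`cl_comp`: `X ∩ {x_i = ζ}` is the zero set of polynomials with algebraic coefficients). If some `Y_ζ ⊄ Z` apply induction to it. Otherwise the infinitely many pairwise disjoint `Y_ζ` are contained in `Z ∩ X`; an irreducible closed subset of `Z ∩ X` has
`td ≤ d` (it is not `X`), so each `Y_ζ` is a component of `Z ∩ X` (`eq_of_td_le`), but these are finitely many. -/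
theorem tors_pt {κ : Type} [Fintype κ] {X Z : Set (κ → ℂˣ)} (hX : Irr X) (hXa : cl (acl (∅ : Set ℂ)) X = X)
    (hZ : ZClosed Z) (hXZ : ¬ X ⊆ Z) :
    ∃ p ∈ X, p ∉ Z ∧ (∀ i, IsAlgebraic ℚ (p i : ℂ)) ∧ cd X ≤ rk ({p} : Set (κ → ℂˣ)) :=
  k8g3b_ind hZ (td ℂ X) X rfl hX hXa hXZ

/-- Row Z8-G3c. PROOF. `T` = a special subvariety with `X ⊆ T`, `td T + rk X ≤ card κ` (`exists_special`), so `rk X ≤ rk T` (`Special.cd`). `Y` = a component of `V ∩ T` containing `X` (`exists_comp`): `rk X ≤ rk T ≤ rk Y` (`rk_anti`), `td X ≤ td Y` (`td_mono`), `cl (acl ∅) Y = Y` by `cl_comp` (`T` is defined over the algebraic numbers: compare `Z6.G5`/`Z7.G6` or ZPA: a component of the closed set `{x | ∀ m ∈ s, ch m x ^ N = 1}`, `Lam`, `cl_comp`). -/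
theorem hull {κ : Type} [Fintype κ] {V X : Set (κ → ℂˣ)} (hV : ZClosed V) (hVa : cl (acl (∅ : Set ℂ)) V = V)
    (hX : Irr X) (hXV : X ⊆ V) : ∃ Y, Irr Y ∧ Y ⊆ V ∧ X ⊆ Y ∧ cl (acl (∅ : Set ℂ)) Y = Y ∧ cd X ≤ cd Y := by
  have hac := isAlgClosed_acl (∅ : Set ℂ)
  have hI : Irr (cl (acl (∅ : Set ℂ)) X) := irr_cl hX.pirr
  refine ⟨cl (acl (∅ : Set ℂ)) X, hI, ?_, subset_cl X, cl_zl _, ?_⟩
  · rw [← hVa]
    exact cl_mono hXV
  · unfold cd
    rw [rk_cl]
    exact Nat.add_le_add_left (td_mono hX.pirr hI.pirr (subset_cl X)) _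

variable {k m : ℕ} [NeZero m] {C : Set (Fin m → ℂˣ)} {Φ : MvPolynomial (Fin k) (MvPolynomial (Fin m) ℂ)}

/-- Row Z8-G3d. PROOF. `B` = the set of the `P ∈ V` with algebraic coordinates and `k + 1 ≤ rk {P}`. If `V ⊆ Z` for all closed `Z ⊇ B` then `exists_gen` and `no_seq` give a contradiction. So there is a closed `Z ⊇ B` with `¬ V ⊆ Z`; take `Z ∩ V`. If `X` is irreducible, `X ⊆ V`, `k + 1 ≤ cd X`, take `Y` from `hull` and, if `¬ Y ⊆ Z`, `p` from `tors_pt`: `p ∈ B`, contradiction. -/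
theorem pink_S (h : HC C) (hk : 2 ≤ k) (hm : 2 ≤ m) {S : Sk k m} (hS : S.C = co '' C)
    (hR : Rat S.toCv ∧ HHp S.toCv) (hΦa : AlgCk S.Φ) {V : Set (Fin k ⊕ Fin m → ℂˣ)} (hV : Irr V)
    (hVa : cl (acl (∅ : Set ℂ)) V = V) (hVd : td ℂ V = k) (hVS : V ⊆ VSk C S.Φ)
    (hVE : ∀ p ∈ VSk C S.Φ, ys p ∉ S.E → p ∈ V) :
    ∃ Z, ZClosed Z ∧ Z ⊆ V ∧ Z ≠ V ∧ ∀ X, Irr X → X ⊆ V → k + 1 ≤ cd X → X ⊆ Z := by
  have hB : ∃ Z, ZClosed Z ∧ (∀ P ∈ V, (∀ i, IsAlgebraic ℚ (P i : ℂ)) →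
      k + 1 ≤ rk ({P} : Set (Fin k ⊕ Fin m → ℂˣ)) → P ∈ Z) ∧ ¬ V ⊆ Z := by
    by_contra hcon
    push Not at hcon
    obtain ⟨P, hPB, hPs, hPg⟩ := exists_gen h hS hV hVd hVS hVE (B := {P | P ∈ V ∧
      (∀ i, IsAlgebraic ℚ (P i : ℂ)) ∧ k + 1 ≤ rk ({P} : Set (Fin k ⊕ Fin m → ℂˣ))}) (fun Z hZ hBZ =>
        hcon Z hZ fun P h1 h2 h3 => hBZ ⟨h1, h2, h3⟩)
    exact no_seq h hk hm hS hR hΦa P (fun n => hVS (hPB n).1) (fun n => (hPB n).2.1) hPs hPg fun n => (hPB n).2.2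
  obtain ⟨Z, hZ, hBZ, hVZ⟩ := hB
  refine ⟨Z ∩ V, hZ.inter hV.closed, Set.inter_subset_right, fun he => hVZ ?_, ?_⟩
  · rw [← he]
    exact Set.inter_subset_left
  · intro X hX hXV hcd
    refine Set.subset_inter ?_ hXV
    obtain ⟨Y, hY, hYV, hXY, hYa, hcdY⟩ := hull hV.closed hVa hX hXV
    by_contra hXZ
    obtain ⟨p, hpY, hpZ, hpa, hpr⟩ := tors_pt hY hYa hZ fun h1 => hXZ (hXY.trans h1)
    exact hpZ (hBZ p (hYV hpY) hpa (by omega))

end Pool.Agent.Z8
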