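import Pool.Agent.Z8.G3
import Pool.Agent.Z7.G3

open MvPolynomial Pool.Agent.MP_dd1803_nt Pool.Agent.ZPA Pool.Agent.ZL2

namespace Pool.Agent.Z8

open Filter Topology
open Pool.Agent.Z7 (HC Cv HHp Rat)

variable {k m : ℕ}

/-- The families of hypersurfaces over the curve `C`: `V` is irreducible of dimension `k` and lies over `C`. -/
structure Fam (C : Set (Fin m → ℂˣ)) (V : Set (Fin k ⊕ Fin m → ℂˣ)) : Prop where
  irr : Irr V
  dim : td ℂ V = k
  sub : ∀ p ∈ V, (fun i => p (Sum.inr i)) ∈ C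

/-- No one dimensional subtorus of the torus of dimension `k` stabilises `V`. -/
def FinStab (V : Set (Fin k ⊕ Fin m → ℂˣ)) : Prop :=
  ∀ e : Fin k → ℤ, e ≠ 0 → ∃ p ∈ V, ∃ g : ℂˣ, (Sum.elim (fun j => p (Sum.inl j) * g ^ e j) (fun i => p (Sum.inr i)) : Fin k ⊕ Fin m → ℂˣ) ∉ V

/-- The fibre `V_y` has a component in common with one of its reciprocals `r / conj V_y`. -/
def RecV (V : Set (Fin k ⊕ Fin m → ℂˣ)) (y : Fin m → ℂˣ) : Prop :=
  ∃ r : Fin k → ℝ, (∀ j, 0 < r j) ∧ ∃ Y : Set (Fin k → ℂˣ), Irr Y ∧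
    (∀ x ∈ Y, (Sum.elim x y : Fin k ⊕ Fin m → ℂˣ) ∈ V) ∧
    (∀ x ∈ Y, ∃ z : Fin k → ℂˣ, (Sum.elim z y : Fin k ⊕ Fin m → ℂˣ) ∈ V ∧ ∀ j, (z j : ℂ) * (starRingEnd ℂ) (x j) = r j) ∧
    k < td ℂ Y + 2

/-- The points `y` of `C` whose fibre has a component in common with one of its reciprocals satisfy a real algebraic
equation `G(conj y_0, y_0) = 0`, and only finitely many of them have a given absolute value of a given nontrivial
character. -/
def NonRec [NeZero m] (C : Set (Fin m → ℂˣ)) (V : Set (Fin k ⊕ Fin m → ℂˣ)) : Prop :=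
  (∃ G : MvPolynomial (Fin 2) ℂ, G ≠ 0 ∧ ∀ y ∈ C, RecV V y →
    MvPolynomial.eval ![(starRingEnd ℂ) (y 0 : ℂ), (y 0 : ℂ)] G = 0) ∧
  ∀ n : Fin m → ℤ, n ≠ 0 → ∀ r : ℝ, {y : Fin m → ℂˣ | y ∈ C ∧ RecV V y ∧ ‖((ch n y : ℂˣ) : ℂ)‖ = r}.Finite


/-- The polynomials in `x` over the polynomials in `y`, as polynomials in `(x, y)`. -/
noncomputable def k8g4a_sg (k0 : Type) [Field k0] (k m : ℕ) :
    MvPolynomial (Fin k) (MvPolynomial (Fin m) k0) →+* MvPolynomial (Fin k ⊕ Fin m) k0 :=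
  eval₂Hom (rename (Sum.inr : Fin m → Fin k ⊕ Fin m) : MvPolynomial (Fin m) k0 →ₐ[k0] _).toRingHom
    (fun j => X (Sum.inl j))

theorem k8g4a_sg_C {k0 : Type} [Field k0] (c : MvPolynomial (Fin m) k0) :
    k8g4a_sg k0 k m (C c) = rename Sum.inr c := by
  unfold k8g4a_sg
  rw [eval₂Hom_C]
  rfl

theorem k8g4a_sg_X {k0 : Type} [Field k0] (j : Fin k) :
    k8g4a_sg k0 k m (X j) = X (Sum.inl j) := by
  unfold k8g4a_sg
  rw [eval₂Hom_X']

theorem k8g4a_sg_surj {k0 : Type} [Field k0] : Function.Surjective (k8g4a_sg k0 k m) := by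
  intro G
  induction G using MvPolynomial.induction_on with
  | C a => exact ⟨C (C a), by rw [k8g4a_sg_C, rename_C]⟩
  | add p q hp hq =>
    obtain ⟨p', rfl⟩ := hp
    obtain ⟨q', rfl⟩ := hq
    exact ⟨p' + q', map_add _ _ _⟩
  | mul_X p i hp =>
    obtain ⟨p', rfl⟩ := hp
    rcases i with j | i
    · exact ⟨p' * X j, by rw [map_mul, k8g4a_sg_X]⟩
    · exact ⟨p' * C (X i), by rw [map_mul, k8g4a_sg_C, rename_X]⟩

/-- Common denominators. -/
theorem k8g4a_clear {R K : Type} [CommRing R] [IsDomain R] [Field K] [Algebra R K] [IsFractionRing R K]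
    (P : MvPolynomial (Fin k) K) : ∃ c : R, c ≠ 0 ∧ ∃ Q : MvPolynomial (Fin k) R,
      MvPolynomial.map (algebraMap R K) Q = C (algebraMap R K c) * P := by
  classical
  obtain ⟨c, hc⟩ := IsLocalization.exist_integer_multiples_of_finset (nonZeroDivisors R)
    (P.support.image fun α => P.coeff α)
  refine ⟨c, nonZeroDivisors.ne_zero c.2, ?_⟩
  have h1 : C (algebraMap R K c) * P ∈ Set.range (MvPolynomial.map (σ := Fin k) (algebraMap R K)) := by
    rw [MvPolynomial.mem_range_map_iff_coeffs_subset]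
    intro z hz
    obtain ⟨α, hα, rfl⟩ := MvPolynomial.mem_coeffs_iff.1 hz
    rw [coeff_C_mul]
    by_cases h0 : P.coeff α = 0
    · rw [h0, mul_zero]
      exact ⟨0, map_zero _⟩
    · obtain ⟨b, hb⟩ := hc (P.coeff α) (Finset.mem_image.2 ⟨α, mem_support_iff.2 h0, rfl⟩)
      refine ⟨b, ?_⟩
      rw [hb, Algebra.smul_def]
  exact h1

theorem k8g4a_frac {k0 B L : Type} [Field k0] [CommRing B] [IsDomain B] [Field L] [Algebra k0 B] [Algebra B L]
    [IsFractionRing B L] [Algebra k0 L] [IsScalarTower k0 B L] : Algebra.trdeg k0 L = Algebra.trdeg k0 B := by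
  have h1 := trdeg_add_eq k0 B (A := L)
  have : Algebra.IsAlgebraic B L := IsLocalization.isAlgebraic L (nonZeroDivisors B)
  have h2 : Algebra.trdeg B L = 0 := trdeg_eq_zero
  rw [h2, add_zero] at h1
  exact h1.symm

theorem k8g4a_alg {K Q L : Type} [Field K] [CommRing Q] [IsDomain Q] [Field L] [Algebra K Q] [Algebra K L]
    (f : Q →ₐ[K] L) (hf : Function.Injective f) (h : ∀ z : L, ∃ a b, z = f a / f b) :
    Algebra.trdeg K L ≤ Algebra.trdeg K Q := by
  let i1 : Algebra Q L := f.toRingHom.toAlgebra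
  have i2 : IsScalarTower K Q L := IsScalarTower.of_algebraMap_eq fun c => (f.commutes c).symm
  have i3 : FaithfulSMul Q L := (faithfulSMul_iff_algebraMap_injective _ _).mpr hf
  have i5 : FaithfulSMul K Q := (faithfulSMul_iff_algebraMap_injective _ _).mpr (algebraMap K Q).injective
  have h0 : ∀ b : Q, IsAlgebraic Q (f b) := fun b => isAlgebraic_algebraMap (A := L) b
  have i4 : Algebra.IsAlgebraic Q L := by
    constructor
    intro z
    obtain ⟨a, b, rfl⟩ := h z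
    rw [div_eq_mul_inv]
    exact (h0 a).mul (h0 b).inv
  have h1 := trdeg_add_eq K Q (A := L)
  have h2 : Algebra.trdeg Q L = 0 := trdeg_eq_zero
  rw [h2, add_zero] at h1
  exact h1.ge

theorem k8g4a_prime {K L : Type} [Field K] [Field L] [Algebra K L] (ev : MvPolynomial (Fin k) K →ₐ[K] L)
    (hev : ∀ z : L, ∃ a b, z = ev a / ev b) (ht : 1 + Algebra.trdeg K L = k) :
    ∃ π, Prime π ∧ ∀ a, ev a = 0 ↔ π ∣ a := by
  classical
  obtain ⟨J, hJe⟩ : ∃ J : Ideal (MvPolynomial (Fin k) K), J = RingHom.ker ev := ⟨_, rfl⟩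
  have hmem : ∀ a, a ∈ J ↔ ev a = 0 := by
    intro a
    rw [hJe, RingHom.mem_ker]
  have hJ : J.IsPrime := by
    rw [hJe]
    exact RingHom.ker_isPrime ev
  have t4 : Algebra.trdeg K L ≤ Algebra.trdeg K (MvPolynomial (Fin k) K ⧸ J) := by
    subst hJe
    refine k8g4a_alg (Ideal.kerLiftAlg ev) (Ideal.kerLiftAlg_injective ev) fun z => ?_
    obtain ⟨a, b, h⟩ := hev z
    exact ⟨Ideal.Quotient.mk _ a, Ideal.Quotient.mk _ b, h⟩
  have t5 : Algebra.trdeg K (MvPolynomial (Fin k) K) = k := by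
    rw [MvPolynomial.trdeg_of_isDomain]
    simp
  have f1 : Algebra.trdeg K (MvPolynomial (Fin k) K ⧸ J) < Cardinal.aleph0 := trdeg_lt_aleph0_of_finiteType
  have f0 : Algebra.trdeg K L < Cardinal.aleph0 := t4.trans_lt f1
  have t6 : 1 + Cardinal.toNat (Algebra.trdeg K L) = k := by
    have h1 := congrArg Cardinal.toNat ht
    rw [Cardinal.toNat_add Cardinal.one_lt_aleph0 f0] at h1
    simpa using h1
  have t7 := Cardinal.toNat_le_toNat t4 f1
  obtain ⟨π, hπJ, hπ⟩ : ∃ π ∈ J, Prime π := by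
    by_cases hJ0 : J = ⊥
    · have hev0 : Function.Injective ev := by
        rw [injective_iff_map_eq_zero]
        intro a ha
        have h2 : a ∈ J := (hmem a).2 ha
        rw [hJ0] at h2
        exact h2
      have h2 := trdeg_le_of_injective ev hev0
      rw [t5] at h2
      have h3 := Cardinal.toNat_le_toNat h2 f0
      rw [Cardinal.toNat_natCast] at h3
      omega
    · exact Ideal.IsPrime.exists_mem_prime_of_ne_bot hJ hJ0
  refine ⟨π, hπ, fun a => ?_⟩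
  have hP : (Ideal.span {π}).IsPrime := (Ideal.span_singleton_prime hπ.ne_zero).2 hπ
  have hPJ : Ideal.span {π} = J := by
    by_contra hne
    have hlt : Ideal.span {π} < J := lt_of_le_of_ne ((Ideal.span_singleton_le_iff_mem _).2 hπJ) hne
    have h1 := trdeg_lt_of_lt (k := K) (Ideal.span {π}) J hlt
    have h2 := trdeg_quot_add_one_le (k := K) (Ideal.span {π}) (by
      rw [Ne, Ideal.span_singleton_eq_bot]
      exact hπ.ne_zero)
    rw [t5] at h2
    have f2 : Algebra.trdeg K (MvPolynomial (Fin k) K ⧸ Ideal.span {π}) < Cardinal.aleph0 :=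
      trdeg_lt_aleph0_of_finiteType
    have h3 := Cardinal.toNat_le_toNat h2 (Cardinal.natCast_lt_aleph0)
    rw [Cardinal.toNat_add f2 Cardinal.one_lt_aleph0] at h3
    simp only [Cardinal.one_toNat, Cardinal.toNat_natCast] at h3
    omega
  rw [← hmem, ← hPJ, Ideal.mem_span_singleton]

theorem k8g4a_abs {R1 R B K L : Type} {k0 : Type} [Field k0] [CommRing R1] [CommRing R] [IsDomain R] [CommRing B] [IsDomain B]
    [Field K] [Field L] [Algebra k0 R] [Algebra k0 B] [Algebra R K] [IsFractionRing R K] [Algebra B L]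
    [IsFractionRing B L] [Algebra k0 K] [IsScalarTower k0 R K] [Algebra k0 L] [IsScalarTower k0 B L]
    (mk : R1 →+* R) (hmk : Function.Surjective mk) (ρ : MvPolynomial (Fin k) R1 →+* B) (hρ : Function.Surjective ρ)
    (ι : R →+* B) (hι : Function.Injective ι) (hιm : ∀ c, ρ (C c) = ι (mk c))
    (hιk : ∀ c : k0, ι (algebraMap k0 R c) = algebraMap k0 B c)
    (hB : Algebra.trdeg k0 B = k) (hR : Algebra.trdeg k0 R = 1) :
    ∃ Φ : MvPolynomial (Fin k) R1, ρ Φ = 0 ∧ ∀ G, ρ G = 0 → ∃ d, mk d ≠ 0 ∧ ∃ Q,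
        MvPolynomial.map mk (C d * G) = MvPolynomial.map mk (Φ * Q) := by
  classical
  have hg : Function.Injective ((algebraMap B L).comp ι) := (IsFractionRing.injective B L).comp hι
  let i1 : Algebra K L := (IsFractionRing.lift (K := K) hg).toAlgebra
  have hKL : ∀ r : R, algebraMap K L (algebraMap R K r) = algebraMap B L (ι r) := fun r =>
    IsFractionRing.lift_algebraMap hg r
  have i2 : IsScalarTower k0 K L := by
    refine IsScalarTower.of_algebraMap_eq' (RingHom.ext fun c => ?_)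
    show algebraMap k0 L c = algebraMap K L (algebraMap k0 K c)
    rw [IsScalarTower.algebraMap_apply k0 R K, hKL, IsScalarTower.algebraMap_apply k0 B L, hιk]
  have t1 : Algebra.trdeg k0 K = 1 := (k8g4a_frac (B := R)).trans hR
  have t2 : Algebra.trdeg k0 L = k := (k8g4a_frac (B := B)).trans hB
  have t3 : 1 + Algebra.trdeg K L = k := by
    have h1 := trdeg_add_eq k0 K (A := L)
    rw [t1, t2] at h1
    exact h1
  obtain ⟨ev, hev0⟩ : ∃ ev : MvPolynomial (Fin k) K →ₐ[K] L, ∀ j, ev (X j) = algebraMap B L (ρ (X j)) :=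
    ⟨aeval fun j => algebraMap B L (ρ (X j)), fun j => aeval_X _ _⟩
  have hev : ∀ F, ev (MvPolynomial.map (algebraMap R K) (MvPolynomial.map mk F)) = algebraMap B L (ρ F) := by
    intro F
    have h1 : ((ev : MvPolynomial (Fin k) K →+* L).comp (MvPolynomial.map (algebraMap R K))).comp
        (MvPolynomial.map mk) = (algebraMap B L).comp ρ := by
      refine MvPolynomial.ringHom_ext (fun r => ?_) (fun i => ?_)
      · show ev (MvPolynomial.map (algebraMap R K) (MvPolynomial.map mk (C r))) = algebraMap B L (ρ (C r))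
        rw [map_C, map_C, hιm, ← hKL]
        exact ev.commutes _
      · show ev (MvPolynomial.map (algebraMap R K) (MvPolynomial.map mk (X i))) = algebraMap B L (ρ (X i))
        rw [map_X, map_X, hev0]
    exact congrArg (fun f => f F) h1
  obtain ⟨π, hπ, hdvd⟩ := k8g4a_prime ev (by
    intro z
    obtain ⟨a, b, hb, rfl⟩ := IsFractionRing.div_surjective (A := B) z
    obtain ⟨F, rfl⟩ := hρ a
    obtain ⟨G, rfl⟩ := hρ b
    exact ⟨MvPolynomial.map (algebraMap R K) (MvPolynomial.map mk F),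
      MvPolynomial.map (algebraMap R K) (MvPolynomial.map mk G), by rw [hev, hev]⟩) t3
  have hmapR : Function.Injective (MvPolynomial.map (σ := Fin k) (algebraMap R K)) :=
    MvPolynomial.map_injective _ (IsFractionRing.injective R K)
  have hmks : Function.Surjective (MvPolynomial.map (σ := Fin k) mk) :=
    MvPolynomial.map_surjective _ hmk
  obtain ⟨c, hc0, Φ', hΦ'⟩ := k8g4a_clear (R := R) (K := K) π
  obtain ⟨Φ, hΦ⟩ := hmks Φ'
  refine ⟨Φ, ?_, fun G hG => ?_⟩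
  · apply IsFractionRing.injective B L
    rw [← hev, hΦ, hΦ', map_mul, (hdvd π).2 dvd_rfl, mul_zero, map_zero]
  · have h1 : ev (MvPolynomial.map (algebraMap R K) (MvPolynomial.map mk G)) = 0 := by
      rw [hev, hG, map_zero]
    rw [hdvd] at h1
    obtain ⟨q, hq⟩ := h1
    obtain ⟨d, hd0, Q', hQ'⟩ := k8g4a_clear (R := R) (K := K) q
    obtain ⟨Q, hQ⟩ := hmks Q'
    obtain ⟨c1, rfl⟩ := hmk c
    obtain ⟨d1, rfl⟩ := hmk d
    refine ⟨c1 * d1, ?_, Q, ?_⟩
    · rw [map_mul]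
      exact mul_ne_zero hc0 hd0
    · apply hmapR
      rw [map_mul (MvPolynomial.map mk) Φ Q, hΦ, hQ, map_mul _ Φ' Q', hΦ', hQ', C_mul, map_mul,
        map_mul, map_mul, map_mul, hq, map_C, map_C, map_C, map_C]
      ring

theorem k8g4a_ev {k0 : Type} [Field k0] [Algebra k0 ℂ] (F : MvPolynomial (Fin k) (MvPolynomial (Fin m) k0))
    (p : Fin k ⊕ Fin m → ℂˣ) : aeval (co p) (k8g4a_sg k0 k m F) =
      evk (MvPolynomial.map (MvPolynomial.map (algebraMap k0 ℂ)) F) (xs p) (ys p) := by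
  have h1 : ((aeval (co p) : MvPolynomial (Fin k ⊕ Fin m) k0 →ₐ[k0] ℂ) : MvPolynomial (Fin k ⊕ Fin m) k0 →+* ℂ).comp
      (k8g4a_sg k0 k m) = ((MvPolynomial.eval (xs p)).comp (MvPolynomial.map (MvPolynomial.eval (ys p)))).comp
        (MvPolynomial.map (MvPolynomial.map (algebraMap k0 ℂ))) := by
    refine MvPolynomial.ringHom_ext (fun r => ?_) (fun i => ?_)
    · show aeval (co p) (k8g4a_sg k0 k m (C r)) = MvPolynomial.eval (xs p) (MvPolynomial.map (MvPolynomial.eval (ys p))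
        (MvPolynomial.map (MvPolynomial.map (algebraMap k0 ℂ)) (C r)))
      rw [k8g4a_sg_C, map_C, map_C, eval_C, aeval_rename, MvPolynomial.eval_map]
      rfl
    · show aeval (co p) (k8g4a_sg k0 k m (X i)) = MvPolynomial.eval (xs p) (MvPolynomial.map (MvPolynomial.eval (ys p))
        (MvPolynomial.map (MvPolynomial.map (algebraMap k0 ℂ)) (X i)))
      rw [k8g4a_sg_X, map_X, map_X, eval_X, aeval_X]
      rfl
  exact congrArg (fun f => f F) h1

theorem k8g4a_ev2 {k0 : Type} [Field k0] [Algebra k0 ℂ] {C : Set (Fin m → ℂˣ)} {y : Fin m → ℂˣ} (hy : y ∈ C) :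
    ∃ e : (MvPolynomial (Fin m) k0 ⧸ vI k0 C) →+* ℂ, ∀ (F : MvPolynomial (Fin k) (MvPolynomial (Fin m) k0))
      (x : Fin k → ℂ), evk (MvPolynomial.map (MvPolynomial.map (algebraMap k0 ℂ)) F) x (co y) =
        MvPolynomial.eval x (MvPolynomial.map e (MvPolynomial.map (Ideal.Quotient.mk (vI k0 C)) F)) := by
  obtain ⟨g, hg⟩ : ∃ g : MvPolynomial (Fin m) k0 →+* ℂ, ∀ c, g c = aeval (co y) c :=
    ⟨(aeval (co y) : MvPolynomial (Fin m) k0 →ₐ[k0] ℂ).toRingHom, fun c => rfl⟩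
  have hg0 : ∀ a ∈ vI k0 C, g a = 0 := fun a ha => by
    rw [hg]
    exact mem_vI.1 ha y hy
  refine ⟨Ideal.Quotient.lift (vI k0 C) g hg0, fun F x => ?_⟩
  unfold evk sp
  rw [MvPolynomial.map_map, MvPolynomial.map_map, Ideal.Quotient.lift_comp_mk]
  have h1 : (MvPolynomial.eval (co y)).comp (MvPolynomial.map (algebraMap k0 ℂ)) = g := by
    refine RingHom.ext fun q => ?_
    rw [hg]
    show MvPolynomial.eval (co y) (MvPolynomial.map (algebraMap k0 ℂ) q) = aeval (co y) q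
    rw [MvPolynomial.eval_map]
    rfl
  rw [h1]

/-- A polynomial in `y` which does not vanish on `C` vanishes at finitely many points of `C`. -/
theorem k8g4a_fin {k0 : Type} [Field k0] [Algebra k0 ℂ] {C : Set (Fin m → ℂˣ)} (h : HC C)
    {c : MvPolynomial (Fin m) k0} (hc : c ∉ vI k0 C) :
    {y : Fin m → ℂˣ | y ∈ C ∧ aeval (co y) c = 0}.Finite := by
  have h0 : ∀ y : Fin m → ℂˣ, MvPolynomial.eval (co y) (MvPolynomial.map (algebraMap k0 ℂ) c) = aeval (co y) c := by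
    intro y
    rw [MvPolynomial.eval_map]
    rfl
  have h1 := h.fin_poly (P := MvPolynomial.map (algebraMap k0 ℂ) c) (by
    by_contra hcon
    push Not at hcon
    apply hc
    rw [mem_vI]
    intro y hy
    rw [← h0]
    exact hcon y hy)
  simp only [h0] at h1
  exact h1

theorem k8g4a_CV {k0 : Type} [Field k0] [Algebra k0 ℂ] {C : Set (Fin m → ℂˣ)}
    {V : Set (Fin k ⊕ Fin m → ℂˣ)} (h : HC C) (hV : Fam C V)
    (hy : ¬ ∃ y0 : Fin m → ℂˣ, ∀ p ∈ V, ∀ i, p (Sum.inr i) = y0 i) (c : MvPolynomial (Fin m) k0) :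
    rename (Sum.inr : Fin m → Fin k ⊕ Fin m) c ∈ vI k0 V ↔ c ∈ vI k0 C := by
  constructor
  · intro hc
    by_contra hcC
    apply hy
    obtain ⟨p0, hp0⟩ := hV.irr.nonempty
    refine ⟨fun i => p0 (Sum.inr i), fun p hp i => ?_⟩
    refine ZL2.const_of_finite hV.irr.pirr (Sum.inr i) (((k8g4a_fin h hcC).image fun y => (y i : ℂ)).subset ?_)
      p0 hp0 p hp
    rintro _ ⟨q, hq, rfl⟩
    refine ⟨fun i => q (Sum.inr i), ⟨hV.sub q hq, ?_⟩, rfl⟩
    have h1 := mem_vI.1 hc q hq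
    rw [aeval_rename] at h1
    exact h1
  · intro hc
    rw [mem_vI]
    intro p hp
    rw [aeval_rename]
    exact mem_vI.1 hc _ (hV.sub p hp)

theorem k8g4a_core {k0 : Type} [Field k0] (PC : Ideal (MvPolynomial (Fin m) k0)) [PC.IsPrime]
    (PV : Ideal (MvPolynomial (Fin k ⊕ Fin m) k0)) [PV.IsPrime]
    (hCV : ∀ c, rename (Sum.inr : Fin m → Fin k ⊕ Fin m) c ∈ PV ↔ c ∈ PC)
    (hV : Algebra.trdeg k0 (MvPolynomial (Fin k ⊕ Fin m) k0 ⧸ PV) = k)
    (hC : Algebra.trdeg k0 (MvPolynomial (Fin m) k0 ⧸ PC) = 1) :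
    ∃ Φ : MvPolynomial (Fin k) (MvPolynomial (Fin m) k0), k8g4a_sg k0 k m Φ ∈ PV ∧
      ∀ G, k8g4a_sg k0 k m G ∈ PV → ∃ d, d ∉ PC ∧ ∃ Q,
        MvPolynomial.map (Ideal.Quotient.mk PC) (C d * G) = MvPolynomial.map (Ideal.Quotient.mk PC) (Φ * Q) := by
  obtain ⟨ι, hιm⟩ : ∃ ι : (MvPolynomial (Fin m) k0 ⧸ PC) →+* (MvPolynomial (Fin k ⊕ Fin m) k0 ⧸ PV),
      ∀ c, ι (Ideal.Quotient.mk _ c) = Ideal.Quotient.mk _ (rename Sum.inr c) :=
    ⟨Ideal.Quotient.lift PC ((Ideal.Quotient.mk PV).comp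
      (rename (Sum.inr : Fin m → Fin k ⊕ Fin m) : MvPolynomial (Fin m) k0 →ₐ[k0] _).toRingHom)
      (fun c hc => Ideal.Quotient.eq_zero_iff_mem.2 ((hCV c).2 hc)), fun c => rfl⟩
  have hι : Function.Injective ι := by
    rw [injective_iff_map_eq_zero]
    intro a ha
    obtain ⟨c, rfl⟩ := Ideal.Quotient.mk_surjective a
    rw [hιm, Ideal.Quotient.eq_zero_iff_mem, hCV] at ha
    exact Ideal.Quotient.eq_zero_iff_mem.2 ha
  have h2 : Function.Surjective ((Ideal.Quotient.mk PV).comp (k8g4a_sg k0 k m)) :=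
    Ideal.Quotient.mk_surjective.comp k8g4a_sg_surj
  have h3 : ∀ c, ((Ideal.Quotient.mk PV).comp (k8g4a_sg k0 k m)) (C c) = ι (Ideal.Quotient.mk PC c) := by
    intro c
    rw [hιm, ← k8g4a_sg_C]
    rfl
  have h4 : ∀ c : k0, ι (algebraMap k0 (MvPolynomial (Fin m) k0 ⧸ PC) c) =
      algebraMap k0 (MvPolynomial (Fin k ⊕ Fin m) k0 ⧸ PV) c := by
    intro c
    show ι (Ideal.Quotient.mk _ (C c)) = Ideal.Quotient.mk _ (C c)
    rw [hιm, rename_C]
  obtain ⟨Φ, hΦ, hG⟩ := k8g4a_abs (K := FractionRing (MvPolynomial (Fin m) k0 ⧸ PC))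
    (L := FractionRing (MvPolynomial (Fin k ⊕ Fin m) k0 ⧸ PV)) (k0 := k0) (Ideal.Quotient.mk PC)
    Ideal.Quotient.mk_surjective ((Ideal.Quotient.mk PV).comp (k8g4a_sg k0 k m)) h2 ι hι h3 h4 hV hC
  refine ⟨Φ, Ideal.Quotient.eq_zero_iff_mem.1 hΦ, fun G h5 => ?_⟩
  obtain ⟨d, hd, hQ⟩ := hG G (Ideal.Quotient.eq_zero_iff_mem.2 h5)
  exact ⟨d, fun hd0 => hd (Ideal.Quotient.eq_zero_iff_mem.2 hd0), hQ⟩

theorem k8g4a_gen {k0 : Type} [Field k0] [Algebra k0 ℂ] [IsAlgClosed k0] {C : Set (Fin m → ℂˣ)}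
    {V : Set (Fin k ⊕ Fin m → ℂˣ)} (h : HC C) (hCa : cl k0 C = C) (hV : Fam C V) (hVa : cl k0 V = V)
    (hy : ¬ ∃ y0 : Fin m → ℂˣ, ∀ p ∈ V, ∀ i, p (Sum.inr i) = y0 i) :
    ∃ Φ : MvPolynomial (Fin k) (MvPolynomial (Fin m) k0),
      V ⊆ VSk C (MvPolynomial.map (MvPolynomial.map (algebraMap k0 ℂ)) Φ) ∧
      ∃ E : Set (Fin m → ℂˣ), E.Finite ∧ ∀ p ∈ VSk C (MvPolynomial.map (MvPolynomial.map (algebraMap k0 ℂ)) Φ),
        (fun i => p (Sum.inr i)) ∉ E → p ∈ V := by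
  classical
  have hPV : (vI k0 V).IsPrime := vI_isPrime hV.irr.pirr
  have hPC : (vI k0 C).IsPrime := vI_isPrime h.irr.pirr
  have tdV : td k0 V = k := by
    rw [← td_cl_eq (k := k0) hV.irr.pirr, hVa, hV.dim]
  have tdC : td k0 C = 1 := by
    rw [← td_cl_eq (k := k0) h.irr.pirr, hCa, h.dim]
  have hB : Algebra.trdeg k0 (MvPolynomial (Fin k ⊕ Fin m) k0 ⧸ vI k0 V) = k := by
    rw [← Cardinal.cast_toNat_of_lt_aleph0 (trdeg_lt_aleph0 (k := k0) hV.irr.pirr)]
    exact congrArg Nat.cast tdV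
  have hR : Algebra.trdeg k0 (MvPolynomial (Fin m) k0 ⧸ vI k0 C) = 1 := by
    rw [← Cardinal.cast_toNat_of_lt_aleph0 (trdeg_lt_aleph0 (k := k0) h.irr.pirr)]
    exact (congrArg Nat.cast tdC).trans Nat.cast_one
  obtain ⟨Φ, hΦ, hG⟩ := k8g4a_core (vI k0 C) (vI k0 V) (k8g4a_CV h hV hy) hB hR
  have hG' : ∀ G : MvPolynomial (Fin k ⊕ Fin m) k0, ∃ d : MvPolynomial (Fin m) k0, d ∉ vI k0 C ∧
      (G ∈ vI k0 V → ∀ p ∈ VSk C (MvPolynomial.map (MvPolynomial.map (algebraMap k0 ℂ)) Φ),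
        aeval (ys p) d * aeval (co p) G = 0) := by
    intro G
    by_cases hGV : G ∈ vI k0 V
    · obtain ⟨F, rfl⟩ := k8g4a_sg_surj G
      obtain ⟨d, hd, Q, hQ⟩ := hG F hGV
      refine ⟨d, hd, fun _ p hp => ?_⟩
      obtain ⟨e, he⟩ := k8g4a_ev2 (k := k) (k0 := k0) hp.1
      have h2 : evk (MvPolynomial.map (MvPolynomial.map (algebraMap k0 ℂ)) (MvPolynomial.C d * F)) (xs p) (ys p) =
          evk (MvPolynomial.map (MvPolynomial.map (algebraMap k0 ℂ)) (Φ * Q)) (xs p) (ys p) := by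
        have h3 := he (MvPolynomial.C d * F) (xs p)
        have h4 := he (Φ * Q) (xs p)
        rw [hQ, ← h4] at h3
        exact h3
      have h5 : evk (MvPolynomial.map (MvPolynomial.map (algebraMap k0 ℂ)) Φ) (xs p) (ys p) = 0 := hp.2
      rw [← k8g4a_ev, ← k8g4a_ev, map_mul, map_mul, map_mul, map_mul, k8g4a_ev Φ, h5, zero_mul, k8g4a_sg_C,
        aeval_rename] at h2
      exact h2
    · exact ⟨1, fun h1 => hPC.ne_top ((Ideal.eq_top_iff_one _).2 h1), fun h1 => absurd h1 hGV⟩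
  choose d hd hdG using hG'
  obtain ⟨T, hT⟩ : (vI k0 V).FG := (isNoetherianRing_iff_ideal_fg _).1 inferInstance (vI k0 V)
  refine ⟨Φ, fun p hp => ⟨hV.sub p hp, ?_⟩, ⋃ G ∈ T, {y : Fin m → ℂˣ | y ∈ C ∧ aeval (co y) (d G) = 0},
    T.finite_toSet.biUnion fun G _ => k8g4a_fin h (hd G), fun p hp hE => ?_⟩
  · rw [← k8g4a_ev]
    exact mem_vI.1 hΦ p hp
  · rw [← hVa]
    obtain ⟨g, hg⟩ : ∃ g : MvPolynomial (Fin k ⊕ Fin m) k0 →+* ℂ, ∀ c, g c = aeval (co p) c :=
      ⟨(aeval (co p) : MvPolynomial (Fin k ⊕ Fin m) k0 →ₐ[k0] ℂ).toRingHom, fun c => rfl⟩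
    have h1 : vI k0 V ≤ RingHom.ker g := by
      rw [← hT, Ideal.span_le]
      intro G hGT
      have hGV : G ∈ vI k0 V := by
        rw [← hT]
        exact Ideal.subset_span hGT
      have h2 := hdG G hGV p hp
      rcases mul_eq_zero.1 h2 with h3 | h3
      · exact absurd (Set.mem_biUnion hGT (show (fun i => p (Sum.inr i)) ∈ {y : Fin m → ℂˣ | y ∈ C ∧
          aeval (co y) (d G) = 0} from ⟨hp.1, h3⟩)) hE
      · show g G = 0
        rw [hg]
        exact h3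
    intro G hGV
    rw [← hg]
    exact h1 hGV

theorem k8g4b_le {P : MvPolynomial (Fin k) ℂ} {α : Fin k →₀ ℕ} (h : α ∈ P.support) : α ≤ dg P :=
  Finset.le_sup (f := id) h

theorem k8g4b_coeff {P : MvPolynomial (Fin k) ℂ} (r : Fin k → ℝ) {α : Fin k →₀ ℕ} (h : α ∈ P.support) :
    (rc P r).coeff (dg P - α) = (starRingEnd ℂ) (P.coeff α) * ∏ j, (r j : ℂ) ^ α j := by
  classical
  unfold rc
  rw [coeff_sum, Finset.sum_eq_single α]
  · rw [coeff_monomial, if_pos rfl]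
  · intro β hβ hne
    rw [coeff_monomial, if_neg]
    intro h1
    apply hne
    ext j
    have h2 := k8g4b_le h j
    have h3 := k8g4b_le hβ j
    have h4 := DFunLike.congr_fun h1 j
    rw [Finsupp.tsub_apply, Finsupp.tsub_apply] at h4
    omega
  · intro h1
    exact absurd h h1

theorem k8g4b_max {P : MvPolynomial (Fin k) ℂ} (hP : P ≠ 0) (j : Fin k) : ∃ α ∈ P.support, α j = dg P j := by
  classical
  have hne : P.support.Nonempty := by
    rw [Finset.nonempty_iff_ne_empty]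
    intro h1
    exact hP (MvPolynomial.support_eq_empty.1 h1)
  have h1 : dg P j = P.support.sup (fun α : Fin k →₀ ℕ => α j) := by
    unfold dg
    exact Finset.apply_sup_eq_sup_comp (fun f : Fin k →₀ ℕ => f j) (fun f g => rfl) rfl
  obtain ⟨α, hα, h2⟩ := Finset.exists_mem_eq_sup _ hne (fun α : Fin k →₀ ℕ => α j)
  exact ⟨α, hα, by rw [h1, h2]⟩

theorem k8g4b_ne {P : MvPolynomial (Fin k) ℂ} {r : Fin k → ℝ} (hr : ∀ j, 0 < r j) {α : Fin k →₀ ℕ}
    (h : α ∈ P.support) : (rc P r).coeff (dg P - α) ≠ 0 := by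
  rw [k8g4b_coeff r h]
  refine mul_ne_zero ?_ (Finset.prod_ne_zero_iff.2 fun j _ => pow_ne_zero _ ?_)
  · rw [map_ne_zero]
    exact MvPolynomial.mem_support_iff.1 h
  · exact_mod_cast (hr j).ne'

theorem k8g4b_X {P : MvPolynomial (Fin k) ℂ} (hP : P ≠ 0) {r : Fin k → ℝ} (hr : ∀ j, 0 < r j) (j : Fin k) :
    ¬ (X j : MvPolynomial (Fin k) ℂ) ∣ rc P r := by
  classical
  rintro ⟨Q, hQ⟩
  obtain ⟨α, hα, h1⟩ := k8g4b_max hP j
  have h2 := k8g4b_ne hr hα
  rw [hQ, coeff_X_mul', if_neg] at h2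
  · exact h2 rfl
  · rw [Finsupp.mem_support_iff, Finsupp.tsub_apply, h1, Nat.sub_self]
    exact fun h => h rfl

theorem k8g4b_eval (P : MvPolynomial (Fin k) ℂ) (r : Fin k → ℝ) (x : Fin k → ℂ) (hx : ∀ j, x j ≠ 0) :
    eval x (rc P r) = (∏ j, x j ^ dg P j) *
      (starRingEnd ℂ) (eval (fun j => (r j : ℂ) / (starRingEnd ℂ) (x j)) P) := by
  classical
  unfold rc
  rw [map_sum, MvPolynomial.eval_eq', map_sum, Finset.mul_sum]
  refine Finset.sum_congr rfl fun α hα => ?_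
  rw [eval_monomial, Finsupp.prod_fintype _ _ (fun i => pow_zero _), map_mul, map_prod]
  have h1 : ∏ j, x j ^ dg P j = (∏ j, x j ^ (dg P - α) j) * ∏ j, x j ^ α j := by
    rw [← Finset.prod_mul_distrib]
    refine Finset.prod_congr rfl fun j _ => ?_
    rw [← pow_add, Finsupp.tsub_apply, Nat.sub_add_cancel (k8g4b_le hα j)]
  have h2 : ∏ j, (r j : ℂ) ^ α j = (∏ j, x j ^ α j) *
      ∏ j, (starRingEnd ℂ) (((r j : ℂ) / (starRingEnd ℂ) (x j)) ^ α j) := by
    rw [← Finset.prod_mul_distrib]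
    refine Finset.prod_congr rfl fun j _ => ?_
    rw [map_pow, map_div₀, Complex.conj_conj, Complex.conj_ofReal, ← mul_pow, mul_div_cancel₀ _ (hx j)]
  rw [h1, h2]
  ring

/-- An irreducible polynomial which is not a variable has a zero set in the torus, irreducible of codimension one. -/
theorem k8g4b_zp {g : MvPolynomial (Fin k) ℂ} (hg : Irreducible g) (hX : ∀ j, ¬ g ∣ X j) :
    Irr (zp g : Set (Fin k → ℂˣ)) ∧ k ≤ td ℂ (zp g : Set (Fin k → ℂˣ)) + 1 := by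
  classical
  have hp : Prime g := UniqueFactorizationMonoid.irreducible_iff_prime.1 hg
  have hP : (Ideal.span {g}).IsPrime := (Ideal.span_singleton_prime hg.ne_zero).2 hp
  have h1 := irr_zl (F := ℂ) (Ideal.span {g}) (fun i hi => hX i (Ideal.mem_span_singleton.1 hi))
  have h2 : zl (F := ℂ) ℂ ((Ideal.span {g} : Ideal (MvPolynomial (Fin k) ℂ)) : Set (MvPolynomial (Fin k) ℂ)) = zp g := by
    ext x
    rw [mem_zl, mem_zp]
    constructor
    · intro h
      exact h g (Ideal.mem_span_singleton_self g)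
    · intro h p hp
      obtain ⟨q, rfl⟩ := Ideal.mem_span_singleton.1 hp
      rw [map_mul, h, zero_mul]
  rw [h2] at h1
  refine ⟨h1, ?_⟩
  have h3 : Comp ((Set.univ : Set (Fin k → ℂˣ)) ∩ zp g) (zp g) := by
    rw [Set.univ_inter]
    exact comp_self h1
  have h4 := krull (irr_univ (F := ℂ)) g h3
  rw [td_univ, Fintype.card_fin] at h4
  exact h4

variable [NeZero m] {C : Set (Fin m → ℂˣ)} {V : Set (Fin k ⊕ Fin m → ℂˣ)}

/-- Row Z8-G4a. PROOF. `k0 = acl ∅` (algebraically closed), `R = k0[y] / vI k0 C` a domain, `K` its fraction field, `A = K[x_1..x_k]` (a UFD). `J ⊆ A` = the fractions `F / c`, `F ∈ k0[y][x]` vanishing on `V`, `c ∈ k0[y]` not vanishing identically on `C`. As a nonzero `c` (`c` not vanishing on `C`) does not vanish identically on `V` (otherwise the `y`-part of `V` takes finitely many values, `HC.fin_poly`, so it is constant),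
`J` is a prime ideal and `F / c ∈ J` implies that `F` vanishes on `V`. `J ≠ 0` as `td V = k < k + 1 = td Cyl` (`cyl_irr`). An irreducible factor `π` of an element of `J` is in `J`. `(π) = J`: otherwise `trdeg_K A/J < trdeg_K A/(π) ≤ k - 1` (`trdeg_lt_of_lt`, `trdeg_quot_add_one_le` in MP_dd1803_nt/Alg.lean), so `k - 2` of the `x_j` and `y_0` form a transcendence basis over `k0` of the coordinates on `V`,
contradiction with `td k0 V = td ℂ V = k` (`td_cl_eq` or similar). `Φ` = a multiple of `π` in `k0[y][x]`. `Φ` vanishes on `V`. Finitely many `F_i ∈ k0[y][x]` have the common zeros `V` (`hVa`, noetherian); `F_i ∈ J = (π)` gives `c_i F_i = Φ G_i` at all `y ∈ C` with `c_i` not vanishing identically on `C`; `E` = the points of `C` where a `c_i` vanishes (`HC.fin_poly`). -/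
theorem exists_Phi (h : HC C) (hk : 1 ≤ k) (hV : Fam C V) (hVa : cl (acl (∅ : Set ℂ)) V = V)
    (hy : ¬ ∃ y0 : Fin m → ℂˣ, ∀ p ∈ V, ∀ i, p (Sum.inr i) = y0 i) :
    ∃ Φ : MvPolynomial (Fin k) (MvPolynomial (Fin m) ℂ), AlgCk Φ ∧ V ⊆ VSk C Φ ∧
      ∃ E : Set (Fin m → ℂˣ), E.Finite ∧ ∀ p ∈ VSk C Φ, (fun i => p (Sum.inr i)) ∉ E → p ∈ V := by
  have := isAlgClosed_acl (∅ : Set ℂ)
  obtain ⟨Φ, h1, E, h2, h3⟩ := k8g4a_gen (k0 := acl (∅ : Set ℂ)) h h.alg hV hVa hy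
  refine ⟨_, fun α β => ?_, h1, E, h2, h3⟩
  rw [MvPolynomial.coeff_map, MvPolynomial.coeff_map]
  exact mem_acl_empty.1 (MvPolynomial.coeff β (MvPolynomial.coeff α Φ)).2

/-- Row Z8-G4b. PROOF. Let `E'` = the union of the sets `E` of `hN` and `hE` and the finite set of the `y ∈ C` with `sp Φ (co y) = 0` (some coefficient of `Φ` does not vanish on `C`, as `V` is not the cylinder, `td V = k`; `HC.fin_poly`). Let `y ∉ E'`, `P = sp Φ (co y) ≠ 0` and suppose that a nonunit divides `P` and `rc P r`; let `g` be an irreducible factor of it (`rc P r ≠ 0`). `g` is not associated to a variable `X j`: `X j` does not divide `rc P r`,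
as some `α` of the support has `α j = dg P j` (its coefficient in `rc P r` is at the exponent `dg P - α`, distinct for distinct `α`, and not zero). So `g` has a zero in the torus (otherwise `g` divides a power of the product of the variables by the Nullstellensatz). A component `Y` of `zp g` in the torus of dimension `k` has `td Y + 1 ≥ k` (`krull`, `irr_univ`, `td_univ`). For `x ∈ Y`: `P(x) = 0`, so `(x, y) ∈ VSk C Φ`, `∈ V`;
and `rc P r (x) = x^D * conj (P (r / conj x))`, `D = dg P`, so `z = r / conj x` is a zero of `P`. Contradiction with `hN`. -/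
theorem NRk_of (h : HC C) (hk : 1 ≤ k) (hV : Fam C V) (hN : NonRec C V) {Φ : MvPolynomial (Fin k) (MvPolynomial (Fin m) ℂ)}
    (hΦ : V ⊆ VSk C Φ) (hy : ¬ ∃ y0 : Fin m → ℂˣ, ∀ p ∈ V, ∀ i, p (Sum.inr i) = y0 i)
    (hE : ∃ E : Set (Fin m → ℂˣ), E.Finite ∧ ∀ p ∈ VSk C Φ, (fun i => p (Sum.inr i)) ∉ E → p ∈ V) : NRk C Φ := by
  classical
  obtain ⟨E2, hE2, hE⟩ := hE
  -- some coefficient does not vanish on the curve
  have hα : ∃ α, ∃ y ∈ C, MvPolynomial.eval (co y) (Φ.coeff α) ≠ 0 := by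
    by_contra hcon
    push Not at hcon
    have h1 : ∀ y ∈ C, sp Φ (co y) = 0 := by
      intro y hy
      unfold sp
      ext α
      rw [coeff_map, hcon α y hy, coeff_zero]
    have h2 : Cyl k C ⊆ VSk C Φ := by
      intro p hp
      refine ⟨hp, ?_⟩
      have h3 : sp Φ (ys p) = 0 := h1 _ hp
      unfold evk
      rw [h3, map_zero]
    obtain ⟨hI, htd⟩ := cyl_irr (k := k) h
    have h3 : Cyl k C ⊆ V ∪ {p | (fun i => p (Sum.inr i)) ∈ E2} := by
      intro p hp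
      by_cases h4 : (fun i => p (Sum.inr i)) ∈ E2
      · exact Or.inr h4
      · exact Or.inl (hE p (h2 hp) h4)
    have h4 : ZClosed {p : Fin k ⊕ Fin m → ℂˣ | (fun i => p (Sum.inr i)) ∈ E2} := by
      have h5 : {p : Fin k ⊕ Fin m → ℂˣ | (fun i => p (Sum.inr i)) ∈ E2} =
          ⋃ y ∈ hE2.toFinset, prodSet (Set.univ : Set (Fin k → ℂˣ)) ({y} : Set (Fin m → ℂˣ)) := by
        ext p
        simp only [Set.mem_ofPred_eq, Set.mem_iUnion, Set.Finite.mem_toFinset, exists_prop]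
        constructor
        · intro h6
          exact ⟨_, h6, trivial, rfl⟩
        · rintro ⟨y, hy, -, h6⟩
          have h7 : (fun i => p (Sum.inr i)) = y := h6
          rw [h7]
          exact hy
      rw [h5]
      exact ZClosed.finset_biUnion _ fun y _ => zclosed_univ.prodSet (zclosed_singleton y)
    rcases hI.subset_or hV.irr.closed h4 h3 with h5 | h5
    · have h6 := td_mono (k := ℂ) hI.pirr hV.irr.pirr h5
      rw [htd, hV.dim] at h6
      omega
    · have h6 : C ⊆ E2 := by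
        intro y hy
        exact h5 (show (Sum.elim (fun _ => 1) y : Fin k ⊕ Fin m → ℂˣ) ∈ Cyl k C from hy)
      exact h.infinite (hE2.subset h6)
  obtain ⟨α, hα⟩ := hα
  suffices hrec : ∀ y ∈ C, y ∉ E2 ∪ {y : Fin m → ℂˣ | y ∈ C ∧ MvPolynomial.eval (co y) (Φ.coeff α) = 0} →
      RecK Φ (co y) → RecV V y by
    obtain ⟨⟨G, hG0, hG⟩, hI⟩ := hN
    obtain ⟨Q, hQ0, hQ⟩ := Pool.Agent.Z7.g0_conv hG0
    refine ⟨E2 ∪ {y : Fin m → ℂˣ | y ∈ C ∧ MvPolynomial.eval (co y) (Φ.coeff α) = 0}, hE2.union (h.fin_poly hα),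
      ⟨Q, hQ0, fun y hy hyE hyR => ?_⟩, fun n hn r => (hI n hn r).subset ?_⟩
    · have h1 := hG y hy (hrec y hy hyE hyR)
      have h2 := hQ (co y 0) ((starRingEnd ℂ) (co y 0))
      rw [MvPolynomial.aeval_eq_eval] at h2
      unfold Pool.Agent.Z5.ev2
      rw [Polynomial.eval_map]
      exact h2.trans h1
    · rintro y ⟨hy, hyE, hyR, hyn⟩
      exact ⟨hy, hrec y hy hyE hyR, hyn⟩
  intro y hy hyE hyR
  obtain ⟨r, hr, hyR⟩ := hyR
  have hy2 : y ∉ E2 := fun h1 => hyE (Or.inl h1)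
  have hP : sp Φ (co y) ≠ 0 := by
    intro h1
    apply hyE
    right
    refine ⟨hy, ?_⟩
    have h2 : (sp Φ (co y)).coeff α = 0 := by rw [h1, coeff_zero]
    unfold sp at h2
    rwa [coeff_map] at h2
  unfold IsRelPrime at hyR
  push Not at hyR
  obtain ⟨d, hd1, hd2, hu⟩ := hyR
  have hd0 : d ≠ 0 := by
    rintro rfl
    exact hP (zero_dvd_iff.1 hd1)
  obtain ⟨g, hg, hgd⟩ := WfDvdMonoid.exists_irreducible_factor hu hd0
  have hgP := hgd.trans hd1
  have hgR := hgd.trans hd2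
  have hX : ∀ j, ¬ g ∣ X j := by
    rintro j ⟨q, hq⟩
    have h1 : Irreducible (X j : MvPolynomial (Fin k) ℂ) := (MvPolynomial.X_prime (i := j)).irreducible
    rcases h1.isUnit_or_isUnit hq with h2 | h2
    · exact hg.not_isUnit h2
    · refine k8g4b_X hP hr j ((dvd_trans ?_ hgR))
      rw [hq]
      exact (h2.mul_right_dvd).2 dvd_rfl
  obtain ⟨hY, hk1⟩ := k8g4b_zp hg hX
  refine ⟨r, hr, zp g, hY, ?_, ?_, by omega⟩
  · intro x hx
    refine hE _ ⟨hy, ?_⟩ hy2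
    obtain ⟨q, hq⟩ := hgP
    rw [mem_zp] at hx
    show MvPolynomial.eval (co x) (sp Φ (co y)) = 0
    rw [hq, map_mul, ← MvPolynomial.aeval_eq_eval, hx, zero_mul]
  · intro x hx
    have hx0 : ∀ j, (starRingEnd ℂ) (x j : ℂ) ≠ 0 := fun j => (map_ne_zero _).2 (x j).ne_zero
    have hz0 : ∀ j, (r j : ℂ) / (starRingEnd ℂ) (x j : ℂ) ≠ 0 := fun j =>
      div_ne_zero (by exact_mod_cast (hr j).ne') (hx0 j)
    refine ⟨fun j => Units.mk0 _ (hz0 j), ?_, fun j => ?_⟩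
    · refine hE _ ⟨hy, ?_⟩ hy2
      obtain ⟨q, hq⟩ := hgR
      rw [mem_zp] at hx
      have h2 := k8g4b_eval (sp Φ (co y)) r (co x) (fun j => (x j).ne_zero)
      rw [hq, map_mul, ← MvPolynomial.aeval_eq_eval, hx, zero_mul] at h2
      have h3 := (mul_eq_zero.1 h2.symm).resolve_left
        (Finset.prod_ne_zero_iff.2 fun j _ => pow_ne_zero _ (x j).ne_zero)
      rw [map_eq_zero] at h3
      exact h3
    · rw [Units.val_mk0, div_mul_cancel₀ _ (hx0 j)]

/-- Row Z8-G4c. PROOF. Suppose that `e ≠ 0` and `∑_j e_j α_j = c` for all `α` with a coefficient not vanishing on `C`. Then `evk Φ (g^e x) y = g^c evk Φ x y` for `y ∈ C`, so `VSk C Φ` is stable under `x ↦ g^e x`. For `p ∈ V` with `y`-part outside `E` the point `g^e p` is in `V`. The set of the `p ∈ V` with `g^e p ∈ V` is closed and contains the points of `V` outside of finitely many fibres, so it is `V`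
(`V` is irreducible and not contained in the closed set of the points over `E`: the `y`-part is not constant). Contradiction with `hF`. -/
theorem Fullk_of (h : HC C) (hV : Fam C V) (hF : FinStab V) {Φ : MvPolynomial (Fin k) (MvPolynomial (Fin m) ℂ)}
    (hΦ : V ⊆ VSk C Φ) (hy : ¬ ∃ y0 : Fin m → ℂˣ, ∀ p ∈ V, ∀ i, p (Sum.inr i) = y0 i)
    (hE : ∃ E : Set (Fin m → ℂˣ), E.Finite ∧ ∀ p ∈ VSk C Φ, (fun i => p (Sum.inr i)) ∉ E → p ∈ V) : Fullk C Φ := by
  classical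
  intro e he
  by_contra hcon
  push Not at hcon
  obtain ⟨E, hEf, hEV⟩ := hE
  obtain ⟨p0, hp0, g, hg⟩ := hF e he
  -- a common degree
  obtain ⟨c, hc⟩ : ∃ c : ℤ, ∀ α : Fin k →₀ ℕ, (∃ y ∈ C, eval (co y) (Φ.coeff α) ≠ 0) →
      ∑ j, e j * (α j : ℤ) = c := by
    by_cases hα : ∃ α : Fin k →₀ ℕ, ∃ y ∈ C, eval (co y) (Φ.coeff α) ≠ 0
    · obtain ⟨α, h1⟩ := hα
      exact ⟨∑ j, e j * (α j : ℤ), fun β hβ => hcon β α hβ h1⟩
    · exact ⟨0, fun β hβ => absurd ⟨β, hβ⟩ hα⟩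
  -- the equation is homogeneous
  have key : ∀ (x : Fin k → ℂˣ) (y : Fin m → ℂˣ), y ∈ C →
      evk Φ (fun j => ((x j * g ^ e j : ℂˣ) : ℂ)) (co y) = ((g ^ c : ℂˣ) : ℂ) * evk Φ (fun j => (x j : ℂ)) (co y) := by
    intro x y hyC
    rw [evk_eq, evk_eq, Finset.mul_sum]
    refine Finset.sum_congr rfl fun α _ => ?_
    by_cases h0 : eval (co y) (Φ.coeff α) = 0
    · rw [h0]
      ring
    · have h1 := hc α ⟨y, hyC, h0⟩
      have h2 : ∏ j, ((x j * g ^ e j : ℂˣ) : ℂ) ^ α j = ((g ^ c : ℂˣ) : ℂ) * ∏ j, (x j : ℂ) ^ α j := by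
        have h3 : ∏ j, (x j * g ^ e j) ^ α j = g ^ c * ∏ j, x j ^ α j := by
          have h4 : ∏ j, (g ^ e j) ^ α j = g ^ c := by
            rw [← h1]
            have h5 : ∀ s : Finset (Fin k), ∏ j ∈ s, (g ^ e j) ^ α j = g ^ (∑ j ∈ s, e j * (α j : ℤ)) := by
              intro s
              induction s using Finset.induction_on with
              | empty => simp
              | insert a s ha ih =>
                rw [Finset.prod_insert ha, Finset.sum_insert ha, ih, zpow_add, zpow_mul, zpow_natCast]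
            exact h5 Finset.univ
          calc ∏ j, (x j * g ^ e j) ^ α j = (∏ j, x j ^ α j) * ∏ j, (g ^ e j) ^ α j := by
                rw [← Finset.prod_mul_distrib]
                exact Finset.prod_congr rfl fun j _ => mul_pow _ _ _
            _ = g ^ c * ∏ j, x j ^ α j := by rw [h4, mul_comm]
        have h6 := congrArg (fun z : ℂˣ => (z : ℂ)) h3
        simpa only [Units.val_mul, Units.coe_prod, Units.val_pow_eq_pow_val] using h6
      rw [h2]
      ring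
  let gv : Fin k ⊕ Fin m → ℂˣ := Sum.elim (fun j => g ^ e j) (fun _ => 1)
  have htr : ∀ p : Fin k ⊕ Fin m → ℂˣ, (Sum.elim (fun j => p (Sum.inl j) * g ^ e j) (fun i => p (Sum.inr i)) :
      Fin k ⊕ Fin m → ℂˣ) = Tr.tr gv p := by
    intro p
    funext i
    rcases i with i | i
    · show p (Sum.inl i) * g ^ e i = g ^ e i * p (Sum.inl i)
      rw [mul_comm]
    · show p (Sum.inr i) = 1 * p (Sum.inr i)
      rw [one_mul]
  obtain ⟨Z, hZ, hVZ⟩ := hV.irr.subset_of_finset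
    (insert (Tr.tr gv ⁻¹' V) (hEf.toFinset.image fun y => prodSet (Set.univ : Set (Fin k → ℂˣ)) ({y} : Set (Fin m → ℂˣ))))
    (by
      intro Z hZ
      rcases Finset.mem_insert.1 hZ with rfl | hZ
      · exact Tr.zclosed_preimage_tr gv hV.irr.closed
      · obtain ⟨y, -, rfl⟩ := Finset.mem_image.1 hZ
        exact zclosed_univ.prodSet (zclosed_singleton y))
    (by
      intro p hp
      simp only [Set.mem_iUnion]
      by_cases hpE : (fun i => p (Sum.inr i)) ∈ E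
      · exact ⟨_, Finset.mem_insert_of_mem (Finset.mem_image.2 ⟨_, hEf.mem_toFinset.2 hpE, rfl⟩), trivial, rfl⟩
      · refine ⟨_, Finset.mem_insert_self _ _, ?_⟩
        show Tr.tr gv p ∈ V
        rw [← htr]
        have h1 := hΦ hp
        refine hEV _ ⟨h1.1, ?_⟩ hpE
        have h2 := key (fun j => p (Sum.inl j)) (fun i => p (Sum.inr i)) h1.1
        have h3 : evk Φ (fun j => ((p (Sum.inl j) : ℂˣ) : ℂ)) (co fun i => p (Sum.inr i)) = 0 := h1.2
        rw [h3, mul_zero] at h2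
        exact h2)
  rcases Finset.mem_insert.1 hZ with rfl | hZ
  · apply hg
    rw [htr]
    exact hVZ hp0
  · obtain ⟨y, -, rfl⟩ := Finset.mem_image.1 hZ
    exact hy ⟨y, fun p hp i => congrFun (hVZ hp).2 i⟩

theorem k8g4d_fib {k m : ℕ} (y0 : Fin m → ℂˣ) : Irr (Cyl k {y0}) ∧ td ℂ (Cyl k {y0}) ≤ k := by
  have hc : Cyl k {y0} = prodSet (Set.univ : Set (Fin k → ℂˣ)) ({y0} : Set (Fin m → ℂˣ)) := by
    ext x
    exact ⟨fun h => ⟨trivial, h⟩, fun h => h.2⟩
  have hI : Irr (Cyl k {y0}) := by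
    rw [hc]
    exact irr_univ.prodSet (irr_singleton y0)
  refine ⟨hI, ?_⟩
  have h1 := td_le_pull' (k := ℂ) hI.pirr (e := (Sum.inr : Fin m → Fin k ⊕ Fin m)) Sum.inr_injective
  have h2 : pull (Sum.inr : Fin m → Fin k ⊕ Fin m) '' (Cyl k {y0}) ⊆ {y0} := by
    rintro _ ⟨x, hx, rfl⟩
    exact hx
  have h3 : td ℂ (pull (Sum.inr : Fin m → Fin k ⊕ Fin m) '' (Cyl k {y0})) ≤ td ℂ ({y0} : Set (Fin m → ℂˣ)) :=
    td_mono (hI.pirr.pull _) (irr_singleton y0).pirr h2
  rw [td_singleton'] at h3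
  have h4 : (Set.range (Sum.inr : Fin m → Fin k ⊕ Fin m))ᶜ.ncard ≤ k := by
    rw [Set.compl_range_inr, ← Set.image_univ]
    refine (Set.ncard_image_le Set.finite_univ).trans ?_
    rw [Set.ncard_univ, Nat.card_eq_fintype_card, Fintype.card_fin]
  omega

/-- Row Z8-G4d. PROOF. If the `y`-part is constant on `V` then `V ⊆ {y = y0}`, irreducible of dimension `k`, so equal (`eq_of_td_le`): contradiction with `hF` (`1 ≤ k`). `exists_Phi`, `NRk_of`, `Fullk_of`, `exists_Sk` (`j0 = 0`) give `S`; enlarge `S.E` by the images of the finite set `E` of `exists_Phi` (all fields of `Sk` and `HHp`, `Rat` are kept); `VSk C Φ` and `VSk C S.Φ` are equal. Then `pink_S`. -/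
theorem pink_alg (h : HC C) (hk : 2 ≤ k) (hm : 2 ≤ m) (hV : Fam C V) (hF : FinStab V) (hN : NonRec C V)
    (hVa : cl (acl (∅ : Set ℂ)) V = V) :
    ∃ Z, ZClosed Z ∧ Z ⊆ V ∧ Z ≠ V ∧ ∀ X, Irr X → X ⊆ V → k + 1 ≤ cd X → X ⊆ Z := by
  by_cases hy : ∃ y0 : Fin m → ℂˣ, ∀ p ∈ V, ∀ i, p (Sum.inr i) = y0 i
  · exfalso
    obtain ⟨y0, hy0⟩ := hy
    obtain ⟨hI, htd⟩ := k8g4d_fib (k := k) y0
    have hVF : V = Cyl k {y0} := eq_of_td_le hV.irr hI (fun p hp => funext fun i => hy0 p hp i) (by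
      rw [hV.dim]
      exact htd)
    obtain ⟨p, hp, g, hg⟩ := hF (Pi.single ⟨0, by omega⟩ 1) (by
      intro h0
      have h1 := congrFun h0 (⟨0, by omega⟩ : Fin k)
      rw [Pi.single_eq_same, Pi.zero_apply] at h1
      exact one_ne_zero h1)
    apply hg
    rw [hVF] at hp ⊢
    exact hp
  · obtain ⟨Φ, hΦa, hΦ, hE⟩ := exists_Phi h (by omega) hV hVa hy
    have hNR := NRk_of h (by omega) hV hN hΦ hy hE
    have hFu := Fullk_of h hV hF hΦ hy hE
    obtain ⟨S, -, hSC, hR, hiff, hSa⟩ := exists_Sk h hNR hFu (by omega) (⟨0, by omega⟩ : Fin k)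
    obtain ⟨E, hEf, hEV⟩ := hE
    let S' : Sk k m :=
      { S with
        E := S.E ∪ co '' E
        hE := S.hE.union (hEf.image _)
        sep := fun y hy hyE => S.sep y hy (fun h => hyE (Or.inl h))
        coef := fun y hy hyE => S.coef y hy (fun h => hyE (Or.inl h))
        nrec := by
          intro u hu0 y1 hy1 hy1E hacc O hO
          obtain ⟨y, ⟨h1, h2⟩, h3, h4, h5, h6, h7⟩ := S.nrec u hu0 y1 hy1 (fun h => hy1E (Or.inl h)) hacc _
            (Filter.inter_mem hO (((hEf.image co).isClosed.isOpen_compl).mem_nhds fun h => hy1E (Or.inr h)))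
          exact ⟨y, h1, h3, fun h => h.elim h4 h2, h5, h6, h7⟩ }
    have hVS : ∀ p, p ∈ VSk C S.Φ ↔ p ∈ VSk C Φ := by
      intro p
      constructor
      · rintro ⟨h1, h2⟩
        exact ⟨h1, (hiff _ h1 (xs p) (fun j => (p (Sum.inl j)).ne_zero)).1 h2⟩
      · rintro ⟨h1, h2⟩
        exact ⟨h1, (hiff _ h1 (xs p) (fun j => (p (Sum.inl j)).ne_zero)).2 h2⟩
    exact pink_S h hk hm (S := S') hSC ⟨hR.1, fun u v huv y0 hy0 hyE => hR.2 u v huv y0 hy0 (fun h => hyE (Or.inl h))⟩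
      (hSa hΦa) hV.irr hVa hV.dim (fun p hp => (hVS p).2 (hΦ hp))
      (fun p hp hpE => hEV p ((hVS p).1 hp) (fun h => hpE (Or.inr ⟨_, h, rfl⟩)))

theorem k8g4f_cl {κ : Type} {B : Set (κ → ℂˣ)} (hB : ∀ p ∈ B, ∀ i, IsAlgebraic ℚ (p i : ℂ)) :
    cl (acl (∅ : Set ℂ)) B ⊆ cl ℂ B := by
  intro x hx
  show x ∈ zl ℂ (vI ℂ B : Set (MvPolynomial κ ℂ))
  rw [mem_zl]
  intro q hq
  apply aeval_eq_zero_of_cmpl (k := acl (∅ : Set ℂ))
  intro φ
  apply hx
  rw [SetLike.mem_coe, mem_vI]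
  intro b hb
  have hq' : aeval (co b) q = 0 := mem_vI.1 hq b hb
  let y : κ → acl (∅ : Set ℂ) := fun i => ⟨(b i : ℂ), mem_acl_empty.2 (hB b hb i)⟩
  have hy : (co b : κ → ℂ) = algebraMap (acl (∅ : Set ℂ)) ℂ ∘ y := rfl
  have h1 : aeval (fun i => algebraMap (acl (∅ : Set ℂ)) ℂ (y i)) q = 0 := hq'
  rw [hy, aeval_algebraMap_apply, aeval_cmpl, h1, map_zero, map_zero]

theorem k8g4f_fin {k m : ℕ} {E : Set (Fin m → ℂˣ)} (hE : E.Finite) :
    ZClosed {p : Fin k ⊕ Fin m → ℂˣ | (fun i => p (Sum.inr i)) ∈ E} := by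
  have h5 : {p : Fin k ⊕ Fin m → ℂˣ | (fun i => p (Sum.inr i)) ∈ E} =
      ⋃ y ∈ hE.toFinset, prodSet (Set.univ : Set (Fin k → ℂˣ)) ({y} : Set (Fin m → ℂˣ)) := by
    ext p
    simp only [Set.mem_ofPred_eq, Set.mem_iUnion, Set.Finite.mem_toFinset, exists_prop]
    constructor
    · intro h6
      exact ⟨_, h6, trivial, rfl⟩
    · rintro ⟨y, hy, -, h6⟩
      have h7 : (fun i => p (Sum.inr i)) = y := h6
      rw [h7]
      exact hy
  rw [h5]
  exact ZClosed.finset_biUnion _ fun y _ => zclosed_univ.prodSet (zclosed_singleton y)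

theorem k8g4f_fibre {k m : ℕ} {y0 : Fin m → ℂˣ} (hy : ∀ i, IsAlgebraic ℚ (y0 i : ℂ)) :
    cl (acl (∅ : Set ℂ)) (Cyl k {y0}) = Cyl k {y0} := by
  apply Set.Subset.antisymm _ (subset_cl _)
  intro x hx
  show (fun i => x (Sum.inr i)) = y0
  funext i
  apply Units.ext
  have h1 := hx (X (Sum.inr i) - C ⟨(y0 i : ℂ), mem_acl_empty.2 (hy i)⟩) (by
    rw [SetLike.mem_coe, mem_vI]
    intro p hp
    have h2 : (fun i => p (Sum.inr i)) = y0 := hp
    have h3 : p (Sum.inr i) = y0 i := congrFun h2 i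
    rw [map_sub, aeval_X, aeval_C, sub_eq_zero]
    show (p (Sum.inr i) : ℂ) = (y0 i : ℂ)
    rw [h3])
  rw [map_sub, aeval_X, aeval_C, sub_eq_zero] at h1
  exact h1

theorem k8g4f_cyl {k m : ℕ} {C : Set (Fin m → ℂˣ)} (hC : cl (acl (∅ : Set ℂ)) C = C)
    {X : Set (Fin k ⊕ Fin m → ℂˣ)} (hX : ∀ p ∈ X, (fun i => p (Sum.inr i)) ∈ C) :
    ∀ p ∈ cl (acl (∅ : Set ℂ)) X, (fun i => p (Sum.inr i)) ∈ C := by
  intro p hp
  rw [← hC]
  intro q hq
  have h1 := hp (rename Sum.inr q) (by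
    rw [SetLike.mem_coe, mem_vI]
    intro x hx
    rw [aeval_rename]
    exact (mem_vI.1 hq) _ (hX x hx))
  rw [aeval_rename] at h1
  exact h1

/-- Row Z8-G4e. The rank of a point is at most `k` plus the rank of its `y`-part: the projection of `Lam {p}` to `ℤ^k` has the kernel `Lam {y}`. -/
theorem rk_le_y (p : Fin k ⊕ Fin m → ℂˣ) :
    rk ({p} : Set (Fin k ⊕ Fin m → ℂˣ)) ≤ k + rk ({fun i => p (Sum.inr i)} : Set (Fin m → ℂˣ)) := by
  classical
  set y : Fin m → ℂˣ := fun i => p (Sum.inr i) with hy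
  let f : Lam ({p} : Set (Fin k ⊕ Fin m → ℂˣ)) →ₗ[ℤ] (Fin k → ℤ) :=
    (LinearMap.funLeft ℤ ℤ (Sum.inl : Fin k → Fin k ⊕ Fin m)).comp (Lam ({p} : Set (Fin k ⊕ Fin m → ℂˣ))).subtype
  have h1 := (LinearMap.ker f).finrank_quotient_add_finrank
  rw [f.quotKerEquivRange.finrank_eq] at h1
  have h2 : Module.finrank ℤ (LinearMap.range f) ≤ k := by
    refine (Submodule.finrank_le _).trans ?_
    rw [Module.finrank_fin_fun]
  let g0 : LinearMap.ker f →ₗ[ℤ] (Fin m → ℤ) :=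
    (LinearMap.funLeft ℤ ℤ (Sum.inr : Fin m → Fin k ⊕ Fin m)).comp
      ((Lam ({p} : Set (Fin k ⊕ Fin m → ℂˣ))).subtype.comp (LinearMap.ker f).subtype)
  have hg0 : ∀ v : LinearMap.ker f, g0 v ∈ Lam ({y} : Set (Fin m → ℂˣ)) := by
    rintro ⟨⟨v, N, hN, hv⟩, hk⟩
    refine ⟨N, hN, fun x hx => ?_⟩
    rw [Set.mem_singleton_iff.1 hx]
    have h3 := hv p rfl
    have h4 : ∀ j, v (Sum.inl j) = 0 := fun j => congrFun (LinearMap.mem_ker.1 hk) j
    have h5 : ch v p = ch (fun i => v (Sum.inr i)) y := by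
      unfold ch
      rw [Fintype.prod_sum_type]
      have h6 : ∏ j, p (Sum.inl j) ^ v (Sum.inl j) = 1 := Finset.prod_eq_one fun j _ => by
        rw [h4 j, zpow_zero]
      rw [h6, one_mul]
    rw [h5] at h3
    exact h3
  let g : LinearMap.ker f →ₗ[ℤ] Lam ({y} : Set (Fin m → ℂˣ)) := g0.codRestrict _ hg0
  have hg : Function.Injective g := by
    rw [injective_iff_map_eq_zero]
    rintro ⟨⟨v, hv⟩, hk⟩ hz
    have h4 : ∀ j, v (Sum.inl j) = 0 := fun j => congrFun (LinearMap.mem_ker.1 hk) j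
    have h5 : ∀ i, v (Sum.inr i) = 0 := fun i => congrFun (congrArg Subtype.val hz) i
    apply Subtype.ext
    apply Subtype.ext
    funext l
    rcases l with j | i
    · exact h4 j
    · exact h5 i
  have h3 := LinearMap.finrank_le_finrank_of_injective hg
  show Module.finrank ℤ (Lam ({p} : Set (Fin k ⊕ Fin m → ℂˣ))) ≤ k + Module.finrank ℤ (Lam ({y} : Set (Fin m → ℂˣ)))
  omega

theorem k8g4f_trans {C : Set (Fin m → ℂˣ)} {V : Set (Fin k ⊕ Fin m → ℂˣ)} (hCa : cl (acl (∅ : Set ℂ)) C = C)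
    (hfin : {y : Fin m → ℂˣ | y ∈ C ∧ (∀ i, IsAlgebraic ℚ (y i : ℂ)) ∧ 2 ≤ rk ({y} : Set (Fin m → ℂˣ))}.Finite)
    (hV : Fam C V) (hVa : cl (acl (∅ : Set ℂ)) V ≠ V) :
    ∃ Z, ZClosed Z ∧ Z ⊆ V ∧ Z ≠ V ∧ ∀ X, Irr X → X ⊆ V → k + 1 ≤ cd X → X ⊆ Z := by
  classical
  have halg : IsAlgClosed (acl (∅ : Set ℂ)) := isAlgClosed_acl _
  set B : Set (Fin k ⊕ Fin m → ℂˣ) := {p | p ∈ V ∧ ∀ i, IsAlgebraic ℚ (p i : ℂ)} with hB
  set F2 : Set (Fin m → ℂˣ) := {y : Fin m → ℂˣ | y ∈ C ∧ (∀ i, IsAlgebraic ℚ (y i : ℂ)) ∧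
    2 ≤ rk ({y} : Set (Fin m → ℂˣ))} with hF2
  set W2 : Set (Fin k ⊕ Fin m → ℂˣ) := {p | (fun i => p (Sum.inr i)) ∈ F2} with hW2
  have hW2c : ZClosed W2 := k8g4f_fin hfin
  have hZ1c : ZClosed (cl (acl (∅ : Set ℂ)) B) := zclosed_cl _
  have hZ1V : cl (acl (∅ : Set ℂ)) B ⊆ V :=
    (k8g4f_cl fun p hp => hp.2).trans (cl_subset (fun p hp => hp.1) hV.irr.closed)
  -- the two closed sets do not contain `V`
  have hn1 : ¬ V ⊆ cl (acl (∅ : Set ℂ)) B := by
    intro h1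
    apply hVa
    have h2 : cl (acl (∅ : Set ℂ)) B = V := Set.Subset.antisymm hZ1V h1
    rw [← h2, cl_idem]
  have hn2 : ¬ V ⊆ W2 := by
    intro h1
    have h2 : V ⊆ ⋃ Z ∈ hfin.toFinset.image (fun y => Cyl k ({y} : Set (Fin m → ℂˣ))), Z := by
      intro p hp
      simp only [Set.mem_iUnion]
      refine ⟨Cyl k {fun i => p (Sum.inr i)}, Finset.mem_image.2 ⟨_, hfin.mem_toFinset.2 (h1 hp), rfl⟩, rfl⟩
    obtain ⟨Z, hZ, hVZ⟩ := hV.irr.subset_of_finset _ (by
      intro Z hZ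
      obtain ⟨y, -, rfl⟩ := Finset.mem_image.1 hZ
      exact (k8g4d_fib y).1.closed) h2
    obtain ⟨y, hy, rfl⟩ := Finset.mem_image.1 hZ
    obtain ⟨hI, htd⟩ := k8g4d_fib (k := k) y
    have hVF : V = Cyl k {y} := eq_of_td_le hV.irr hI hVZ (by
      rw [hV.dim]
      exact htd)
    apply hVa
    rw [hVF]
    exact k8g4f_fibre (hfin.mem_toFinset.1 hy).2.1
  refine ⟨cl (acl (∅ : Set ℂ)) B ∪ (V ∩ W2), hZ1c.union (hV.irr.closed.inter hW2c),
    Set.union_subset hZ1V Set.inter_subset_left, ?_, ?_⟩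
  · intro h1
    rcases hV.irr.subset_or hZ1c (hV.irr.closed.inter hW2c) h1.ge with h2 | h2
    · exact hn1 h2
    · exact hn2 (h2.trans Set.inter_subset_right)
  · intro X hX hXV hcd
    by_contra hXZ
    have hX1 : ¬ X ⊆ cl (acl (∅ : Set ℂ)) B := fun h1 => hXZ (h1.trans Set.subset_union_left)
    have hX2 : ¬ X ⊆ W2 := fun h1 => hXZ ((Set.subset_inter hXV h1).trans Set.subset_union_right)
    by_cases hXa : cl (acl (∅ : Set ℂ)) X = X
    · obtain ⟨p, hpX, hpZ, hpa, -⟩ := tors_pt hX hXa hZ1c hX1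
      exact hpZ (subset_cl _ ⟨hXV hpX, hpa⟩)
    · have hX' : Irr (cl (acl (∅ : Set ℂ)) X) := irr_cl hX.pirr
      have hlt : td ℂ X < td ℂ (cl (acl (∅ : Set ℂ)) X) :=
        td_lt hX hX' (LE.le.ssubset_of_ne (subset_cl X) (Ne.symm hXa))
      have hrk : rk (cl (acl (∅ : Set ℂ)) X) = rk X := rk_cl X
      have hX2' : ¬ cl (acl (∅ : Set ℂ)) X ⊆ W2 := fun h1 => hX2 ((subset_cl X).trans h1)
      obtain ⟨p, hpX, hpW, hpa, hpr⟩ := tors_pt hX' (cl_idem X) hW2c hX2'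
      have hpC := k8g4f_cyl hCa (fun p hp => hV.sub p (hXV hp)) p hpX
      have h1 := rk_le_y p
      have h2 : cd X = rk X + td ℂ X := rfl
      have h3 : cd (cl (acl (∅ : Set ℂ)) X) = rk (cl (acl (∅ : Set ℂ)) X) + td ℂ (cl (acl (∅ : Set ℂ)) X) := rfl
      exact hpW ⟨hpC, fun i => hpa _, by omega⟩

/-- Row Z8-G4f. PROOF. `F2` = the finite set of the algebraic `y ∈ C` with `2 ≤ rk {y}` (`Z7.finite_rk2`). `Z1` = the Zariski closure of the set of the points of `V` with algebraic coordinates: it is not `V` (`cl (acl ∅) Z1 = Z1`: a polynomial over `ℂ` vanishing at algebraic points is a combination of polynomials over `acl ∅` vanishing there, compare `mem_vI_cl`, `irr_cl`, `aeval_eq_zero_of_cmpl` in MP_dd1803_nt/Ext.lean).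
`Z2` = the points of `V` over `F2`: closed; `Z2 ≠ V`: otherwise the `y`-part is constant on `V`, `= y0` algebraic, and `V = {y = y0}` by dimension, so `cl (acl ∅) V = V`. Take `Z = Z1 ∪ Z2` (`V` is irreducible). Let `X ⊆ V` be irreducible with `k + 1 ≤ cd X`. If `cl (acl ∅) X = X` and `¬ X ⊆ Z1` then `tors_pt` gives an algebraic point of `V` outside `Z1`. Otherwise `X' = cl (acl ∅) X` is irreducible (`irr_cl`), larger than `X`,
so `td X + 1 ≤ td X'` (`td_lt`), `rk X ≤ rk X'` (the equations `ch n x ^ N = 1` are polynomial equations with integer coefficients, so they hold on `X'`), `X' ⊆ Cyl k C` (`h.alg`). If `X'` is not contained in the points over `F2`, `tors_pt` gives an algebraic `p ∈ X'`, `y(p) ∉ F2`, with `k + 2 ≤ cd X' ≤ rk {p} ≤ k + rk {y(p)}` (`rk_le_y`): contradiction. -/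
theorem pink_trans (h : HC C) (hm : 2 ≤ m) (hV : Fam C V) (hVa : cl (acl (∅ : Set ℂ)) V ≠ V) :
    ∃ Z, ZClosed Z ∧ Z ⊆ V ∧ Z ≠ V ∧ ∀ X, Irr X → X ⊆ V → k + 1 ≤ cd X → X ⊆ Z :=
  k8g4f_trans h.alg (Pool.Agent.Z7.finite_rk2 h hm) hV hVa

/-- Row Z8-G4g. PROOF. For an atypical `X`: `k + 1 ≤ cd X` as in `ZL2.cd_of_atypical` (ZL2/Geom4). For `T` special with `dm T < m` and `p ∈ V ∩ T`: `X = {p}` is irreducible, `k + 1 ≤ rk T ≤ rk {p} ≤ cd {p}` (`Special.cd`, `dm_irr`, `rk_anti`). -/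
theorem pink_conv (hV : Fam C V) {Z : Set (Fin k ⊕ Fin m → ℂˣ)} (h : ∀ X, Irr X → X ⊆ V → k + 1 ≤ cd X → X ⊆ Z) :
    dm V = (k : WithBot ℕ∞) ∧ (∀ X, Atypical V X → X ⊆ Z) ∧
      ∀ T, Special T → dm T < (m : WithBot ℕ∞) → V ∩ T ⊆ Z := by
  have hcard : Fintype.card (Fin k ⊕ Fin m) = k + m := by
    rw [Fintype.card_sum, Fintype.card_fin, Fintype.card_fin]
  have hdm : dm V = (k : WithBot ℕ∞) := by
    rw [dm_irr hV.irr, hV.dim]
  refine ⟨hdm, ?_, ?_⟩
  · rintro X ⟨T, hT, hX, hlt⟩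
    apply h X hX.irr (hX.subset.trans Set.inter_subset_left)
    rw [hdm, dm_irr hT.irr, dm_irr hX.irr, dm_univ] at hlt
    have h2 : k + td ℂ T < td ℂ X + Fintype.card (Fin k ⊕ Fin m) := by exact_mod_cast hlt
    have h3 := hT.cd
    have h4 : rk T ≤ rk X := rk_anti (hX.subset.trans Set.inter_subset_right)
    have h5 : cd T = rk T + td ℂ T := rfl
    have h6 : cd X = rk X + td ℂ X := rfl
    omega
  · rintro T hT hlt p ⟨hpV, hpT⟩
    have h1 : ({p} : Set (Fin k ⊕ Fin m → ℂˣ)) ⊆ Z := by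
      apply h {p} (irr_singleton p) (Set.singleton_subset_iff.2 hpV)
      rw [dm_irr hT.irr] at hlt
      have h2 : td ℂ T < m := by exact_mod_cast hlt
      have h3 := hT.cd
      have h4 : rk T ≤ rk ({p} : Set (Fin k ⊕ Fin m → ℂˣ)) := rk_anti (Set.singleton_subset_iff.2 hpT)
      have h5 : cd T = rk T + td ℂ T := rfl
      have h6 : cd ({p} : Set (Fin k ⊕ Fin m → ℂˣ)) = rk ({p} : Set (Fin k ⊕ Fin m → ℂˣ)) + td ℂ ({p} : Set (Fin k ⊕ Fin m → ℂˣ)) := rfl
      omega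
    exact h1 rfl

end Pool.Agent.Z8
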