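import Pool.Agent.Z6.N3

namespace Pool.Agent.Z8

open Pool.Agent.ZL2 Filter Topology
open Pool.Agent.Z6 (dt)

variable {k m : ℕ}

/-- The vector `(0, u)` of `ℝ^(k+m)`. -/
def inY (u : Fin m → ℝ) : Fin k ⊕ Fin m → ℝ := Sum.elim (fun _ => 0) u

/-- The vector `(e_j, -w)` of `ℝ^(k+m)`. -/
def inX (j : Fin k) (w : Fin m → ℝ) : Fin k ⊕ Fin m → ℝ := Sum.elim (Pi.single j 1) (fun i => - w i)

/-- `u ↦ (0, u)`. -/
def k8n3_inY : (Fin m → ℝ) →ₗ[ℝ] (Fin k ⊕ Fin m → ℝ) where
  toFun := inY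
  map_add' u v := by
    funext x
    rcases x with x | x <;> simp [inY]
  map_smul' s u := by
    funext x
    rcases x with x | x <;> simp [inY]

/-- the projection to the first `k` coordinates -/
def k8n3_pr : (Fin k ⊕ Fin m → ℝ) →ₗ[ℝ] (Fin k → ℝ) where
  toFun w j := w (Sum.inl j)
  map_add' _ _ := rfl
  map_smul' _ _ := rfl

theorem k8n3_eq_inY {w : Fin k ⊕ Fin m → ℝ} (h : ∀ j, w (Sum.inl j) = 0) :
    w = inY fun i => w (Sum.inr i) := by
  funext x
  rcases x with x | x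
  · simp [inY, h x]
  · simp [inY]

theorem k8n3_eq_inX {w : Fin k ⊕ Fin m → ℝ} {j : Fin k}
    (h : ∀ l, w (Sum.inl l) = (Pi.single j 1 : Fin k → ℝ) l) :
    w = inX j fun i => - w (Sum.inr i) := by
  funext x
  rcases x with x | x
  · simp [inX, h x]
  · simp [inX]

/-- Row Z8-N3. As `Z6.dichotomy` with `k` in place of `2`. `N0` = the kernel of the projection of `N` to `ℝ^k`. If `2 ≤ finrank N0`: two orthonormal vectors. Otherwise the projection is onto `ℝ^k` and `finrank N0 = 1`: `u` a unit vector of `N0`, `M j` a preimage of `-e_j`.. made orthogonal to `u`. -/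
theorem dichotomy (N : Submodule ℝ (Fin k ⊕ Fin m → ℝ)) (hN : k + 1 ≤ Module.finrank ℝ N) :
    (∃ u v : Fin m → ℝ, dt u u = 1 ∧ dt v v = 1 ∧ dt u v = 0 ∧ inY (k := k) u ∈ N ∧ inY (k := k) v ∈ N) ∨
    ∃ (u : Fin m → ℝ) (M : Fin k → Fin m → ℝ), dt u u = 1 ∧ (∀ j, dt (M j) u = 0) ∧ inY u ∈ N ∧
      ∀ j, inX j (M j) ∈ N := by
  have hmem : ∀ u : Fin m → ℝ, u ∈ N.comap (k8n3_inY (k := k)) ↔ inY (k := k) u ∈ N :=
    fun u => Iff.rfl
  have hk : Module.finrank ℝ (LinearMap.ker (k8n3_pr.domRestrict N)) ≤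
      Module.finrank ℝ (N.comap (k8n3_inY (k := k))) := by
    let φ : LinearMap.ker (k8n3_pr.domRestrict N) →ₗ[ℝ] (N.comap (k8n3_inY (k := k))) :=
      { toFun := fun w => ⟨fun i => w.1.1 (Sum.inr i), by
          have h1 : ∀ j, w.1.1 (Sum.inl j) = 0 := fun j => congrFun (LinearMap.mem_ker.1 w.2) j
          rw [hmem, ← k8n3_eq_inY h1]
          exact w.1.2⟩
        map_add' := fun _ _ => rfl
        map_smul' := fun _ _ => rfl }
    refine LinearMap.finrank_le_finrank_of_injective (f := φ) ?_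
    intro w w' h
    have h1 : ∀ j, w.1.1 (Sum.inl j) = 0 := fun j => congrFun (LinearMap.mem_ker.1 w.2) j
    have h2 : ∀ j, w'.1.1 (Sum.inl j) = 0 := fun j => congrFun (LinearMap.mem_ker.1 w'.2) j
    have h3 : ∀ i, w.1.1 (Sum.inr i) = w'.1.1 (Sum.inr i) := fun i =>
      congrFun (congrArg Subtype.val h) i
    apply Subtype.ext
    apply Subtype.ext
    funext x
    rcases x with x | x
    · rw [h1, h2]
    · exact h3 x
  have hr : Module.finrank ℝ (LinearMap.range (k8n3_pr.domRestrict N)) ≤ k := by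
    have := Submodule.finrank_le (LinearMap.range (k8n3_pr.domRestrict N))
    simpa using this
  have hs := LinearMap.finrank_range_add_finrank_ker (k8n3_pr.domRestrict N)
  by_cases h2 : 2 ≤ Module.finrank ℝ (N.comap (k8n3_inY (k := k)))
  · left
    obtain ⟨f, hf⟩ := exists_linearIndependent_of_le_finrank h2
    have hf' : LinearIndependent ℝ (fun i => (f i : Fin m → ℝ)) :=
      hf.map' (Submodule.subtype _) (Submodule.ker_subtype _)
    have ha : (f 0 : Fin m → ℝ) ≠ 0 := hf'.ne_zero 0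
    obtain ⟨s, hs0, hs1⟩ := Z6.n3_norm ha
    set u : Fin m → ℝ := s • (f 0 : Fin m → ℝ) with hu
    set b : Fin m → ℝ := (f 1 : Fin m → ℝ) - (dt (f 1 : Fin m → ℝ) u) • u with hb
    have hb0 : b ≠ 0 := by
      intro h0
      have hfe : (fun i => (f i : Fin m → ℝ)) = ![(f 0 : Fin m → ℝ), (f 1 : Fin m → ℝ)] := by
        funext i
        fin_cases i <;> rfl
      rw [hfe] at hf'
      have h3 := LinearIndependent.pair_iff.1 hf' (-(dt (f 1 : Fin m → ℝ) u * s)) 1 (by
          have : b = (-(dt (f 1 : Fin m → ℝ) u * s)) • (f 0 : Fin m → ℝ) + (1 : ℝ) • (f 1 : Fin m → ℝ) := by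
            rw [hb]
            nth_rewrite 2 [hu]
            rw [smul_smul, neg_smul, one_smul]
            abel
          rw [← this, h0])
      exact one_ne_zero h3.2
    obtain ⟨r, hr0, hr1⟩ := Z6.n3_norm hb0
    have hub : dt b u = 0 := by
      rw [hb, Z6.n3_dt_sub_left, Z6.n3_dt_smul_left, hs1, mul_one, sub_self]
    have hum : u ∈ N.comap (k8n3_inY (k := k)) := Submodule.smul_mem _ _ (f 0).2
    have hbm : b ∈ N.comap (k8n3_inY (k := k)) :=
      Submodule.sub_mem _ (f 1).2 (Submodule.smul_mem _ _ hum)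
    refine ⟨u, r • b, hs1, hr1, ?_, (hmem _).1 hum, (hmem _).1 (Submodule.smul_mem _ _ hbm)⟩
    rw [Z6.n3_dt_smul_right, Z6.n3_dt_comm, hub, mul_zero]
  · right
    have h1 : Module.finrank ℝ (N.comap (k8n3_inY (k := k))) = 1 := by omega
    have hsur : Module.finrank ℝ (LinearMap.range (k8n3_pr.domRestrict N)) = k := by omega
    have htop : LinearMap.range (k8n3_pr.domRestrict N) = ⊤ := by
      apply Submodule.eq_top_of_finrank_eq
      rw [hsur]
      simp
    obtain ⟨v, hv0, hv⟩ := finrank_eq_one_iff'.1 h1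
    have hv0' : (v : Fin m → ℝ) ≠ 0 := fun h => hv0 (Subtype.ext h)
    obtain ⟨s, hs0, hs1⟩ := Z6.n3_norm hv0'
    set u : Fin m → ℝ := s • (v : Fin m → ℝ) with hu
    have hum : u ∈ N.comap (k8n3_inY (k := k)) := Submodule.smul_mem _ _ v.2
    have hj : ∀ j : Fin k, ∃ w : Fin m → ℝ, inX j w ∈ N := by
      intro j
      have : (Pi.single j 1 : Fin k → ℝ) ∈ LinearMap.range (k8n3_pr.domRestrict N) := by
        rw [htop]; trivial
      obtain ⟨w, hw⟩ := this
      refine ⟨fun i => - w.1 (Sum.inr i), ?_⟩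
      rw [← k8n3_eq_inX (fun l => congrFun hw l)]
      exact w.2
    choose mm hm using hj
    have hM : ∀ j, inX j (mm j - (dt (mm j) u) • u) = inX j (mm j) + (dt (mm j) u) • inY u := by
      intro j
      funext x
      rcases x with x | x
      · simp [inX, inY]
      · simp only [inX, inY, Sum.elim_inr, Pi.sub_apply, Pi.smul_apply, Pi.add_apply, smul_eq_mul]
        ring
    have hMm : ∀ j, inX j (mm j - (dt (mm j) u) • u) ∈ N := by
      intro j
      rw [hM]
      exact N.add_mem (hm j) (N.smul_mem _ ((hmem _).1 hum))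
    refine ⟨u, fun j => mm j - (dt (mm j) u) • u, hs1, fun j => ?_, (hmem _).1 hum, hMm⟩
    rw [Z6.n3_dt_sub_left, Z6.n3_dt_smul_left, hs1, mul_one, sub_self]

end Pool.Agent.Z8
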