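import Pool.Agent.Z8.Defs
import Pool.Agent.Z8.N3
import Pool.Agent.Z7.K0

namespace Pool.Agent.Z8

open Pool.Agent.ZL2 Filter Topology
open Pool.Agent.Z5 (fr Gen ev2 sum_le_hh bp_ineq fr_mono fr_true k0_ev k0_roots n2_hh_inv n2_hh_mul)
open Pool.Agent.Z6 (dt)
open Pool.Agent.Z7 (lg Cv HHp Chart Rat)

/-- A generic sequence of points `(x, y)` of the hypersurface bundle over number fields `K n`, extensions of `F`, inside `ℂ`. -/
structure Ar (F : Type) [Field F] [NumberField F] [Algebra F ℂ] {k m : ℕ} [NeZero m] (S : Sk k m) where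
  hk : 2 ≤ k
  hm : 2 ≤ m
  rat : Rat S.toCv
  hH : HHp S.toCv
  inf : S.C.Infinite
  Φ : MvPolynomial (Fin k) (MvPolynomial (Fin m) F)
  hΦ : MvPolynomial.map (MvPolynomial.map (algebraMap F ℂ)) Φ = S.Φ
  K : ℕ → Type
  [fld : ∀ n, Field (K n)]
  [nf : ∀ n, NumberField (K n)]
  [alg : ∀ n, Algebra F (K n)]
  [fd : ∀ n, FiniteDimensional F (K n)]
  j : ∀ n, K n →ₐ[F] ℂ
  x : ∀ n, Fin k → K n
  y : ∀ n, Fin m → K n
  hx : ∀ n i, x n i ≠ 0
  hy : ∀ n (σ : K n →ₐ[F] ℂ), (fun i => σ (y n i)) ∈ S.C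
  hyE : ∀ n (σ : K n →ₐ[F] ℂ), (fun i => σ (y n i)) ∉ S.E
  hP : ∀ n (σ : K n →ₐ[F] ℂ), evk S.Φ (fun i => σ (x n i)) (fun i => σ (y n i)) = 0
  hsub : ∀ n (e : Fin k → ℤ) (c : ℤ), e ≠ 0 → (lev S.Φ e c).Nonempty →
    ∑ α ∈ lev S.Φ e c, MvPolynomial.aeval (y n) (Φ.coeff α) * ∏ i, x n i ^ α i ≠ 0
  hgen : ∀ (L : ℕ) (f : (Fin k → Fin (L + 1)) → ℤ), f ≠ 0 →
    ∀ᶠ n in cofinite, ev f (Function.update (x n) S.j0 (y n 0)) ≠ 0

attribute [instance] Ar.fld Ar.nf Ar.alg Ar.fd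

variable {F : Type} [Field F] [NumberField F] [Algebra F ℂ] {k m : ℕ} [NeZero m] {S : Sk k m}

theorem Ar.y_ne (A : Ar F S) (n : ℕ) (i : Fin m) : A.y n i ≠ 0 := by
  intro h
  apply S.ne _ (A.hy n (A.j n)) i
  show A.j n (A.y n i) = 0
  rw [h, map_zero]

/-- The value of the coefficient `α` of `Φ` at the point `y n`. -/
noncomputable def Ar.co (A : Ar F S) (n : ℕ) (α : Fin k →₀ ℕ) : A.K n := MvPolynomial.aeval (A.y n) (A.Φ.coeff α)

theorem Ar.map_co (A : Ar F S) (n : ℕ) (σ : A.K n →ₐ[F] ℂ) (α : Fin k →₀ ℕ) :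
    σ (A.co n α) = MvPolynomial.eval (fun i => σ (A.y n i)) (S.Φ.coeff α) := by
  have h1 : S.Φ.coeff α = MvPolynomial.map (algebraMap F ℂ) (A.Φ.coeff α) := by
    rw [← A.hΦ, MvPolynomial.coeff_map]
  have h2 : σ (A.co n α) = MvPolynomial.aeval (fun i => σ (A.y n i)) (A.Φ.coeff α) := by
    unfold Ar.co
    rw [MvPolynomial.comp_aeval_apply]
  rw [h2, h1, MvPolynomial.eval_map, MvPolynomial.aeval_def]

theorem Ar.co_ne (A : Ar F S) (n : ℕ) {α : Fin k →₀ ℕ} (hα : α ∈ S.Φ.support) : A.co n α ≠ 0 := by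
  intro h
  apply S.coef _ (A.hy n (A.j n)) (A.hyE n (A.j n)) α hα
  rw [← A.map_co n (A.j n) α, h, map_zero]

/-- A polynomial in one variable as a polynomial in the variable with the number `j0`. -/
theorem k8k0_one {k L : ℕ} (j0 : Fin k) (f : (Fin 1 → Fin (L + 1)) → ℤ) :
    ∃ f' : (Fin k → Fin (L + 1)) → ℤ, (f ≠ 0 → f' ≠ 0) ∧ ∀ {R : Type} [CommRing R] (x : Fin k → R) (t : R),
      ev f' (Function.update x j0 t) = ev f (fun _ => t) := by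
  classical
  obtain ⟨φ, hφ⟩ : ∃ φ : (Fin 1 → Fin (L + 1)) → (Fin k → Fin (L + 1)), φ = fun β i => if i = j0 then β 0 else 0 :=
    ⟨_, rfl⟩
  have hinj : Function.Injective φ := by
    intro a b hab
    rw [hφ] at hab
    have h1 := congrFun hab j0
    simp only [if_true] at h1
    funext i
    rw [Subsingleton.elim i 0]
    exact h1
  refine ⟨Function.extend φ f 0, fun hf0 h => hf0 ?_, fun {R} _ x t => ?_⟩
  · funext β
    have h1 := congrFun h (φ β)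
    rwa [hinj.extend_apply] at h1
  · unfold ev
    symm
    refine Fintype.sum_of_injective φ hinj _ _ (fun α hα => ?_) (fun β => ?_)
    · have h1 : Function.extend φ f 0 α = 0 := by
        rw [Function.extend_apply' _ _ _ (fun ⟨β, h⟩ => hα ⟨β, h⟩)]
        rfl
      rw [h1, Int.cast_zero, zero_mul]
    · rw [hinj.extend_apply]
      congr 1
      rw [Finset.prod_eq_single j0]
      · rw [Function.update_self, Fin.prod_univ_one, hφ]
        simp only [if_true]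
      · intro i _ hi
        rw [hφ]
        simp only [hi, if_false, Fin.val_zero, pow_zero]
      · intro h
        exact absurd (Finset.mem_univ _) h

/-- Row Z8-K0a. As `Z7.Ar.gen1`; the nonvanishing of `f (y n 0)` for eventually all `n` is from `hgen` (the polynomial `f` in the variable with the number `j0`, constant in the others: `f'` with `f' α = f (α j0)` if `α i = 0` for all `i ≠ j0` and `0` otherwise). -/
theorem Ar.gen1 (A : Ar F S) {U : Filter ℕ} (hU : U ≤ cofinite) {B0 : ℝ}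
    (hB : ∀ᶠ n in U, hh (A.y n 0) ≤ B0 * Module.finrank ℚ (A.K n)) :
    Gen (k := 1) U ((Module.finrank ℚ F : ℝ) * (((1 : ℕ) : ℝ) * B0 + (((1 : ℕ) : ℝ) + 1) * Real.log 2))
      (fun n (σ : A.K n →ₐ[F] ℂ) _ => σ (A.y n 0)) := by
  intro L f hL hf0 hf C0 hC
  obtain ⟨f', hf', hev⟩ := k8k0_one S.j0 f
  filter_upwards [hU (A.hgen L f' (hf' hf0)), hB] with n hn hBn
  have ht0 : A.y n 0 ≠ 0 := A.y_ne n 0
  have hev0 : ev f (fun _ : Fin 1 => A.y n 0) ≠ 0 := by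
    rw [← hev (A.x n) (A.y n 0)]
    exact hn
  exact bp_ineq hL f hf (fun _ : Fin 1 => A.y n 0) (fun _ => ht0) (fun _ => hBn) hev0 hC

/-- Row Z8-K0b. As `Z7.Ar.exists_bound`. -/
theorem Ar.exists_bound (A : Ar F S) : ∃ B0 : ℝ, 0 ≤ B0 ∧ ∀ n (u : Fin m → ℝ), dt u u = 1 →
    (∀ p : Pl (A.K n), ∑ i, u i * lv p (A.y n i) = 0) →
      (∀ i, hh (A.y n i) ≤ B0 * Module.finrank ℚ (A.K n)) ∧
      ∀ α ∈ S.Φ.support, hh (A.co n α) ≤ B0 * Module.finrank ℚ (A.K n) := by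
  obtain ⟨B1, hB1, hb1⟩ := Z7.hb S.toCv A.rat A.inf
  choose Cf hCf hCf1 using fun α : Fin k →₀ ℕ => Z7.hh_mv (A.Φ.coeff α)
  have hS0 : 0 ≤ ∑ α ∈ S.Φ.support, Cf α := Finset.sum_nonneg fun α _ => hCf α
  have hm0 : (0 : ℝ) ≤ (m : ℝ) * B1 + 1 := by positivity
  refine ⟨B1 + (∑ α ∈ S.Φ.support, Cf α) * ((m : ℝ) * B1 + 1), by positivity, fun n u hu hr => ?_⟩
  have h1 := hb1 (A.K n) (A.j n : A.K n →+* ℂ) (A.y n) (A.hy n (A.j n)) u hu hr
  have hD : (0 : ℝ) ≤ (Module.finrank ℚ (A.K n) : ℝ) := Nat.cast_nonneg _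
  have hP : 0 ≤ (∑ α ∈ S.Φ.support, Cf α) * ((m : ℝ) * B1 + 1) := mul_nonneg hS0 hm0
  refine ⟨fun i => (h1 i).trans (mul_le_mul_of_nonneg_right (by linarith) hD), fun α hα => ?_⟩
  have h2 := hCf1 α (A.K n) (A.y n)
  have h3 : ∑ i, hh (A.y n i) ≤ (m : ℝ) * B1 * Module.finrank ℚ (A.K n) := by
    refine (Finset.sum_le_sum fun i _ => h1 i).trans (le_of_eq ?_)
    rw [Finset.sum_const, Finset.card_univ, Fintype.card_fin, nsmul_eq_mul]
    ring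
  have h4 : Cf α ≤ ∑ α ∈ S.Φ.support, Cf α := Finset.single_le_sum (fun α _ => hCf α) hα
  have h5 : hh (A.co n α) ≤ Cf α * (((m : ℝ) * B1 + 1) * Module.finrank ℚ (A.K n)) := by
    refine h2.trans (mul_le_mul_of_nonneg_left ?_ (hCf α))
    linarith
  refine h5.trans ?_
  have h6 : Cf α * (((m : ℝ) * B1 + 1) * Module.finrank ℚ (A.K n)) ≤
      (∑ α ∈ S.Φ.support, Cf α) * (((m : ℝ) * B1 + 1) * Module.finrank ℚ (A.K n)) :=
    mul_le_mul_of_nonneg_right h4 (mul_nonneg hm0 hD)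
  have h7 : 0 ≤ B1 * (Module.finrank ℚ (A.K n) : ℝ) := mul_nonneg hB1 hD
  have h8 : (B1 + (∑ α ∈ S.Φ.support, Cf α) * ((m : ℝ) * B1 + 1)) * (Module.finrank ℚ (A.K n) : ℝ) =
      B1 * (Module.finrank ℚ (A.K n) : ℝ) +
        (∑ α ∈ S.Φ.support, Cf α) * (((m : ℝ) * B1 + 1) * Module.finrank ℚ (A.K n)) := by ring
  rw [h8]
  linarith

/-- The constant of `exists_bound`. -/
noncomputable def Ar.B0 (A : Ar F S) : ℝ := Classical.choose A.exists_bound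

theorem Ar.hB0 (A : Ar F S) : 0 ≤ A.B0 ∧ ∀ n (u : Fin m → ℝ), dt u u = 1 →
    (∀ p : Pl (A.K n), ∑ i, u i * lv p (A.y n i) = 0) →
      (∀ i, hh (A.y n i) ≤ A.B0 * Module.finrank ℚ (A.K n)) ∧
      ∀ α ∈ S.Φ.support, hh (A.co n α) ≤ A.B0 * Module.finrank ℚ (A.K n) :=
  Classical.choose_spec A.exists_bound

theorem k8k0_lg_eq (A : Ar F S) (n : ℕ) (σ : A.K n →ₐ[F] ℂ) (i : Fin m) :
    lg (fun i => σ (A.y n i)) i = lv (Sum.inl (σ : A.K n →+* ℂ) : Pl (A.K n)) (A.y n i) := rfl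

/-- Row Z8-K0c. As `Z7.Ar.no_two`. -/
theorem Ar.no_two (A : Ar F S) (u v : ℕ → Fin m → ℝ) (hu : ∀ n, dt (u n) (u n) = 1)
    (hv : ∀ n, dt (v n) (v n) = 1) (huv : ∀ n, dt (u n) (v n) = 0)
    (h1 : ∀ n (p : Pl (A.K n)), ∑ i, u n i * lv p (A.y n i) = 0)
    (h2 : ∀ n (p : Pl (A.K n)), ∑ i, v n i * lv p (A.y n i) = 0) : False := by
  have hne : ∀ n, Nonempty (A.K n →ₐ[F] ℂ) := fun n => ⟨A.j n⟩
  have hU : ((Filter.hyperfilter ℕ : Ultrafilter ℕ) : Filter ℕ) ≤ cofinite := Filter.hyperfilter_le_cofinite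
  have hg := A.gen1 hU (Eventually.of_forall fun n => (A.hB0.2 n (u n) (hu n) (h1 n)).1 0)
  refine Z7.lemI S.toCv A.hH (Filter.hyperfilter ℕ) (ι := fun n => A.K n →ₐ[F] ℂ)
    (B := 2 * A.B0 * (Module.finrank ℚ F : ℝ)) (J := Unit) (fun n σ i => σ (A.y n i)) hg
    (fun n σ => A.hy n σ) ?_ u (fun n _ => v n) hu
    (fun n _ => hv n) (fun n _ => huv n) (fun _ => 0) tendsto_const_nhds ?_
  · intro n i
    exact sum_le_hh (F := F) (A.y_ne n i) ((A.hB0.2 n (u n) (hu n) (h1 n)).1 i)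
  · refine Eventually.of_forall fun n => ?_
    have h3 : (1 : ℝ) ≤ fr (fun σ : A.K n →ₐ[F] ℂ => ∃ j : Unit,
        |dt (u n) (lg (fun i => σ (A.y n i)))| ≤ 0 ∧
        |dt (v n) (lg (fun i => σ (A.y n i)))| ≤ 0) := by
      rw [← fr_true (ι := A.K n →ₐ[F] ℂ)]
      refine fr_mono fun σ _ => ⟨(), ?_, ?_⟩
      · simp only [Z6.dt, k8k0_lg_eq A]
        rw [h1 n, abs_zero]
      · simp only [Z6.dt, k8k0_lg_eq A]
        rw [h2 n, abs_zero]
    exact le_trans (by norm_num) h3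

/-- A sequence of points with the real relations `u, M`. -/
structure ArM (F : Type) [Field F] [NumberField F] [Algebra F ℂ] {k m : ℕ} [NeZero m] (S : Sk k m) extends Ar F S where
  u : ℕ → Fin m → ℝ
  M : ℕ → Fin k → Fin m → ℝ
  hu : ∀ n, dt (u n) (u n) = 1
  hM : ∀ n j, dt (M n j) (u n) = 0
  r0 : ∀ n (p : Pl (K n)), ∑ i, u n i * lv p (y n i) = 0
  r1 : ∀ n (p : Pl (K n)) (j : Fin k), lv p (x n j) = ∑ i, M n j i * lv p (y n i)

theorem k8k0_lv {K : Type} [Field K] [NumberField K] {x : Fin k → K} (hx : ∀ i, x i ≠ 0) (β : Fin k →₀ ℕ) (p : Pl K) :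
    lv p (∏ i, x i ^ β i) = ∑ j, (β j : ℝ) * lv p (x j) := by
  classical
  have h : ∀ s : Finset (Fin k), lv p (∏ i ∈ s, x i ^ β i) = ∑ j ∈ s, (β j : ℝ) * lv p (x j) := by
    intro s
    induction s using Finset.induction_on with
    | empty =>
      have h2 := lv_pow p (1 : K) 0
      rw [pow_zero, Nat.cast_zero, zero_mul] at h2
      rw [Finset.prod_empty, Finset.sum_empty, h2]
    | insert a s ha ih =>
      rw [Finset.prod_insert ha, Finset.sum_insert ha, lv_mul p (pow_ne_zero _ (hx a))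
        (Finset.prod_ne_zero_iff.2 fun i _ => pow_ne_zero _ (hx i)), lv_pow, ih]
  exact h Finset.univ

/-- Row Z8-K0d. Let `T = ∑_{β ∈ lev} co β * x^β` (not zero, `hsub`; if `lev` is empty the statement is about no `α`) and `q = T / x^α = ∑_β co β * x^(β-α)`. By `r1`, `lv p (x^(β-α)) = ∑_i (rwk (M n) β α) i * lv p (y i)`, so `hh (x^(β-α)) ≤ (m * A * B0) finrank` (`Z6.n2_row` with `e = 1`), `hh (co β) ≤ B0 finrank`, so `hh q ≤ C * finrank` (height of a sum of products: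
`hh_mul`, `hh_add` type lemmas, see `Z7.x1_sum` in Z7/R0.lean, ZL2 and Z5), and `sum_le_hh` for `q`. Finally `log ‖σ q‖ = log ‖σ T‖ - ∑_j α_j log ‖σ x_j‖`, `σ (co β) = eval (σ y) (S.Φ.coeff β)` (`map_co`). -/
theorem ArM.big (A : ArM F S) (e : Fin k → ℤ) (c : ℤ) (A0 : ℝ) (he : e ≠ 0) : ∃ C0 : ℝ, ∀ n,
    (∀ α ∈ lev S.Φ e c, ∀ β ∈ lev S.Φ e c, ∑ i, |rwk (A.M n) α β i| ≤ A0) → ∀ α ∈ lev S.Φ e c,
      ∑ σ : A.K n →ₐ[F] ℂ, |Real.log ‖∑ β ∈ lev S.Φ e c, MvPolynomial.eval (fun i => σ (A.y n i)) (S.Φ.coeff β) *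
          ∏ j, σ (A.x n j) ^ β j‖ -
        ∑ j, (α j : ℝ) * lg (fun j => σ (A.x n j)) j| ≤ C0 * Fintype.card (A.K n →ₐ[F] ℂ) := by
  classical
  obtain ⟨Lv, hLv⟩ : ∃ Lv, Lv = lev S.Φ e c := ⟨_, rfl⟩
  obtain ⟨Cq, hCq⟩ : ∃ Cq : ℝ, Cq = (Lv.card : ℝ) * (A.B0 + (m * |A0| * |A.B0| + 0) + Real.log 2) := ⟨_, rfl⟩
  refine ⟨2 * Cq * (Module.finrank ℚ F : ℝ), fun n hA α hα => ?_⟩
  have hne := A.hsub n e c he ⟨α, hα⟩
  rw [← hLv] at hne hA hα ⊢
  have hsup : ∀ β ∈ Lv, β ∈ S.Φ.support := by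
    intro β hβ
    rw [hLv] at hβ
    exact (Finset.mem_filter.1 hβ).1
  have hbd := A.hB0.2 n (A.u n) (A.hu n) (A.r0 n)
  obtain ⟨mo, hmo⟩ : ∃ mo : (Fin k →₀ ℕ) → A.K n, mo = fun β => ∏ i, A.x n i ^ β i := ⟨_, rfl⟩
  have hmo0 : ∀ β, mo β ≠ 0 := by
    intro β
    rw [hmo]
    exact Finset.prod_ne_zero_iff.2 fun i _ => pow_ne_zero _ (A.hx n i)
  have hT : ∑ β ∈ Lv, A.co n β * mo β ≠ 0 := by rw [hmo]; exact hne
  have hlvmo : ∀ (β : Fin k →₀ ℕ) (p : Pl (A.K n)), lv p (mo β) = ∑ j, (β j : ℝ) * lv p (A.x n j) := by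
    intro β p
    rw [hmo]
    exact k8k0_lv (A.hx n) β p
  have hmono : ∀ β ∈ Lv, hh (mo β * (mo α)⁻¹) ≤ (m * |A0| * |A.B0| + 0) * Module.finrank ℚ (A.K n) := by
    intro β hβ
    refine Z6.n2_row (e := 1) (mul_ne_zero (hmo0 β) (inv_ne_zero (hmo0 α))) one_ne_zero (A.y_ne n)
      (r := rwk (A.M n) β α) (hA β hβ α hα) hbd.1 (by rw [Z5.n2_hh_one, zero_mul]) fun p => ?_
    rw [lv_mul p (hmo0 β) (inv_ne_zero (hmo0 α)), lv_inv, hlvmo, hlvmo]
    have h1 : lv p (1 : A.K n) = 0 := by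
      have h2 := lv_pow p (1 : A.K n) 0
      rw [pow_zero, Nat.cast_zero, zero_mul] at h2
      exact h2
    rw [h1, add_zero]
    have h3 : ∀ γ : Fin k →₀ ℕ, ∑ j, (γ j : ℝ) * lv p (A.x n j) = ∑ i, (∑ j, (γ j : ℝ) * A.M n j i) * lv p (A.y n i) := by
      intro γ
      simp only [A.r1 n p, Finset.mul_sum, Finset.sum_mul]
      rw [Finset.sum_comm]
      refine Finset.sum_congr rfl fun i _ => Finset.sum_congr rfl fun j _ => ?_
      ring
    rw [h3, h3, ← Finset.sum_neg_distrib, ← Finset.sum_add_distrib]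
    refine Finset.sum_congr rfl fun i _ => ?_
    have h4 : rwk (A.M n) β α i = ∑ j, (β j : ℝ) * A.M n j i - ∑ j, (α j : ℝ) * A.M n j i := by
      unfold rwk
      rw [← Finset.sum_sub_distrib]
      exact Finset.sum_congr rfl fun j _ => by ring
    rw [h4]
    ring
  obtain ⟨q, hq⟩ : ∃ q : A.K n, q = (∑ β ∈ Lv, A.co n β * mo β) * (mo α)⁻¹ := ⟨_, rfl⟩
  have hq0 : q ≠ 0 := by
    rw [hq]
    exact mul_ne_zero hT (inv_ne_zero (hmo0 α))
  have hhq : hh q ≤ Cq * Module.finrank ℚ (A.K n) := by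
    have h1 : q = ∑ β ∈ Lv, A.co n β * (mo β * (mo α)⁻¹) := by
      rw [hq, Finset.sum_mul]
      exact Finset.sum_congr rfl fun β _ => by ring
    rw [h1]
    refine (Z7.x1_sum Lv _).trans ?_
    have h2 : ∑ β ∈ Lv, hh (A.co n β * (mo β * (mo α)⁻¹)) ≤
        ∑ _β ∈ Lv, (A.B0 + (m * |A0| * |A.B0| + 0)) * (Module.finrank ℚ (A.K n) : ℝ) := by
      refine Finset.sum_le_sum fun β hβ => ?_
      have h3 := hbd.2 β (hsup β hβ)
      have h4 := hmono β hβ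
      refine (n2_hh_mul _ _).trans ?_
      rw [add_mul]
      linarith
    rw [Finset.sum_const, nsmul_eq_mul] at h2
    rw [hCq]
    refine (add_le_add h2 le_rfl).trans (le_of_eq ?_)
    ring
  refine le_trans (le_of_eq ?_) (sum_le_hh (F := F) hq0 hhq)
  refine Finset.sum_congr rfl fun σ _ => ?_
  have e1 : ∑ β ∈ Lv, MvPolynomial.eval (fun i => σ (A.y n i)) (S.Φ.coeff β) * ∏ j, σ (A.x n j) ^ β j =
      σ (∑ β ∈ Lv, A.co n β * mo β) := by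
    rw [map_sum, hmo]
    refine Finset.sum_congr rfl fun β _ => ?_
    rw [map_mul, map_prod, A.map_co n σ β]
    simp only [map_pow]
  have e2 : ∑ j, (α j : ℝ) * lg (fun j => σ (A.x n j)) j = Real.log ‖σ (mo α)‖ :=
    (hlvmo α (Sum.inl (σ : A.K n →+* ℂ))).symm
  rw [e1, e2, hq, map_mul, norm_mul, Real.log_mul (norm_ne_zero_iff.2 ((map_ne_zero σ).2 hT))
    (norm_ne_zero_iff.2 ((map_ne_zero σ).2 (inv_ne_zero (hmo0 α)))), map_inv₀, norm_inv, Real.log_inv, sub_eq_add_neg]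

/-- The sequence of Galois orbits. -/
noncomputable def ArM.sq (A : ArM F S) (U : Ultrafilter ℕ) (hU : (U : Filter ℕ) ≤ cofinite) : Sq S U where
  ι n := A.K n →ₐ[F] ℂ
  fin n := inferInstance
  ne n := ⟨A.j n⟩
  x n σ j := σ (A.x n j)
  y n σ i := σ (A.y n i)
  u := A.u
  M := A.M
  B := 2 * A.B0 * (Module.finrank ℚ F : ℝ)
  κ := (Module.finrank ℚ F : ℝ) * (((1 : ℕ) : ℝ) * A.B0 + (((1 : ℕ) : ℝ) + 1) * Real.log 2)
  hx n σ j := (map_ne_zero _).2 (A.hx n j)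
  hy n σ := A.hy n σ
  hyE n σ := A.hyE n σ
  hΦ n σ := A.hP n σ
  hu := A.hu
  hM := A.hM
  r0 n σ := A.r0 n (Sum.inl (σ : A.K n →+* ℂ))
  r1 n σ j := A.r1 n (Sum.inl (σ : A.K n →+* ℂ)) j
  hB n i := sum_le_hh (F := F) (A.y_ne n i) ((A.hB0.2 n (A.u n) (A.hu n) (A.r0 n)).1 i)
  gen := A.gen1 hU (Eventually.of_forall fun n => (A.hB0.2 n (A.u n) (A.hu n) (A.r0 n)).1 0)
  lev0 n σ e c he hne h0 := by
    refine A.hsub n e c he hne (σ.toRingHom.injective ?_)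
    rw [map_zero, map_sum, ← h0]
    refine Finset.sum_congr rfl fun α _ => ?_
    rw [map_mul, map_prod, ← A.map_co n σ α]
    simp only [map_pow]
    rfl
  big e c A0 he := A.big e c A0 he

end Pool.Agent.Z8
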