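import Pool.Agent.Z8.Defs
import Pool.Agent.Z7.L1

namespace Pool.Agent.Z8

open Filter Topology

theorem k8l1a_alg {D : Type} [CommRing D] [IsDomain D] (P Q : Polynomial D) (h0 : P ≠ 0 ∨ Q ≠ 0) :
    (∃ c : D, c ≠ 0 ∧ ∃ U W : Polynomial D, U * P + W * Q = Polynomial.C c) ∨
    (∃ c : D, c ≠ 0 ∧ ∃ H P1 Q1 : Polynomial D, 1 ≤ H.natDegree ∧
      Polynomial.C c * P = H * P1 ∧ Polynomial.C c * Q = H * Q1) := by
  classical
  set φ := algebraMap D (FractionRing D) with hφ
  have hinj : Function.Injective φ := IsFractionRing.injective D (FractionRing D)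
  have hmap := Polynomial.map_injective φ hinj
  by_cases hc : IsCoprime (P.map φ) (Q.map φ)
  · left
    obtain ⟨u, w, h⟩ := hc
    obtain ⟨bu, U, hbu, hU⟩ := Pool.Agent.Z7.l1_norm u
    obtain ⟨bw, W, hbw, hW⟩ := Pool.Agent.Z7.l1_norm w
    refine ⟨bu * bw, mul_ne_zero hbu hbw, Polynomial.C bw * U, Polynomial.C bu * W, ?_⟩
    apply hmap
    simp only [Polynomial.map_add, Polynomial.map_mul, Polynomial.map_C]
    rw [← hφ] at hU hW
    rw [hU, hW, map_mul, Polynomial.C_mul]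
    linear_combination (Polynomial.C (φ bu) * Polynomial.C (φ bw)) * h
  · right
    set g := EuclideanDomain.gcd (P.map φ) (Q.map φ) with hg
    have hgu : ¬ IsUnit g := fun h => hc (EuclideanDomain.gcd_isUnit_iff.1 h)
    obtain ⟨p1, hp1⟩ := EuclideanDomain.gcd_dvd_left (P.map φ) (Q.map φ)
    obtain ⟨q1, hq1⟩ := EuclideanDomain.gcd_dvd_right (P.map φ) (Q.map φ)
    rw [← hg] at hp1 hq1
    have hg0 : g ≠ 0 := by
      intro h
      rw [h, zero_mul] at hp1 hq1
      rcases h0 with h0 | h0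
      · exact h0 (hmap (by rw [hp1, Polynomial.map_zero]))
      · exact h0 (hmap (by rw [hq1, Polynomial.map_zero]))
    obtain ⟨bg, G, hbg, hG⟩ := Pool.Agent.Z7.l1_norm g
    obtain ⟨bp, P1, hbp, hP1⟩ := Pool.Agent.Z7.l1_norm p1
    obtain ⟨bq, Q1, hbq, hQ1⟩ := Pool.Agent.Z7.l1_norm q1
    rw [← hφ] at hG hP1 hQ1
    have hdeg : 1 ≤ G.natDegree := by
      have h1 : (G.map φ).natDegree = g.natDegree := by
        rw [hG]
        exact Polynomial.natDegree_C_mul (fun h => hbg (hinj (by rw [h, map_zero])))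
      rw [Polynomial.natDegree_map_eq_of_injective hinj] at h1
      rw [h1]
      exact Polynomial.natDegree_pos_iff_degree_pos.2 (Polynomial.degree_pos_of_ne_zero_of_nonunit hg0 hgu)
    have e1 : Polynomial.C (bg * bp * bq) * P = G * (Polynomial.C bq * P1) := by
      apply hmap
      simp only [Polynomial.map_mul, Polynomial.map_C]
      rw [hG, hP1, hp1]
      simp only [map_mul]
      ring
    have e2 : Polynomial.C (bg * bp * bq) * Q = G * (Polynomial.C bp * Q1) := by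
      apply hmap
      simp only [Polynomial.map_mul, Polynomial.map_C]
      rw [hG, hQ1, hq1]
      simp only [map_mul]
      ring
    have hc0 : bg * bp * bq ≠ 0 := mul_ne_zero (mul_ne_zero hbg hbp) hbq
    exact ⟨bg * bp * bq, hc0, G, _, _, hdeg, e1, e2⟩

section

variable {k : ℕ} (j0 : Fin k)

/-- `R[x] → R[x'][x_j0]` -/
noncomputable def k8l1a_F (R : Type) [CommRing R] :
    MvPolynomial (Fin k) R →+* Polynomial (MvPolynomial {j : Fin k // j ≠ j0} R) :=
  MvPolynomial.eval₂Hom (Polynomial.C.comp MvPolynomial.C)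
    (fun j => if h : j = j0 then Polynomial.X else Polynomial.C (MvPolynomial.X ⟨j, h⟩))

/-- `R[x'][x_j0] → R[x]` -/
noncomputable def k8l1a_G (R : Type) [CommRing R] :
    Polynomial (MvPolynomial {j : Fin k // j ≠ j0} R) →+* MvPolynomial (Fin k) R :=
  Polynomial.eval₂RingHom (MvPolynomial.rename Subtype.val : _ →ₐ[R] _).toRingHom (MvPolynomial.X j0)

theorem k8l1a_G_C (R : Type) [CommRing R] (c : MvPolynomial {j : Fin k // j ≠ j0} R) :
    k8l1a_G j0 R (Polynomial.C c) = MvPolynomial.rename Subtype.val c := by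
  unfold k8l1a_G
  rw [Polynomial.coe_eval₂RingHom, Polynomial.eval₂_C]
  rfl

theorem k8l1a_GF (R : Type) [CommRing R] (p : MvPolynomial (Fin k) R) :
    k8l1a_G j0 R (k8l1a_F j0 R p) = p := by
  have h : (k8l1a_G j0 R).comp (k8l1a_F j0 R) = RingHom.id _ := by
    apply MvPolynomial.ringHom_ext
    · intro r
      rw [RingHom.comp_apply]
      unfold k8l1a_F
      rw [MvPolynomial.coe_eval₂Hom, MvPolynomial.eval₂_C, RingHom.comp_apply, k8l1a_G_C, MvPolynomial.rename_C]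
      rfl
    · intro j
      rw [RingHom.comp_apply]
      unfold k8l1a_F
      rw [MvPolynomial.coe_eval₂Hom, MvPolynomial.eval₂_X]
      by_cases h : j = j0
      · rw [dif_pos h, h]
        unfold k8l1a_G
        rw [Polynomial.coe_eval₂RingHom, Polynomial.eval₂_X]
        rfl
      · rw [dif_neg h, k8l1a_G_C, MvPolynomial.rename_X]
        rfl
  exact congrArg (fun f : MvPolynomial (Fin k) R →+* MvPolynomial (Fin k) R => f p) h

theorem k8l1a_FG (R : Type) [CommRing R] (p : Polynomial (MvPolynomial {j : Fin k // j ≠ j0} R)) :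
    k8l1a_F j0 R (k8l1a_G j0 R p) = p := by
  have h : (k8l1a_F j0 R).comp (k8l1a_G j0 R) = RingHom.id _ := by
    apply Polynomial.ringHom_ext'
    · apply MvPolynomial.ringHom_ext
      · intro r
        rw [RingHom.comp_apply, RingHom.comp_apply, k8l1a_G_C, MvPolynomial.rename_C]
        unfold k8l1a_F
        rw [MvPolynomial.coe_eval₂Hom, MvPolynomial.eval₂_C]
        rfl
      · intro j
        rw [RingHom.comp_apply, RingHom.comp_apply, k8l1a_G_C, MvPolynomial.rename_X]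
        unfold k8l1a_F
        rw [MvPolynomial.coe_eval₂Hom, MvPolynomial.eval₂_X, dif_neg j.2]
        rfl
    · rw [RingHom.comp_apply]
      unfold k8l1a_G
      rw [Polynomial.coe_eval₂RingHom, Polynomial.eval₂_X]
      unfold k8l1a_F
      rw [MvPolynomial.coe_eval₂Hom, MvPolynomial.eval₂_X, dif_pos rfl]
      rfl
  exact congrArg (fun f : Polynomial (MvPolynomial {j : Fin k // j ≠ j0} R) →+* _ => f p) h

theorem k8l1a_map {R R' : Type} [CommRing R] [CommRing R'] (f : R →+* R')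
    (p : Polynomial (MvPolynomial {j : Fin k // j ≠ j0} R)) :
    k8l1a_G j0 R' (p.map (MvPolynomial.map f)) = MvPolynomial.map f (k8l1a_G j0 R p) := by
  have h : (k8l1a_G j0 R').comp (Polynomial.mapRingHom (MvPolynomial.map f)) =
      (MvPolynomial.map f).comp (k8l1a_G j0 R) := by
    apply Polynomial.ringHom_ext'
    · apply MvPolynomial.ringHom_ext
      · intro r
        rw [RingHom.comp_apply, RingHom.comp_apply, RingHom.comp_apply, RingHom.comp_apply, k8l1a_G_C,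
          Polynomial.coe_mapRingHom, Polynomial.map_C, k8l1a_G_C, MvPolynomial.map_C, MvPolynomial.rename_C,
          MvPolynomial.rename_C, MvPolynomial.map_C]
      · intro j
        rw [RingHom.comp_apply, RingHom.comp_apply, RingHom.comp_apply, RingHom.comp_apply, k8l1a_G_C,
          Polynomial.coe_mapRingHom, Polynomial.map_C, k8l1a_G_C, MvPolynomial.map_X, MvPolynomial.rename_X,
          MvPolynomial.rename_X, MvPolynomial.map_X]
    · rw [RingHom.comp_apply, RingHom.comp_apply, Polynomial.coe_mapRingHom, Polynomial.map_X]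
      unfold k8l1a_G
      rw [Polynomial.coe_eval₂RingHom, Polynomial.eval₂_X, Polynomial.coe_eval₂RingHom, Polynomial.eval₂_X,
        MvPolynomial.map_X]
  exact congrArg (fun f : Polynomial (MvPolynomial {j : Fin k // j ≠ j0} R) →+* _ => f p) h

end

/-- a polynomial of positive degree over a factorial ring has a prime factor of positive degree -/
theorem k8l1a_prime {A : Type} [CommRing A] [IsDomain A] [UniqueFactorizationMonoid A] (H : Polynomial A)
    (hH : 1 ≤ H.natDegree) : ∃ h : Polynomial A, Prime h ∧ h ∣ H ∧ 1 ≤ h.natDegree := by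
  revert hH
  induction H using UniqueFactorizationMonoid.induction_on_prime with
  | h₁ => intro h; rw [Polynomial.natDegree_zero] at h; omega
  | h₂ x hx =>
    intro h
    rw [Polynomial.natDegree_eq_zero_of_isUnit hx] at h
    omega
  | h₃ a p ha hp ih =>
    intro h
    rw [Polynomial.natDegree_mul hp.ne_zero ha] at h
    by_cases h1 : 1 ≤ p.natDegree
    · exact ⟨p, hp, dvd_mul_right _ _, h1⟩
    · obtain ⟨q, hq, h2, h3⟩ := ih (by omega)
      exact ⟨q, hq, h2.mul_left _, h3⟩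

open Pool.Agent.Z5 (d1_H d1_mk d1_ev d1_ev_mk d1_ext)
open Pool.Agent.Z7 (l1_fn l1_diff l1_val l1_ne l1_iso)

theorem k8l1a_eval {k : ℕ} {t0 : ℂ} {ρ : ℝ} (s : Finset (Fin k →₀ ℕ)) (a : (Fin k →₀ ℕ) → ℂ → ℂ)
    (ha : ∀ α, DifferentiableOn ℂ (a α) (Metric.ball t0 ρ)) (t : Metric.ball t0 ρ) (x : Fin k → ℂ) :
    MvPolynomial.eval₂ (d1_ev t) x (∑ α ∈ s, MvPolynomial.monomial α (d1_mk (a α) (ha α))) =
      ∑ α ∈ s, a α t * ∏ j, x j ^ α j := by
  rw [MvPolynomial.eval₂_sum]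
  refine Finset.sum_congr rfl fun α _ => ?_
  rw [MvPolynomial.eval₂_monomial, d1_ev_mk, Finsupp.prod_fintype]
  intro i
  exact pow_zero _

theorem k8l1a_mapP {k : ℕ} {t0 : ℂ} {ρ : ℝ} (s : Finset (Fin k →₀ ℕ)) (a : (Fin k →₀ ℕ) → ℂ → ℂ)
    (ha : ∀ α, DifferentiableOn ℂ (a α) (Metric.ball t0 ρ)) (t : Metric.ball t0 ρ) :
    MvPolynomial.map (d1_ev t) (∑ α ∈ s, MvPolynomial.monomial α (d1_mk (a α) (ha α))) =
      ∑ α ∈ s, MvPolynomial.monomial α (a α t) := by
  rw [map_sum]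
  refine Finset.sum_congr rfl fun α _ => ?_
  rw [MvPolynomial.map_monomial, d1_ev_mk]

/-- Row Z8-L1a. Elimination of the variable `x_j0` over the ring of holomorphic functions (generalises `Z7.elim`, see its proof). Two polynomials in `x_1..x_k` with holomorphic coefficients which are relatively prime at parameters accumulating at `t0`. PROOF. `𝒪` = holomorphic functions on the ball (a domain, Z5/D1), `𝓜` its fraction field. `P, P'` in `𝓜[x]` are relatively prime: if `c P = H P_1`, `c P' = H P'_1`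
with `c ∈ 𝒪` nonzero and a nonconstant `H` over `𝒪`, then at all `t` near `t0`, `t ≠ t0`, `c(t) ≠ 0` and `H_t` is not constant (zeros of holomorphic functions are isolated) and `H_t` divides `P_t` and `P'_t`: contradiction with `hrp` (in `ℂ[x]` the units are the constants). (`P = P' = 0` is impossible too.) So `P, P'` are relatively prime in `𝓜[x'][x_j0]`, `x'` = the other variables,
hence (Gauss lemma, `𝓜[x']` is a UFD) in `𝓜(x')[x_j0]`, a principal ideal domain: Bezout, clear denominators: `U P + W P' = R` with `0 ≠ R ∈ 𝒪[x']`. -/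
theorem elim {k : ℕ} (j0 : Fin k) {t0 : ℂ} {ρ : ℝ} (hρ : 0 < ρ) (s s' : Finset (Fin k →₀ ℕ)) (a b : (Fin k →₀ ℕ) → ℂ → ℂ)
    (ha : ∀ α, DifferentiableOn ℂ (a α) (Metric.ball t0 ρ)) (hb : ∀ α, DifferentiableOn ℂ (b α) (Metric.ball t0 ρ))
    (hrp : ∀ O ∈ 𝓝 t0, ∃ t ∈ O, t ∈ Metric.ball t0 ρ ∧ t ≠ t0 ∧
      IsRelPrime (∑ α ∈ s, MvPolynomial.monomial α (a α t)) (∑ β ∈ s', MvPolynomial.monomial β (b β t))) :
    ∃ (sc : Finset (Fin k →₀ ℕ)) (c : (Fin k →₀ ℕ) → ℂ → ℂ), (∀ γ, DifferentiableOn ℂ (c γ) (Metric.ball t0 ρ)) ∧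
      (∀ γ ∈ sc, γ j0 = 0) ∧ (∃ γ ∈ sc, ∃ t ∈ Metric.ball t0 ρ, c γ t ≠ 0) ∧
      ∀ t ∈ Metric.ball t0 ρ, ∀ x : Fin k → ℂ, ∑ α ∈ s, a α t * ∏ j, x j ^ α j = 0 →
        ∑ β ∈ s', b β t * ∏ j, x j ^ β j = 0 → ∑ γ ∈ sc, c γ t * ∏ j, x j ^ γ j = 0 := by
  classical
  have : Nontrivial (d1_H t0 ρ) := by
    refine ⟨0, 1, fun h => ?_⟩
    have := congrArg (d1_ev ⟨t0, Metric.mem_ball_self hρ⟩) h
    rw [map_zero, map_one] at this
    exact zero_ne_one this
  have : IsDomain (d1_H t0 ρ) := NoZeroDivisors.to_isDomain _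
  set P0 : MvPolynomial (Fin k) (d1_H t0 ρ) := ∑ α ∈ s, MvPolynomial.monomial α (d1_mk (a α) (ha α)) with hP0
  set Q0 : MvPolynomial (Fin k) (d1_H t0 ρ) := ∑ α ∈ s', MvPolynomial.monomial α (d1_mk (b α) (hb α)) with hQ0
  set P := k8l1a_F j0 _ P0 with hP
  set Q := k8l1a_F j0 _ Q0 with hQ
  have hne : P ≠ 0 ∨ Q ≠ 0 := by
    by_contra h
    rw [not_or, not_not, not_not] at h
    obtain ⟨h1, h2⟩ := h
    obtain ⟨t, _, ht, _, hr⟩ := hrp Set.univ Filter.univ_mem
    have h3 : P0 = 0 := by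
      rw [← k8l1a_GF j0 _ P0, ← hP, h1, map_zero]
    have h4 : Q0 = 0 := by
      rw [← k8l1a_GF j0 _ Q0, ← hQ, h2, map_zero]
    have h5 := k8l1a_mapP s a ha ⟨t, ht⟩
    rw [← hP0, h3, map_zero] at h5
    have h6 := k8l1a_mapP s' b hb ⟨t, ht⟩
    rw [← hQ0, h4, map_zero] at h6
    rw [← h5, ← h6] at hr
    exact not_isUnit_zero (hr (dvd_refl 0) (dvd_refl 0))
  rcases k8l1a_alg P Q hne with ⟨c, hc, U, W, hUW⟩ | ⟨c, hc, H, P1, Q1, hH1, e1, e2⟩
  · set R : MvPolynomial (Fin k) (d1_H t0 ρ) := MvPolynomial.rename Subtype.val c with hR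
    have hR0 : R ≠ 0 := fun h => hc (MvPolynomial.rename_injective _ Subtype.val_injective (by
      rw [← hR, h, map_zero]))
    refine ⟨R.support, fun γ => l1_fn (R.coeff γ), fun γ => l1_diff _, ?_, ?_, ?_⟩
    · intro γ hγ
      obtain ⟨u, hu, _⟩ := MvPolynomial.coeff_rename_ne_zero _ _ _ (MvPolynomial.mem_support_iff.1 hγ)
      rw [← hu]
      exact Finsupp.mapDomain_of_notMem_range _ _ (by
        rintro ⟨j, hj⟩
        exact j.2 hj)
    · obtain ⟨γ, hγ⟩ := MvPolynomial.support_nonempty.2 hR0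
      exact ⟨γ, hγ, l1_ne (MvPolynomial.mem_support_iff.1 hγ)⟩
    · intro t ht x h1 h2
      have h3 := congrArg (fun p => MvPolynomial.eval₂ (d1_ev ⟨t, ht⟩) x (k8l1a_G j0 _ p)) hUW
      simp only [map_add, map_mul, MvPolynomial.eval₂_add, MvPolynomial.eval₂_mul] at h3
      rw [hP, hQ, k8l1a_GF, k8l1a_GF, hP0, hQ0, k8l1a_eval, k8l1a_eval] at h3
      have h1' : ∑ α ∈ s, a α (⟨t, ht⟩ : Metric.ball t0 ρ) * ∏ j, x j ^ α j = 0 := h1
      have h2' : ∑ α ∈ s', b α (⟨t, ht⟩ : Metric.ball t0 ρ) * ∏ j, x j ^ α j = 0 := h2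
      rw [h1', h2', mul_zero, mul_zero, add_zero, k8l1a_G_C, ← hR, MvPolynomial.eval₂_eq'] at h3
      rw [h3]
      refine Finset.sum_congr rfl fun γ _ => ?_
      rw [l1_val]
  · exfalso
    have hl : H.leadingCoeff ≠ 0 := by
      rw [Polynomial.leadingCoeff_ne_zero]
      intro h
      rw [h, Polynomial.natDegree_zero] at hH1
      omega
    set G := c * H.leadingCoeff with hG
    have hG0 : G ≠ 0 := mul_ne_zero hc hl
    obtain ⟨γ, hγ⟩ := MvPolynomial.support_nonempty.2 hG0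
    have hev := l1_iso hρ (l1_diff (G.coeff γ)) (l1_ne (MvPolynomial.mem_support_iff.1 hγ))
    obtain ⟨t, htO, ht, htt, hr⟩ := hrp _ hev
    have htG : l1_fn (G.coeff γ) t ≠ 0 := htO htt
    set τ : Metric.ball t0 ρ := ⟨t, ht⟩ with hτ
    set M : MvPolynomial {j : Fin k // j ≠ j0} (d1_H t0 ρ) →+* MvPolynomial {j : Fin k // j ≠ j0} ℂ :=
      MvPolynomial.map (d1_ev τ) with hM
    have hGt : M G ≠ 0 := by
      intro h
      apply htG
      have h7 := congrArg (MvPolynomial.coeff γ) h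
      rw [hM, MvPolynomial.coeff_map, l1_val, MvPolynomial.coeff_zero] at h7
      exact h7
    rw [hG, map_mul] at hGt
    have hct : M c ≠ 0 := left_ne_zero_of_mul hGt
    have hlt : M H.leadingCoeff ≠ 0 := right_ne_zero_of_mul hGt
    have hdeg : (H.map M).natDegree = H.natDegree := Polynomial.natDegree_map_of_leadingCoeff_ne_zero _ hlt
    obtain ⟨h, hp, hd, h1⟩ := k8l1a_prime (H.map M) (by rw [hdeg]; exact hH1)
    have key : ∀ P P1 : Polynomial (MvPolynomial {j : Fin k // j ≠ j0} (d1_H t0 ρ)),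
        Polynomial.C c * P = H * P1 → h ∣ P.map M := by
      intro P P1 e
      have e' := congrArg (Polynomial.map M) e
      rw [Polynomial.map_mul, Polynomial.map_mul, Polynomial.map_C] at e'
      have h3 : h ∣ Polynomial.C (M c) * P.map M := by
        rw [e']
        exact hd.mul_right _
      rcases hp.dvd_or_dvd h3 with h2 | h2
      · exfalso
        have := Polynomial.natDegree_le_of_dvd h2 (Polynomial.C_ne_zero.2 hct)
        rw [Polynomial.natDegree_C] at this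
        omega
      · exact h2
    have hu : IsUnit (k8l1a_G j0 ℂ h) := by
      apply hr
      · have h8 := k8l1a_mapP s a ha τ
        rw [← hP0, ← k8l1a_GF j0 _ P0, ← k8l1a_map, ← hP, ← hM] at h8
        have h9 : (∑ α ∈ s, MvPolynomial.monomial α (a α t)) = k8l1a_G j0 ℂ (P.map M) := h8.symm
        rw [h9]
        exact map_dvd _ (key P P1 e1)
      · have h8 := k8l1a_mapP s' b hb τ
        rw [← hQ0, ← k8l1a_GF j0 _ Q0, ← k8l1a_map, ← hQ, ← hM] at h8
        have h9 : (∑ α ∈ s', MvPolynomial.monomial α (b α t)) = k8l1a_G j0 ℂ (Q.map M) := h8.symm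
        rw [h9]
        exact map_dvd _ (key Q Q1 e2)
    have hu2 : IsUnit h := by
      rw [← k8l1a_FG j0 ℂ h]
      exact hu.map _
    exact hp.not_isUnit hu2

/-- The product of the powers of `X_i0` and `X_j + l_j X_i0`. -/
noncomputable def k8l1b_P {k : ℕ} (i0 : Fin k) (l : Fin k → ℤ) (γ : Fin k →₀ ℕ) :
    MvPolynomial (Fin k) ℂ :=
  ∏ j, (if j = i0 then MvPolynomial.X i0
    else MvPolynomial.X j + MvPolynomial.C (l j : ℂ) * MvPolynomial.X i0) ^ γ j

theorem k8l1b_hom {k : ℕ} (i0 : Fin k) (l : Fin k → ℤ) (γ : Fin k →₀ ℕ) :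
    (k8l1b_P i0 l γ).IsHomogeneous γ.degree := by
  have h : γ.degree = ∑ j : Fin k, 1 * γ j := by
    rw [Finsupp.degree_eq_sum]
    simp
  rw [h]
  unfold k8l1b_P
  refine MvPolynomial.IsHomogeneous.prod _ _ _ fun j _ => ?_
  refine MvPolynomial.IsHomogeneous.pow ?_ _
  split_ifs with hj
  · exact MvPolynomial.isHomogeneous_X _ _
  · exact (MvPolynomial.isHomogeneous_X _ _).add (MvPolynomial.isHomogeneous_C_mul_X _ _)

theorem k8l1b_deg {k : ℕ} {i0 : Fin k} {l : Fin k → ℤ} {γ δ : Fin k →₀ ℕ}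
    (h : δ ∈ (k8l1b_P i0 l γ).support) : δ.degree = γ.degree := by
  by_contra hne
  exact (MvPolynomial.mem_support_iff.1 h) ((k8l1b_hom i0 l γ).coeff_eq_zero hne)

theorem k8l1b_j0 {k : ℕ} {i0 j0 : Fin k} {l : Fin k → ℤ} {γ δ : Fin k →₀ ℕ} (hij : i0 ≠ j0)
    (hγ : γ j0 = 0) (h : δ ∈ (k8l1b_P i0 l γ).support) : δ j0 = 0 := by
  have h1 : (k8l1b_P i0 l γ).degreeOf j0 = 0 := by
    apply Nat.le_zero.1
    unfold k8l1b_P
    refine (MvPolynomial.degreeOf_prod_le _ _ _).trans ?_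
    refine (Finset.sum_eq_zero fun j _ => ?_).le
    by_cases hj : j = j0
    · subst hj
      rw [hγ, pow_zero, MvPolynomial.degreeOf_one]
    · apply Nat.le_zero.1
      refine (MvPolynomial.degreeOf_pow_le _ _ _).trans ?_
      have : (if j = i0 then (MvPolynomial.X i0 : MvPolynomial (Fin k) ℂ)
          else MvPolynomial.X j + MvPolynomial.C (l j : ℂ) * MvPolynomial.X i0).degreeOf j0 = 0 := by
        split_ifs with hji
        · exact MvPolynomial.degreeOf_X_of_ne (Ne.symm hij)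
        · apply Nat.le_zero.1
          refine (MvPolynomial.degreeOf_add_le _ _ _).trans ?_
          rw [MvPolynomial.degreeOf_X_of_ne (Ne.symm hj)]
          refine max_le le_rfl ?_
          refine (MvPolynomial.degreeOf_C_mul_le _ _ _).trans ?_
          rw [MvPolynomial.degreeOf_X_of_ne (Ne.symm hij)]
      rw [this, mul_zero]
  exact Nat.le_zero.1 (h1 ▸ (MvPolynomial.degreeOf_le_iff.1 le_rfl δ h))

/-- The new coordinates. -/
noncomputable def k8l1b_w {k : ℕ} (i0 : Fin k) (l : Fin k → ℤ) (x : Fin k → ℂ) : Fin k → ℂ :=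
  fun i => if i = i0 then x i0 else x i - l i * x i0

theorem k8l1b_eval {k : ℕ} (i0 : Fin k) (l : Fin k → ℤ) (γ : Fin k →₀ ℕ) (x : Fin k → ℂ) :
    MvPolynomial.eval (k8l1b_w i0 l x) (k8l1b_P i0 l γ) = ∏ j, x j ^ γ j := by
  unfold k8l1b_P
  rw [map_prod]
  refine Finset.prod_congr rfl fun j _ => ?_
  rw [map_pow]
  congr 1
  split_ifs with hj
  · subst hj
    simp [k8l1b_w]
  · simp [k8l1b_w, hj]

theorem k8l1b_coeff {k : ℕ} (i0 : Fin k) (l : Fin k → ℤ) (γ : Fin k →₀ ℕ) :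
    (k8l1b_P i0 l γ).coeff (Finsupp.single i0 γ.degree) =
      ∏ j, (l j : ℂ) ^ (γ.erase i0) j := by
  have h1 : MvPolynomial.eval (Pi.single i0 1) (k8l1b_P i0 l γ) =
      ∏ j, (l j : ℂ) ^ (γ.erase i0) j := by
    unfold k8l1b_P
    rw [map_prod]
    refine Finset.prod_congr rfl fun j _ => ?_
    rw [map_pow]
    by_cases hj : j = i0
    · subst hj
      simp
    · simp [hj, Finsupp.erase_ne hj]
  rw [← h1, MvPolynomial.eval_eq']
  symm
  rw [Finset.sum_eq_single (Finsupp.single i0 γ.degree)]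
  · rw [Finset.prod_eq_single i0]
    · simp
    · intro j _ hj
      simp [Finsupp.single_eq_of_ne hj]
    · intro h
      exact absurd (Finset.mem_univ _) h
  · intro d hd hne
    have hdd := k8l1b_deg hd
    have : ∃ j, j ≠ i0 ∧ d j ≠ 0 := by
      by_contra hcon
      push Not at hcon
      apply hne
      have h2 : d = Finsupp.single i0 (d i0) := by
        ext j
        by_cases hj : j = i0
        · subst hj
          simp
        · rw [hcon j hj, Finsupp.single_eq_of_ne hj]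
      rw [← hdd, h2]
      simp
    obtain ⟨j, hj, hdj⟩ := this
    rw [Finset.prod_eq_zero (Finset.mem_univ j), mul_zero]
    simp [hj, hdj]
  · intro h
    rw [MvPolynomial.notMem_support_iff.1 h, zero_mul]

theorem k8l1b_sum {k : ℕ} (i0 : Fin k) (l : Fin k → ℤ) (sc S1 : Finset (Fin k →₀ ℕ))
    (hS : ∀ γ ∈ sc, (k8l1b_P i0 l γ).support ⊆ S1) (c : (Fin k →₀ ℕ) → ℂ) (x : Fin k → ℂ) :
    ∑ γ ∈ sc, c γ * ∏ j, x j ^ γ j =
      ∑ δ ∈ S1, (∑ γ ∈ sc, c γ * (k8l1b_P i0 l γ).coeff δ) * ∏ i, k8l1b_w i0 l x i ^ δ i := by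
  simp_rw [Finset.sum_mul]
  rw [Finset.sum_comm]
  refine Finset.sum_congr rfl fun γ hγ => ?_
  rw [← k8l1b_eval i0 l γ x, MvPolynomial.eval_eq', Finset.mul_sum]
  refine (Finset.sum_subset (hS γ hγ) ?_).trans ?_
  · intro δ _ hδ
    rw [MvPolynomial.notMem_support_iff.1 hδ, zero_mul, mul_zero]
  · refine Finset.sum_congr rfl fun δ _ => ?_
    rw [mul_assoc]

theorem k8l1b_isol {t0 : ℂ} {ρ : ℝ} (hρ : 0 < ρ) {s : ℂ → ℂ}
    (hs : DifferentiableOn ℂ s (Metric.ball t0 ρ)) (h : ∃ t ∈ Metric.ball t0 ρ, s t ≠ 0) :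
    ∃ ρ1 : ℝ, 0 < ρ1 ∧ ρ1 ≤ ρ ∧ ∀ t ∈ Metric.ball t0 ρ1, t ≠ t0 → s t ≠ 0 := by
  obtain ⟨t, ht, hst⟩ := h
  have han : AnalyticOnNhd ℂ s (Metric.ball t0 ρ) := hs.analyticOnNhd Metric.isOpen_ball
  have hev : ∀ᶠ z in 𝓝[≠] t0, s z ≠ 0 := by
    by_contra hcon
    have hfr : ∃ᶠ z in 𝓝[≠] t0, s z = 0 := by
      intro h'
      exact hcon h'
    have := han.eqOn_zero_of_preconnected_of_frequently_eq_zero
      (convex_ball t0 ρ).isPreconnected (Metric.mem_ball_self hρ) hfr
    exact hst (this ht)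
  rw [eventually_nhdsWithin_iff, Metric.eventually_nhds_iff_ball] at hev
  obtain ⟨ε, hε, h2⟩ := hev
  exact ⟨min ε ρ, lt_min hε hρ, min_le_right _ _, fun z hz hz0 =>
    h2 z (Metric.ball_subset_ball (min_le_left _ _) hz) hz0⟩

theorem k8l1b_choose {k : ℕ} (i0 : Fin k) (sc : Finset (Fin k →₀ ℕ)) (c : (Fin k →₀ ℕ) → ℂ)
    (γs : Fin k →₀ ℕ) (hγs : γs ∈ sc) (hc : c γs ≠ 0) :
    ∃ l : Fin k → ℤ, ∑ γ ∈ sc.filter (fun γ => γ.degree = γs.degree),
      c γ * ∏ j, (l j : ℂ) ^ (γ.erase i0) j ≠ 0 := by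
  classical
  set q : MvPolynomial (Fin k) ℂ := ∑ γ ∈ sc.filter (fun γ => γ.degree = γs.degree),
    MvPolynomial.monomial (γ.erase i0) (c γ) with hq
  have hq0 : q ≠ 0 := by
    intro h0
    have h1 : q.coeff (γs.erase i0) = c γs := by
      rw [hq, MvPolynomial.coeff_sum, Finset.sum_eq_single γs]
      · simp
      · intro γ hγ hne
        rw [MvPolynomial.coeff_monomial, if_neg]
        intro he
        apply hne
        have hd : γ.degree = γs.degree := (Finset.mem_filter.1 hγ).2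
        have h3 : γ = γ.erase i0 + Finsupp.single i0 (γ i0) := (Finsupp.erase_add_single _ _).symm
        have h4 : γs = γs.erase i0 + Finsupp.single i0 (γs i0) :=
          (Finsupp.erase_add_single _ _).symm
        have h5 : γ i0 = γs i0 := by
          have e1 : γ.degree = (γ.erase i0).degree + γ i0 := by
            conv_lhs => rw [h3]
            rw [map_add, Finsupp.degree_single]
          have e2 : γs.degree = (γs.erase i0).degree + γs i0 := by
            conv_lhs => rw [h4]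
            rw [map_add, Finsupp.degree_single]
          rw [e1, e2, he] at hd
          omega
        rw [h3, h4, he, h5]
      · intro h
        exact absurd (Finset.mem_filter.2 ⟨hγs, rfl⟩ :
          γs ∈ sc.filter (fun γ => γ.degree = γs.degree)) h
    rw [h0, MvPolynomial.coeff_zero] at h1
    exact hc h1.symm
  by_contra hcon
  push Not at hcon
  apply hq0
  refine MvPolynomial.funext_set (fun _ => Set.range ((↑) : ℤ → ℂ))
    (fun _ => Set.infinite_range_of_injective Int.cast_injective) ?_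
  intro x hx
  have hx' : ∀ i, ∃ n : ℤ, (n : ℂ) = x i := fun i => hx i (Set.mem_univ _)
  choose l hl using hx'
  have h2 := hcon l
  rw [map_zero, hq, map_sum, ← h2]
  refine Finset.sum_congr rfl fun γ _ => ?_
  rw [MvPolynomial.eval_monomial, Finsupp.prod_fintype _ _ (fun i => pow_zero _)]
  simp_rw [hl]

/-- Row Z8-L1b. A linear change of variables makes the equation monic near every point of a punctured neighbourhood. PROOF. Drop the `γ ∈ sc` with `c γ` identically zero. `N` = the largest total degree of the remaining `γ`. Fix any `i0 ≠ j0` (`2 ≤ k`). With `x_i = z_i + λ_i x_i0` (`i ≠ i0`, `z_i0` is not used) the sum becomes a polynomial in `x_i0` and the `z_i` of total degree `N` with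
`x_i0^N`-coefficient `s(t) = ∑_{|γ| = N} c_γ(t) ∏_{i ≠ i0} λ_i^(γ_i)`; for suitable integers `λ_i` it is not identically zero (for a fixed `t` with some `c_γ(t) ≠ 0`, `|γ| = N`, it is a nonzero polynomial in `λ`; distinct `γ` of the same total degree have distinct exponents of the `λ_i`, `i ≠ i0`). Zeros of `s` are isolated: near `t1 ≠ t0` divide by `s`; the coefficient of `x_i0^a`
is a polynomial in the `z_i` of total degree at most `N - a`. If `N = 0` there are no zeros near `t1`; take degree `1` and `e = 0`. All coefficient functions are bounded on a smaller ball. -/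
theorem monic_near {k : ℕ} (hk : 2 ≤ k) (j0 : Fin k) {t0 : ℂ} {ρ : ℝ} (hρ : 0 < ρ) (sc : Finset (Fin k →₀ ℕ))
    (c : (Fin k →₀ ℕ) → ℂ → ℂ) (hc : ∀ γ, DifferentiableOn ℂ (c γ) (Metric.ball t0 ρ)) (hj : ∀ γ ∈ sc, γ j0 = 0)
    (hc0 : ∃ γ ∈ sc, ∃ t ∈ Metric.ball t0 ρ, c γ t ≠ 0) :
    ∃ (i0 : Fin k) (l : Fin k → ℤ) (ρ1 : ℝ), i0 ≠ j0 ∧ 0 < ρ1 ∧ ρ1 ≤ ρ ∧ ∀ t1 ∈ Metric.ball t0 ρ1, t1 ≠ t0 →
      ∃ (N : ℕ) (ρ' A : ℝ) (se : Finset (Fin k →₀ ℕ)) (e : Fin N → (Fin k →₀ ℕ) → ℂ → ℂ), 1 ≤ N ∧ 0 < ρ' ∧ 1 ≤ A ∧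
        Metric.ball t1 ρ' ⊆ Metric.ball t0 ρ ∧
        (∀ a γ, DifferentiableOn ℂ (e a γ) (Metric.ball t1 ρ')) ∧
        (∀ a γ, ∀ t ∈ Metric.ball t1 ρ', ‖e a γ t‖ ≤ A) ∧
        (∀ γ ∈ se, γ j0 = 0 ∧ γ i0 = 0) ∧ (∀ a, ∀ γ ∈ se, e a γ ≠ 0 → γ.degree + (a : ℕ) ≤ N) ∧
        ∀ t ∈ Metric.ball t1 ρ', ∀ x : Fin k → ℂ, ∑ γ ∈ sc, c γ t * ∏ j, x j ^ γ j = 0 →
          x i0 ^ N = ∑ a : Fin N, ∑ γ ∈ se, e a γ t * (∏ i, (x i - l i * x i0) ^ γ i) * x i0 ^ (a : ℕ) := by
  classical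
  -- the variable `i0`
  obtain ⟨i0, hij⟩ : ∃ i0 : Fin k, i0 ≠ j0 := by
    have : Nontrivial (Fin k) := Fin.nontrivial_iff_two_le.2 hk
    exact exists_ne j0
  -- the exponents with a coefficient which is not identically zero
  set sc' := sc.filter (fun γ => ∃ t ∈ Metric.ball t0 ρ, c γ t ≠ 0) with hsc'
  have hne : sc'.Nonempty := by
    obtain ⟨γ, hγ, h⟩ := hc0
    exact ⟨γ, Finset.mem_filter.2 ⟨hγ, h⟩⟩
  obtain ⟨γs, hγs, hmax⟩ := Finset.exists_max_image sc' (fun γ => γ.degree) hne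
  obtain ⟨ts, hts, hcts⟩ := (Finset.mem_filter.1 hγs).2
  obtain ⟨l, hl⟩ := k8l1b_choose i0 sc' (fun γ => c γ ts) γs hγs hcts
  set N := γs.degree with hN
  set b : (Fin k →₀ ℕ) → ℂ → ℂ := fun δ t => ∑ γ ∈ sc', c γ t * (k8l1b_P i0 l γ).coeff δ with hb
  have hbd : ∀ δ, DifferentiableOn ℂ (b δ) (Metric.ball t0 ρ) := by
    intro δ
    refine DifferentiableOn.fun_sum fun γ _ => ?_
    exact (hc γ).mul_const _
  set s : ℂ → ℂ := b (Finsupp.single i0 N) with hs
  have hsts : s ts ≠ 0 := by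
    have h1 : s ts = ∑ γ ∈ sc'.filter (fun γ => γ.degree = N),
        c γ ts * ∏ j, (l j : ℂ) ^ (γ.erase i0) j := by
      rw [hs, hb]
      simp only
      rw [← Finset.sum_filter_add_sum_filter_not sc' (fun γ => γ.degree = N)]
      rw [Finset.sum_eq_zero (s := sc'.filter (fun γ => ¬ γ.degree = N)), add_zero]
      · refine Finset.sum_congr rfl fun γ hγ => ?_
        rw [← k8l1b_coeff, (Finset.mem_filter.1 hγ).2]
      · intro γ hγ
        rw [(k8l1b_hom i0 l γ).coeff_eq_zero, mul_zero]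
        rw [Finsupp.degree_single]
        exact fun h => (Finset.mem_filter.1 hγ).2 h.symm
    rw [h1]
    exact hl
  obtain ⟨ρ1, hρ1, hρ1ρ, hs1⟩ := k8l1b_isol hρ (hbd (Finsupp.single i0 N)) ⟨ts, hts, hsts⟩
  refine ⟨i0, l, ρ1, hij, hρ1, hρ1ρ, fun t1 ht1 ht10 => ?_⟩
  have hst1 : s t1 ≠ 0 := hs1 t1 ht1 ht10
  have ht1ρ : t1 ∈ Metric.ball t0 ρ := Metric.ball_subset_ball hρ1ρ ht1
  have hnhds : Metric.ball t0 ρ ∈ 𝓝 t1 := Metric.isOpen_ball.mem_nhds ht1ρ
  have hbc : ∀ δ, ContinuousAt (b δ) t1 := fun δ => ((hbd δ).differentiableAt hnhds).continuousAt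
  -- all exponents which occur
  set S0 : Finset (Fin k →₀ ℕ) := sc'.biUnion (fun γ => (k8l1b_P i0 l γ).support) with hS0
  have hb0 : ∀ δ, δ ∉ S0 → b δ = 0 := by
    intro δ hδ
    funext t
    simp only [hb, Pi.zero_apply]
    refine Finset.sum_eq_zero fun γ hγ => ?_
    rw [MvPolynomial.notMem_support_iff.1, mul_zero]
    intro h
    exact hδ (Finset.mem_biUnion.2 ⟨γ, hγ, h⟩)
  have hS0deg : ∀ δ ∈ S0, δ.degree ≤ N := by
    intro δ hδ
    obtain ⟨γ, hγ, h⟩ := Finset.mem_biUnion.1 hδ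
    rw [k8l1b_deg h]
    exact hmax γ hγ
  have hS0j : ∀ δ ∈ S0, δ j0 = 0 := by
    intro δ hδ
    obtain ⟨γ, hγ, h⟩ := Finset.mem_biUnion.1 hδ
    exact k8l1b_j0 hij (hj γ (Finset.mem_filter.1 hγ).1) h
  set Gf : ℂ → ℝ := fun t => ∑ δ ∈ S0, ‖b δ t‖ / ‖s t‖ with hGf
  have hGc : ContinuousAt Gf t1 := by
    refine tendsto_finsetSum _ fun δ _ => ?_
    exact ((hbc δ).norm).div ((hbc _).norm) (norm_ne_zero_iff.2 hst1)
  have hev : ∀ᶠ t in 𝓝 t1, t ∈ Metric.ball t0 ρ ∧ s t ≠ 0 ∧ Gf t < Gf t1 + 1 :=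
    Filter.Eventually.and hnhds (((hbc _).eventually_ne hst1).and
      (hGc.eventually (gt_mem_nhds (lt_add_one (Gf t1)))))
  obtain ⟨ρ', hρ', hball⟩ := Metric.eventually_nhds_iff_ball.1 hev
  have hG0 : ∀ t, 0 ≤ Gf t := fun t => Finset.sum_nonneg fun δ _ => by positivity
  -- the sum over `sc` is the sum over `sc'`
  have hscsum : ∀ t ∈ Metric.ball t0 ρ, ∀ x : Fin k → ℂ,
      ∑ γ ∈ sc, c γ t * ∏ j, x j ^ γ j = ∑ γ ∈ sc', c γ t * ∏ j, x j ^ γ j := by
    intro t ht x
    rw [hsc', Finset.sum_filter_of_ne]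
    intro γ _ hne'
    exact ⟨t, ht, fun h => hne' (by rw [h, zero_mul])⟩
  set se : Finset (Fin k →₀ ℕ) := S0.image (fun δ => δ.erase i0) with hse
  have hsei : ∀ γ ∈ se, γ j0 = 0 ∧ γ i0 = 0 := by
    intro γ hγ
    obtain ⟨δ, hδ, rfl⟩ := Finset.mem_image.1 hγ
    refine ⟨?_, Finsupp.erase_same⟩
    rw [Finsupp.erase_ne (Ne.symm hij)]
    exact hS0j δ hδ
  set φ : Fin N × (Fin k →₀ ℕ) → (Fin k →₀ ℕ) := fun p => p.2 + Finsupp.single i0 (p.1 : ℕ) with hφ
  set T : Finset (Fin N × (Fin k →₀ ℕ)) := Finset.univ ×ˢ se with hT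
  have hφi : ∀ p ∈ T, φ p i0 = (p.1 : ℕ) := by
    intro p hp
    have := (hsei p.2 (Finset.mem_product.1 hp).2).2
    simp [hφ, this]
  have hinj : Set.InjOn φ (T : Set (Fin N × (Fin k →₀ ℕ))) := by
    intro p hp p' hp' h
    have h1 := hφi p hp
    have h2 := hφi p' hp'
    have h3 : (p.1 : ℕ) = (p'.1 : ℕ) := by rw [← h1, ← h2, h]
    have h4 : p.2 = p'.2 := by
      have h5 : p.2 + Finsupp.single i0 (p.1 : ℕ) = p'.2 + Finsupp.single i0 (p'.1 : ℕ) := h
      rw [h3] at h5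
      exact add_right_cancel h5
    exact Prod.ext (Fin.ext h3) h4
  have hnotin : Finsupp.single i0 N ∉ T.image φ := by
    intro h
    obtain ⟨p, hp, he⟩ := Finset.mem_image.1 h
    have h1 := hφi p hp
    rw [he, Finsupp.single_eq_same] at h1
    have := p.1.isLt
    omega
  have hsub : ∀ γ ∈ sc', (k8l1b_P i0 l γ).support ⊆ insert (Finsupp.single i0 N) (T.image φ) := by
    intro γ hγ δ hδ
    have hδ0 : δ ∈ S0 := Finset.mem_biUnion.2 ⟨γ, hγ, hδ⟩
    have hd := hS0deg δ hδ0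
    have h1 : δ.erase i0 + Finsupp.single i0 (δ i0) = δ := Finsupp.erase_add_single _ _
    have h2 : (δ.erase i0).degree + δ i0 = δ.degree := by
      conv_rhs => rw [← h1]
      rw [map_add, Finsupp.degree_single]
    rcases Nat.lt_or_ge (δ i0) N with hlt | hge
    · refine Finset.mem_insert_of_mem (Finset.mem_image.2 ⟨(⟨δ i0, hlt⟩, δ.erase i0), ?_, h1⟩)
      exact Finset.mem_product.2 ⟨Finset.mem_univ _, Finset.mem_image.2 ⟨δ, hδ0, rfl⟩⟩
    · have h3 : (δ.erase i0).degree = 0 := by omega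
      have h4 : δ i0 = N := by omega
      have h5 : δ.erase i0 = 0 := (Finsupp.degree_eq_zero_iff _).1 h3
      rw [h5, zero_add, h4] at h1
      rw [← h1]
      exact Finset.mem_insert_self _ _
  -- the equation in the new coordinates
  have hmain : ∀ t ∈ Metric.ball t0 ρ, ∀ x : Fin k → ℂ,
      ∑ γ ∈ sc, c γ t * ∏ j, x j ^ γ j = s t * x i0 ^ N +
        ∑ a : Fin N, ∑ γ ∈ se, b (γ + Finsupp.single i0 (a : ℕ)) t *
          ((∏ i, (x i - l i * x i0) ^ γ i) * x i0 ^ (a : ℕ)) := by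
    intro t ht x
    rw [hscsum t ht x, k8l1b_sum i0 l sc' _ hsub (fun γ => c γ t) x,
      Finset.sum_insert hnotin, Finset.sum_image hinj]
    have hw0 : k8l1b_w i0 l x i0 = x i0 := by simp [k8l1b_w]
    congr 1
    · have : ∏ i, k8l1b_w i0 l x i ^ (Finsupp.single i0 N) i = x i0 ^ N := by
        rw [Finset.prod_eq_single i0]
        · rw [hw0, Finsupp.single_eq_same]
        · intro j _ hj'
          rw [Finsupp.single_eq_of_ne hj', pow_zero]
        · intro h
          exact absurd (Finset.mem_univ _) h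
      rw [this]
    · rw [hT, Finset.sum_product]
      refine Finset.sum_congr rfl fun a _ => Finset.sum_congr rfl fun γ hγ => ?_
      have hγi := (hsei γ hγ).2
      have h1 : ∏ i, k8l1b_w i0 l x i ^ (φ (a, γ)) i =
          (∏ i, (x i - l i * x i0) ^ γ i) * x i0 ^ (a : ℕ) := by
        have h2 : ∀ i, k8l1b_w i0 l x i ^ (φ (a, γ)) i =
            (x i - l i * x i0) ^ γ i * (if i = i0 then x i0 ^ (a : ℕ) else 1) := by
          intro i
          by_cases hi : i = i0
          · subst hi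
            simp [hφ, hγi, hw0]
          · have h3 : (φ (a, γ)) i = γ i := by
              simp [hφ, Finsupp.single_eq_of_ne hi]
            rw [h3, if_neg hi, mul_one]
            simp [k8l1b_w, hi]
        simp_rw [h2]
        rw [Finset.prod_mul_distrib]
        simp
      rw [h1]
  rcases Nat.eq_zero_or_pos N with hN0 | hN1
  · -- the sum has no zeros
    refine ⟨1, ρ', 1, ∅, fun _ _ _ => 0, le_rfl, hρ', le_rfl, fun t ht => (hball t ht).1,
      fun _ _ => differentiableOn_const _, fun _ _ _ _ => by simp, by simp, by simp, ?_⟩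
    intro t ht x hx
    exfalso
    obtain ⟨h1, h2, -⟩ := hball t ht
    rw [hmain t h1 x] at hx
    have h3 : ∑ a : Fin N, ∑ γ ∈ se, b (γ + Finsupp.single i0 (a : ℕ)) t *
          ((∏ i, (x i - l i * x i0) ^ γ i) * x i0 ^ (a : ℕ)) = 0 := by
      refine Finset.sum_eq_zero fun a _ => ?_
      have := a.isLt
      omega
    rw [h3, add_zero, hN0, pow_zero, mul_one] at hx
    exact h2 hx
  · refine ⟨N, ρ', Gf t1 + 1, se, fun a γ t => -(b (γ + Finsupp.single i0 (a : ℕ)) t) / s t, hN1,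
      hρ', by linarith [hG0 t1], fun t ht => (hball t ht).1, ?_, ?_, hsei, ?_, ?_⟩
    · intro a γ
      exact DifferentiableOn.div
        ((hbd _).mono (fun t ht => (hball t ht).1)).neg
        ((hbd _).mono (fun t ht => (hball t ht).1)) (fun t ht => (hball t ht).2.1)
    · intro a γ t ht
      obtain ⟨h1, h2, h3⟩ := hball t ht
      rw [norm_div, norm_neg]
      by_cases hδ : γ + Finsupp.single i0 (a : ℕ) ∈ S0
      · have h4 : ‖b (γ + Finsupp.single i0 (a : ℕ)) t‖ / ‖s t‖ ≤ Gf t :=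
          Finset.single_le_sum (f := fun δ => ‖b δ t‖ / ‖s t‖)
            (fun δ _ => div_nonneg (norm_nonneg _) (norm_nonneg _)) hδ
        linarith
      · rw [hb0 _ hδ, Pi.zero_apply, norm_zero, zero_div]
        linarith [hG0 t1]
    · intro a γ _ hne'
      have hδ : γ + Finsupp.single i0 (a : ℕ) ∈ S0 := by
        by_contra hδ
        apply hne'
        funext t
        simp [hb0 _ hδ]
      have := hS0deg _ hδ
      rwa [map_add, Finsupp.degree_single] at this
    · intro t ht x hx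
      obtain ⟨h1, h2, -⟩ := hball t ht
      rw [hmain t h1 x] at hx
      have h3 : ∑ a : Fin N, ∑ γ ∈ se, -(b (γ + Finsupp.single i0 (a : ℕ)) t) / s t *
          (∏ i, (x i - l i * x i0) ^ γ i) * x i0 ^ (a : ℕ) =
          -(∑ a : Fin N, ∑ γ ∈ se, b (γ + Finsupp.single i0 (a : ℕ)) t *
          ((∏ i, (x i - l i * x i0) ^ γ i) * x i0 ^ (a : ℕ))) / s t := by
        rw [← Finset.sum_neg_distrib, Finset.sum_div]
        refine Finset.sum_congr rfl fun a _ => ?_
        rw [← Finset.sum_neg_distrib, Finset.sum_div]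
        refine Finset.sum_congr rfl fun γ _ => ?_
        ring
      rw [h3, eq_div_iff h2]
      linear_combination hx

end Pool.Agent.Z8
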